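import Pool.Agent.Helper79.HH.CoreGrow

/-!
# Assembly: definitions
-/

namespace Pool.Agent.Helper79.HH

open Finset Pool.Agent.Helper79.HX Pool.Agent.Helper79.HG

/-- a face size `≥ 6` which is `±1` modulo five -/
def Al (a : ℕ) : Prop := (∃ k, a = 6 + 5 * k) ∨ (∃ k, a = 9 + 5 * k)

/-- a face size `≥ 6` which is `±2` modulo five -/
def Be (a : ℕ) : Prop := (∃ k, a = 7 + 5 * k) ∨ (∃ k, a = 8 + 5 * k)

/-- There is an end piece with exactly the faces `X` and pentagons. -/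
def EndOK (X : Multiset ℕ) : Prop := ∃ g, 2 ≤ g ∧ g + 4 ≤ X.sum ∧ CoreG g X 0

theorem EndOK.of {g : ℕ} {X X' : Multiset ℕ} (h : CoreG g X 0) (hg : 2 ≤ g)
    (hs : g + 4 ≤ X'.sum) (e : ∀ j, X.count j = X'.count j) : EndOK X' := by
  have : X = X' := Multiset.ext.2 e
  subst this
  exact ⟨g, hg, hs, h⟩

/-- There is a middle piece with exactly the faces `X` and pentagons. -/
def MidOK (c : ℕ) (X : Multiset ℕ) : Prop := ∃ g, g ≤ c + X.sum ∧ MidG g X

theorem MidOK.of {g c : ℕ} {X X' : Multiset ℕ} (h : MidG g X)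
    (hs : g ≤ c + X'.sum) (e : ∀ j, X.count j = X'.count j) : MidOK c X' := by
  have : X = X' := Multiset.ext.2 e
  subst this
  exact ⟨g, hs, h⟩

end Pool.Agent.Helper79.HH
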