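import Pool.Agent.Helper79.HH.Defs

/-!
# BLOCK HH-1: parents and ranks; spanning trees of the vertices

* `bfs`: by strong induction on `(X \ A).card` one proves for every `A ⊆ X` with `x0 ∈ A` which
  carries `p, r` with the required property (for `x ∈ A`, with `p x ∈ A`) that `X` has it: if
  `A ≠ X` then `A` is not closed, i.e. there are `s ∈ A`, `t ∈ X \ A` with `R s t`; put `p t = s`,
  `r t = 1 + max r`.  Start with `A = {x0}`.
* `adj_conn`: if `A` is closed under `Adj` then the set `B` of the triangles contained in `A` is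
  nonempty (a triangle which meets `A` is contained in `A`) and closed under `(s ∩ t).card = 2`,
  so `B = T`.
* `exists_tree`: `bfs` for `X = verts T` and `R s t := s ∉ L ∧ Adj T s t`.  The hypothesis: let
  `A ⊆ verts T`, `D ∈ A`, closed under `R`; then `A` is closed under `Adj`: let `s ∈ A`, `Adj T s t`;
  if `s ∉ L` fine; if `s ∈ L` and `t ∈ L` then `Adj T D t` by `h1` and `D ∈ A`, `D ∉ L`;
  if `s ∈ L`, `t ∉ L` then by `h2` `t = D ∈ A` or `Adj T t D`, again `t ∈ A`.
-/

namespace Pool.Agent.Helper79.HH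

open Finset Pool.Agent.Helper79.HX

theorem bfs {α : Type*} [DecidableEq α] (X : Finset α) (R : α → α → Prop) {x0 : α} (h0 : x0 ∈ X)
    (h : ∀ A ⊆ X, x0 ∈ A → (∀ s ∈ A, ∀ t ∈ X, R s t → t ∈ A) → A = X) :
    ∃ (p : α → α) (r : α → ℕ), ∀ x ∈ X, x ≠ x0 → p x ∈ X ∧ R (p x) x ∧ r (p x) < r x := by
  have key : ∀ m : ℕ, ∀ A ⊆ X, x0 ∈ A → (X \ A).card = m →
      (∃ (p : α → α) (r : α → ℕ), ∀ x ∈ A, x ≠ x0 → p x ∈ A ∧ R (p x) x ∧ r (p x) < r x) →
      ∃ (p : α → α) (r : α → ℕ), ∀ x ∈ X, x ≠ x0 → p x ∈ X ∧ R (p x) x ∧ r (p x) < r x := by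
    intro m
    induction m using Nat.strong_induction_on with
    | _ m ih =>
      intro A hA hx0 hm hpr
      by_cases hAX : A = X
      · rw [← hAX]
        exact hpr
      · have h1 : ¬ ∀ s ∈ A, ∀ t ∈ X, R s t → t ∈ A := fun h2 => hAX (h A hA hx0 h2)
        push Not at h1
        obtain ⟨s, hs, t, ht, hst, htA⟩ := h1
        obtain ⟨p, r, hpr⟩ := hpr
        have hcard : (X \ insert t A).card < m := by
          rw [← hm]
          refine Finset.card_lt_card ?_
          rw [Finset.ssubset_iff_of_subset (Finset.sdiff_subset_sdiff le_rfl (Finset.subset_insert t A))]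
          refine ⟨t, Finset.mem_sdiff.2 ⟨ht, htA⟩, fun h3 => ?_⟩
          exact (Finset.mem_sdiff.1 h3).2 (Finset.mem_insert_self t A)
        refine ih _ hcard (insert t A) (Finset.insert_subset ht hA) (Finset.mem_insert_of_mem hx0) rfl
          ⟨Function.update p t s, Function.update r t (r s + 1), fun x hx hxx0 => ?_⟩
        have hst' : s ≠ t := fun h4 => htA (h4 ▸ hs)
        by_cases hxt : x = t
        · subst hxt
          rw [Function.update_self, Function.update_self, Function.update_of_ne hst']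
          exact ⟨Finset.mem_insert_of_mem hs, hst, Nat.lt_succ_self _⟩
        · have hxA : x ∈ A := (Finset.mem_insert.1 hx).resolve_left hxt
          obtain ⟨h5, h6, h7⟩ := hpr x hxA hxx0
          have h8 : p x ≠ t := fun h9 => htA (h9 ▸ h5)
          rw [Function.update_of_ne hxt, Function.update_of_ne hxt, Function.update_of_ne h8]
          exact ⟨Finset.mem_insert_of_mem h5, h6, h7⟩
  refine key _ {x0} (Finset.singleton_subset_iff.2 h0) (Finset.mem_singleton_self x0) rfl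
    ⟨id, fun _ => 0, fun x hx hx' => absurd (Finset.mem_singleton.1 hx) hx'⟩

private theorem adj_symm56 {T : Finset (Finset ℕ)} {u v : ℕ} (h : Adj T u v) : Adj T v u := by
  obtain ⟨h1, t, ht, hu, hv⟩ := h
  exact ⟨h1.symm, t, ht, hv, hu⟩

theorem adj_conn {T : Finset (Finset ℕ)} (hT : Closed T) : ∀ A ⊆ verts T, A.Nonempty →
    (∀ u ∈ A, ∀ v ∈ verts T, Adj T u v → v ∈ A) → A = verts T := by
  intro A hA hne hcl
  have h1 : ∀ t ∈ T, ∀ u ∈ A, u ∈ t → t ⊆ A := by
    intro t ht u hu hut v hv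
    by_cases huv : u = v
    · rw [← huv]
      exact hu
    · exact hcl u hu v (mem_verts.2 ⟨t, ht, hv⟩) ⟨huv, t, ht, hut, hv⟩
  have h2 : T.filter (fun t => t ⊆ A) = T := by
    refine hT.conn _ (Finset.filter_subset _ _) ?_ ?_
    · obtain ⟨u, hu⟩ := hne
      obtain ⟨t, ht, hut⟩ := mem_verts.1 (hA hu)
      exact ⟨t, Finset.mem_filter.2 ⟨ht, h1 t ht u hu hut⟩⟩
    · intro s hs t ht hst
      have h3 : (s ∩ t).Nonempty := by
        rw [← Finset.card_pos, hst]
        exact Nat.succ_pos _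
      obtain ⟨w, hw⟩ := h3
      rw [Finset.mem_inter] at hw
      exact Finset.mem_filter.2 ⟨ht, h1 t ht w ((Finset.mem_filter.1 hs).2 hw.1) hw.2⟩
  refine Finset.Subset.antisymm hA fun v hv => ?_
  obtain ⟨t, ht, hvt⟩ := mem_verts.1 hv
  rw [← h2] at ht
  exact (Finset.mem_filter.1 ht).2 hvt

theorem exists_tree {T : Finset (Finset ℕ)} (hT : Closed T) {D : ℕ} (hD : D ∈ verts T)
    (L : Finset ℕ) (hDL : D ∉ L) (h1 : ∀ u ∈ L, Adj T u D)
    (h2 : ∀ u ∈ L, ∀ v ∈ verts T, v ∉ L → Adj T u v → v = D ∨ Adj T v D) :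
    ∃ par rk : ℕ → ℕ, Tree T D par rk ∧ ∀ u ∈ verts T, u ≠ D → par u ∉ L := by
  obtain ⟨p, r, hpr⟩ := bfs (verts T) (fun s t => s ∉ L ∧ Adj T s t) hD (by
    intro A hA hDA hcl
    refine adj_conn hT A hA ⟨D, hDA⟩ ?_
    intro u hu v hv huv
    by_cases huL : u ∈ L
    · by_cases hvL : v ∈ L
      · exact hcl D hDA v hv ⟨hDL, adj_symm56 (h1 v hvL)⟩
      · rcases h2 u huL v hv hvL huv with h3 | h3
        · rw [h3]
          exact hDA
        · exact hcl D hDA v hv ⟨hDL, adj_symm56 h3⟩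
    · exact hcl u hu v hv ⟨huL, huv⟩)
  exact ⟨p, r, ⟨hD, fun v hv hvD => adj_symm56 (hpr v hv hvD).2.1.2, fun v hv hvD => (hpr v hv hvD).2.2⟩,
    fun u hu huD => (hpr u hu huD).2.1.1⟩

end Pool.Agent.Helper79.HH
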