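import Pool.Agent.Helper79.HX.Sphere

/-!
# Icosahedral holonomy of triangulated spheres: definitions
-/

namespace Pool.Agent.Helper79.HH

open Finset Pool.Agent.Helper79.HX

/-- A closed strongly connected set of triangles. -/
structure Closed (T : Finset (Finset ℕ)) : Prop where
  nonempty : T.Nonempty
  tri : ∀ t ∈ T, t.card = 3
  edge : ∀ t ∈ T, ∀ e ⊆ t, e.card = 2 → (T.filter (fun s => e ⊆ s)).card = 2
  conn : ∀ A ⊆ T, A.Nonempty → (∀ s ∈ A, ∀ t ∈ T, (s ∩ t).card = 2 → t ∈ A) → A = T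

theorem Closed.of_sphere {T : Finset (Finset ℕ)} (h : IsSphere T) : Closed T :=
  ⟨h.nonempty, h.tri, h.edge, h.conn⟩

/-- `u` and `v` are the ends of an edge. -/
def Adj (T : Finset (Finset ℕ)) (u v : ℕ) : Prop := u ≠ v ∧ ∃ t ∈ T, u ∈ t ∧ v ∈ t

/-- A spanning tree of the vertices, with root `D`, parents `par` and a rank which decreases towards
the root. -/
structure Tree (T : Finset (Finset ℕ)) (D : ℕ) (par rk : ℕ → ℕ) : Prop where
  root : D ∈ verts T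
  adj : ∀ v ∈ verts T, v ≠ D → Adj T v (par v)
  rank : ∀ v ∈ verts T, v ≠ D → rk (par v) < rk v

/-- `a` and `b` are the ends of an edge of the tree. -/
def TE (D : ℕ) (par : ℕ → ℕ) (a b : ℕ) : Prop := (a ≠ D ∧ par a = b) ∨ (b ≠ D ∧ par b = a)

/-- The link of `a` is the cycle `w 0, ..., w (d - 1)`. -/
structure Link (T : Finset (Finset ℕ)) (a d : ℕ) (w : ℕ → ℕ) : Prop where
  three : 3 ≤ d
  per : ∀ i, w (i + d) = w i
  inj : ∀ i j, i < d → j < d → w i = w j → i = j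
  tri : ∀ i, {a, w i, w (i + 1)} ∈ T
  all : ∀ t ∈ T, a ∈ t → ∃ i, i < d ∧ t = {a, w i, w (i + 1)}

/-- A development: `Φ a b c` belongs to the flag vertex `a`, edge `a b`, triangle `a b c`; it is
consistent across all the edges which do not belong to the tree. -/
structure Dev {G : Type*} [Group G] (t0 t1 t2 : G) (T : Finset (Finset ℕ)) (D : ℕ) (par : ℕ → ℕ)
    (Φ : ℕ → ℕ → ℕ → G) : Prop where
  s0 : ∀ a b c, {a, b, c} ∈ T → a ≠ b → a ≠ c → b ≠ c → Φ b a c = Φ a b c * t0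
  s1 : ∀ a b c, {a, b, c} ∈ T → a ≠ b → a ≠ c → b ≠ c → Φ a c b = Φ a b c * t1
  s2 : ∀ a b c c', {a, b, c} ∈ T → {a, b, c'} ∈ T → a ≠ b → a ≠ c → b ≠ c → a ≠ c' → b ≠ c' →
    c ≠ c' → ¬ TE D par a b → Φ a b c' = Φ a b c * t2

/-- The classes of group elements used for the weights, and the total weights of the subtrees. -/
structure Cls {G : Type*} [Group G] (t1 t2 : G) (T : Finset (Finset ℕ)) (D : ℕ) (par : ℕ → ℕ)
    (P : ℕ × ℕ → Set G) (own tot : ℕ → ℕ × ℕ) : Prop where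
  one : 1 ∈ P 0
  mul : ∀ u v g h, g ∈ P u → h ∈ P v → g * h ∈ P (u + v)
  inv : ∀ u g, g ∈ P u → g⁻¹ ∈ P u
  hown : ∀ a ∈ verts T, a ≠ D → ∀ g : G, g * (t1 * t2) ^ deg T a * g⁻¹ ∈ P (own a)
  htot : ∀ a ∈ verts T, tot a = own a +
    ∑ c ∈ (verts T).filter (fun c => c ≠ D ∧ par c = a), tot c

/-- Two adjacent vertices `v`, `y` of degree five, both joined to `D`, with their links: the link of
`v` is `D, v1, y, y2, v2`, the link of `y` is `v, v1, y1, D, y2`. -/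
structure Strip (T : Finset (Finset ℕ)) (D v v1 v2 y y1 y2 : ℕ) : Prop where
  dv : deg T v = 5
  dy : deg T y = 5
  a1 : {v, D, v1} ∈ T
  a2 : {v, v1, y} ∈ T
  a3 : {v, y, y2} ∈ T
  a4 : {v, y2, v2} ∈ T
  a5 : {v, v2, D} ∈ T
  b2 : {y, v1, y1} ∈ T
  b3 : {y, y1, D} ∈ T
  b4 : {y, D, y2} ∈ T
  nd1 : [v, D, v1, y, y2, v2].Nodup
  nd2 : [y, v, v1, y1, D, y2].Nodup

/-- The weight of a degree modulo five. -/
def cl (d : ℕ) : ℕ × ℕ :=
  if d % 5 = 1 ∨ d % 5 = 4 then (1, 0) else if d % 5 = 2 ∨ d % 5 = 3 then (0, 1) else (0, 0)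

/-- The weights of the possible ends. -/
def InF (u : ℕ × ℕ) : Prop := 3 ≤ u.1 + u.2 ∨ (1 ≤ u.1 ∧ 1 ≤ u.2)

end Pool.Agent.Helper79.HH
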