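import Pool.Agent.Helper79.HH.Check

/-!
# Middle pieces
-/

namespace Pool.Agent.Helper79.HH

open Finset Pool.Agent.Helper79.HX Pool.Agent.Helper79.HG

/-- middle piece 5, 6 neighbours of the large face -/
def m5L : List Tr :=
  [(0, 3, 4), (0, 1, 2), (0, 5, 8), (0, 3, 8), (3, 7, 8), (6, 7, 8), (5, 6, 8), (3, 4, 7), (0,
   4, 7), (0, 6, 7), (0, 1, 6), (1, 5, 6), (1, 2, 5), (0, 2, 5)]

theorem m5_ck : ckM 9 m5L [(5, 6, 1, 7, 8)]
    3 6 [5] = true := by decide +kernel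

theorem m5 (k1 : ℕ) : MidG (6 + 5 * (k1)) (([5 + 5 * k1] : List ℕ) : Multiset ℕ) :=
  mid_lit m5_ck (fun _ => k1) (by simp; try omega) (by simp)

/-- middle piece 6, 6, 8 neighbours of the large face -/
def m66L : List Tr :=
  [(0, 3, 4), (0, 1, 2), (7, 9, 12), (5, 7, 12), (5, 11, 12), (10, 11, 12), (9, 10, 12), (8, 10,
   11), (0, 5, 11), (0, 8, 11), (6, 8, 10), (6, 9, 10), (0, 3, 8), (3, 6, 8), (3, 4, 6), (0, 4,
   6), (0, 6, 9), (0, 7, 9), (0, 1, 7), (1, 5, 7), (0, 2, 5), (1, 2, 5)]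

theorem m66_ck : ckM 13 m66L [(5, 7, 1, 9, 12), (6, 8, 3, 11, 10)]
    6 8 [6, 6] = true := by decide +kernel

theorem m66 (k1 k2 : ℕ) : MidG (8 + 5 * (k1 + k2)) (([6 + 5 * k1, 6 + 5 * k2] : List ℕ) : Multiset ℕ) :=
  mid_lit m66_ck (fun v => if v = 5 then k1 else k2) (by simp; try omega) (by simp)

/-- middle piece 6, 9, 9 neighbours of the large face -/
def m69L : List Tr :=
  [(0, 3, 4), (0, 1, 2), (5, 13, 16), (5, 6, 16), (6, 15, 16), (14, 15, 16), (13, 14, 16), (12,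
   14, 15), (0, 6, 15), (0, 12, 15), (11, 12, 14), (11, 13, 14), (9, 11, 13), (5, 9, 13), (10,
   11, 12), (0, 10, 12), (9, 10, 11), (0, 7, 10), (7, 9, 10), (5, 7, 9), (0, 3, 7), (3, 5, 7),
   (0, 2, 6), (5, 6, 8), (2, 6, 8), (3, 4, 5), (0, 4, 5), (0, 5, 8), (0, 1, 8), (1, 2, 8)]

theorem m69_ck : ckM 17 m69L [(5, 7, 3, 10, 9), (6, 8, 5, 1, 2)]
    10 9 [9, 6] = true := by decide +kernel

theorem m69 (k1 k2 : ℕ) : MidG (9 + 5 * (k1 + k2)) (([9 + 5 * k1, 6 + 5 * k2] : List ℕ) : Multiset ℕ) :=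
  mid_lit m69_ck (fun v => if v = 5 then k1 else k2) (by simp; try omega) (by simp)

/-- middle piece 9, 9, 8 neighbours of the large face -/
def m99L : List Tr :=
  [(0, 3, 4), (0, 1, 2), (12, 15, 18), (6, 12, 18), (6, 17, 18), (16, 17, 18), (15, 16, 18),
   (14, 16, 17), (6, 13, 17), (13, 14, 17), (5, 14, 16), (5, 15, 16), (5, 11, 15), (11, 12, 15),
   (5, 10, 14), (10, 13, 14), (6, 9, 13), (9, 10, 13), (6, 8, 12), (8, 11, 12), (0, 5, 11), (0,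
   8, 11), (5, 7, 10), (7, 9, 10), (0, 3, 8), (3, 6, 8), (3, 4, 6), (0, 4, 6), (0, 6, 9), (0, 7,
   9), (0, 1, 7), (1, 5, 7), (0, 2, 5), (1, 2, 5)]

theorem m99_ck : ckM 19 m99L [(5, 7, 1, 9, 10), (6, 8, 3, 11, 12)]
    12 8 [9, 9] = true := by decide +kernel

theorem m99 (k1 k2 : ℕ) : MidG (8 + 5 * (k1 + k2)) (([9 + 5 * k1, 9 + 5 * k2] : List ℕ) : Multiset ℕ) :=
  mid_lit m99_ck (fun v => if v = 5 then k1 else k2) (by simp; try omega) (by simp)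

end Pool.Agent.Helper79.HH
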