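import Pool.Agent.Helper79.HH.Check

/-!
# Middle pieces
-/

namespace Pool.Agent.Helper79.HH

open Finset Pool.Agent.Helper79.HX Pool.Agent.Helper79.HG

/-- middle piece 7, 7, 8 neighbours of the large face -/
def m77L : List Tr :=
  [(0, 3, 4), (0, 1, 2), (5, 11, 14), (5, 7, 14), (7, 13, 14), (12, 13, 14), (11, 12, 14), (10,
   12, 13), (0, 7, 13), (0, 10, 13), (9, 10, 12), (9, 11, 12), (6, 9, 11), (5, 6, 11), (8, 9,
   10), (0, 8, 10), (6, 8, 9), (0, 3, 8), (3, 6, 8), (0, 2, 7), (2, 5, 7), (3, 4, 6), (0, 4, 6),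
   (0, 5, 6), (0, 1, 5), (1, 2, 5)]

theorem m77_ck : ckM 15 m77L [(5, 7, 2, 13, 14), (6, 8, 3, 10, 9)]
    8 8 [7, 7] = true := by decide +kernel

theorem m77 (k1 k2 : ℕ) : MidG (8 + 5 * (k1 + k2)) (([7 + 5 * k1, 7 + 5 * k2] : List ℕ) : Multiset ℕ) :=
  mid_lit m77_ck (fun v => if v = 5 then k1 else k2) (by simp; try omega) (by simp)

/-- middle piece 7, 8, 8 neighbours of the large face -/
def m78L : List Tr :=
  [(0, 3, 4), (0, 1, 2), (0, 12, 15), (0, 8, 15), (8, 14, 15), (13, 14, 15), (12, 13, 15), (11,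
   13, 14), (6, 8, 14), (6, 11, 14), (10, 11, 13), (10, 12, 13), (5, 10, 12), (0, 5, 12), (9,
   10, 11), (6, 9, 11), (5, 9, 10), (6, 7, 9), (5, 7, 9), (0, 3, 8), (3, 6, 8), (3, 4, 6), (0,
   4, 6), (0, 6, 7), (0, 1, 7), (1, 5, 7), (0, 2, 5), (1, 2, 5)]

theorem m78_ck : ckM 16 m78L [(5, 7, 1, 6, 9), (6, 8, 3, 15, 14)]
    9 8 [7, 8] = true := by decide +kernel

theorem m78 (k1 k2 : ℕ) : MidG (8 + 5 * (k1 + k2)) (([7 + 5 * k1, 8 + 5 * k2] : List ℕ) : Multiset ℕ) :=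
  mid_lit m78_ck (fun v => if v = 5 then k1 else k2) (by simp; try omega) (by simp)

/-- middle piece 8, 8, 8 neighbours of the large face -/
def m88L : List Tr :=
  [(0, 3, 4), (0, 1, 2), (10, 13, 16), (5, 10, 16), (5, 15, 16), (14, 15, 16), (13, 14, 16),
   (12, 14, 15), (5, 11, 15), (11, 12, 15), (6, 12, 14), (6, 13, 14), (6, 9, 13), (9, 10, 13),
   (6, 8, 12), (8, 11, 12), (0, 5, 11), (0, 8, 11), (5, 7, 10), (7, 9, 10), (0, 3, 8), (3, 6,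
   8), (3, 4, 6), (0, 4, 6), (0, 6, 9), (0, 7, 9), (0, 1, 7), (1, 5, 7), (0, 2, 5), (1, 2, 5)]

theorem m88_ck : ckM 17 m88L [(5, 7, 1, 9, 10), (6, 8, 3, 11, 12)]
    10 8 [8, 8] = true := by decide +kernel

theorem m88 (k1 k2 : ℕ) : MidG (8 + 5 * (k1 + k2)) (([8 + 5 * k1, 8 + 5 * k2] : List ℕ) : Multiset ℕ) :=
  mid_lit m88_ck (fun v => if v = 5 then k1 else k2) (by simp; try omega) (by simp)

end Pool.Agent.Helper79.HH
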