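import Pool.Agent.Helper79.HH.Asm0
import Pool.Agent.Helper79.HH.MidA
import Pool.Agent.Helper79.HH.MidB

/-!
# The table of the middle pieces
-/

namespace Pool.Agent.Helper79.HH

set_option linter.unusedSimpArgs false

open Finset Pool.Agent.Helper79.HX Pool.Agent.Helper79.HG

theorem mid0 {a : ℕ} (ha : ∃ k, a = 5 + 5 * k) : MidOK 1 {a} := by
  obtain ⟨k1, rfl⟩ := ha
  refine MidOK.of (m5 k1) ?_ ?_
  · simp only [Multiset.sum_singleton]
    omega
  · intro j
    simp only [← Multiset.cons_coe, Multiset.coe_nil, Multiset.count_cons, Multiset.count_zero,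
      Multiset.count_singleton, Nat.zero_add]

theorem midAA {a b : ℕ} (ha : Al a) (hb : Al b) : MidOK 0 {a, b} := by
  rcases ha with ⟨k1, rfl⟩ | ⟨k1, rfl⟩
  · rcases hb with ⟨k2, rfl⟩ | ⟨k2, rfl⟩
    · refine MidOK.of (m66 k1 k2) ?_ ?_
      · simp only [Multiset.insert_eq_cons, Multiset.sum_cons, Multiset.sum_singleton]
        omega
      · intro j
        simp only [Multiset.count_add, ← Multiset.cons_coe, Multiset.coe_nil,
          Multiset.count_cons, Multiset.count_zero, Multiset.insert_eq_cons, Multiset.count_singleton,
          Nat.mul_zero, Nat.add_zero]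
        omega
    · refine MidOK.of (m69 k2 k1) ?_ ?_
      · simp only [Multiset.insert_eq_cons, Multiset.sum_cons, Multiset.sum_singleton]
        omega
      · intro j
        simp only [Multiset.count_add, ← Multiset.cons_coe, Multiset.coe_nil,
          Multiset.count_cons, Multiset.count_zero, Multiset.insert_eq_cons, Multiset.count_singleton,
          Nat.mul_zero, Nat.add_zero]
        omega
  · rcases hb with ⟨k2, rfl⟩ | ⟨k2, rfl⟩
    · refine MidOK.of (m69 k1 k2) ?_ ?_
      · simp only [Multiset.insert_eq_cons, Multiset.sum_cons, Multiset.sum_singleton]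
        omega
      · intro j
        simp only [Multiset.count_add, ← Multiset.cons_coe, Multiset.coe_nil,
          Multiset.count_cons, Multiset.count_zero, Multiset.insert_eq_cons, Multiset.count_singleton,
          Nat.mul_zero, Nat.add_zero]
        omega
    · refine MidOK.of (m99 k1 k2) ?_ ?_
      · simp only [Multiset.insert_eq_cons, Multiset.sum_cons, Multiset.sum_singleton]
        omega
      · intro j
        simp only [Multiset.count_add, ← Multiset.cons_coe, Multiset.coe_nil,
          Multiset.count_cons, Multiset.count_zero, Multiset.insert_eq_cons, Multiset.count_singleton,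
          Nat.mul_zero, Nat.add_zero]
        omega

theorem midBB {a b : ℕ} (ha : Be a) (hb : Be b) : MidOK 0 {a, b} := by
  rcases ha with ⟨k1, rfl⟩ | ⟨k1, rfl⟩
  · rcases hb with ⟨k2, rfl⟩ | ⟨k2, rfl⟩
    · refine MidOK.of (m77 k1 k2) ?_ ?_
      · simp only [Multiset.insert_eq_cons, Multiset.sum_cons, Multiset.sum_singleton]
        omega
      · intro j
        simp only [Multiset.count_add, ← Multiset.cons_coe, Multiset.coe_nil,
          Multiset.count_cons, Multiset.count_zero, Multiset.insert_eq_cons, Multiset.count_singleton,
          Nat.mul_zero, Nat.add_zero]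
        omega
    · refine MidOK.of (m78 k1 k2) ?_ ?_
      · simp only [Multiset.insert_eq_cons, Multiset.sum_cons, Multiset.sum_singleton]
        omega
      · intro j
        simp only [Multiset.count_add, ← Multiset.cons_coe, Multiset.coe_nil,
          Multiset.count_cons, Multiset.count_zero, Multiset.insert_eq_cons, Multiset.count_singleton,
          Nat.mul_zero, Nat.add_zero]
        omega
  · rcases hb with ⟨k2, rfl⟩ | ⟨k2, rfl⟩
    · refine MidOK.of (m78 k2 k1) ?_ ?_
      · simp only [Multiset.insert_eq_cons, Multiset.sum_cons, Multiset.sum_singleton]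
        omega
      · intro j
        simp only [Multiset.count_add, ← Multiset.cons_coe, Multiset.coe_nil,
          Multiset.count_cons, Multiset.count_zero, Multiset.insert_eq_cons, Multiset.count_singleton,
          Nat.mul_zero, Nat.add_zero]
        omega
    · refine MidOK.of (m88 k1 k2) ?_ ?_
      · simp only [Multiset.insert_eq_cons, Multiset.sum_cons, Multiset.sum_singleton]
        omega
      · intro j
        simp only [Multiset.count_add, ← Multiset.cons_coe, Multiset.coe_nil,
          Multiset.count_cons, Multiset.count_zero, Multiset.insert_eq_cons, Multiset.count_singleton,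
          Nat.mul_zero, Nat.add_zero]
        omega

end Pool.Agent.Helper79.HH
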