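import Pool.Agent.Helper79.HH.Check

/-!
# End pieces
-/

namespace Pool.Agent.Helper79.HH

open Finset Pool.Agent.Helper79.HX Pool.Agent.Helper79.HG

/-- end piece 6, 7, 9 neighbours of the large face -/
def e67L : List Tr :=
  [(0, 1, 2), (0, 12, 15), (0, 3, 15), (3, 14, 15), (13, 14, 15), (12, 13, 15), (11, 13, 14),
   (3, 4, 14), (4, 11, 14), (10, 11, 13), (10, 12, 13), (8, 10, 12), (0, 8, 12), (9, 10, 11),
   (4, 9, 11), (8, 9, 10), (4, 6, 9), (6, 8, 9), (0, 6, 8), (4, 6, 7), (0, 6, 7), (3, 4, 7), (0,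
   5, 7), (3, 5, 7), (0, 1, 3), (1, 3, 5), (0, 2, 5), (1, 2, 5)]

theorem e67_ck : ckE 16 e67L [(3, 5, 7, 2, 1), (4, 6, 7, 8, 9)]
    11 [] 9 [7, 6] = true := by decide +kernel

theorem e67 (k1 k2 : ℕ) : CoreG (9 + 5 * (k1 + k2))
    ((([] : List ℕ) : Multiset ℕ) + (([7 + 5 * k1, 6 + 5 * k2] : List ℕ) : Multiset ℕ)) 0 :=
  end_lit e67_ck (fun v => if v = 3 then k1 else k2) (by simp; try omega) (by simp)

/-- end piece 6, 8, 8 neighbours of the large face -/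
def e68L : List Tr :=
  [(0, 1, 2), (0, 12, 15), (0, 6, 15), (6, 14, 15), (13, 14, 15), (12, 13, 15), (11, 13, 14),
   (4, 6, 14), (4, 11, 14), (10, 11, 13), (10, 12, 13), (3, 10, 12), (0, 3, 12), (9, 10, 11),
   (4, 9, 11), (3, 9, 10), (4, 7, 9), (3, 7, 9), (4, 6, 8), (0, 6, 8), (4, 7, 8), (0, 5, 8), (5,
   7, 8), (3, 5, 7), (0, 1, 5), (1, 3, 5), (0, 2, 3), (1, 2, 3)]

theorem e68_ck : ckE 16 e68L [(3, 5, 1, 8, 7), (4, 6, 8, 15, 14)]
    11 [] 8 [8, 6] = true := by decide +kernel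

theorem e68 (k1 k2 : ℕ) : CoreG (8 + 5 * (k1 + k2))
    ((([] : List ℕ) : Multiset ℕ) + (([8 + 5 * k1, 6 + 5 * k2] : List ℕ) : Multiset ℕ)) 0 :=
  end_lit e68_ck (fun v => if v = 3 then k1 else k2) (by simp; try omega) (by simp)

/-- end piece 9, 7, 9 neighbours of the large face -/
def e97L : List Tr :=
  [(0, 1, 2), (0, 15, 18), (0, 11, 18), (11, 17, 18), (16, 17, 18), (15, 16, 18), (14, 16, 17),
   (4, 11, 17), (4, 14, 17), (13, 14, 16), (13, 15, 16), (3, 13, 15), (0, 3, 15), (12, 13, 14),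
   (4, 12, 14), (3, 12, 13), (4, 10, 12), (3, 10, 12), (4, 6, 11), (0, 6, 11), (4, 6, 9), (4, 9,
   10), (3, 7, 10), (7, 9, 10), (0, 6, 8), (6, 8, 9), (7, 8, 9), (0, 5, 8), (5, 7, 8), (3, 5,
   7), (0, 1, 5), (1, 3, 5), (0, 2, 3), (1, 2, 3)]

theorem e97_ck : ckE 19 e97L [(3, 5, 1, 8, 7), (4, 6, 11, 8, 9)]
    14 [] 9 [9, 7] = true := by decide +kernel

theorem e97 (k1 k2 : ℕ) : CoreG (9 + 5 * (k1 + k2))
    ((([] : List ℕ) : Multiset ℕ) + (([9 + 5 * k1, 7 + 5 * k2] : List ℕ) : Multiset ℕ)) 0 :=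
  end_lit e97_ck (fun v => if v = 3 then k1 else k2) (by simp; try omega) (by simp)

end Pool.Agent.Helper79.HH
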