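import Pool.Agent.Helper79.HH.Check

/-!
# End pieces
-/

namespace Pool.Agent.Helper79.HH

open Finset Pool.Agent.Helper79.HX Pool.Agent.Helper79.HG

/-- end piece 9, 8, 11 neighbours of the large face -/
def e98L : List Tr :=
  [(0, 1, 2), (4, 18, 21), (3, 4, 21), (3, 20, 21), (19, 20, 21), (18, 19, 21), (17, 19, 20),
   (0, 3, 20), (0, 17, 20), (16, 17, 19), (16, 18, 19), (14, 16, 18), (4, 14, 18), (15, 16, 17),
   (0, 15, 17), (14, 15, 16), (0, 13, 15), (13, 14, 15), (4, 13, 14), (0, 6, 13), (4, 6, 13),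
   (3, 4, 11), (4, 6, 12), (4, 11, 12), (0, 6, 10), (6, 10, 12), (9, 10, 12), (9, 11, 12), (3,
   7, 11), (7, 9, 11), (0, 8, 10), (8, 9, 10), (7, 8, 9), (0, 5, 8), (5, 7, 8), (3, 5, 7), (0,
   1, 5), (1, 3, 5), (0, 2, 3), (1, 2, 3)]

theorem e98_ck : ckE 22 e98L [(3, 5, 1, 8, 7), (4, 6, 13, 10, 12)]
    17 [] 11 [9, 8] = true := by decide +kernel

theorem e98 (k1 k2 : ℕ) : CoreG (11 + 5 * (k1 + k2))
    ((([] : List ℕ) : Multiset ℕ) + (([9 + 5 * k1, 8 + 5 * k2] : List ℕ) : Multiset ℕ)) 0 :=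
  end_lit e98_ck (fun v => if v = 3 then k1 else k2) (by simp; try omega) (by simp)

/-- end piece 6, 6, 6, 9 neighbours of the large face -/
def e666L : List Tr :=
  [(0, 1, 2), (4, 11, 14), (4, 14, 15), (13, 14, 15), (12, 13, 14), (11, 12, 14), (10, 12, 13),
   (0, 13, 15), (0, 10, 13), (9, 10, 12), (9, 11, 12), (7, 9, 11), (4, 7, 11), (8, 9, 10), (0,
   8, 10), (7, 8, 9), (0, 6, 8), (6, 7, 8), (4, 6, 7), (0, 3, 6), (3, 4, 6), (3, 4, 15), (0, 5,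
   15), (3, 5, 15), (0, 1, 3), (1, 3, 5), (0, 2, 5), (1, 2, 5)]

theorem e666_ck : ckE 16 e666L [(3, 5, 15, 2, 1), (4, 6, 3, 8, 7)]
    10 [6] 9 [6, 6] = true := by decide +kernel

theorem e666 (k1 k2 : ℕ) : CoreG (9 + 5 * (k1 + k2))
    ((([6] : List ℕ) : Multiset ℕ) + (([6 + 5 * k1, 6 + 5 * k2] : List ℕ) : Multiset ℕ)) 0 :=
  end_lit e666_ck (fun v => if v = 3 then k1 else k2) (by simp; try omega) (by simp)

/-- end piece 6, 6, 11, 14 neighbours of the large face -/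
def e66bL : List Tr :=
  [(0, 1, 2), (5, 22, 25), (4, 5, 25), (4, 24, 25), (23, 24, 25), (22, 23, 25), (21, 23, 24),
   (0, 4, 24), (0, 21, 24), (20, 21, 23), (20, 22, 23), (18, 20, 22), (5, 18, 22), (19, 20, 21),
   (0, 19, 21), (18, 19, 20), (0, 8, 19), (8, 18, 19), (5, 8, 18), (0, 8, 17), (5, 8, 17), (4,
   5, 17), (0, 7, 17), (4, 7, 17), (4, 7, 16), (0, 7, 15), (7, 15, 16), (4, 13, 16), (14, 15,
   16), (13, 14, 16), (0, 12, 15), (12, 14, 15), (11, 12, 14), (11, 13, 14), (4, 9, 13), (9, 11,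
   13), (0, 10, 12), (10, 11, 12), (9, 10, 11), (0, 3, 10), (3, 9, 10), (3, 4, 9), (0, 4, 6),
   (3, 4, 6), (0, 1, 3), (1, 3, 6), (0, 2, 6), (1, 2, 6)]

theorem e66b_ck : ckE 26 e66bL [(3, 6, 4, 2, 1), (4, 7, 17, 15, 16), (5, 8, 17, 19, 18)]
    20 [] 14 [6, 11, 6] = true := by decide +kernel

theorem e66b (k1 k2 k3 : ℕ) : CoreG (14 + 5 * (k1 + k2 + k3))
    ((([] : List ℕ) : Multiset ℕ) + (([6 + 5 * k1, 11 + 5 * k2, 6 + 5 * k3] : List ℕ) : Multiset ℕ)) 0 :=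
  end_lit e66b_ck (fun v => if v = 3 then k1 else if v = 4 then k2 else k3) (by simp; try omega) (by simp)

end Pool.Agent.Helper79.HH
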