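import Pool.Agent.Helper79.HH.Check

/-!
# End pieces
-/

namespace Pool.Agent.Helper79.HH

open Finset Pool.Agent.Helper79.HX Pool.Agent.Helper79.HG

/-- end piece 6, 6, 9, 9 neighbours of the large face -/
def e669L : List Tr :=
  [(0, 1, 2), (13, 15, 18), (3, 13, 18), (3, 17, 18), (16, 17, 18), (15, 16, 18), (14, 16, 17),
   (3, 11, 17), (11, 14, 17), (5, 14, 16), (5, 15, 16), (5, 8, 15), (8, 13, 15), (4, 5, 14), (4,
   11, 14), (0, 3, 13), (0, 8, 13), (5, 8, 12), (4, 5, 12), (0, 8, 12), (4, 7, 12), (0, 7, 12),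
   (3, 10, 11), (4, 10, 11), (4, 7, 10), (3, 9, 10), (7, 9, 10), (0, 7, 9), (3, 6, 9), (0, 6,
   9), (0, 1, 3), (1, 3, 6), (0, 2, 6), (1, 2, 6)]

theorem e669_ck : ckE 19 e669L [(3, 6, 9, 2, 1), (4, 7, 12, 9, 10), (5, 8, 12, 13, 15)]
    13 [] 9 [9, 6, 6] = true := by decide +kernel

theorem e669 (k1 k2 k3 : ℕ) : CoreG (9 + 5 * (k1 + k2 + k3))
    ((([] : List ℕ) : Multiset ℕ) + (([9 + 5 * k1, 6 + 5 * k2, 6 + 5 * k3] : List ℕ) : Multiset ℕ)) 0 :=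
  end_lit e669_ck (fun v => if v = 3 then k1 else if v = 4 then k2 else k3) (by simp; try omega) (by simp)

/-- end piece 6, 9, 9, 12 neighbours of the large face -/
def e699L : List Tr :=
  [(0, 1, 2), (4, 21, 24), (3, 4, 24), (3, 23, 24), (22, 23, 24), (21, 22, 24), (20, 22, 23),
   (0, 3, 23), (0, 20, 23), (5, 20, 22), (5, 21, 22), (5, 19, 21), (4, 19, 21), (5, 8, 20), (0,
   8, 20), (5, 8, 18), (5, 18, 19), (4, 16, 19), (16, 18, 19), (0, 8, 17), (8, 17, 18), (16, 17,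
   18), (0, 15, 17), (15, 16, 17), (4, 15, 16), (0, 7, 15), (4, 7, 15), (3, 4, 13), (4, 7, 14),
   (4, 13, 14), (0, 7, 12), (7, 12, 14), (11, 12, 14), (11, 13, 14), (3, 9, 13), (9, 11, 13),
   (0, 10, 12), (10, 11, 12), (9, 10, 11), (0, 6, 10), (6, 9, 10), (3, 6, 9), (0, 1, 6), (1, 3,
   6), (0, 2, 3), (1, 2, 3)]

theorem e699_ck : ckE 25 e699L [(3, 6, 1, 10, 9), (4, 7, 15, 12, 14), (5, 8, 20, 17, 18)]
    19 [] 12 [9, 9, 6] = true := by decide +kernel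

theorem e699 (k1 k2 k3 : ℕ) : CoreG (12 + 5 * (k1 + k2 + k3))
    ((([] : List ℕ) : Multiset ℕ) + (([9 + 5 * k1, 9 + 5 * k2, 6 + 5 * k3] : List ℕ) : Multiset ℕ)) 0 :=
  end_lit e699_ck (fun v => if v = 3 then k1 else if v = 4 then k2 else k3) (by simp; try omega) (by simp)

/-- end piece 9, 9, 9, 17 neighbours of the large face -/
def e999L : List Tr :=
  [(0, 1, 2), (0, 29, 32), (0, 8, 32), (8, 31, 32), (30, 31, 32), (29, 30, 32), (28, 30, 31),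
   (5, 8, 31), (5, 28, 31), (27, 28, 30), (27, 29, 30), (25, 27, 29), (0, 25, 29), (26, 27, 28),
   (5, 26, 28), (25, 26, 27), (5, 24, 26), (24, 25, 26), (0, 24, 25), (5, 23, 24), (0, 23, 24),
   (0, 21, 23), (5, 22, 23), (21, 22, 23), (0, 4, 8), (4, 5, 8), (4, 5, 20), (5, 20, 22), (19,
   20, 22), (19, 21, 22), (0, 18, 21), (18, 19, 21), (4, 17, 20), (17, 19, 20), (17, 18, 19),
   (0, 7, 18), (7, 17, 18), (4, 7, 17), (0, 3, 7), (3, 4, 7), (3, 4, 16), (0, 4, 15), (4, 15,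
   16), (3, 13, 16), (14, 15, 16), (13, 14, 16), (0, 12, 15), (12, 14, 15), (11, 12, 14), (11,
   13, 14), (3, 9, 13), (9, 11, 13), (0, 10, 12), (10, 11, 12), (9, 10, 11), (0, 6, 10), (6, 9,
   10), (3, 6, 9), (0, 1, 6), (1, 3, 6), (0, 2, 3), (1, 2, 3)]

theorem e999_ck : ckE 33 e999L [(3, 6, 1, 10, 9), (4, 7, 3, 18, 17), (5, 8, 4, 32, 31)]
    27 [] 17 [9, 9, 9] = true := by decide +kernel

theorem e999 (k1 k2 k3 : ℕ) : CoreG (17 + 5 * (k1 + k2 + k3))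
    ((([] : List ℕ) : Multiset ℕ) + (([9 + 5 * k1, 9 + 5 * k2, 9 + 5 * k3] : List ℕ) : Multiset ℕ)) 0 :=
  end_lit e999_ck (fun v => if v = 3 then k1 else if v = 4 then k2 else k3) (by simp; try omega) (by simp)

end Pool.Agent.Helper79.HH
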