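import Pool.Agent.Helper79.HH.Check

/-!
# End pieces
-/

namespace Pool.Agent.Helper79.HH

open Finset Pool.Agent.Helper79.HX Pool.Agent.Helper79.HG

/-- end piece 7, 7, 7, 9 neighbours of the large face -/
def e777L : List Tr :=
  [(0, 1, 2), (14, 17, 18), (10, 17, 18), (10, 16, 17), (15, 16, 17), (14, 15, 17), (13, 15,
   16), (4, 10, 16), (4, 13, 16), (12, 13, 15), (12, 14, 15), (0, 12, 14), (0, 14, 18), (11, 12,
   13), (4, 11, 13), (0, 11, 12), (4, 6, 11), (0, 6, 11), (4, 9, 10), (9, 10, 18), (4, 8, 9),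
   (4, 6, 8), (0, 3, 6), (3, 6, 8), (7, 9, 18), (7, 8, 9), (3, 7, 8), (0, 5, 18), (5, 7, 18),
   (3, 5, 7), (0, 1, 5), (1, 3, 5), (0, 2, 3), (1, 2, 3)]

theorem e777_ck : ckE 19 e777L [(3, 5, 1, 18, 7), (4, 6, 11, 3, 8)]
    13 [7] 9 [7, 7] = true := by decide +kernel

theorem e777 (k1 k2 : ℕ) : CoreG (9 + 5 * (k1 + k2))
    ((([7] : List ℕ) : Multiset ℕ) + (([7 + 5 * k1, 7 + 5 * k2] : List ℕ) : Multiset ℕ)) 0 :=
  end_lit e777_ck (fun v => if v = 3 then k1 else k2) (by simp; try omega) (by simp)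

/-- end piece 7, 7, 12, 14 neighbours of the large face -/
def e77cL : List Tr :=
  [(0, 1, 2), (4, 25, 28), (4, 21, 28), (21, 27, 28), (26, 27, 28), (25, 26, 28), (24, 26, 27),
   (5, 21, 27), (5, 24, 27), (23, 24, 26), (23, 25, 26), (0, 23, 25), (0, 4, 25), (22, 23, 24),
   (5, 22, 24), (0, 22, 23), (5, 8, 22), (0, 8, 22), (5, 20, 21), (4, 20, 21), (5, 19, 20), (5,
   8, 19), (0, 8, 17), (8, 17, 19), (4, 18, 20), (18, 19, 20), (17, 18, 19), (4, 16, 18), (16,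
   17, 18), (0, 16, 17), (4, 7, 16), (0, 7, 16), (0, 7, 15), (4, 7, 14), (7, 14, 15), (0, 12,
   15), (13, 14, 15), (12, 13, 15), (4, 11, 14), (11, 13, 14), (10, 11, 13), (10, 12, 13), (0,
   3, 12), (3, 10, 12), (4, 9, 11), (9, 10, 11), (3, 9, 10), (0, 4, 6), (4, 6, 9), (3, 6, 9),
   (0, 1, 6), (1, 3, 6), (0, 2, 3), (1, 2, 3)]

theorem e77c_ck : ckE 29 e77cL [(3, 6, 1, 4, 9), (4, 7, 16, 15, 14), (5, 8, 22, 17, 19)]
    23 [] 14 [7, 12, 7] = true := by decide +kernel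

theorem e77c (k1 k2 k3 : ℕ) : CoreG (14 + 5 * (k1 + k2 + k3))
    ((([] : List ℕ) : Multiset ℕ) + (([7 + 5 * k1, 12 + 5 * k2, 7 + 5 * k3] : List ℕ) : Multiset ℕ)) 0 :=
  end_lit e77c_ck (fun v => if v = 3 then k1 else if v = 4 then k2 else k3) (by simp; try omega) (by simp)

/-- end piece 7, 7, 8, 10 neighbours of the large face -/
def e778L : List Tr :=
  [(0, 1, 2), (14, 17, 20), (5, 14, 20), (5, 19, 20), (18, 19, 20), (17, 18, 20), (16, 18, 19),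
   (5, 15, 19), (15, 16, 19), (3, 16, 18), (3, 17, 18), (3, 4, 17), (4, 14, 17), (0, 3, 16), (0,
   15, 16), (5, 8, 15), (0, 8, 15), (5, 13, 14), (4, 13, 14), (5, 12, 13), (5, 8, 12), (0, 8,
   10), (8, 10, 12), (4, 11, 13), (11, 12, 13), (10, 11, 12), (4, 7, 11), (7, 10, 11), (0, 7,
   10), (4, 7, 9), (0, 7, 9), (3, 4, 9), (0, 6, 9), (3, 6, 9), (0, 1, 3), (1, 3, 6), (0, 2, 6),
   (1, 2, 6)]

theorem e778_ck : ckE 21 e778L [(3, 6, 9, 2, 1), (4, 7, 9, 10, 11), (5, 8, 15, 10, 12)]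
    15 [] 10 [8, 7, 7] = true := by decide +kernel

theorem e778 (k1 k2 k3 : ℕ) : CoreG (10 + 5 * (k1 + k2 + k3))
    ((([] : List ℕ) : Multiset ℕ) + (([8 + 5 * k1, 7 + 5 * k2, 7 + 5 * k3] : List ℕ) : Multiset ℕ)) 0 :=
  end_lit e778_ck (fun v => if v = 3 then k1 else if v = 4 then k2 else k3) (by simp; try omega) (by simp)

end Pool.Agent.Helper79.HH
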