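import Pool.Agent.Helper79.HH.Check

/-!
# End pieces
-/

namespace Pool.Agent.Helper79.HH

open Finset Pool.Agent.Helper79.HX Pool.Agent.Helper79.HG

/-- end piece 7, 8, 8, 11 neighbours of the large face -/
def e788L : List Tr :=
  [(0, 1, 2), (7, 19, 22), (4, 7, 22), (4, 21, 22), (20, 21, 22), (19, 20, 22), (18, 20, 21),
   (4, 5, 21), (5, 18, 21), (17, 18, 20), (17, 19, 20), (0, 17, 19), (0, 7, 19), (16, 17, 18),
   (5, 16, 18), (0, 16, 17), (5, 8, 16), (0, 8, 16), (0, 8, 14), (5, 8, 15), (8, 14, 15), (4, 5,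
   13), (5, 13, 15), (12, 13, 15), (12, 14, 15), (0, 3, 14), (3, 12, 14), (4, 11, 13), (11, 12,
   13), (3, 11, 12), (4, 9, 11), (3, 9, 11), (0, 7, 10), (4, 7, 10), (4, 9, 10), (0, 6, 10), (6,
   9, 10), (3, 6, 9), (0, 1, 6), (1, 3, 6), (0, 2, 3), (1, 2, 3)]

theorem e788_ck : ckE 23 e788L [(3, 6, 1, 10, 9), (4, 7, 10, 19, 22), (5, 8, 16, 14, 15)]
    17 [] 11 [8, 8, 7] = true := by decide +kernel

theorem e788 (k1 k2 k3 : ℕ) : CoreG (11 + 5 * (k1 + k2 + k3))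
    ((([] : List ℕ) : Multiset ℕ) + (([8 + 5 * k1, 8 + 5 * k2, 7 + 5 * k3] : List ℕ) : Multiset ℕ)) 0 :=
  end_lit e788_ck (fun v => if v = 3 then k1 else if v = 4 then k2 else k3) (by simp; try omega) (by simp)

/-- end piece 8, 8, 8, 16 neighbours of the large face -/
def e888L : List Tr :=
  [(0, 1, 2), (0, 25, 28), (0, 19, 28), (19, 27, 28), (26, 27, 28), (25, 26, 28), (24, 26, 27),
   (5, 19, 27), (5, 24, 27), (23, 24, 26), (23, 25, 26), (21, 23, 25), (0, 21, 25), (22, 23,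
   24), (5, 22, 24), (21, 22, 23), (5, 20, 22), (20, 21, 22), (0, 20, 21), (5, 18, 20), (0, 18,
   20), (0, 8, 19), (5, 8, 19), (5, 8, 17), (5, 17, 18), (0, 16, 18), (16, 17, 18), (0, 4, 8),
   (4, 8, 17), (4, 16, 17), (0, 7, 16), (4, 7, 16), (0, 3, 7), (4, 7, 15), (3, 7, 15), (3, 13,
   15), (4, 14, 15), (13, 14, 15), (0, 4, 12), (4, 12, 14), (11, 12, 14), (11, 13, 14), (3, 9,
   13), (9, 11, 13), (0, 10, 12), (10, 11, 12), (9, 10, 11), (0, 6, 10), (6, 9, 10), (3, 6, 9),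
   (0, 1, 6), (1, 3, 6), (0, 2, 3), (1, 2, 3)]

theorem e888_ck : ckE 29 e888L [(3, 6, 1, 10, 9), (4, 7, 16, 3, 15), (5, 8, 19, 4, 17)]
    23 [] 16 [8, 8, 8] = true := by decide +kernel

theorem e888 (k1 k2 k3 : ℕ) : CoreG (16 + 5 * (k1 + k2 + k3))
    ((([] : List ℕ) : Multiset ℕ) + (([8 + 5 * k1, 8 + 5 * k2, 8 + 5 * k3] : List ℕ) : Multiset ℕ)) 0 :=
  end_lit e888_ck (fun v => if v = 3 then k1 else if v = 4 then k2 else k3) (by simp; try omega) (by simp)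

/-- end piece 6, 6, 7, 9 neighbours of the large face -/
def e667L : List Tr :=
  [(0, 1, 2), (7, 13, 16), (4, 7, 16), (4, 15, 16), (14, 15, 16), (13, 14, 16), (12, 14, 15),
   (4, 5, 15), (5, 12, 15), (11, 12, 14), (11, 13, 14), (0, 11, 13), (0, 7, 13), (8, 11, 12),
   (5, 8, 12), (0, 8, 11), (3, 5, 8), (0, 3, 8), (4, 5, 9), (3, 5, 9), (0, 7, 10), (4, 7, 10),
   (4, 9, 10), (0, 6, 10), (6, 9, 10), (3, 6, 9), (0, 1, 6), (1, 3, 6), (0, 2, 3), (1, 2, 3)]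

theorem e667_ck : ckE 17 e667L [(3, 6, 1, 10, 9), (4, 7, 10, 13, 16), (5, 8, 3, 11, 12)]
    11 [] 9 [7, 6, 6] = true := by decide +kernel

theorem e667 (k1 k2 k3 : ℕ) : CoreG (9 + 5 * (k1 + k2 + k3))
    ((([] : List ℕ) : Multiset ℕ) + (([7 + 5 * k1, 6 + 5 * k2, 6 + 5 * k3] : List ℕ) : Multiset ℕ)) 0 :=
  end_lit e667_ck (fun v => if v = 3 then k1 else if v = 4 then k2 else k3) (by simp; try omega) (by simp)

end Pool.Agent.Helper79.HH
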