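import Pool.Agent.Helper79.HH.Asm0
import Pool.Agent.Helper79.HH.End0
import Pool.Agent.Helper79.HH.End1
import Pool.Agent.Helper79.HH.End2
import Pool.Agent.Helper79.HH.End3
import Pool.Agent.Helper79.HH.End4

/-!
# The table of the end pieces
-/

namespace Pool.Agent.Helper79.HH

set_option linter.unusedSimpArgs false

open Finset Pool.Agent.Helper79.HX Pool.Agent.Helper79.HG

theorem end11 {a b : ℕ} (ha : Al a) (hb : Be b) : EndOK {a, b} := by
  rcases ha with ⟨k1, rfl⟩ | ⟨k1, rfl⟩
  · rcases hb with ⟨k2, rfl⟩ | ⟨k2, rfl⟩
    · refine EndOK.of (e67 k2 k1) (by omega) ?_ ?_
      · simp only [Multiset.insert_eq_cons, Multiset.sum_cons, Multiset.sum_singleton]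
        omega
      · intro j
        simp only [Multiset.count_add, ← Multiset.cons_coe, Multiset.coe_nil,
          Multiset.count_cons, Multiset.count_zero, Multiset.insert_eq_cons, Multiset.count_singleton,
          Multiset.count_replicate, Nat.mul_zero, Nat.add_zero]
        first
        | omega
        | (split_ifs <;> omega)
    · refine EndOK.of (e68 k2 k1) (by omega) ?_ ?_
      · simp only [Multiset.insert_eq_cons, Multiset.sum_cons, Multiset.sum_singleton]
        omega
      · intro j
        simp only [Multiset.count_add, ← Multiset.cons_coe, Multiset.coe_nil,
          Multiset.count_cons, Multiset.count_zero, Multiset.insert_eq_cons, Multiset.count_singleton,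
          Multiset.count_replicate, Nat.mul_zero, Nat.add_zero]
        first
        | omega
        | (split_ifs <;> omega)
  · rcases hb with ⟨k2, rfl⟩ | ⟨k2, rfl⟩
    · refine EndOK.of (e97 k1 k2) (by omega) ?_ ?_
      · simp only [Multiset.insert_eq_cons, Multiset.sum_cons, Multiset.sum_singleton]
        omega
      · intro j
        simp only [Multiset.count_add, ← Multiset.cons_coe, Multiset.coe_nil,
          Multiset.count_cons, Multiset.count_zero, Multiset.insert_eq_cons, Multiset.count_singleton,
          Multiset.count_replicate, Nat.mul_zero, Nat.add_zero]
        first
        | omega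
        | (split_ifs <;> omega)
    · refine EndOK.of (e98 k1 k2) (by omega) ?_ ?_
      · simp only [Multiset.insert_eq_cons, Multiset.sum_cons, Multiset.sum_singleton]
        omega
      · intro j
        simp only [Multiset.count_add, ← Multiset.cons_coe, Multiset.coe_nil,
          Multiset.count_cons, Multiset.count_zero, Multiset.insert_eq_cons, Multiset.count_singleton,
          Multiset.count_replicate, Nat.mul_zero, Nat.add_zero]
        first
        | omega
        | (split_ifs <;> omega)

theorem end30 {a b c : ℕ} (ha : Al a) (hb : Al b) (hc : Al c) : EndOK {a, b, c} := by
  rcases ha with ⟨k1, rfl⟩ | ⟨k1, rfl⟩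
  · rcases hb with ⟨k2, rfl⟩ | ⟨k2, rfl⟩
    · rcases hc with ⟨k3, rfl⟩ | ⟨k3, rfl⟩
      · rcases Nat.eq_zero_or_pos k1 with rfl | hk
        · refine EndOK.of (e666 k2 k3) (by omega) ?_ ?_
          · simp only [Multiset.insert_eq_cons, Multiset.sum_cons, Multiset.sum_singleton]
            omega
          · intro j
            simp only [Multiset.count_add, ← Multiset.cons_coe, Multiset.coe_nil,
              Multiset.count_cons, Multiset.count_zero, Multiset.insert_eq_cons, Multiset.count_singleton,
              Multiset.count_replicate, Nat.mul_zero, Nat.add_zero]
            first
            | omega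
            | (split_ifs <;> omega)
        · obtain ⟨k, rfl⟩ : ∃ k, k1 = k + 1 := ⟨k1 - 1, by omega⟩
          rw [show 6 + 5 * (k + 1) = 11 + 5 * k by ring]
          refine EndOK.of (e66b k2 k k3) (by omega) ?_ ?_
          · simp only [Multiset.insert_eq_cons, Multiset.sum_cons, Multiset.sum_singleton]
            omega
          · intro j
            simp only [Multiset.count_add, ← Multiset.cons_coe, Multiset.coe_nil,
              Multiset.count_cons, Multiset.count_zero, Multiset.insert_eq_cons, Multiset.count_singleton,
              Multiset.count_replicate, Nat.mul_zero, Nat.add_zero]
            first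
            | omega
            | (split_ifs <;> omega)
      · refine EndOK.of (e669 k3 k1 k2) (by omega) ?_ ?_
        · simp only [Multiset.insert_eq_cons, Multiset.sum_cons, Multiset.sum_singleton]
          omega
        · intro j
          simp only [Multiset.count_add, ← Multiset.cons_coe, Multiset.coe_nil,
            Multiset.count_cons, Multiset.count_zero, Multiset.insert_eq_cons, Multiset.count_singleton,
            Multiset.count_replicate, Nat.mul_zero, Nat.add_zero]
          first
          | omega
          | (split_ifs <;> omega)
    · rcases hc with ⟨k3, rfl⟩ | ⟨k3, rfl⟩
      · refine EndOK.of (e669 k2 k1 k3) (by omega) ?_ ?_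
        · simp only [Multiset.insert_eq_cons, Multiset.sum_cons, Multiset.sum_singleton]
          omega
        · intro j
          simp only [Multiset.count_add, ← Multiset.cons_coe, Multiset.coe_nil,
            Multiset.count_cons, Multiset.count_zero, Multiset.insert_eq_cons, Multiset.count_singleton,
            Multiset.count_replicate, Nat.mul_zero, Nat.add_zero]
          first
          | omega
          | (split_ifs <;> omega)
      · refine EndOK.of (e699 k2 k3 k1) (by omega) ?_ ?_
        · simp only [Multiset.insert_eq_cons, Multiset.sum_cons, Multiset.sum_singleton]
          omega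
        · intro j
          simp only [Multiset.count_add, ← Multiset.cons_coe, Multiset.coe_nil,
            Multiset.count_cons, Multiset.count_zero, Multiset.insert_eq_cons, Multiset.count_singleton,
            Multiset.count_replicate, Nat.mul_zero, Nat.add_zero]
          first
          | omega
          | (split_ifs <;> omega)
  · rcases hb with ⟨k2, rfl⟩ | ⟨k2, rfl⟩
    · rcases hc with ⟨k3, rfl⟩ | ⟨k3, rfl⟩
      · refine EndOK.of (e669 k1 k2 k3) (by omega) ?_ ?_
        · simp only [Multiset.insert_eq_cons, Multiset.sum_cons, Multiset.sum_singleton]
          omega
        · intro j
          simp only [Multiset.count_add, ← Multiset.cons_coe, Multiset.coe_nil,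
            Multiset.count_cons, Multiset.count_zero, Multiset.insert_eq_cons, Multiset.count_singleton,
            Multiset.count_replicate, Nat.mul_zero, Nat.add_zero]
          first
          | omega
          | (split_ifs <;> omega)
      · refine EndOK.of (e699 k1 k3 k2) (by omega) ?_ ?_
        · simp only [Multiset.insert_eq_cons, Multiset.sum_cons, Multiset.sum_singleton]
          omega
        · intro j
          simp only [Multiset.count_add, ← Multiset.cons_coe, Multiset.coe_nil,
            Multiset.count_cons, Multiset.count_zero, Multiset.insert_eq_cons, Multiset.count_singleton,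
            Multiset.count_replicate, Nat.mul_zero, Nat.add_zero]
          first
          | omega
          | (split_ifs <;> omega)
    · rcases hc with ⟨k3, rfl⟩ | ⟨k3, rfl⟩
      · refine EndOK.of (e699 k1 k2 k3) (by omega) ?_ ?_
        · simp only [Multiset.insert_eq_cons, Multiset.sum_cons, Multiset.sum_singleton]
          omega
        · intro j
          simp only [Multiset.count_add, ← Multiset.cons_coe, Multiset.coe_nil,
            Multiset.count_cons, Multiset.count_zero, Multiset.insert_eq_cons, Multiset.count_singleton,
            Multiset.count_replicate, Nat.mul_zero, Nat.add_zero]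
          first
          | omega
          | (split_ifs <;> omega)
      · refine EndOK.of (e999 k1 k2 k3) (by omega) ?_ ?_
        · simp only [Multiset.insert_eq_cons, Multiset.sum_cons, Multiset.sum_singleton]
          omega
        · intro j
          simp only [Multiset.count_add, ← Multiset.cons_coe, Multiset.coe_nil,
            Multiset.count_cons, Multiset.count_zero, Multiset.insert_eq_cons, Multiset.count_singleton,
            Multiset.count_replicate, Nat.mul_zero, Nat.add_zero]
          first
          | omega
          | (split_ifs <;> omega)

theorem end03 {a b c : ℕ} (ha : Be a) (hb : Be b) (hc : Be c) : EndOK {a, b, c} := by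
  rcases ha with ⟨k1, rfl⟩ | ⟨k1, rfl⟩
  · rcases hb with ⟨k2, rfl⟩ | ⟨k2, rfl⟩
    · rcases hc with ⟨k3, rfl⟩ | ⟨k3, rfl⟩
      · rcases Nat.eq_zero_or_pos k1 with rfl | hk
        · refine EndOK.of (e777 k2 k3) (by omega) ?_ ?_
          · simp only [Multiset.insert_eq_cons, Multiset.sum_cons, Multiset.sum_singleton]
            omega
          · intro j
            simp only [Multiset.count_add, ← Multiset.cons_coe, Multiset.coe_nil,
              Multiset.count_cons, Multiset.count_zero, Multiset.insert_eq_cons, Multiset.count_singleton,
              Multiset.count_replicate, Nat.mul_zero, Nat.add_zero]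
            first
            | omega
            | (split_ifs <;> omega)
        · obtain ⟨k, rfl⟩ : ∃ k, k1 = k + 1 := ⟨k1 - 1, by omega⟩
          rw [show 7 + 5 * (k + 1) = 12 + 5 * k by ring]
          refine EndOK.of (e77c k2 k k3) (by omega) ?_ ?_
          · simp only [Multiset.insert_eq_cons, Multiset.sum_cons, Multiset.sum_singleton]
            omega
          · intro j
            simp only [Multiset.count_add, ← Multiset.cons_coe, Multiset.coe_nil,
              Multiset.count_cons, Multiset.count_zero, Multiset.insert_eq_cons, Multiset.count_singleton,
              Multiset.count_replicate, Nat.mul_zero, Nat.add_zero]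
            first
            | omega
            | (split_ifs <;> omega)
      · refine EndOK.of (e778 k3 k1 k2) (by omega) ?_ ?_
        · simp only [Multiset.insert_eq_cons, Multiset.sum_cons, Multiset.sum_singleton]
          omega
        · intro j
          simp only [Multiset.count_add, ← Multiset.cons_coe, Multiset.coe_nil,
            Multiset.count_cons, Multiset.count_zero, Multiset.insert_eq_cons, Multiset.count_singleton,
            Multiset.count_replicate, Nat.mul_zero, Nat.add_zero]
          first
          | omega
          | (split_ifs <;> omega)
    · rcases hc with ⟨k3, rfl⟩ | ⟨k3, rfl⟩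
      · refine EndOK.of (e778 k2 k1 k3) (by omega) ?_ ?_
        · simp only [Multiset.insert_eq_cons, Multiset.sum_cons, Multiset.sum_singleton]
          omega
        · intro j
          simp only [Multiset.count_add, ← Multiset.cons_coe, Multiset.coe_nil,
            Multiset.count_cons, Multiset.count_zero, Multiset.insert_eq_cons, Multiset.count_singleton,
            Multiset.count_replicate, Nat.mul_zero, Nat.add_zero]
          first
          | omega
          | (split_ifs <;> omega)
      · refine EndOK.of (e788 k2 k3 k1) (by omega) ?_ ?_
        · simp only [Multiset.insert_eq_cons, Multiset.sum_cons, Multiset.sum_singleton]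
          omega
        · intro j
          simp only [Multiset.count_add, ← Multiset.cons_coe, Multiset.coe_nil,
            Multiset.count_cons, Multiset.count_zero, Multiset.insert_eq_cons, Multiset.count_singleton,
            Multiset.count_replicate, Nat.mul_zero, Nat.add_zero]
          first
          | omega
          | (split_ifs <;> omega)
  · rcases hb with ⟨k2, rfl⟩ | ⟨k2, rfl⟩
    · rcases hc with ⟨k3, rfl⟩ | ⟨k3, rfl⟩
      · refine EndOK.of (e778 k1 k2 k3) (by omega) ?_ ?_
        · simp only [Multiset.insert_eq_cons, Multiset.sum_cons, Multiset.sum_singleton]
          omega
        · intro j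
          simp only [Multiset.count_add, ← Multiset.cons_coe, Multiset.coe_nil,
            Multiset.count_cons, Multiset.count_zero, Multiset.insert_eq_cons, Multiset.count_singleton,
            Multiset.count_replicate, Nat.mul_zero, Nat.add_zero]
          first
          | omega
          | (split_ifs <;> omega)
      · refine EndOK.of (e788 k1 k3 k2) (by omega) ?_ ?_
        · simp only [Multiset.insert_eq_cons, Multiset.sum_cons, Multiset.sum_singleton]
          omega
        · intro j
          simp only [Multiset.count_add, ← Multiset.cons_coe, Multiset.coe_nil,
            Multiset.count_cons, Multiset.count_zero, Multiset.insert_eq_cons, Multiset.count_singleton,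
            Multiset.count_replicate, Nat.mul_zero, Nat.add_zero]
          first
          | omega
          | (split_ifs <;> omega)
    · rcases hc with ⟨k3, rfl⟩ | ⟨k3, rfl⟩
      · refine EndOK.of (e788 k1 k2 k3) (by omega) ?_ ?_
        · simp only [Multiset.insert_eq_cons, Multiset.sum_cons, Multiset.sum_singleton]
          omega
        · intro j
          simp only [Multiset.count_add, ← Multiset.cons_coe, Multiset.coe_nil,
            Multiset.count_cons, Multiset.count_zero, Multiset.insert_eq_cons, Multiset.count_singleton,
            Multiset.count_replicate, Nat.mul_zero, Nat.add_zero]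
          first
          | omega
          | (split_ifs <;> omega)
      · refine EndOK.of (e888 k1 k2 k3) (by omega) ?_ ?_
        · simp only [Multiset.insert_eq_cons, Multiset.sum_cons, Multiset.sum_singleton]
          omega
        · intro j
          simp only [Multiset.count_add, ← Multiset.cons_coe, Multiset.coe_nil,
            Multiset.count_cons, Multiset.count_zero, Multiset.insert_eq_cons, Multiset.count_singleton,
            Multiset.count_replicate, Nat.mul_zero, Nat.add_zero]
          first
          | omega
          | (split_ifs <;> omega)

end Pool.Agent.Helper79.HH
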