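import Pool.Agent.Helper79.HH.Check

/-!
# End pieces
-/

namespace Pool.Agent.Helper79.HH

open Finset Pool.Agent.Helper79.HX Pool.Agent.Helper79.HG

/-- end piece 6, 6, 8, 9 neighbours of the large face -/
def e668L : List Tr :=
  [(0, 1, 2), (12, 14, 17), (5, 12, 17), (5, 16, 17), (15, 16, 17), (14, 15, 17), (13, 15, 16),
   (5, 8, 16), (8, 13, 16), (3, 13, 15), (3, 14, 15), (3, 4, 14), (4, 12, 14), (0, 3, 13), (0,
   8, 13), (5, 8, 10), (0, 8, 10), (5, 11, 12), (4, 11, 12), (5, 10, 11), (4, 7, 11), (7, 10,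
   11), (0, 7, 10), (3, 4, 9), (4, 7, 9), (0, 7, 9), (3, 6, 9), (0, 6, 9), (0, 1, 3), (1, 3, 6),
   (0, 2, 6), (1, 2, 6)]

theorem e668_ck : ckE 18 e668L [(3, 6, 9, 2, 1), (4, 7, 9, 10, 11), (5, 8, 10, 13, 16)]
    12 [] 9 [8, 6, 6] = true := by decide +kernel

theorem e668 (k1 k2 k3 : ℕ) : CoreG (9 + 5 * (k1 + k2 + k3))
    ((([] : List ℕ) : Multiset ℕ) + (([8 + 5 * k1, 6 + 5 * k2, 6 + 5 * k3] : List ℕ) : Multiset ℕ)) 0 :=
  end_lit e668_ck (fun v => if v = 3 then k1 else if v = 4 then k2 else k3) (by simp; try omega) (by simp)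

/-- end piece 6, 9, 7, 8 neighbours of the large face -/
def e697L : List Tr :=
  [(0, 1, 2), (3, 8, 16), (0, 3, 8), (0, 8, 18), (5, 8, 18), (5, 8, 16), (5, 17, 18), (0, 7,
   18), (7, 17, 18), (5, 15, 17), (4, 7, 17), (4, 15, 17), (5, 14, 15), (5, 14, 16), (12, 14,
   16), (3, 12, 16), (13, 14, 15), (4, 13, 15), (12, 13, 14), (4, 11, 13), (11, 12, 13), (3, 11,
   12), (4, 10, 11), (3, 10, 11), (4, 7, 9), (0, 7, 9), (4, 9, 10), (3, 6, 10), (6, 9, 10), (0,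
   6, 9), (0, 1, 6), (1, 3, 6), (0, 2, 3), (1, 2, 3)]

theorem e697_ck : ckE 19 e697L [(3, 6, 1, 9, 10), (4, 7, 9, 18, 17), (5, 8, 18, 3, 16)]
    13 [] 8 [9, 7, 6] = true := by decide +kernel

theorem e697 (k1 k2 k3 : ℕ) : CoreG (8 + 5 * (k1 + k2 + k3))
    ((([] : List ℕ) : Multiset ℕ) + (([9 + 5 * k1, 7 + 5 * k2, 6 + 5 * k3] : List ℕ) : Multiset ℕ)) 0 :=
  end_lit e697_ck (fun v => if v = 3 then k1 else if v = 4 then k2 else k3) (by simp; try omega) (by simp)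

/-- end piece 6, 9, 8, 10 neighbours of the large face -/
def e698L : List Tr :=
  [(0, 1, 2), (0, 18, 21), (0, 13, 21), (13, 20, 21), (19, 20, 21), (18, 19, 21), (17, 19, 20),
   (4, 13, 20), (4, 17, 20), (5, 17, 19), (5, 18, 19), (5, 8, 18), (0, 8, 18), (5, 16, 17), (4,
   16, 17), (5, 15, 16), (5, 8, 15), (0, 3, 8), (3, 8, 15), (4, 14, 16), (14, 15, 16), (3, 14,
   15), (4, 12, 14), (3, 12, 14), (4, 7, 13), (0, 7, 13), (4, 7, 11), (4, 11, 12), (3, 9, 12),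
   (9, 11, 12), (0, 7, 10), (7, 10, 11), (9, 10, 11), (0, 6, 10), (6, 9, 10), (3, 6, 9), (0, 1,
   6), (1, 3, 6), (0, 2, 3), (1, 2, 3)]

theorem e698_ck : ckE 22 e698L [(3, 6, 1, 10, 9), (4, 7, 13, 10, 11), (5, 8, 18, 3, 15)]
    16 [] 10 [9, 8, 6] = true := by decide +kernel

theorem e698 (k1 k2 k3 : ℕ) : CoreG (10 + 5 * (k1 + k2 + k3))
    ((([] : List ℕ) : Multiset ℕ) + (([9 + 5 * k1, 8 + 5 * k2, 6 + 5 * k3] : List ℕ) : Multiset ℕ)) 0 :=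
  end_lit e698_ck (fun v => if v = 3 then k1 else if v = 4 then k2 else k3) (by simp; try omega) (by simp)

end Pool.Agent.Helper79.HH
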