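import Pool.Agent.Helper79.HH.Check

/-!
# End pieces
-/

namespace Pool.Agent.Helper79.HH

open Finset Pool.Agent.Helper79.HX Pool.Agent.Helper79.HG

/-- end piece 9, 9, 7, 12 neighbours of the large face -/
def e997L : List Tr :=
  [(0, 1, 2), (13, 22, 25), (4, 13, 25), (4, 24, 25), (23, 24, 25), (22, 23, 25), (21, 23, 24),
   (4, 5, 24), (5, 21, 24), (20, 21, 23), (20, 22, 23), (0, 20, 22), (0, 13, 22), (19, 20, 21),
   (5, 19, 21), (0, 19, 20), (5, 8, 19), (0, 8, 19), (0, 8, 17), (5, 8, 18), (8, 17, 18), (4, 5,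
   16), (5, 16, 18), (15, 16, 18), (15, 17, 18), (0, 3, 17), (3, 15, 17), (4, 14, 16), (14, 15,
   16), (3, 14, 15), (4, 12, 14), (3, 12, 14), (0, 7, 13), (4, 7, 13), (4, 7, 11), (4, 11, 12),
   (3, 9, 12), (9, 11, 12), (0, 7, 10), (7, 10, 11), (9, 10, 11), (0, 6, 10), (6, 9, 10), (3, 6,
   9), (0, 1, 6), (1, 3, 6), (0, 2, 3), (1, 2, 3)]

theorem e997_ck : ckE 26 e997L [(3, 6, 1, 10, 9), (4, 7, 13, 10, 11), (5, 8, 19, 17, 18)]
    20 [] 12 [9, 9, 7] = true := by decide +kernel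

theorem e997 (k1 k2 k3 : ℕ) : CoreG (12 + 5 * (k1 + k2 + k3))
    ((([] : List ℕ) : Multiset ℕ) + (([9 + 5 * k1, 9 + 5 * k2, 7 + 5 * k3] : List ℕ) : Multiset ℕ)) 0 :=
  end_lit e997_ck (fun v => if v = 3 then k1 else if v = 4 then k2 else k3) (by simp; try omega) (by simp)

/-- end piece 9, 9, 8, 8 neighbours of the large face -/
def e998L : List Tr :=
  [(0, 1, 2), (5, 19, 22), (3, 5, 22), (3, 21, 22), (20, 21, 22), (19, 20, 22), (18, 20, 21),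
   (3, 4, 21), (4, 18, 21), (17, 18, 20), (17, 19, 20), (15, 17, 19), (5, 15, 19), (16, 17, 18),
   (4, 16, 18), (15, 16, 17), (4, 14, 16), (14, 15, 16), (5, 14, 15), (4, 13, 14), (5, 13, 14),
   (3, 5, 8), (5, 12, 13), (5, 8, 12), (4, 11, 13), (11, 12, 13), (10, 11, 12), (8, 10, 12), (0,
   3, 8), (0, 8, 10), (4, 7, 11), (7, 10, 11), (0, 7, 10), (3, 4, 9), (4, 7, 9), (0, 7, 9), (3,
   6, 9), (0, 6, 9), (0, 1, 3), (1, 3, 6), (0, 2, 6), (1, 2, 6)]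

theorem e998_ck : ckE 23 e998L [(3, 6, 9, 2, 1), (4, 7, 9, 10, 11), (5, 8, 3, 10, 12)]
    17 [] 8 [9, 9, 8] = true := by decide +kernel

theorem e998 (k1 k2 k3 : ℕ) : CoreG (8 + 5 * (k1 + k2 + k3))
    ((([] : List ℕ) : Multiset ℕ) + (([9 + 5 * k1, 9 + 5 * k2, 8 + 5 * k3] : List ℕ) : Multiset ℕ)) 0 :=
  end_lit e998_ck (fun v => if v = 3 then k1 else if v = 4 then k2 else k3) (by simp; try omega) (by simp)

/-- end piece 6, 7, 7, 10 neighbours of the large face -/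
def e677L : List Tr :=
  [(0, 1, 2), (0, 15, 18), (0, 3, 18), (3, 17, 18), (16, 17, 18), (15, 16, 18), (14, 16, 17),
   (3, 4, 17), (4, 14, 17), (5, 14, 16), (5, 15, 16), (5, 8, 15), (0, 8, 15), (5, 13, 14), (4,
   13, 14), (5, 12, 13), (5, 8, 12), (0, 8, 10), (8, 10, 12), (4, 11, 13), (11, 12, 13), (10,
   11, 12), (4, 7, 11), (7, 10, 11), (0, 7, 10), (4, 7, 9), (0, 7, 9), (3, 4, 9), (0, 6, 9), (3,
   6, 9), (0, 1, 3), (1, 3, 6), (0, 2, 6), (1, 2, 6)]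

theorem e677_ck : ckE 19 e677L [(3, 6, 9, 2, 1), (4, 7, 9, 10, 11), (5, 8, 15, 10, 12)]
    13 [] 10 [7, 7, 6] = true := by decide +kernel

theorem e677 (k1 k2 k3 : ℕ) : CoreG (10 + 5 * (k1 + k2 + k3))
    ((([] : List ℕ) : Multiset ℕ) + (([7 + 5 * k1, 7 + 5 * k2, 6 + 5 * k3] : List ℕ) : Multiset ℕ)) 0 :=
  end_lit e677_ck (fun v => if v = 3 then k1 else if v = 4 then k2 else k3) (by simp; try omega) (by simp)

end Pool.Agent.Helper79.HH
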