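import Pool.Agent.Helper79.HH.Check

/-!
# End pieces
-/

namespace Pool.Agent.Helper79.HH

open Finset Pool.Agent.Helper79.HX Pool.Agent.Helper79.HG

/-- end piece 6, 7, 8, 9 neighbours of the large face -/
def e678L : List Tr :=
  [(0, 1, 2), (0, 15, 18), (0, 7, 18), (7, 17, 18), (16, 17, 18), (15, 16, 18), (14, 16, 17),
   (4, 7, 17), (4, 14, 17), (5, 14, 16), (5, 15, 16), (5, 8, 15), (0, 8, 15), (5, 13, 14), (4,
   13, 14), (5, 12, 13), (5, 8, 12), (0, 3, 8), (3, 8, 12), (4, 11, 13), (11, 12, 13), (3, 11,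
   12), (4, 9, 11), (3, 9, 11), (4, 7, 10), (0, 7, 10), (4, 9, 10), (0, 6, 10), (6, 9, 10), (3,
   6, 9), (0, 1, 6), (1, 3, 6), (0, 2, 3), (1, 2, 3)]

theorem e678_ck : ckE 19 e678L [(3, 6, 1, 10, 9), (4, 7, 10, 18, 17), (5, 8, 15, 3, 12)]
    13 [] 9 [8, 7, 6] = true := by decide +kernel

theorem e678 (k1 k2 k3 : ℕ) : CoreG (9 + 5 * (k1 + k2 + k3))
    ((([] : List ℕ) : Multiset ℕ) + (([8 + 5 * k1, 7 + 5 * k2, 6 + 5 * k3] : List ℕ) : Multiset ℕ)) 0 :=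
  end_lit e678_ck (fun v => if v = 3 then k1 else if v = 4 then k2 else k3) (by simp; try omega) (by simp)

/-- end piece 6, 8, 8, 11 neighbours of the large face -/
def e688L : List Tr :=
  [(0, 1, 2), (13, 18, 21), (4, 13, 21), (4, 20, 21), (19, 20, 21), (18, 19, 21), (17, 19, 20),
   (4, 5, 20), (5, 17, 20), (16, 17, 19), (16, 18, 19), (0, 16, 18), (0, 13, 18), (15, 16, 17),
   (5, 15, 17), (0, 15, 16), (5, 8, 15), (0, 8, 15), (4, 5, 14), (5, 8, 14), (0, 3, 8), (3, 8,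
   14), (4, 12, 14), (3, 12, 14), (0, 7, 13), (4, 7, 13), (4, 7, 11), (4, 11, 12), (3, 9, 12),
   (9, 11, 12), (0, 7, 10), (7, 10, 11), (9, 10, 11), (0, 6, 10), (6, 9, 10), (3, 6, 9), (0, 1,
   6), (1, 3, 6), (0, 2, 3), (1, 2, 3)]

theorem e688_ck : ckE 22 e688L [(3, 6, 1, 10, 9), (4, 7, 13, 10, 11), (5, 8, 15, 3, 14)]
    16 [] 11 [8, 8, 6] = true := by decide +kernel

theorem e688 (k1 k2 k3 : ℕ) : CoreG (11 + 5 * (k1 + k2 + k3))
    ((([] : List ℕ) : Multiset ℕ) + (([8 + 5 * k1, 8 + 5 * k2, 6 + 5 * k3] : List ℕ) : Multiset ℕ)) 0 :=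
  end_lit e688_ck (fun v => if v = 3 then k1 else if v = 4 then k2 else k3) (by simp; try omega) (by simp)

/-- end piece 9, 7, 7, 8 neighbours of the large face -/
def e977L : List Tr :=
  [(0, 1, 2), (4, 16, 19), (4, 12, 19), (12, 18, 19), (17, 18, 19), (16, 17, 19), (15, 17, 18),
   (5, 12, 18), (5, 15, 18), (14, 15, 17), (14, 16, 17), (3, 14, 16), (3, 4, 16), (13, 14, 15),
   (5, 13, 15), (3, 13, 14), (5, 8, 13), (3, 8, 13), (5, 11, 12), (4, 11, 12), (5, 10, 11), (5,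
   8, 10), (0, 3, 8), (0, 8, 10), (4, 7, 11), (7, 10, 11), (0, 7, 10), (3, 4, 9), (4, 7, 9), (0,
   7, 9), (3, 6, 9), (0, 6, 9), (0, 1, 3), (1, 3, 6), (0, 2, 6), (1, 2, 6)]

theorem e977_ck : ckE 20 e977L [(3, 6, 9, 2, 1), (4, 7, 9, 10, 11), (5, 8, 10, 3, 13)]
    14 [] 8 [9, 7, 7] = true := by decide +kernel

theorem e977 (k1 k2 k3 : ℕ) : CoreG (8 + 5 * (k1 + k2 + k3))
    ((([] : List ℕ) : Multiset ℕ) + (([9 + 5 * k1, 7 + 5 * k2, 7 + 5 * k3] : List ℕ) : Multiset ℕ)) 0 :=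
  end_lit e977_ck (fun v => if v = 3 then k1 else if v = 4 then k2 else k3) (by simp; try omega) (by simp)

end Pool.Agent.Helper79.HH
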