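import Pool.Agent.Helper79.HH.Check

/-!
# End pieces
-/

namespace Pool.Agent.Helper79.HH

open Finset Pool.Agent.Helper79.HX Pool.Agent.Helper79.HG

/-- end piece 9, 7, 8, 9 neighbours of the large face -/
def e978L : List Tr :=
  [(0, 1, 2), (0, 18, 21), (0, 7, 21), (7, 20, 21), (19, 20, 21), (18, 19, 21), (17, 19, 20),
   (4, 7, 20), (4, 17, 20), (5, 17, 19), (5, 18, 19), (5, 8, 18), (0, 8, 18), (0, 3, 8), (5, 8,
   16), (3, 8, 16), (5, 15, 17), (4, 15, 17), (5, 14, 15), (5, 14, 16), (12, 14, 16), (3, 12,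
   16), (4, 13, 15), (13, 14, 15), (12, 13, 14), (4, 11, 13), (11, 12, 13), (3, 11, 12), (4, 9,
   11), (3, 9, 11), (4, 7, 10), (0, 7, 10), (4, 9, 10), (0, 6, 10), (6, 9, 10), (3, 6, 9), (0,
   1, 6), (1, 3, 6), (0, 2, 3), (1, 2, 3)]

theorem e978_ck : ckE 22 e978L [(3, 6, 1, 10, 9), (4, 7, 10, 21, 20), (5, 8, 18, 3, 16)]
    16 [] 9 [9, 8, 7] = true := by decide +kernel

theorem e978 (k1 k2 k3 : ℕ) : CoreG (9 + 5 * (k1 + k2 + k3))
    ((([] : List ℕ) : Multiset ℕ) + (([9 + 5 * k1, 8 + 5 * k2, 7 + 5 * k3] : List ℕ) : Multiset ℕ)) 0 :=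
  end_lit e978_ck (fun v => if v = 3 then k1 else if v = 4 then k2 else k3) (by simp; try omega) (by simp)

/-- end piece 9, 8, 8, 9 neighbours of the large face -/
def e988L : List Tr :=
  [(0, 1, 2), (4, 19, 22), (4, 14, 22), (14, 21, 22), (20, 21, 22), (19, 20, 22), (18, 20, 21),
   (5, 14, 21), (5, 18, 21), (17, 18, 20), (17, 19, 20), (3, 17, 19), (3, 4, 19), (16, 17, 18),
   (5, 16, 18), (3, 16, 17), (5, 15, 16), (3, 15, 16), (0, 3, 15), (5, 8, 15), (0, 8, 15), (5,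
   13, 14), (4, 13, 14), (5, 12, 13), (5, 8, 12), (8, 10, 12), (0, 8, 10), (4, 11, 13), (11, 12,
   13), (10, 11, 12), (4, 7, 11), (7, 10, 11), (0, 7, 10), (3, 4, 9), (4, 7, 9), (0, 7, 9), (3,
   6, 9), (0, 6, 9), (0, 1, 3), (1, 3, 6), (0, 2, 6), (1, 2, 6)]

theorem e988_ck : ckE 23 e988L [(3, 6, 9, 2, 1), (4, 7, 9, 10, 11), (5, 8, 15, 10, 12)]
    17 [] 9 [9, 8, 8] = true := by decide +kernel

theorem e988 (k1 k2 k3 : ℕ) : CoreG (9 + 5 * (k1 + k2 + k3))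
    ((([] : List ℕ) : Multiset ℕ) + (([9 + 5 * k1, 8 + 5 * k2, 8 + 5 * k3] : List ℕ) : Multiset ℕ)) 0 :=
  end_lit e988_ck (fun v => if v = 3 then k1 else if v = 4 then k2 else k3) (by simp; try omega) (by simp)

/-- end piece 6, 6, 6, 6, 10 neighbours of the large face -/
def e6666L : List Tr :=
  [(0, 1, 2), (10, 13, 16), (4, 10, 16), (4, 15, 16), (14, 15, 16), (13, 14, 16), (12, 14, 15),
   (4, 5, 15), (5, 12, 15), (11, 12, 14), (11, 13, 14), (0, 11, 13), (0, 10, 13), (8, 11, 12),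
   (5, 8, 12), (0, 8, 11), (5, 8, 17), (0, 8, 17), (4, 5, 9), (5, 9, 17), (0, 7, 10), (4, 7,
   10), (4, 7, 9), (0, 3, 7), (3, 7, 9), (3, 9, 17), (0, 6, 17), (3, 6, 17), (0, 1, 3), (1, 3,
   6), (0, 2, 6), (1, 2, 6)]

theorem e6666_ck : ckE 18 e6666L [(3, 6, 17, 2, 1), (4, 7, 10, 3, 9), (5, 8, 17, 11, 12)]
    11 [6] 10 [6, 6, 6] = true := by decide +kernel

theorem e6666 (k1 k2 k3 : ℕ) : CoreG (10 + 5 * (k1 + k2 + k3))
    ((([6] : List ℕ) : Multiset ℕ) + (([6 + 5 * k1, 6 + 5 * k2, 6 + 5 * k3] : List ℕ) : Multiset ℕ)) 0 :=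
  end_lit e6666_ck (fun v => if v = 3 then k1 else if v = 4 then k2 else k3) (by simp; try omega) (by simp)

end Pool.Agent.Helper79.HH
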