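import Pool.Agent.Helper79.HH.Asm0
import Pool.Agent.Helper79.HH.End4
import Pool.Agent.Helper79.HH.End5
import Pool.Agent.Helper79.HH.End6
import Pool.Agent.Helper79.HH.End7
import Pool.Agent.Helper79.HH.End8

/-!
# The table of the end pieces
-/

namespace Pool.Agent.Helper79.HH

set_option linter.unusedSimpArgs false

open Finset Pool.Agent.Helper79.HX Pool.Agent.Helper79.HG

theorem end21 {a b c : ℕ} (ha : Al a) (hb : Al b) (hc : Be c) : EndOK {a, b, c} := by
  rcases ha with ⟨k1, rfl⟩ | ⟨k1, rfl⟩
  · rcases hb with ⟨k2, rfl⟩ | ⟨k2, rfl⟩
    · rcases hc with ⟨k3, rfl⟩ | ⟨k3, rfl⟩
      · refine EndOK.of (e667 k3 k1 k2) (by omega) ?_ ?_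
        · simp only [Multiset.insert_eq_cons, Multiset.sum_cons, Multiset.sum_singleton]
          omega
        · intro j
          simp only [Multiset.count_add, ← Multiset.cons_coe, Multiset.coe_nil,
            Multiset.count_cons, Multiset.count_zero, Multiset.insert_eq_cons, Multiset.count_singleton,
            Multiset.count_replicate, Nat.mul_zero, Nat.add_zero]
          first
          | omega
          | (split_ifs <;> omega)
      · refine EndOK.of (e668 k3 k1 k2) (by omega) ?_ ?_
        · simp only [Multiset.insert_eq_cons, Multiset.sum_cons, Multiset.sum_singleton]
          omega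
        · intro j
          simp only [Multiset.count_add, ← Multiset.cons_coe, Multiset.coe_nil,
            Multiset.count_cons, Multiset.count_zero, Multiset.insert_eq_cons, Multiset.count_singleton,
            Multiset.count_replicate, Nat.mul_zero, Nat.add_zero]
          first
          | omega
          | (split_ifs <;> omega)
    · rcases hc with ⟨k3, rfl⟩ | ⟨k3, rfl⟩
      · refine EndOK.of (e697 k2 k3 k1) (by omega) ?_ ?_
        · simp only [Multiset.insert_eq_cons, Multiset.sum_cons, Multiset.sum_singleton]
          omega
        · intro j
          simp only [Multiset.count_add, ← Multiset.cons_coe, Multiset.coe_nil,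
            Multiset.count_cons, Multiset.count_zero, Multiset.insert_eq_cons, Multiset.count_singleton,
            Multiset.count_replicate, Nat.mul_zero, Nat.add_zero]
          first
          | omega
          | (split_ifs <;> omega)
      · refine EndOK.of (e698 k2 k3 k1) (by omega) ?_ ?_
        · simp only [Multiset.insert_eq_cons, Multiset.sum_cons, Multiset.sum_singleton]
          omega
        · intro j
          simp only [Multiset.count_add, ← Multiset.cons_coe, Multiset.coe_nil,
            Multiset.count_cons, Multiset.count_zero, Multiset.insert_eq_cons, Multiset.count_singleton,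
            Multiset.count_replicate, Nat.mul_zero, Nat.add_zero]
          first
          | omega
          | (split_ifs <;> omega)
  · rcases hb with ⟨k2, rfl⟩ | ⟨k2, rfl⟩
    · rcases hc with ⟨k3, rfl⟩ | ⟨k3, rfl⟩
      · refine EndOK.of (e697 k1 k3 k2) (by omega) ?_ ?_
        · simp only [Multiset.insert_eq_cons, Multiset.sum_cons, Multiset.sum_singleton]
          omega
        · intro j
          simp only [Multiset.count_add, ← Multiset.cons_coe, Multiset.coe_nil,
            Multiset.count_cons, Multiset.count_zero, Multiset.insert_eq_cons, Multiset.count_singleton,
            Multiset.count_replicate, Nat.mul_zero, Nat.add_zero]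
          first
          | omega
          | (split_ifs <;> omega)
      · refine EndOK.of (e698 k1 k3 k2) (by omega) ?_ ?_
        · simp only [Multiset.insert_eq_cons, Multiset.sum_cons, Multiset.sum_singleton]
          omega
        · intro j
          simp only [Multiset.count_add, ← Multiset.cons_coe, Multiset.coe_nil,
            Multiset.count_cons, Multiset.count_zero, Multiset.insert_eq_cons, Multiset.count_singleton,
            Multiset.count_replicate, Nat.mul_zero, Nat.add_zero]
          first
          | omega
          | (split_ifs <;> omega)
    · rcases hc with ⟨k3, rfl⟩ | ⟨k3, rfl⟩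
      · refine EndOK.of (e997 k1 k2 k3) (by omega) ?_ ?_
        · simp only [Multiset.insert_eq_cons, Multiset.sum_cons, Multiset.sum_singleton]
          omega
        · intro j
          simp only [Multiset.count_add, ← Multiset.cons_coe, Multiset.coe_nil,
            Multiset.count_cons, Multiset.count_zero, Multiset.insert_eq_cons, Multiset.count_singleton,
            Multiset.count_replicate, Nat.mul_zero, Nat.add_zero]
          first
          | omega
          | (split_ifs <;> omega)
      · refine EndOK.of (e998 k1 k2 k3) (by omega) ?_ ?_
        · simp only [Multiset.insert_eq_cons, Multiset.sum_cons, Multiset.sum_singleton]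
          omega
        · intro j
          simp only [Multiset.count_add, ← Multiset.cons_coe, Multiset.coe_nil,
            Multiset.count_cons, Multiset.count_zero, Multiset.insert_eq_cons, Multiset.count_singleton,
            Multiset.count_replicate, Nat.mul_zero, Nat.add_zero]
          first
          | omega
          | (split_ifs <;> omega)

theorem end12 {a b c : ℕ} (ha : Al a) (hb : Be b) (hc : Be c) : EndOK {a, b, c} := by
  rcases ha with ⟨k1, rfl⟩ | ⟨k1, rfl⟩
  · rcases hb with ⟨k2, rfl⟩ | ⟨k2, rfl⟩
    · rcases hc with ⟨k3, rfl⟩ | ⟨k3, rfl⟩
      · refine EndOK.of (e677 k2 k3 k1) (by omega) ?_ ?_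
        · simp only [Multiset.insert_eq_cons, Multiset.sum_cons, Multiset.sum_singleton]
          omega
        · intro j
          simp only [Multiset.count_add, ← Multiset.cons_coe, Multiset.coe_nil,
            Multiset.count_cons, Multiset.count_zero, Multiset.insert_eq_cons, Multiset.count_singleton,
            Multiset.count_replicate, Nat.mul_zero, Nat.add_zero]
          first
          | omega
          | (split_ifs <;> omega)
      · refine EndOK.of (e678 k3 k2 k1) (by omega) ?_ ?_
        · simp only [Multiset.insert_eq_cons, Multiset.sum_cons, Multiset.sum_singleton]
          omega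
        · intro j
          simp only [Multiset.count_add, ← Multiset.cons_coe, Multiset.coe_nil,
            Multiset.count_cons, Multiset.count_zero, Multiset.insert_eq_cons, Multiset.count_singleton,
            Multiset.count_replicate, Nat.mul_zero, Nat.add_zero]
          first
          | omega
          | (split_ifs <;> omega)
    · rcases hc with ⟨k3, rfl⟩ | ⟨k3, rfl⟩
      · refine EndOK.of (e678 k2 k3 k1) (by omega) ?_ ?_
        · simp only [Multiset.insert_eq_cons, Multiset.sum_cons, Multiset.sum_singleton]
          omega
        · intro j
          simp only [Multiset.count_add, ← Multiset.cons_coe, Multiset.coe_nil,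
            Multiset.count_cons, Multiset.count_zero, Multiset.insert_eq_cons, Multiset.count_singleton,
            Multiset.count_replicate, Nat.mul_zero, Nat.add_zero]
          first
          | omega
          | (split_ifs <;> omega)
      · refine EndOK.of (e688 k2 k3 k1) (by omega) ?_ ?_
        · simp only [Multiset.insert_eq_cons, Multiset.sum_cons, Multiset.sum_singleton]
          omega
        · intro j
          simp only [Multiset.count_add, ← Multiset.cons_coe, Multiset.coe_nil,
            Multiset.count_cons, Multiset.count_zero, Multiset.insert_eq_cons, Multiset.count_singleton,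
            Multiset.count_replicate, Nat.mul_zero, Nat.add_zero]
          first
          | omega
          | (split_ifs <;> omega)
  · rcases hb with ⟨k2, rfl⟩ | ⟨k2, rfl⟩
    · rcases hc with ⟨k3, rfl⟩ | ⟨k3, rfl⟩
      · refine EndOK.of (e977 k1 k2 k3) (by omega) ?_ ?_
        · simp only [Multiset.insert_eq_cons, Multiset.sum_cons, Multiset.sum_singleton]
          omega
        · intro j
          simp only [Multiset.count_add, ← Multiset.cons_coe, Multiset.coe_nil,
            Multiset.count_cons, Multiset.count_zero, Multiset.insert_eq_cons, Multiset.count_singleton,
            Multiset.count_replicate, Nat.mul_zero, Nat.add_zero]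
          first
          | omega
          | (split_ifs <;> omega)
      · refine EndOK.of (e978 k1 k3 k2) (by omega) ?_ ?_
        · simp only [Multiset.insert_eq_cons, Multiset.sum_cons, Multiset.sum_singleton]
          omega
        · intro j
          simp only [Multiset.count_add, ← Multiset.cons_coe, Multiset.coe_nil,
            Multiset.count_cons, Multiset.count_zero, Multiset.insert_eq_cons, Multiset.count_singleton,
            Multiset.count_replicate, Nat.mul_zero, Nat.add_zero]
          first
          | omega
          | (split_ifs <;> omega)
    · rcases hc with ⟨k3, rfl⟩ | ⟨k3, rfl⟩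
      · refine EndOK.of (e978 k1 k2 k3) (by omega) ?_ ?_
        · simp only [Multiset.insert_eq_cons, Multiset.sum_cons, Multiset.sum_singleton]
          omega
        · intro j
          simp only [Multiset.count_add, ← Multiset.cons_coe, Multiset.coe_nil,
            Multiset.count_cons, Multiset.count_zero, Multiset.insert_eq_cons, Multiset.count_singleton,
            Multiset.count_replicate, Nat.mul_zero, Nat.add_zero]
          first
          | omega
          | (split_ifs <;> omega)
      · refine EndOK.of (e988 k1 k2 k3) (by omega) ?_ ?_
        · simp only [Multiset.insert_eq_cons, Multiset.sum_cons, Multiset.sum_singleton]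
          omega
        · intro j
          simp only [Multiset.count_add, ← Multiset.cons_coe, Multiset.coe_nil,
            Multiset.count_cons, Multiset.count_zero, Multiset.insert_eq_cons, Multiset.count_singleton,
            Multiset.count_replicate, Nat.mul_zero, Nat.add_zero]
          first
          | omega
          | (split_ifs <;> omega)

end Pool.Agent.Helper79.HH
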