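import Pool.Agent.Helper79.HH.Check

/-!
# End pieces
-/

namespace Pool.Agent.Helper79.HH

open Finset Pool.Agent.Helper79.HX Pool.Agent.Helper79.HG

/-- end piece 6, 9, 9, 9, 10 neighbours of the large face -/
def e6999L : List Tr :=
  [(0, 1, 2), (19, 23, 26), (3, 19, 26), (3, 25, 26), (24, 25, 26), (23, 24, 26), (22, 24, 25),
   (3, 4, 25), (4, 22, 25), (21, 22, 24), (21, 23, 24), (6, 21, 23), (6, 19, 23), (20, 21, 22),
   (4, 20, 22), (6, 20, 21), (4, 18, 20), (6, 18, 20), (6, 10, 19), (3, 10, 19), (6, 10, 15),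
   (6, 15, 16), (6, 17, 18), (6, 16, 17), (4, 14, 18), (14, 17, 18), (5, 14, 17), (5, 16, 17),
   (0, 3, 10), (0, 10, 15), (9, 15, 16), (5, 9, 16), (0, 9, 15), (5, 9, 12), (0, 9, 12), (4, 13,
   14), (5, 13, 14), (5, 12, 13), (4, 8, 13), (8, 12, 13), (0, 8, 12), (3, 4, 11), (4, 8, 11),
   (0, 8, 11), (3, 7, 11), (0, 7, 11), (0, 1, 3), (1, 3, 7), (0, 2, 7), (1, 2, 7)]

theorem e6999_ck : ckE 27 e6999L [(3, 7, 11, 2, 1), (4, 8, 11, 12, 13), (5, 9, 12, 15, 16), (6, 10, 15, 3, 19)]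
    20 [] 10 [9, 9, 6, 9] = true := by decide +kernel

theorem e6999 (k1 k2 k3 k4 : ℕ) : CoreG (10 + 5 * (k1 + k2 + k3 + k4))
    ((([] : List ℕ) : Multiset ℕ) + (([9 + 5 * k1, 9 + 5 * k2, 6 + 5 * k3, 9 + 5 * k4] : List ℕ) : Multiset ℕ)) 0 :=
  end_lit e6999_ck (fun v => if v = 3 then k1 else if v = 4 then k2 else if v = 5 then k3 else k4) (by simp; try omega) (by simp)

/-- end piece 9, 9, 9, 9, 11 neighbours of the large face -/
def e9999L : List Tr :=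
  [(0, 1, 2), (5, 27, 30), (4, 5, 30), (4, 29, 30), (28, 29, 30), (27, 28, 30), (26, 28, 29),
   (4, 6, 29), (6, 26, 29), (25, 26, 28), (25, 27, 28), (23, 25, 27), (5, 23, 27), (24, 25, 26),
   (6, 24, 26), (23, 24, 25), (6, 22, 24), (22, 23, 24), (5, 22, 23), (6, 21, 22), (5, 21, 22),
   (5, 20, 21), (6, 19, 21), (19, 20, 21), (5, 9, 20), (18, 19, 20), (9, 18, 20), (6, 10, 19),
   (10, 18, 19), (0, 10, 18), (0, 9, 18), (3, 4, 6), (3, 6, 10), (0, 3, 10), (4, 5, 17), (5, 9,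
   17), (0, 9, 17), (4, 8, 17), (0, 8, 17), (3, 4, 15), (4, 8, 16), (4, 15, 16), (0, 8, 14), (8,
   14, 16), (13, 14, 16), (13, 15, 16), (3, 11, 15), (11, 13, 15), (0, 12, 14), (12, 13, 14),
   (11, 12, 13), (0, 7, 12), (7, 11, 12), (3, 7, 11), (0, 1, 7), (1, 3, 7), (0, 2, 3), (1, 2,
   3)]

theorem e9999_ck : ckE 31 e9999L [(3, 7, 1, 12, 11), (4, 8, 17, 14, 16), (5, 9, 17, 18, 20), (6, 10, 3, 18, 19)]
    24 [] 11 [9, 9, 9, 9] = true := by decide +kernel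

theorem e9999 (k1 k2 k3 k4 : ℕ) : CoreG (11 + 5 * (k1 + k2 + k3 + k4))
    ((([] : List ℕ) : Multiset ℕ) + (([9 + 5 * k1, 9 + 5 * k2, 9 + 5 * k3, 9 + 5 * k4] : List ℕ) : Multiset ℕ)) 0 :=
  end_lit e9999_ck (fun v => if v = 3 then k1 else if v = 4 then k2 else if v = 5 then k3 else k4) (by simp; try omega) (by simp)

/-- end piece 7, 7, 7, 7, 11 neighbours of the large face -/
def e7777L : List Tr :=
  [(0, 1, 2), (0, 10, 22), (0, 3, 22), (3, 21, 22), (6, 21, 22), (6, 10, 22), (6, 20, 21), (3,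
   4, 21), (4, 20, 21), (6, 19, 20), (4, 14, 20), (14, 19, 20), (6, 18, 19), (5, 14, 19), (5,
   18, 19), (6, 17, 18), (6, 10, 17), (10, 15, 17), (0, 10, 15), (16, 17, 18), (5, 16, 18), (15,
   16, 17), (5, 9, 16), (9, 15, 16), (0, 9, 15), (5, 9, 13), (0, 9, 13), (5, 12, 14), (4, 12,
   14), (5, 12, 13), (0, 8, 13), (8, 12, 13), (4, 8, 12), (0, 8, 11), (4, 8, 11), (3, 4, 11),
   (0, 7, 11), (3, 7, 11), (0, 1, 3), (1, 3, 7), (0, 2, 7), (1, 2, 7)]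

theorem e7777_ck : ckE 23 e7777L [(3, 7, 11, 2, 1), (4, 8, 11, 13, 12), (5, 9, 13, 15, 16), (6, 10, 22, 15, 17)]
    16 [] 11 [7, 7, 7, 7] = true := by decide +kernel

theorem e7777 (k1 k2 k3 k4 : ℕ) : CoreG (11 + 5 * (k1 + k2 + k3 + k4))
    ((([] : List ℕ) : Multiset ℕ) + (([7 + 5 * k1, 7 + 5 * k2, 7 + 5 * k3, 7 + 5 * k4] : List ℕ) : Multiset ℕ)) 0 :=
  end_lit e7777_ck (fun v => if v = 3 then k1 else if v = 4 then k2 else if v = 5 then k3 else k4) (by simp; try omega) (by simp)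

end Pool.Agent.Helper79.HH
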