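import Pool.Agent.Helper79.HH.Check

/-!
# End pieces
-/

namespace Pool.Agent.Helper79.HH

open Finset Pool.Agent.Helper79.HX Pool.Agent.Helper79.HG

/-- end piece 6, 6, 6, 11, 14 neighbours of the large face -/
def e666bL : List Tr :=
  [(0, 1, 2), (5, 23, 26), (5, 19, 26), (19, 25, 26), (24, 25, 26), (23, 24, 26), (22, 24, 25),
   (6, 19, 25), (6, 22, 25), (21, 22, 24), (21, 23, 24), (0, 21, 23), (0, 5, 23), (20, 21, 22),
   (6, 20, 22), (0, 20, 21), (6, 10, 20), (0, 10, 20), (6, 18, 19), (5, 18, 19), (6, 10, 18),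
   (5, 17, 18), (10, 17, 18), (0, 10, 17), (5, 9, 17), (0, 9, 17), (0, 9, 16), (5, 9, 15), (9,
   15, 16), (0, 13, 16), (14, 15, 16), (13, 14, 16), (5, 12, 15), (12, 14, 15), (11, 12, 14),
   (11, 13, 14), (0, 8, 13), (8, 11, 13), (4, 5, 12), (4, 11, 12), (4, 8, 11), (0, 3, 8), (3, 4,
   8), (0, 5, 7), (4, 5, 7), (3, 4, 7), (0, 1, 7), (1, 3, 7), (0, 2, 3), (1, 2, 3)]

theorem e666b_ck : ckE 27 e666bL [(3, 7, 1, 5, 4), (4, 8, 3, 13, 11), (5, 9, 17, 16, 15), (6, 10, 20, 17, 18)]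
    20 [] 14 [6, 6, 11, 6] = true := by decide +kernel

theorem e666b (k1 k2 k3 k4 : ℕ) : CoreG (14 + 5 * (k1 + k2 + k3 + k4))
    ((([] : List ℕ) : Multiset ℕ) + (([6 + 5 * k1, 6 + 5 * k2, 11 + 5 * k3, 6 + 5 * k4] : List ℕ) : Multiset ℕ)) 0 :=
  end_lit e666b_ck (fun v => if v = 3 then k1 else if v = 4 then k2 else if v = 5 then k3 else k4) (by simp; try omega) (by simp)

/-- end piece 6, 6, 6, 9, 11 neighbours of the large face -/
def e6669L : List Tr :=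
  [(0, 1, 2), (0, 10, 21), (0, 11, 21), (11, 20, 21), (19, 20, 21), (10, 19, 21), (18, 19, 20),
   (4, 11, 20), (4, 18, 20), (6, 18, 19), (6, 10, 19), (6, 10, 17), (0, 10, 17), (6, 16, 18),
   (4, 16, 18), (5, 6, 16), (5, 6, 17), (0, 9, 17), (5, 9, 17), (4, 15, 16), (5, 15, 16), (5,
   14, 15), (5, 9, 14), (0, 9, 12), (9, 12, 14), (4, 13, 15), (13, 14, 15), (12, 13, 14), (4, 8,
   13), (8, 12, 13), (0, 8, 12), (3, 4, 8), (0, 3, 8), (0, 7, 11), (4, 7, 11), (3, 4, 7), (0, 1,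
   7), (1, 3, 7), (0, 2, 3), (1, 2, 3)]

theorem e6669_ck : ckE 22 e6669L [(3, 7, 1, 11, 4), (4, 8, 3, 12, 13), (5, 9, 17, 12, 14), (6, 10, 17, 21, 19)]
    15 [] 11 [6, 9, 6, 6] = true := by decide +kernel

theorem e6669 (k1 k2 k3 k4 : ℕ) : CoreG (11 + 5 * (k1 + k2 + k3 + k4))
    ((([] : List ℕ) : Multiset ℕ) + (([6 + 5 * k1, 9 + 5 * k2, 6 + 5 * k3, 6 + 5 * k4] : List ℕ) : Multiset ℕ)) 0 :=
  end_lit e6669_ck (fun v => if v = 3 then k1 else if v = 4 then k2 else if v = 5 then k3 else k4) (by simp; try omega) (by simp)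

/-- end piece 6, 6, 9, 9, 11 neighbours of the large face -/
def e6699L : List Tr :=
  [(0, 1, 2), (0, 10, 24), (0, 15, 24), (15, 23, 24), (22, 23, 24), (10, 22, 24), (21, 22, 23),
   (4, 15, 23), (4, 21, 23), (6, 21, 22), (6, 10, 22), (6, 10, 20), (0, 10, 20), (6, 19, 21),
   (4, 19, 21), (5, 6, 19), (5, 6, 20), (0, 9, 20), (5, 9, 20), (4, 18, 19), (5, 18, 19), (5,
   17, 18), (5, 9, 17), (0, 3, 9), (3, 9, 17), (4, 16, 18), (16, 17, 18), (3, 16, 17), (4, 14,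
   16), (3, 14, 16), (4, 8, 15), (0, 8, 15), (4, 8, 13), (4, 13, 14), (3, 11, 14), (11, 13, 14),
   (0, 8, 12), (8, 12, 13), (11, 12, 13), (0, 7, 12), (7, 11, 12), (3, 7, 11), (0, 1, 7), (1, 3,
   7), (0, 2, 3), (1, 2, 3)]

theorem e6699_ck : ckE 25 e6699L [(3, 7, 1, 12, 11), (4, 8, 15, 12, 13), (5, 9, 20, 3, 17), (6, 10, 20, 24, 22)]
    18 [] 11 [9, 9, 6, 6] = true := by decide +kernel

theorem e6699 (k1 k2 k3 k4 : ℕ) : CoreG (11 + 5 * (k1 + k2 + k3 + k4))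
    ((([] : List ℕ) : Multiset ℕ) + (([9 + 5 * k1, 9 + 5 * k2, 6 + 5 * k3, 6 + 5 * k4] : List ℕ) : Multiset ℕ)) 0 :=
  end_lit e6699_ck (fun v => if v = 3 then k1 else if v = 4 then k2 else if v = 5 then k3 else k4) (by simp; try omega) (by simp)

end Pool.Agent.Helper79.HH
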