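import Pool.Agent.Helper79.HH.Check

/-!
# End pieces
-/

namespace Pool.Agent.Helper79.HH

open Finset Pool.Agent.Helper79.HX Pool.Agent.Helper79.HG

/-- end piece 7, 7, 7, 8, 10 neighbours of the large face -/
def e7778L : List Tr :=
  [(0, 1, 2), (4, 19, 22), (4, 14, 22), (14, 21, 22), (20, 21, 22), (19, 20, 22), (17, 20, 21),
   (5, 14, 21), (5, 17, 21), (6, 17, 20), (6, 19, 20), (6, 18, 19), (4, 18, 19), (3, 4, 18), (6,
   10, 18), (3, 10, 18), (6, 16, 17), (5, 16, 17), (6, 15, 16), (6, 10, 15), (0, 10, 15), (0, 3,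
   10), (5, 9, 16), (9, 15, 16), (0, 9, 15), (5, 9, 12), (0, 9, 12), (5, 13, 14), (4, 13, 14),
   (5, 12, 13), (4, 8, 13), (8, 12, 13), (0, 8, 12), (4, 8, 11), (0, 8, 11), (3, 4, 11), (0, 7,
   11), (3, 7, 11), (0, 1, 3), (1, 3, 7), (0, 2, 7), (1, 2, 7)]

theorem e7778_ck : ckE 23 e7778L [(3, 7, 11, 2, 1), (4, 8, 11, 12, 13), (5, 9, 12, 15, 16), (6, 10, 15, 3, 18)]
    16 [] 10 [7, 8, 7, 7] = true := by decide +kernel

theorem e7778 (k1 k2 k3 k4 : ℕ) : CoreG (10 + 5 * (k1 + k2 + k3 + k4))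
    ((([] : List ℕ) : Multiset ℕ) + (([7 + 5 * k1, 8 + 5 * k2, 7 + 5 * k3, 7 + 5 * k4] : List ℕ) : Multiset ℕ)) 0 :=
  end_lit e7778_ck (fun v => if v = 3 then k1 else if v = 4 then k2 else if v = 5 then k3 else k4) (by simp; try omega) (by simp)

/-- end piece 7, 7, 8, 8, 10 neighbours of the large face -/
def e7788L : List Tr :=
  [(0, 1, 2), (16, 20, 23), (5, 16, 23), (5, 22, 23), (21, 22, 23), (20, 21, 23), (6, 21, 22),
   (5, 18, 22), (6, 18, 22), (6, 19, 21), (19, 20, 21), (4, 19, 20), (4, 16, 20), (6, 13, 19),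
   (4, 13, 19), (3, 6, 13), (6, 10, 18), (3, 6, 10), (5, 17, 18), (10, 17, 18), (0, 10, 17), (0,
   3, 10), (5, 9, 17), (0, 9, 17), (5, 15, 16), (4, 15, 16), (5, 9, 15), (4, 14, 15), (9, 14,
   15), (0, 9, 14), (4, 8, 14), (0, 8, 14), (4, 12, 13), (3, 12, 13), (4, 8, 12), (0, 8, 11),
   (8, 11, 12), (3, 11, 12), (0, 7, 11), (3, 7, 11), (0, 1, 3), (1, 3, 7), (0, 2, 7), (1, 2, 7)]

theorem e7788_ck : ckE 24 e7788L [(3, 7, 11, 2, 1), (4, 8, 14, 11, 12), (5, 9, 17, 14, 15), (6, 10, 3, 17, 18)]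
    17 [] 10 [8, 8, 7, 7] = true := by decide +kernel

theorem e7788 (k1 k2 k3 k4 : ℕ) : CoreG (10 + 5 * (k1 + k2 + k3 + k4))
    ((([] : List ℕ) : Multiset ℕ) + (([8 + 5 * k1, 8 + 5 * k2, 7 + 5 * k3, 7 + 5 * k4] : List ℕ) : Multiset ℕ)) 0 :=
  end_lit e7788_ck (fun v => if v = 3 then k1 else if v = 4 then k2 else if v = 5 then k3 else k4) (by simp; try omega) (by simp)

/-- end piece 7, 8, 8, 8, 10 neighbours of the large face -/
def e7888L : List Tr :=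
  [(0, 1, 2), (17, 21, 24), (5, 17, 24), (5, 23, 24), (22, 23, 24), (21, 22, 24), (20, 22, 23),
   (4, 5, 23), (4, 20, 23), (19, 20, 22), (19, 21, 22), (6, 19, 21), (6, 17, 21), (18, 19, 20),
   (4, 18, 20), (6, 18, 19), (4, 16, 18), (6, 16, 18), (6, 15, 17), (5, 15, 17), (6, 14, 15),
   (6, 10, 16), (6, 10, 14), (4, 13, 16), (10, 13, 16), (5, 9, 15), (9, 14, 15), (0, 10, 14),
   (0, 10, 13), (0, 9, 14), (3, 5, 9), (0, 3, 9), (4, 8, 13), (0, 8, 13), (4, 5, 12), (3, 5,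
   12), (4, 8, 12), (0, 8, 11), (8, 11, 12), (3, 11, 12), (0, 7, 11), (3, 7, 11), (0, 1, 3), (1,
   3, 7), (0, 2, 7), (1, 2, 7)]

theorem e7888_ck : ckE 25 e7888L [(3, 7, 11, 2, 1), (4, 8, 13, 11, 12), (5, 9, 3, 14, 15), (6, 10, 14, 13, 16)]
    18 [] 10 [7, 8, 8, 8] = true := by decide +kernel

theorem e7888 (k1 k2 k3 k4 : ℕ) : CoreG (10 + 5 * (k1 + k2 + k3 + k4))
    ((([] : List ℕ) : Multiset ℕ) + (([7 + 5 * k1, 8 + 5 * k2, 8 + 5 * k3, 8 + 5 * k4] : List ℕ) : Multiset ℕ)) 0 :=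
  end_lit e7888_ck (fun v => if v = 3 then k1 else if v = 4 then k2 else if v = 5 then k3 else k4) (by simp; try omega) (by simp)

end Pool.Agent.Helper79.HH
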