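import Pool.Agent.Helper79.HH.Check

/-!
# End pieces
-/

namespace Pool.Agent.Helper79.HH

open Finset Pool.Agent.Helper79.HX Pool.Agent.Helper79.HG

/-- end piece 8, 8, 8, 8, 10 neighbours of the large face -/
def e8888L : List Tr :=
  [(0, 1, 2), (4, 22, 25), (4, 14, 25), (14, 24, 25), (23, 24, 25), (22, 23, 25), (19, 23, 24),
   (5, 14, 24), (5, 19, 24), (6, 19, 23), (6, 22, 23), (6, 21, 22), (4, 21, 22), (4, 8, 21), (6,
   20, 21), (8, 20, 21), (0, 8, 20), (6, 10, 20), (0, 10, 20), (6, 18, 19), (5, 18, 19), (6, 17,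
   18), (6, 10, 17), (10, 15, 17), (0, 10, 15), (5, 16, 18), (16, 17, 18), (15, 16, 17), (5, 9,
   16), (9, 15, 16), (0, 9, 15), (3, 5, 9), (0, 3, 9), (5, 13, 14), (4, 13, 14), (3, 5, 13), (4,
   11, 13), (3, 11, 13), (4, 8, 12), (0, 8, 12), (4, 11, 12), (0, 7, 12), (7, 11, 12), (3, 7,
   11), (0, 1, 7), (1, 3, 7), (0, 2, 3), (1, 2, 3)]

theorem e8888_ck : ckE 26 e8888L [(3, 7, 1, 12, 11), (4, 8, 12, 20, 21), (5, 9, 3, 15, 16), (6, 10, 20, 15, 17)]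
    19 [] 10 [8, 8, 8, 8] = true := by decide +kernel

theorem e8888 (k1 k2 k3 k4 : ℕ) : CoreG (10 + 5 * (k1 + k2 + k3 + k4))
    ((([] : List ℕ) : Multiset ℕ) + (([8 + 5 * k1, 8 + 5 * k2, 8 + 5 * k3, 8 + 5 * k4] : List ℕ) : Multiset ℕ)) 0 :=
  end_lit e8888_ck (fun v => if v = 3 then k1 else if v = 4 then k2 else if v = 5 then k3 else k4) (by simp; try omega) (by simp)

end Pool.Agent.Helper79.HH
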