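import Pool.Agent.Helper79.HH.Asm0
import Pool.Agent.Helper79.HH.End10
import Pool.Agent.Helper79.HH.End11
import Pool.Agent.Helper79.HH.End12

/-!
# The table of the end pieces
-/

namespace Pool.Agent.Helper79.HH

set_option linter.unusedSimpArgs false

open Finset Pool.Agent.Helper79.HX Pool.Agent.Helper79.HG

theorem end04 {a b c d : ℕ} (ha : Be a) (hb : Be b) (hc : Be c) (hd : Be d) : EndOK {a, b, c, d} := by
  rcases ha with ⟨k1, rfl⟩ | ⟨k1, rfl⟩
  · rcases hb with ⟨k2, rfl⟩ | ⟨k2, rfl⟩
    · rcases hc with ⟨k3, rfl⟩ | ⟨k3, rfl⟩
      · rcases hd with ⟨k4, rfl⟩ | ⟨k4, rfl⟩
        · refine EndOK.of (e7777 k1 k2 k3 k4) (by omega) ?_ ?_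
          · simp only [Multiset.insert_eq_cons, Multiset.sum_cons, Multiset.sum_singleton]
            omega
          · intro j
            simp only [Multiset.count_add, ← Multiset.cons_coe, Multiset.coe_nil,
              Multiset.count_cons, Multiset.count_zero, Multiset.insert_eq_cons, Multiset.count_singleton,
              Multiset.count_replicate, Nat.mul_zero, Nat.add_zero]
            first
            | omega
            | (split_ifs <;> omega)
        · refine EndOK.of (e7778 k1 k4 k2 k3) (by omega) ?_ ?_
          · simp only [Multiset.insert_eq_cons, Multiset.sum_cons, Multiset.sum_singleton]
            omega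
          · intro j
            simp only [Multiset.count_add, ← Multiset.cons_coe, Multiset.coe_nil,
              Multiset.count_cons, Multiset.count_zero, Multiset.insert_eq_cons, Multiset.count_singleton,
              Multiset.count_replicate, Nat.mul_zero, Nat.add_zero]
            first
            | omega
            | (split_ifs <;> omega)
      · rcases hd with ⟨k4, rfl⟩ | ⟨k4, rfl⟩
        · refine EndOK.of (e7778 k1 k3 k2 k4) (by omega) ?_ ?_
          · simp only [Multiset.insert_eq_cons, Multiset.sum_cons, Multiset.sum_singleton]
            omega
          · intro j
            simp only [Multiset.count_add, ← Multiset.cons_coe, Multiset.coe_nil,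
              Multiset.count_cons, Multiset.count_zero, Multiset.insert_eq_cons, Multiset.count_singleton,
              Multiset.count_replicate, Nat.mul_zero, Nat.add_zero]
            first
            | omega
            | (split_ifs <;> omega)
        · refine EndOK.of (e7788 k3 k4 k1 k2) (by omega) ?_ ?_
          · simp only [Multiset.insert_eq_cons, Multiset.sum_cons, Multiset.sum_singleton]
            omega
          · intro j
            simp only [Multiset.count_add, ← Multiset.cons_coe, Multiset.coe_nil,
              Multiset.count_cons, Multiset.count_zero, Multiset.insert_eq_cons, Multiset.count_singleton,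
              Multiset.count_replicate, Nat.mul_zero, Nat.add_zero]
            first
            | omega
            | (split_ifs <;> omega)
    · rcases hc with ⟨k3, rfl⟩ | ⟨k3, rfl⟩
      · rcases hd with ⟨k4, rfl⟩ | ⟨k4, rfl⟩
        · refine EndOK.of (e7778 k1 k2 k3 k4) (by omega) ?_ ?_
          · simp only [Multiset.insert_eq_cons, Multiset.sum_cons, Multiset.sum_singleton]
            omega
          · intro j
            simp only [Multiset.count_add, ← Multiset.cons_coe, Multiset.coe_nil,
              Multiset.count_cons, Multiset.count_zero, Multiset.insert_eq_cons, Multiset.count_singleton,
              Multiset.count_replicate, Nat.mul_zero, Nat.add_zero]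
            first
            | omega
            | (split_ifs <;> omega)
        · refine EndOK.of (e7788 k2 k4 k1 k3) (by omega) ?_ ?_
          · simp only [Multiset.insert_eq_cons, Multiset.sum_cons, Multiset.sum_singleton]
            omega
          · intro j
            simp only [Multiset.count_add, ← Multiset.cons_coe, Multiset.coe_nil,
              Multiset.count_cons, Multiset.count_zero, Multiset.insert_eq_cons, Multiset.count_singleton,
              Multiset.count_replicate, Nat.mul_zero, Nat.add_zero]
            first
            | omega
            | (split_ifs <;> omega)
      · rcases hd with ⟨k4, rfl⟩ | ⟨k4, rfl⟩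
        · refine EndOK.of (e7788 k2 k3 k1 k4) (by omega) ?_ ?_
          · simp only [Multiset.insert_eq_cons, Multiset.sum_cons, Multiset.sum_singleton]
            omega
          · intro j
            simp only [Multiset.count_add, ← Multiset.cons_coe, Multiset.coe_nil,
              Multiset.count_cons, Multiset.count_zero, Multiset.insert_eq_cons, Multiset.count_singleton,
              Multiset.count_replicate, Nat.mul_zero, Nat.add_zero]
            first
            | omega
            | (split_ifs <;> omega)
        · refine EndOK.of (e7888 k1 k2 k3 k4) (by omega) ?_ ?_
          · simp only [Multiset.insert_eq_cons, Multiset.sum_cons, Multiset.sum_singleton]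
            omega
          · intro j
            simp only [Multiset.count_add, ← Multiset.cons_coe, Multiset.coe_nil,
              Multiset.count_cons, Multiset.count_zero, Multiset.insert_eq_cons, Multiset.count_singleton,
              Multiset.count_replicate, Nat.mul_zero, Nat.add_zero]
            first
            | omega
            | (split_ifs <;> omega)
  · rcases hb with ⟨k2, rfl⟩ | ⟨k2, rfl⟩
    · rcases hc with ⟨k3, rfl⟩ | ⟨k3, rfl⟩
      · rcases hd with ⟨k4, rfl⟩ | ⟨k4, rfl⟩
        · refine EndOK.of (e7778 k2 k1 k3 k4) (by omega) ?_ ?_
          · simp only [Multiset.insert_eq_cons, Multiset.sum_cons, Multiset.sum_singleton]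
            omega
          · intro j
            simp only [Multiset.count_add, ← Multiset.cons_coe, Multiset.coe_nil,
              Multiset.count_cons, Multiset.count_zero, Multiset.insert_eq_cons, Multiset.count_singleton,
              Multiset.count_replicate, Nat.mul_zero, Nat.add_zero]
            first
            | omega
            | (split_ifs <;> omega)
        · refine EndOK.of (e7788 k1 k4 k2 k3) (by omega) ?_ ?_
          · simp only [Multiset.insert_eq_cons, Multiset.sum_cons, Multiset.sum_singleton]
            omega
          · intro j
            simp only [Multiset.count_add, ← Multiset.cons_coe, Multiset.coe_nil,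
              Multiset.count_cons, Multiset.count_zero, Multiset.insert_eq_cons, Multiset.count_singleton,
              Multiset.count_replicate, Nat.mul_zero, Nat.add_zero]
            first
            | omega
            | (split_ifs <;> omega)
      · rcases hd with ⟨k4, rfl⟩ | ⟨k4, rfl⟩
        · refine EndOK.of (e7788 k1 k3 k2 k4) (by omega) ?_ ?_
          · simp only [Multiset.insert_eq_cons, Multiset.sum_cons, Multiset.sum_singleton]
            omega
          · intro j
            simp only [Multiset.count_add, ← Multiset.cons_coe, Multiset.coe_nil,
              Multiset.count_cons, Multiset.count_zero, Multiset.insert_eq_cons, Multiset.count_singleton,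
              Multiset.count_replicate, Nat.mul_zero, Nat.add_zero]
            first
            | omega
            | (split_ifs <;> omega)
        · refine EndOK.of (e7888 k2 k1 k3 k4) (by omega) ?_ ?_
          · simp only [Multiset.insert_eq_cons, Multiset.sum_cons, Multiset.sum_singleton]
            omega
          · intro j
            simp only [Multiset.count_add, ← Multiset.cons_coe, Multiset.coe_nil,
              Multiset.count_cons, Multiset.count_zero, Multiset.insert_eq_cons, Multiset.count_singleton,
              Multiset.count_replicate, Nat.mul_zero, Nat.add_zero]
            first
            | omega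
            | (split_ifs <;> omega)
    · rcases hc with ⟨k3, rfl⟩ | ⟨k3, rfl⟩
      · rcases hd with ⟨k4, rfl⟩ | ⟨k4, rfl⟩
        · refine EndOK.of (e7788 k1 k2 k3 k4) (by omega) ?_ ?_
          · simp only [Multiset.insert_eq_cons, Multiset.sum_cons, Multiset.sum_singleton]
            omega
          · intro j
            simp only [Multiset.count_add, ← Multiset.cons_coe, Multiset.coe_nil,
              Multiset.count_cons, Multiset.count_zero, Multiset.insert_eq_cons, Multiset.count_singleton,
              Multiset.count_replicate, Nat.mul_zero, Nat.add_zero]
            first
            | omega
            | (split_ifs <;> omega)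
        · refine EndOK.of (e7888 k3 k1 k2 k4) (by omega) ?_ ?_
          · simp only [Multiset.insert_eq_cons, Multiset.sum_cons, Multiset.sum_singleton]
            omega
          · intro j
            simp only [Multiset.count_add, ← Multiset.cons_coe, Multiset.coe_nil,
              Multiset.count_cons, Multiset.count_zero, Multiset.insert_eq_cons, Multiset.count_singleton,
              Multiset.count_replicate, Nat.mul_zero, Nat.add_zero]
            first
            | omega
            | (split_ifs <;> omega)
      · rcases hd with ⟨k4, rfl⟩ | ⟨k4, rfl⟩
        · refine EndOK.of (e7888 k4 k1 k2 k3) (by omega) ?_ ?_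
          · simp only [Multiset.insert_eq_cons, Multiset.sum_cons, Multiset.sum_singleton]
            omega
          · intro j
            simp only [Multiset.count_add, ← Multiset.cons_coe, Multiset.coe_nil,
              Multiset.count_cons, Multiset.count_zero, Multiset.insert_eq_cons, Multiset.count_singleton,
              Multiset.count_replicate, Nat.mul_zero, Nat.add_zero]
            first
            | omega
            | (split_ifs <;> omega)
        · refine EndOK.of (e8888 k1 k2 k3 k4) (by omega) ?_ ?_
          · simp only [Multiset.insert_eq_cons, Multiset.sum_cons, Multiset.sum_singleton]
            omega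
          · intro j
            simp only [Multiset.count_add, ← Multiset.cons_coe, Multiset.coe_nil,
              Multiset.count_cons, Multiset.count_zero, Multiset.insert_eq_cons, Multiset.count_singleton,
              Multiset.count_replicate, Nat.mul_zero, Nat.add_zero]
            first
            | omega
            | (split_ifs <;> omega)

end Pool.Agent.Helper79.HH
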