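import Pool.Agent.Helper79.HG.C1
import Pool.Agent.Helper79.HH.Defs
import Pool.Agent.Helper79.HH.MidTab
import Pool.Agent.Helper79.HH.TabA
import Pool.Agent.Helper79.HH.TabB
import Pool.Agent.Helper79.HH.TabC
import Pool.Agent.Helper79.HH.TabD

/-!
# Chains of pieces around the large face
-/

namespace Pool.Agent.Helper79.HH

open Finset Pool.Agent.Helper79.HX Pool.Agent.Helper79.HG

/-- The total weight of a multiset of face sizes. -/
def wt (X : Multiset ℕ) : ℕ × ℕ := (X.map cl).sum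

theorem wt_cons (a : ℕ) (X : Multiset ℕ) : wt (a ::ₘ X) = cl a + wt X := by
  simp [wt]

theorem wt_add (X Y : Multiset ℕ) : wt (X + Y) = wt X + wt Y := by
  simp [wt]

theorem cl_cases (a : ℕ) : (cl a = (1, 0) ∧ (a % 5 = 1 ∨ a % 5 = 4)) ∨
    (cl a = (0, 1) ∧ (a % 5 = 2 ∨ a % 5 = 3)) ∨ (cl a = (0, 0) ∧ a % 5 = 0) := by
  unfold cl
  by_cases h1 : a % 5 = 1 ∨ a % 5 = 4
  · rw [if_pos h1]; exact Or.inl ⟨rfl, h1⟩
  · rw [if_neg h1]
    by_cases h2 : a % 5 = 2 ∨ a % 5 = 3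
    · rw [if_pos h2]; exact Or.inr (Or.inl ⟨rfl, h2⟩)
    · rw [if_neg h2]; exact Or.inr (Or.inr ⟨rfl, by omega⟩)

theorem al_of {a : ℕ} (h6 : 6 ≤ a) (h : a % 5 = 1 ∨ a % 5 = 4) : Al a := by
  rcases h with h | h
  · exact Or.inl ⟨a / 5 - 1, by omega⟩
  · exact Or.inr ⟨a / 5 - 1, by omega⟩

theorem be_of {a : ℕ} (h6 : 6 ≤ a) (h : a % 5 = 2 ∨ a % 5 = 3) : Be a := by
  rcases h with h | h
  · exact Or.inl ⟨a / 5 - 1, by omega⟩
  · exact Or.inr ⟨a / 5 - 1, by omega⟩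

/-- Remove a face with the weight `(1, 0)`. -/
theorem ext_al {X : Multiset ℕ} (h6 : ∀ a ∈ X, 6 ≤ a) (h : 1 ≤ (wt X).1) :
    ∃ a Y, X = a ::ₘ Y ∧ Al a ∧ cl a = (1, 0) := by
  by_contra hcon
  have key : ∀ Y : Multiset ℕ, Y ≤ X → (wt Y).1 = 0 := by
    intro Y
    induction Y using Multiset.induction_on with
    | empty => intro _; simp [wt]
    | cons a Y ih =>
      intro hY
      have haX : a ∈ X := Multiset.mem_of_le hY (by simp)
      obtain ⟨Z, hZ⟩ := Multiset.exists_cons_of_mem haX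
      rw [wt_cons, Prod.fst_add, ih ((Multiset.le_cons_self Y a).trans hY)]
      rcases cl_cases a with ⟨h1, h2⟩ | ⟨h1, h2⟩ | ⟨h1, h2⟩
      · exact absurd ⟨a, Z, hZ, al_of (h6 a haX) h2, h1⟩ hcon
      · rw [h1]
      · rw [h1]
  have := key X le_rfl
  omega

/-- Remove a face with the weight `(0, 1)`. -/
theorem ext_be {X : Multiset ℕ} (h6 : ∀ a ∈ X, 6 ≤ a) (h : 1 ≤ (wt X).2) :
    ∃ a Y, X = a ::ₘ Y ∧ Be a ∧ cl a = (0, 1) := by
  by_contra hcon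
  have key : ∀ Y : Multiset ℕ, Y ≤ X → (wt Y).2 = 0 := by
    intro Y
    induction Y using Multiset.induction_on with
    | empty => intro _; simp [wt]
    | cons a Y ih =>
      intro hY
      have haX : a ∈ X := Multiset.mem_of_le hY (by simp)
      obtain ⟨Z, hZ⟩ := Multiset.exists_cons_of_mem haX
      rw [wt_cons, Prod.snd_add, ih ((Multiset.le_cons_self Y a).trans hY)]
      rcases cl_cases a with ⟨h1, h2⟩ | ⟨h1, h2⟩ | ⟨h1, h2⟩
      · rw [h1]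
      · exact absurd ⟨a, Z, hZ, be_of (h6 a haX) h2, h1⟩ hcon
      · rw [h1]
  have := key X le_rfl
  omega

/-- The unfinished chain with the faces `X`, the large face has `z` neighbours. -/
def ChZ (z : ℕ) (X : Multiset ℕ) : Prop := ∃ p, Conf z 3 4 (Multiset.replicate p 5 + X)

theorem ChZ.mid {z g : ℕ} {X Y : Multiset ℕ} (h : ChZ z X) (hm : MidG g Y) :
    ChZ (z + g) (Y + X) := by
  obtain ⟨p, h⟩ := h
  obtain ⟨p', h'⟩ := hm z _ h
  refine ⟨p' + p, h'.congr ?_⟩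
  intro j
  rw [Multiset.replicate_add]
  simp only [Multiset.count_add]
  omega

theorem ChZ.start {g : ℕ} {X : Multiset ℕ} (h : CoreG g X 0) : ChZ (g + 2) X := by
  obtain ⟨p, h'⟩ := h.start
  refine ⟨p, h'.congr ?_⟩
  intro j
  simp only [Multiset.count_add, Multiset.replicate_zero, Multiset.count_zero]
  omega

/-- The admissible total weights of an end. -/
def GoodT (I J : ℕ) : Prop :=
  (J = 0 ∧ 3 ≤ I) ∨ (I = 0 ∧ 3 ≤ J) ∨ (1 ≤ I ∧ 1 ≤ J ∧ ¬ (I % 2 = 0 ∧ J % 2 = 0))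

/-- The number of face sizes divisible by five. -/
def c0 (X : Multiset ℕ) : ℕ := X.countP (fun a => a % 5 = 0)

theorem c0_cons (a : ℕ) (X : Multiset ℕ) : c0 (a ::ₘ X) = c0 X + if a % 5 = 0 then 1 else 0 :=
  Multiset.countP_cons _ _ _

theorem chain_end {X : Multiset ℕ} (h : EndOK X) :
    ∃ z, z + 2 ≤ c0 X + X.sum ∧ ChZ z X := by
  obtain ⟨g, h1, h2, h3⟩ := h
  exact ⟨g + 2, by omega, ChZ.start h3⟩

theorem chain_mid {c : ℕ} {X Y Z : Multiset ℕ} (hm : MidOK c Y) (hc : c + c0 X ≤ c0 Z)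
    (e : Z = Y + X) (h : ∃ z, z + 2 ≤ c0 X + X.sum ∧ ChZ z X) :
    ∃ z, z + 2 ≤ c0 Z + Z.sum ∧ ChZ z Z := by
  obtain ⟨g, h1, h2⟩ := hm
  obtain ⟨z, h3, h4⟩ := h
  subst e
  refine ⟨z + g, ?_, h4.mid h2⟩
  rw [Multiset.sum_add]
  omega

/-- Every multiset of faces `≥ 6` with a good weight can be arranged in a chain. -/
theorem chain : ∀ (m : ℕ) (X : Multiset ℕ), X.card = m → (∀ a ∈ X, 6 ≤ a) →
    GoodT (wt X).1 (wt X).2 → ∃ z, z + 2 ≤ c0 X + X.sum ∧ ChZ z X := by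
  intro m
  induction m using Nat.strong_induction_on with
  | _ m ih =>
  intro X hX h6 hG
  by_cases h0 : ∃ a ∈ X, a % 5 = 0
  · -- a face of weight zero
    obtain ⟨a, haX, ha⟩ := h0
    obtain ⟨Y, rfl⟩ := Multiset.exists_cons_of_mem haX
    have hcl : cl a = (0, 0) := by
      rcases cl_cases a with ⟨h1, h2⟩ | ⟨h1, h2⟩ | ⟨h1, h2⟩
      · omega
      · omega
      · exact h1
    have ha6 := h6 a haX
    rw [wt_cons, hcl, Prod.fst_add, Prod.snd_add, Nat.zero_add, Nat.zero_add] at hG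
    rw [Multiset.card_cons] at hX
    refine chain_mid (mid0 ⟨a / 5 - 1, by omega⟩) (by rw [c0_cons, if_pos ha]; omega)
      (Multiset.singleton_add a Y).symm
      (ih (Y.card) (by omega) Y rfl (fun b hb => h6 b (Multiset.mem_cons_of_mem hb)) hG)
  push Not at h0
  by_cases hA : 3 ≤ (wt X).1 ∧ (5 ≤ (wt X).1 ∨ 1 ≤ (wt X).2)
  · -- two faces of weight `(1, 0)`
    obtain ⟨a, Y, rfl, ha, hca⟩ := ext_al h6 (by omega)
    have h6' : ∀ b ∈ Y, 6 ≤ b := fun b hb => h6 b (Multiset.mem_cons_of_mem hb)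
    rw [wt_cons, hca, Prod.fst_add, Prod.snd_add] at hA hG
    simp only [Nat.zero_add] at hA hG
    obtain ⟨b, Z, rfl, hb, hcb⟩ := ext_al h6' (by omega)
    have h6'' : ∀ c ∈ Z, 6 ≤ c := fun c hc => h6' c (Multiset.mem_cons_of_mem hc)
    rw [wt_cons, hcb, Prod.fst_add, Prod.snd_add] at hA hG
    simp only [Nat.zero_add] at hA hG
    rw [Multiset.card_cons, Multiset.card_cons] at hX
    refine chain_mid (midAA ha hb) (by rw [c0_cons, c0_cons]; omega) ?_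
      (ih (Z.card) (by omega) Z rfl h6'' ?_)
    · rw [Multiset.insert_eq_cons, Multiset.cons_add, Multiset.singleton_add]
    · unfold GoodT at hG ⊢
      omega
  by_cases hB : 3 ≤ (wt X).2 ∧ (5 ≤ (wt X).2 ∨ 1 ≤ (wt X).1)
  · -- two faces of weight `(0, 1)`
    clear hA
    obtain ⟨a, Y, rfl, ha, hca⟩ := ext_be h6 (by omega)
    have h6' : ∀ b ∈ Y, 6 ≤ b := fun b hb => h6 b (Multiset.mem_cons_of_mem hb)
    rw [wt_cons, hca, Prod.fst_add, Prod.snd_add] at hB hG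
    simp only [Nat.zero_add] at hB hG
    obtain ⟨b, Z, rfl, hb, hcb⟩ := ext_be h6' (by omega)
    have h6'' : ∀ c ∈ Z, 6 ≤ c := fun c hc => h6' c (Multiset.mem_cons_of_mem hc)
    rw [wt_cons, hcb, Prod.fst_add, Prod.snd_add] at hB hG
    simp only [Nat.zero_add] at hB hG
    rw [Multiset.card_cons, Multiset.card_cons] at hX
    refine chain_mid (midBB ha hb) (by rw [c0_cons, c0_cons]; omega) ?_
      (ih (Z.card) (by omega) Z rfl h6'' ?_)
    · rw [Multiset.insert_eq_cons, Multiset.cons_add, Multiset.singleton_add]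
    · unfold GoodT at hG ⊢
      omega
  -- the base cases
  clear ih hX
  apply chain_end
  have hemp : ∀ Y : Multiset ℕ, (∀ a ∈ Y, a % 5 ≠ 0) → (wt Y).1 = 0 → (wt Y).2 = 0 → Y = 0 := by
    intro Y hY e1 e2
    induction Y using Multiset.induction_on with
    | empty => rfl
    | cons a Y _ =>
      exfalso
      rw [wt_cons] at e1 e2
      rw [Prod.fst_add] at e1
      rw [Prod.snd_add] at e2
      rcases cl_cases a with ⟨h1, h2⟩ | ⟨h1, h2⟩ | ⟨h1, h2⟩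
      · rw [h1] at e1; simp at e1
      · rw [h1] at e2; simp at e2
      · exact hY a (by simp) h2
  have eA : ∀ Y : Multiset ℕ, (∀ a ∈ Y, 6 ≤ a ∧ a % 5 ≠ 0) → 1 ≤ (wt Y).1 → ∃ a Z, Y = a ::ₘ Z ∧
      Al a ∧ (∀ a ∈ Z, 6 ≤ a ∧ a % 5 ≠ 0) ∧ (wt Z).1 + 1 = (wt Y).1 ∧ (wt Z).2 = (wt Y).2 := by
    intro Y h1 h2
    obtain ⟨a, Z, rfl, ha, hca⟩ := ext_al (fun a ha => (h1 a ha).1) h2
    refine ⟨a, Z, rfl, ha, fun b hb => h1 b (Multiset.mem_cons_of_mem hb), ?_, ?_⟩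
    · rw [wt_cons, hca, Prod.fst_add]; simp only; omega
    · rw [wt_cons, hca, Prod.snd_add]; simp only; omega
  have eB : ∀ Y : Multiset ℕ, (∀ a ∈ Y, 6 ≤ a ∧ a % 5 ≠ 0) → 1 ≤ (wt Y).2 → ∃ a Z, Y = a ::ₘ Z ∧
      Be a ∧ (∀ a ∈ Z, 6 ≤ a ∧ a % 5 ≠ 0) ∧ (wt Z).1 = (wt Y).1 ∧ (wt Z).2 + 1 = (wt Y).2 := by
    intro Y h1 h2
    obtain ⟨a, Z, rfl, ha, hca⟩ := ext_be (fun a ha => (h1 a ha).1) h2
    refine ⟨a, Z, rfl, ha, fun b hb => h1 b (Multiset.mem_cons_of_mem hb), ?_, ?_⟩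
    · rw [wt_cons, hca, Prod.fst_add]; simp only; omega
    · rw [wt_cons, hca, Prod.snd_add]; simp only; omega
  have hX' : ∀ a ∈ X, 6 ≤ a ∧ a % 5 ≠ 0 := fun a ha => ⟨h6 a ha, h0 a ha⟩
  have hcases : ((wt X).1 = 3 ∧ (wt X).2 = 0) ∨ ((wt X).1 = 4 ∧ (wt X).2 = 0) ∨
      ((wt X).1 = 0 ∧ (wt X).2 = 3) ∨ ((wt X).1 = 0 ∧ (wt X).2 = 4) ∨
      ((wt X).1 = 1 ∧ (wt X).2 = 1) ∨ ((wt X).1 = 1 ∧ (wt X).2 = 2) ∨
      ((wt X).1 = 2 ∧ (wt X).2 = 1) := by
    unfold GoodT at hG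
    omega
  clear hA hB hG h0 h6
  rcases hcases with h | h | h | h | h | h | h
  · obtain ⟨a, X1, rfl, ha, i1, p1, q1⟩ := eA X hX' (by omega)
    obtain ⟨b, X2, rfl, hb, i2, p2, q2⟩ := eA X1 i1 (by omega)
    obtain ⟨c, X3, rfl, hc, i3, p3, q3⟩ := eA X2 i2 (by omega)
    have := hemp X3 (fun a ha => (i3 a ha).2) (by omega) (by omega)
    subst this
    exact end30 ha hb hc
  · obtain ⟨a, X1, rfl, ha, i1, p1, q1⟩ := eA X hX' (by omega)
    obtain ⟨b, X2, rfl, hb, i2, p2, q2⟩ := eA X1 i1 (by omega)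
    obtain ⟨c, X3, rfl, hc, i3, p3, q3⟩ := eA X2 i2 (by omega)
    obtain ⟨d, X4, rfl, hd, i4, p4, q4⟩ := eA X3 i3 (by omega)
    have := hemp X4 (fun a ha => (i4 a ha).2) (by omega) (by omega)
    subst this
    exact end40 ha hb hc hd
  · obtain ⟨a, X1, rfl, ha, i1, p1, q1⟩ := eB X hX' (by omega)
    obtain ⟨b, X2, rfl, hb, i2, p2, q2⟩ := eB X1 i1 (by omega)
    obtain ⟨c, X3, rfl, hc, i3, p3, q3⟩ := eB X2 i2 (by omega)
    have := hemp X3 (fun a ha => (i3 a ha).2) (by omega) (by omega)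
    subst this
    exact end03 ha hb hc
  · obtain ⟨a, X1, rfl, ha, i1, p1, q1⟩ := eB X hX' (by omega)
    obtain ⟨b, X2, rfl, hb, i2, p2, q2⟩ := eB X1 i1 (by omega)
    obtain ⟨c, X3, rfl, hc, i3, p3, q3⟩ := eB X2 i2 (by omega)
    obtain ⟨d, X4, rfl, hd, i4, p4, q4⟩ := eB X3 i3 (by omega)
    have := hemp X4 (fun a ha => (i4 a ha).2) (by omega) (by omega)
    subst this
    exact end04 ha hb hc hd
  · obtain ⟨a, X1, rfl, ha, i1, p1, q1⟩ := eA X hX' (by omega)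
    obtain ⟨b, X2, rfl, hb, i2, p2, q2⟩ := eB X1 i1 (by omega)
    have := hemp X2 (fun a ha => (i2 a ha).2) (by omega) (by omega)
    subst this
    exact end11 ha hb
  · obtain ⟨a, X1, rfl, ha, i1, p1, q1⟩ := eA X hX' (by omega)
    obtain ⟨b, X2, rfl, hb, i2, p2, q2⟩ := eB X1 i1 (by omega)
    obtain ⟨c, X3, rfl, hc, i3, p3, q3⟩ := eB X2 i2 (by omega)
    have := hemp X3 (fun a ha => (i3 a ha).2) (by omega) (by omega)
    subst this
    exact end12 ha hb hc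
  · obtain ⟨a, X1, rfl, ha, i1, p1, q1⟩ := eA X hX' (by omega)
    obtain ⟨b, X2, rfl, hb, i2, p2, q2⟩ := eA X1 i1 (by omega)
    obtain ⟨c, X3, rfl, hc, i3, p3, q3⟩ := eB X2 i2 (by omega)
    have := hemp X3 (fun a ha => (i3 a ha).2) (by omega) (by omega)
    subst this
    exact end21 ha hb hc

/-- Close the chain by an end piece. -/
theorem close_up {z g h K : ℕ} {X1 X2 : Multiset ℕ} (h1 : ChZ z X1) (h2 : CoreG g X2 h)
    (hg : 2 ≤ g) (hK : z + g ≤ K + 2) :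
    ∃ p, Fin' (Multiset.replicate p 5 + Multiset.replicate h 6 + K ::ₘ (X1 + X2)) := by
  obtain ⟨p1, h1⟩ := h1
  obtain ⟨p4, s4⟩ := h2.fin hg (h1.grow (K + 2 - z - g))
  refine ⟨p4 + p1 + (K + 2 - z - g), s4.congr ?_⟩
  intro j
  have e1 : z + (K + 2 - z - g) + (g - 2) = K := by omega
  rw [e1]
  simp only [Multiset.count_add, Multiset.count_cons, Multiset.count_singleton,
    Multiset.count_replicate]
  split_ifs <;> omega

end Pool.Agent.Helper79.HH
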