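import Pool.Agent.Helper79.HH.CoreGrow

/-!
# A fast checker for literal spheres: triangles as sorted triples
-/

namespace Pool.Agent.Helper79.HH

open Finset Pool.Agent.Helper79.HX Pool.Agent.Helper79.HG

theorem ne_of_nbeq {a b : ℕ} (h : Nat.beq a b = false) : a ≠ b := by
  rintro rfl
  rw [Nat.beq_refl] at h
  exact absurd h (by simp)

abbrev Tr : Type := ℕ × ℕ × ℕ

def tri (x : Tr) : Finset ℕ := {x.1, x.2.1, x.2.2}

def has (v : ℕ) (x : Tr) : Bool := Nat.beq v x.1 || Nat.beq v x.2.1 || Nat.beq v x.2.2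

def srt (x : Tr) : Bool := Nat.blt x.1 x.2.1 && Nat.blt x.2.1 x.2.2

theorem has_iff {v : ℕ} {x : Tr} : has v x = true ↔ v ∈ tri x := by
  simp [has, tri, or_assoc]

theorem srt_iff {x : Tr} : srt x = true ↔ x.1 < x.2.1 ∧ x.2.1 < x.2.2 := by
  simp [srt]

theorem tri_inj {x y : Tr} (hx : srt x = true) (hy : srt y = true) (h : tri x = tri y) :
    x = y := by
  obtain ⟨a, b, c⟩ := x
  obtain ⟨d, e, f⟩ := y
  rw [srt_iff] at hx hy
  simp only at hx hy
  have h1 : ∀ v, v ∈ tri (a, b, c) ↔ v ∈ tri (d, e, f) := fun v => by rw [h]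
  simp only [tri, Finset.mem_insert, Finset.mem_singleton] at h1
  have ha := (h1 a).1 (by simp)
  have hb := (h1 b).1 (by simp)
  have hc := (h1 c).1 (by simp)
  have hd := (h1 d).2 (by simp)
  have he := (h1 e).2 (by simp)
  have hf := (h1 f).2 (by simp)
  simp only [Prod.mk.injEq]
  omega

theorem tri_card {x : Tr} (hx : srt x = true) : (tri x).card = 3 := by
  rw [srt_iff] at hx
  rw [tri, Finset.card_insert_of_notMem, Finset.card_pair]
  · omega
  · simp only [Finset.mem_insert, Finset.mem_singleton]; omega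

def TT (L : List Tr) : Finset (Finset ℕ) := (L.map tri).toFinset

/-- the basic condition -/
def Bas (L : List Tr) : Prop := (∀ x ∈ L, srt x = true) ∧ L.Nodup

theorem mem_TT {L : List Tr} {t : Finset ℕ} : t ∈ TT L ↔ ∃ x ∈ L, tri x = t := by
  simp [TT]

theorem card_filter {L : List Tr} (hL : Bas L) {P : Finset ℕ → Prop} [DecidablePred P]
    {p : Tr → Bool} (hp : ∀ x, p x = true ↔ P (tri x)) :
    ((TT L).filter P).card = (L.filter p).length := by
  have e : (TT L).filter P = ((L.filter p).toFinset).image tri := by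
    ext t
    simp only [Finset.mem_filter, mem_TT, Finset.mem_image, List.mem_toFinset, List.mem_filter]
    constructor
    · rintro ⟨⟨x, hx, rfl⟩, h⟩
      exact ⟨x, ⟨hx, (hp x).2 h⟩, rfl⟩
    · rintro ⟨x, ⟨hx, h⟩, rfl⟩
      exact ⟨⟨x, hx, rfl⟩, (hp x).1 h⟩
  rw [e, Finset.card_image_of_injOn, List.toFinset_card_of_nodup (hL.2.filter _)]
  intro x hx y hy hxy
  simp only [List.coe_toFinset, List.mem_filter, Set.mem_ofPred_eq] at hx hy
  exact tri_inj (hL.1 x hx.1) (hL.1 y hy.1) hxy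

theorem card_TT {L : List Tr} (hL : Bas L) : (TT L).card = L.length := by
  have := card_filter hL (P := fun _ => True) (p := fun _ => true) (by simp)
  simpa using this

def dg (L : List Tr) (v : ℕ) : ℕ := (L.filter (has v)).length

theorem deg_TT {L : List Tr} (hL : Bas L) (v : ℕ) : deg (TT L) v = dg L v :=
  card_filter hL (fun _ => has_iff)

def cp (L : List Tr) (u v : ℕ) : ℕ := (L.filter (fun x => has u x && has v x)).length

theorem cp_TT {L : List Tr} (hL : Bas L) (u v : ℕ) :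
    ((TT L).filter (fun s => ({u, v} : Finset ℕ) ⊆ s)).card = cp L u v := by
  refine card_filter hL (fun x => ?_)
  rw [Bool.and_eq_true, has_iff, has_iff, Finset.insert_subset_iff, Finset.singleton_subset_iff]

def nc (x y : Tr) : ℕ := (bif has x.1 y then 1 else 0) + (bif has x.2.1 y then 1 else 0) +
  (bif has x.2.2 y then 1 else 0)

theorem nc_card {x y : Tr} (hx : srt x = true) : (tri y ∩ tri x).card = nc x y := by
  rw [srt_iff] at hx
  have e : tri y ∩ tri x = (tri x).filter (fun v => v ∈ tri y) := by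
    ext v; simp [and_comm]
  obtain ⟨a, b, c⟩ := x
  simp only at hx
  have hab : a ∉ ({b, c} : Finset ℕ) := by simp; omega
  have hbc : b ∉ ({c} : Finset ℕ) := by simp; omega
  rw [e, Finset.card_filter]
  have : ∀ v, (if v ∈ tri y then 1 else 0) = (bif has v y then 1 else 0) := by
    intro v
    by_cases h : v ∈ tri y
    · rw [if_pos h, has_iff.2 h]; rfl
    · rw [if_neg h]
      have : has v y = false := by
        rw [← Bool.not_eq_true, has_iff]; exact h
      rw [this]; rfl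
  show ∑ v ∈ ({a, b, c} : Finset ℕ), _ = _
  rw [Finset.sum_insert hab, Finset.sum_insert hbc, Finset.sum_singleton, this, this, this, nc]
  ring

def okT : List Tr → Bool
  | [] => true
  | x :: M => (M.isEmpty || M.any (fun y => Nat.beq (nc x y) 2)) && okT M

theorem okT_ok : ∀ L : List Tr, (∀ x ∈ L, srt x = true) → okT L = true →
    okList (L.map tri) = true := by
  intro L
  induction L with
  | nil => intro _ _; rfl
  | cons x M ih =>
    intro h1 h2
    rw [okT, Bool.and_eq_true, Bool.or_eq_true] at h2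
    rw [List.map_cons, okList, Bool.and_eq_true, Bool.or_eq_true]
    refine ⟨?_, ih (fun y hy => h1 y (List.mem_cons_of_mem _ hy)) h2.2⟩
    rcases h2.1 with h | h
    · left
      rw [List.isEmpty_iff] at h ⊢
      rw [h]; rfl
    · right
      rw [List.any_eq_true] at h ⊢
      obtain ⟨y, hy, h3⟩ := h
      refine ⟨tri y, List.mem_map_of_mem hy, ?_⟩
      rw [nc_card (h1 x (by simp))]
      simpa using h3

/-- strictly increasing codes are not needed: a direct test for duplicates -/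
def ndB : List Tr → Bool
  | [] => true
  | x :: M => M.all (fun y => !(Nat.beq x.1 y.1 && Nat.beq x.2.1 y.2.1 && Nat.beq x.2.2 y.2.2)) &&
      ndB M

theorem ndB_nodup : ∀ L : List Tr, ndB L = true → L.Nodup := by
  intro L
  induction L with
  | nil => intro _; exact List.nodup_nil
  | cons x M ih =>
    intro h
    rw [ndB, Bool.and_eq_true, List.all_eq_true] at h
    refine List.nodup_cons.2 ⟨fun hx => ?_, ih h.2⟩
    have := h.1 x hx
    simp at this

def edB (L : List Tr) (M : List Tr) : Bool :=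
  M.all (fun x => Nat.beq (cp L x.1 x.2.1) 2 && Nat.beq (cp L x.1 x.2.2) 2 &&
    Nat.beq (cp L x.2.1 x.2.2) 2)

def vtB (N : ℕ) (L : List Tr) : Bool :=
  L.all (fun x => Nat.blt x.1 N && Nat.blt x.2.1 N && Nat.blt x.2.2 N) &&
    (List.range N).all (fun v => L.any (has v))

def chk (N : ℕ) (L : List Tr) : Bool :=
  L.all srt && ndB L && edB L L && okT L && vtB N L && Nat.beq (2 * N) (L.length + 4) &&
    !L.isEmpty

theorem chk_bas {N : ℕ} {L : List Tr} (h : chk N L = true) : Bas L := by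
  simp only [chk, Bool.and_eq_true, List.all_eq_true] at h
  exact ⟨h.1.1.1.1.1.1, ndB_nodup _ h.1.1.1.1.1.2⟩

theorem chk_verts {N : ℕ} {L : List Tr} (h : chk N L = true) : verts (TT L) = range N := by
  simp only [chk, vtB, Bool.and_eq_true, List.all_eq_true] at h
  obtain ⟨⟨⟨-, h1, h2⟩, -⟩, -⟩ := h
  ext v
  rw [mem_verts, Finset.mem_range]
  constructor
  · rintro ⟨t, ht, hv⟩
    obtain ⟨x, hx, rfl⟩ := mem_TT.1 ht
    obtain ⟨⟨h3, h4⟩, h5⟩ := h1 x hx
    simp only [Nat.blt_eq] at h3 h4 h5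
    simp only [tri, Finset.mem_insert, Finset.mem_singleton] at hv
    omega
  · intro hv
    have := h2 v (List.mem_range.2 hv)
    rw [List.any_eq_true] at this
    obtain ⟨x, hx, h3⟩ := this
    exact ⟨tri x, mem_TT.2 ⟨x, hx, rfl⟩, has_iff.1 h3⟩

theorem chk_sphere {N : ℕ} {L : List Tr} (h : chk N L = true) : IsSphere (TT L) := by
  have hB := chk_bas h
  have hV := chk_verts h
  simp only [chk, edB, Bool.and_eq_true, List.all_eq_true] at h
  obtain ⟨⟨⟨⟨⟨⟨h1, -⟩, h2⟩, h3⟩, -⟩, h4⟩, h5⟩ := h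
  refine ⟨?_, ?_, ?_, conn_of_ok (okT_ok L h1 h3), ?_⟩
  · cases L with
    | nil => simp at h5
    | cons x M => exact ⟨tri x, mem_TT.2 ⟨x, by simp, rfl⟩⟩
  · intro t ht
    obtain ⟨x, hx, rfl⟩ := mem_TT.1 ht
    exact tri_card (h1 x hx)
  · intro t ht e he hcard
    obtain ⟨x, hx, rfl⟩ := mem_TT.1 ht
    obtain ⟨⟨k1, k2⟩, k3⟩ := h2 x hx
    have hs := h1 x hx
    rw [srt_iff] at hs
    obtain ⟨a, b, c⟩ := x
    simp only [Nat.beq_eq] at k1 k2 k3
    simp only at hs
    obtain ⟨u, v, huv, rfl⟩ := Finset.card_eq_two.1 hcard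
    rw [cp_TT hB]
    have hu : u ∈ tri (a, b, c) := he (by simp)
    have hv : v ∈ tri (a, b, c) := he (by simp)
    have hsymm : ∀ p q, cp L p q = cp L q p := by
      intro p q
      unfold cp
      congr 1
      apply List.filter_congr
      intro y _
      rw [Bool.and_comm]
    simp only [tri, Finset.mem_insert, Finset.mem_singleton] at hu hv
    rcases hu with rfl | rfl | rfl <;> rcases hv with rfl | rfl | rfl
    · exact absurd rfl huv
    · exact k1
    · exact k2
    · rw [hsymm]; exact k1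
    · exact absurd rfl huv
    · exact k3
    · rw [hsymm]; exact k2
    · rw [hsymm]; exact k3
    · exact absurd rfl huv
  · rw [hV, Finset.card_range, card_TT hB]
    simpa using h4

/-- membership of a triangle -/
def mem3 (L : List Tr) (a b c : ℕ) : Bool := !(Nat.beq a b) && !(Nat.beq a c) && !(Nat.beq b c) &&
  L.any (fun x => has a x && has b x && has c x)

theorem mem3_mem {L : List Tr} (hB : Bas L) {a b c : ℕ} (h : mem3 L a b c = true) :
    {a, b, c} ∈ TT L := by
  simp only [mem3, Bool.and_eq_true, List.any_eq_true, Bool.not_eq_true', has_iff] at h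
  obtain ⟨⟨⟨h1, h2⟩, h3⟩, x, hx, ⟨h4, h5⟩, h6⟩ := h
  have n1 : a ≠ b := ne_of_nbeq h1
  have n2 : a ≠ c := ne_of_nbeq h2
  have n3 : b ≠ c := ne_of_nbeq h3
  refine mem_TT.2 ⟨x, hx, ?_⟩
  symm
  apply Finset.eq_of_subset_of_card_le
  · intro v hv
    simp only [Finset.mem_insert, Finset.mem_singleton] at hv
    rcases hv with rfl | rfl | rfl
    · exact h4
    · exact h5
    · exact h6
  · rw [tri_card (hB.1 x hx), Finset.card_insert_of_notMem (by simp [n1, n2]), Finset.card_pair n3]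

/-- one slot: `b, p, x1, x2, x3` -/
abbrev Sl : Type := ℕ × ℕ × ℕ × ℕ × ℕ

def sl1 (L : List Tr) (s : Sl) : Bool :=
  Nat.beq (dg L s.2.1) 5 && mem3 L s.2.1 0 s.2.2.1 && mem3 L s.2.1 s.2.2.1 s.1 &&
    mem3 L s.2.1 s.1 s.2.2.2.2 && mem3 L s.2.1 s.2.2.2.2 s.2.2.2.1 && mem3 L s.2.1 s.2.2.2.1 0 &&
    decide ([0, s.1, s.2.1, s.2.2.1, s.2.2.2.1, s.2.2.2.2].Nodup)

def pw2 (L : List Tr) (s t : Sl) : Bool :=
  !(Nat.beq s.1 t.1) && !(Nat.beq s.1 t.2.1) && !(Nat.beq s.2.1 t.1) && !(Nat.beq s.2.1 t.2.1) &&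
    !(L.any (fun x => has s.2.1 x && has t.2.1 x))

def pwB (L : List Tr) : List Sl → Bool
  | [] => true
  | s :: M => M.all (pw2 L s) && pwB L M

def slB (L : List Tr) (l : List Sl) : Bool := l.all (sl1 L) && pwB L l

theorem slB_slots {L : List Tr} (hB : Bas L) (l : List Sl) (h : slB L l = true) :
    Slots (TT L) 0 (l.map (fun s => (s.1, s.2.1))) := by
  rw [slB, Bool.and_eq_true, List.all_eq_true] at h
  constructor
  · intro x hx
    obtain ⟨s, hs, rfl⟩ := List.mem_map.1 hx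
    have h1 := h.1 s hs
    simp only [sl1, Bool.and_eq_true, decide_eq_true_eq] at h1
    obtain ⟨⟨⟨⟨⟨⟨k0, k1⟩, k2⟩, k3⟩, k4⟩, k5⟩, k6⟩ := h1
    refine ⟨s.2.2.1, s.2.2.2.1, s.2.2.2.2, ?_, mem3_mem hB k1, mem3_mem hB k2, mem3_mem hB k3,
      mem3_mem hB k4, mem3_mem hB k5, k6⟩
    rw [deg_TT hB]
    simpa using k0
  · have h2 := h.2
    clear h
    induction l with
    | nil => exact List.Pairwise.nil
    | cons s M ih =>
      rw [pwB, Bool.and_eq_true, List.all_eq_true] at h2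
      rw [List.map_cons, List.pairwise_cons]
      refine ⟨?_, ih h2.2⟩
      intro x hx
      obtain ⟨t, ht, rfl⟩ := List.mem_map.1 hx
      have h3 := h2.1 t ht
      simp only [pw2, Bool.and_eq_true, Bool.not_eq_true'] at h3
      obtain ⟨⟨⟨⟨k1, k2⟩, k3⟩, k4⟩, k5⟩ := h3
      refine ⟨ne_of_nbeq k1, ne_of_nbeq k2, ne_of_nbeq k3, ne_of_nbeq k4, ?_⟩
      rintro t' ht' ⟨h5, h6⟩
      obtain ⟨y, hy, rfl⟩ := mem_TT.1 ht'
      have : L.any (fun x => has s.2.1 x && has t.2.1 x) = true :=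
        List.any_eq_true.2 ⟨y, hy, by rw [Bool.and_eq_true, has_iff, has_iff]; exact ⟨h5, h6⟩⟩
      rw [this] at k5
      exact absurd k5 (by simp)

/-- the vertices which are neither in `m` nor in `h`, with their degrees -/
def rst (N : ℕ) (L : List Tr) (m h : List ℕ) : List ℕ :=
  ((List.range N).filter (fun v => !(m.any (Nat.beq v)) && !(h.any (Nat.beq v)))).map (dg L)

theorem rst_eq {N : ℕ} {L : List Tr} (hc : chk N L = true) (m : List ℕ) (l : List (ℕ × ℕ)) :
    ((verts (TT L) \ m.toFinset).filter (fun v => v ∉ l.map Prod.fst)).val.map (deg (TT L)) =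
      (rst N L m (l.map Prod.fst) : Multiset ℕ) := by
  have hB := chk_bas hc
  rw [chk_verts hc]
  have e1 : (range N \ m.toFinset).filter (fun v => v ∉ l.map Prod.fst) =
      (range N).filter (fun v => v ∉ m ∧ v ∉ l.map Prod.fst) := by
    ext v
    simp only [Finset.mem_filter, Finset.mem_sdiff, List.mem_toFinset]
    tauto
  rw [e1, Finset.filter_val, Finset.range_val]
  have e2 : Multiset.range N = (List.range N : Multiset ℕ) := rfl
  rw [e2, Multiset.filter_coe, Multiset.map_coe]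
  congr 1
  rw [rst]
  have e3 : (List.range N).filter (fun v => decide (v ∉ m ∧ v ∉ l.map Prod.fst)) =
      (List.range N).filter (fun v => !(m.any (Nat.beq v)) &&
        !((l.map Prod.fst).any (Nat.beq v))) := by
    apply List.filter_congr
    intro v _
    have key : ∀ q : List ℕ, (q.any (Nat.beq v) = true ↔ v ∈ q) := by
      intro q
      rw [List.any_eq_true]
      constructor
      · rintro ⟨y, hy, h⟩
        have := Nat.eq_of_beq_eq_true h
        exact this ▸ hy
      · intro h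
        exact ⟨v, h, by simp⟩
    rw [Bool.eq_iff_iff]
    simp only [decide_eq_true_eq, Bool.and_eq_true, Bool.not_eq_true', ← Bool.not_eq_true, key]
  rw [e3]
  apply List.map_congr_left
  intro v _
  exact deg_TT hB v

/-- all the conditions for an end piece -/
def ckE (N : ℕ) (L : List Tr) (l : List Sl) (n5 : ℕ) (P : List ℕ) (g0 : ℕ) (hubs : List ℕ) :
    Bool :=
  chk N L && slB L l && mem3 L 0 1 2 && l.all (fun s => Nat.blt 2 s.1 && Nat.blt 2 s.2.1) &&
    decide (rst N L [0, 1, 2] ((l.map (fun s => (s.1, s.2.1))).map Prod.fst) =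
      List.replicate n5 5 ++ P) &&
    Nat.beq (dg L 0) g0 && Nat.beq (dg L 1) 4 && Nat.beq (dg L 2) 3 &&
    decide (l.map (fun s => dg L s.1) = hubs)

theorem end_lit {N : ℕ} {L : List Tr} {l : List Sl} {n5 : ℕ} {P : List ℕ} {g0 : ℕ}
    {hubs : List ℕ} (h : ckE N L l n5 P g0 hubs = true) (k : ℕ → ℕ) {g : ℕ} {B : List ℕ}
    (hg : g0 + 5 * (l.map (fun s => k s.1)).sum = g)
    (hB : List.zipWith (fun d s => d + 5 * k s.1) hubs l = B) :
    CoreG g ((P : Multiset ℕ) + (B : Multiset ℕ)) 0 := by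
  simp only [ckE, Bool.and_eq_true, decide_eq_true_eq, List.all_eq_true] at h
  obtain ⟨⟨⟨⟨⟨⟨⟨⟨h1, h2⟩, h3⟩, h4⟩, h5⟩, h6⟩, h7⟩, h8⟩, h9⟩ := h
  have hbas := chk_bas h1
  have h6' := Nat.eq_of_beq_eq_true h6
  have h7' := Nat.eq_of_beq_eq_true h7
  have h8' := Nat.eq_of_beq_eq_true h8
  have hR := rst_eq h1 [0, 1, 2] (l.map (fun s => (s.1, s.2.1)))
  rw [h5, ← Multiset.coe_add, Multiset.coe_replicate] at hR
  refine core_grow (l := l.map (fun s => (s.1, s.2.1))) (n5 := n5) (chk_sphere h1)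
    (slB_slots hbas l h2) (mem3_mem hbas h3) ?_ k hR ?_ ?_ ?_ ?_
  · intro x hx
    obtain ⟨s, hs, rfl⟩ := List.mem_map.1 hx
    obtain ⟨k1, k2⟩ := h4 s hs
    simp only [Nat.blt_eq] at k1 k2
    simp only [Finset.mem_insert, Finset.mem_singleton]
    omega
  · rw [deg_TT hbas, h6', ← hg, List.map_map]
    rfl
  · rw [deg_TT hbas, h7']
  · rw [deg_TT hbas, h8']
  · rw [List.map_map, ← hB, ← h9]
    clear hB hg h9 h5 h2 h4 hR
    induction l with
    | nil => rfl
    | cons s M ih =>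
      simp only [List.map_cons, List.zipWith_cons_cons, Function.comp_apply, List.cons.injEq]
      refine ⟨?_, ih⟩
      rw [deg_TT hbas]

/-- all the conditions for a middle piece -/
def ckM (N : ℕ) (L : List Tr) (l : List Sl) (n5 : ℕ) (g0 : ℕ) (hubs : List ℕ) :
    Bool :=
  chk N L && slB L l && mem3 L 0 1 2 && mem3 L 0 3 4 &&
    l.all (fun s => Nat.blt 4 s.1 && Nat.blt 4 s.2.1) &&
    decide (rst N L [0, 1, 2, 3, 4] ((l.map (fun s => (s.1, s.2.1))).map Prod.fst) =
      List.replicate n5 5) &&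
    Nat.beq (dg L 0) (g0 + 2) &&
    (Nat.beq (dg L 1) 4 && Nat.beq (dg L 2) 3 || Nat.beq (dg L 1) 3 && Nat.beq (dg L 2) 4) &&
    (Nat.beq (dg L 3) 4 && Nat.beq (dg L 4) 3 || Nat.beq (dg L 3) 3 && Nat.beq (dg L 4) 4) &&
    decide (l.map (fun s => dg L s.1) = hubs)

theorem mid_lit {N : ℕ} {L : List Tr} {l : List Sl} {n5 : ℕ} {g0 : ℕ}
    {hubs : List ℕ} (h : ckM N L l n5 g0 hubs = true) (k : ℕ → ℕ) {g : ℕ} {B : List ℕ}
    (hg : g0 + 5 * (l.map (fun s => k s.1)).sum = g)
    (hB : List.zipWith (fun d s => d + 5 * k s.1) hubs l = B) :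
    MidG g (B : Multiset ℕ) := by
  simp only [ckM, Bool.and_eq_true, Bool.or_eq_true, decide_eq_true_eq, List.all_eq_true] at h
  obtain ⟨⟨⟨⟨⟨⟨⟨⟨⟨h1, h2⟩, h3⟩, h3'⟩, h4⟩, h5⟩, h6⟩, h7⟩, h8⟩, h9⟩ := h
  have hbas := chk_bas h1
  have h6' := Nat.eq_of_beq_eq_true h6
  have hR := rst_eq h1 [0, 1, 2, 3, 4] (l.map (fun s => (s.1, s.2.1)))
  rw [h5, Multiset.coe_replicate] at hR
  refine mid_grow (l := l.map (fun s => (s.1, s.2.1))) (n5 := n5) (chk_sphere h1)
    (slB_slots hbas l h2) (mem3_mem hbas h3) (mem3_mem hbas h3') ?_ k hR ?_ ?_ ?_ ?_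
  · intro x hx
    obtain ⟨s, hs, rfl⟩ := List.mem_map.1 hx
    obtain ⟨k1, k2⟩ := h4 s hs
    simp only [Nat.blt_eq] at k1 k2
    simp only [Finset.mem_insert, Finset.mem_singleton]
    omega
  · rw [deg_TT hbas, h6', ← hg, List.map_map]
    show g0 + 2 + 5 * (l.map (fun s => k s.1)).sum = _
    omega
  · rw [deg_TT hbas, deg_TT hbas]
    rcases h7 with h | h
    · exact Or.inl ⟨Nat.eq_of_beq_eq_true h.1, Nat.eq_of_beq_eq_true h.2⟩
    · exact Or.inr ⟨Nat.eq_of_beq_eq_true h.1, Nat.eq_of_beq_eq_true h.2⟩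
  · rw [deg_TT hbas, deg_TT hbas]
    rcases h8 with h | h
    · exact Or.inl ⟨Nat.eq_of_beq_eq_true h.1, Nat.eq_of_beq_eq_true h.2⟩
    · exact Or.inr ⟨Nat.eq_of_beq_eq_true h.1, Nat.eq_of_beq_eq_true h.2⟩
  · rw [List.map_map, ← hB, ← h9]
    clear hB hg h9 h5 h2 h4 hR
    induction l with
    | nil => rfl
    | cons s M ih =>
      simp only [List.map_cons, List.zipWith_cons_cons, Function.comp_apply, List.cons.injEq]
      refine ⟨?_, ih⟩
      rw [deg_TT hbas]

end Pool.Agent.Helper79.HH
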