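import Pool.Agent.Helper79.HG.Lit
import Pool.Agent.Helper79.HG.Replace
import Pool.Agent.Helper79.HX.Conf

/-!
# Slots: places where a vertex `b` and the vertex `D` can get five more triangles each
-/

namespace Pool.Agent.Helper79.HH

open Finset Pool.Agent.Helper79.HX Pool.Agent.Helper79.HG

/-- `p` has degree five, its link is `D, x1, b, x3, x2`. -/
structure Slot (T : Finset (Finset ℕ)) (D b p x1 x2 x3 : ℕ) : Prop where
  dp : deg T p = 5
  m1 : {p, D, x1} ∈ T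
  m2 : {p, x1, b} ∈ T
  m3 : {p, b, x3} ∈ T
  m4 : {p, x3, x2} ∈ T
  m5 : {p, x2, D} ∈ T
  nd : [D, b, p, x1, x2, x3].Nodup

/-- the star of `5` in the standard labels: `D = 0`, `x1 = 1`, `b = 2`, `x3 = 3`, `x2 = 4` -/
def slotC : Finset (Finset ℕ) := {{5, 0, 1}, {5, 1, 2}, {5, 2, 3}, {5, 3, 4}, {5, 4, 0}}

/-- its replacement: an icosahedron, cut open, is inserted -/
def slotNL : List (Finset ℕ) :=
  [{0, 12, 15}, {0, 5, 15}, {5, 14, 15}, {13, 14, 15}, {12, 13, 15}, {11, 13, 14}, {10, 11, 13},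
   {10, 12, 13}, {8, 10, 12}, {0, 8, 12}, {9, 10, 11}, {8, 9, 10}, {7, 8, 9}, {0, 7, 8}, {0, 6,
   7}, {0, 4, 6}, {3, 4, 6}, {2, 3, 6}, {2, 6, 7}, {2, 7, 9}, {2, 9, 11}, {2, 11, 14}, {2, 5,
   14}, {0, 1, 5}, {1, 2, 5}]

def slotN : Finset (Finset ℕ) := slotNL.toFinset

set_option maxRecDepth 100000 in
theorem slotPatch : Patch slotC slotN {6, 7, 8, 9, 10, 11, 12, 13, 14, 15} {5} where
  ne := ⟨{5, 0, 1}, by decide⟩
  tri := by decide
  vert := by decide
  edge := by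
    unfold cnt
    decide
  bdry := by
    unfold cnt
    decide
  new := by
    unfold cnt
    decide
  conn := conn_of_ok (by decide)
  card := by decide

/-- A list of slots `(b, p)` at the same vertex `D`, which do not interfere. -/
structure Slots (T : Finset (Finset ℕ)) (D : ℕ) (l : List (ℕ × ℕ)) : Prop where
  slot : ∀ x ∈ l, ∃ x1 x2 x3, Slot T D x.1 x.2 x1 x2 x3
  pw : l.Pairwise (fun x y => x.1 ≠ y.1 ∧ x.1 ≠ y.2 ∧ x.2 ≠ y.1 ∧ x.2 ≠ y.2 ∧
    ∀ t ∈ T, ¬ (x.2 ∈ t ∧ y.2 ∈ t))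

/-- A sphere with two marked triangles `a b c`, `a b' c'` which have only the vertex `a` in common;
the degrees are `z` (of `a`), `x, y, u, v`, the other vertices have the degrees `M`. -/
def Two (z x y u v : ℕ) (M : Multiset ℕ) : Prop :=
  ∃ (T : Finset (Finset ℕ)) (a b c b' c' : ℕ), IsSphere T ∧ [a, b, c, b', c'].Nodup ∧
    {a, b, c} ∈ T ∧ {a, b', c'} ∈ T ∧ deg T a = z ∧ deg T b = x ∧ deg T c = y ∧ deg T b' = u ∧
    deg T c' = v ∧ (verts T \ {a, b, c, b', c'}).val.map (deg T) = M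

end Pool.Agent.Helper79.HH
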