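import Pool.Agent.Helper79.HG.Glue
import Pool.Agent.Helper79.HH.SlotDefs

/-!
# BLOCK HH-11: gluing a piece with two marked triangles

The proof is that of `glue` in HG/Glue.lean (helper32) with `T'` replaced by the sphere of `Two`; in
addition the triangle `{a', b'', c''}` (the second mark of the second sphere) is kept: its image
`{a, g b'', g c''}` is the mark of the result, where `g` is the relabelling.  The degree of `a` is
`z + z' - 2`, those of `g b''`, `g c''` are `u`, `v`; the remaining vertices are those of `M`, `M'` and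
`b`, `c` with the degrees `x + x' - 2`, `y + y' - 2`.
-/

namespace Pool.Agent.Helper79.HH

open Finset Pool.Agent.Helper79.HX Pool.Agent.Helper79.HG

section erase
variable {S : Finset (Finset ℕ)} {f : Finset ℕ} (hS : IsSphere S) (hf : f ∈ S)

include hS hf in
private theorem er3_g4 : ∀ e ∈ f.powersetCard 2,
    ((S.erase f).filter (fun s => e ⊆ s)).card = 1 := by
  intro e he
  obtain ⟨h1, h2⟩ := Finset.mem_powersetCard.1 he
  rw [Finset.filter_erase, Finset.card_erase_of_mem (Finset.mem_filter.2 ⟨hf, h1⟩),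
    hS.edge f hf e h1 h2]

include hS in
private theorem er2_g4 : ∀ t ∈ S.erase f, ∀ e ∈ t.powersetCard 2, ¬ e ⊆ f →
    ((S.erase f).filter (fun s => e ⊆ s)).card = 2 ∧ ∃ v ∈ e, v ∈ verts S \ f := by
  intro t ht e he hef
  obtain ⟨h1, h2⟩ := Finset.mem_powersetCard.1 he
  have htS := Finset.mem_of_mem_erase ht
  constructor
  · rw [Finset.filter_erase, Finset.erase_eq_of_notMem, hS.edge t htS e h1 h2]
    intro h
    exact hef (Finset.mem_filter.1 h).2
  · obtain ⟨v, hv, hvf⟩ := Finset.not_subset.1 hef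
    exact ⟨v, hv, Finset.mem_sdiff.2 ⟨mem_verts.2 ⟨t, htS, h1 hv⟩, hvf⟩⟩

include hS hf in
private theorem er7_g4 : ∀ t ∈ S.erase f, ∃ v ∈ t, v ∈ verts S \ f := by
  intro t ht
  obtain ⟨hne, htS⟩ := Finset.mem_erase.1 ht
  have h : ¬ t ⊆ f := by
    intro h
    exact hne (Finset.eq_of_subset_of_card_le h (by rw [hS.tri t htS, hS.tri f hf]))
  obtain ⟨v, hv, hvf⟩ := Finset.not_subset.1 h
  exact ⟨v, hv, Finset.mem_sdiff.2 ⟨mem_verts.2 ⟨t, htS, hv⟩, hvf⟩⟩

include hS hf in
private theorem er5_g4 : verts (S.erase f) = f ∪ (verts S \ f) := by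
  have hfv : f ⊆ verts S := fun v hv => mem_verts.2 ⟨f, hf, hv⟩
  rw [Finset.union_sdiff_of_subset hfv]
  apply Finset.Subset.antisymm
  · intro v hv
    obtain ⟨t, ht, hvt⟩ := mem_verts.1 hv
    exact mem_verts.2 ⟨t, Finset.mem_of_mem_erase ht, hvt⟩
  · intro v hv
    obtain ⟨t, ht, hvt⟩ := mem_verts.1 hv
    by_cases htf : t = f
    · subst htf
      -- an edge of `f` at `v`
      obtain ⟨w, hw⟩ : (t.erase v).Nonempty := by
        rw [← Finset.card_pos, Finset.card_erase_of_mem hvt, hS.tri t hf]
        norm_num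
      obtain ⟨hwv, hwt⟩ := Finset.mem_erase.1 hw
      have he : ({v, w} : Finset ℕ) ∈ t.powersetCard 2 := by
        rw [Finset.mem_powersetCard]
        refine ⟨?_, Finset.card_pair hwv.symm⟩
        intro x hx
        simp only [Finset.mem_insert, Finset.mem_singleton] at hx
        rcases hx with rfl | rfl
        · exact hvt
        · exact hwt
      have h1 := er3_g4 hS hf _ he
      obtain ⟨n, hn⟩ : ((S.erase t).filter (fun s => ({v, w} : Finset ℕ) ⊆ s)).Nonempty := by
        rw [← Finset.card_pos, h1]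
        norm_num
      obtain ⟨hn1, hn2⟩ := Finset.mem_filter.1 hn
      exact mem_verts.2 ⟨n, hn1, hn2 (by simp)⟩
    · exact mem_verts.2 ⟨t, Finset.mem_erase.2 ⟨htf, ht⟩, hvt⟩

include hS hf in
private theorem er6_g4 : 2 * (verts S \ f).card + 1 = (S.erase f).card := by
  have hfv : f ⊆ verts S := fun v hv => mem_verts.2 ⟨f, hf, hv⟩
  have h1 := Finset.card_sdiff_add_card_eq_card hfv
  have h2 := Finset.card_erase_add_one hf
  have h3 := hS.euler
  have h4 := hS.tri f hf
  omega

end erase

private theorem deg_erase_g4 {S : Finset (Finset ℕ)} {f : Finset ℕ} (hf : f ∈ S) (v : ℕ) :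
    deg (S.erase f) v + (if v ∈ f then 1 else 0) = deg S v := by
  unfold deg
  rw [Finset.filter_erase]
  split_ifs with h
  · exact Finset.card_erase_add_one (Finset.mem_filter.2 ⟨hf, h⟩)
  · rw [Finset.erase_eq_of_notMem (s := S.filter (fun t => v ∈ t))
      (fun h1 => h (Finset.mem_filter.1 h1).2), add_zero]

private theorem deg_zero_g4 {S : Finset (Finset ℕ)} {v : ℕ} (h : v ∉ verts S) : deg S v = 0 := by
  rw [deg, Finset.card_eq_zero, Finset.filter_eq_empty_iff]
  intro t ht hv
  exact h (mem_verts.2 ⟨t, ht, hv⟩)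

theorem glue_two {z x y z' x' y' u v : ℕ} {M M' : Multiset ℕ} (h : Conf z x y M)
    (h' : Two z' x' y' u v M') :
    Conf (z + z' - 2) u v (M + M' + {x + x' - 2, y + y' - 2}) := by
  obtain ⟨T, a, b, c, hS, hab, hac, hbc, hT, ha, hb, hc, hM⟩ := h
  obtain ⟨T', a', b', c', p, r, hS', hnd, hT', hP', ha', hb', hc', hp, hr, hM'⟩ := h'
  simp only [List.nodup_cons, List.mem_cons, List.not_mem_nil, or_false, not_or,
    List.nodup_nil, and_true, not_false_eq_true] at hnd
  obtain ⟨⟨hab', hac', hap, har⟩, ⟨hbc', hbp, hbr⟩, ⟨hcp, hcr⟩, hpr⟩ := hnd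
  obtain ⟨s, hs⟩ : ∃ s, ∀ v ∈ verts T, v < s :=
    ⟨(verts T).sup id + 1, fun v hv => Nat.lt_succ_of_le (Finset.le_sup (f := id) hv)⟩
  obtain ⟨va, vb, vc⟩ := mem_of_tri hT
  obtain ⟨-, vp, vr⟩ := mem_of_tri hP'
  obtain ⟨g, hg⟩ : ∃ g : ℕ → ℕ, g = fun v => if v = a' then a else if v = b' then b else
      if v = c' then c else v + s := ⟨_, rfl⟩
  have ga : g a' = a := by rw [hg]; simp
  have gb : g b' = b := by rw [hg]; simp [Ne.symm hab']
  have gc : g c' = c := by rw [hg]; simp [Ne.symm hac', Ne.symm hbc']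
  have gv : ∀ v, v ≠ a' → v ≠ b' → v ≠ c' → g v = v + s := by
    intro v h1 h2 h3
    rw [hg]
    simp [h1, h2, h3]
  have hinj : Function.Injective g := by
    intro u v huv
    have h1 := hs a va
    have h2 := hs b vb
    have h3 := hs c vc
    rw [hg] at huv
    simp only at huv
    split_ifs at huv <;> omega
  obtain ⟨S, hSdef⟩ : ∃ S, S = relabel g T' := ⟨_, rfl⟩
  obtain ⟨f, hfdef⟩ : ∃ f : Finset ℕ, f = {a, b, c} := ⟨_, rfl⟩
  have hSS : IsSphere S := hSdef ▸ relabel_isSphere hinj hS'
  have hfg : f = ({a', b', c'} : Finset ℕ).image g := by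
    rw [hfdef, Finset.image_insert, Finset.image_insert, Finset.image_singleton, ga, gb, gc]
  have hfS : f ∈ S := by
    rw [hfg, hSdef]
    exact Finset.mem_image_of_mem _ hT'
  have hfT : f ∈ T := hfdef ▸ hT
  have hWim : verts S \ f = (verts T' \ {a', b', c'}).image g := by
    rw [hSdef, relabel_verts, hfg, Finset.image_sdiff _ _ hinj]
  have hW : Disjoint (verts S \ f) (verts T) := by
    rw [hWim, Finset.disjoint_left]
    intro v hv hvT
    obtain ⟨u, hu, rfl⟩ := Finset.mem_image.1 hv
    simp only [Finset.mem_sdiff, Finset.mem_insert, Finset.mem_singleton, not_or] at hu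
    obtain ⟨-, h1, h2, h3⟩ := hu
    have h4 := hs _ hvT
    rw [gv u h1 h2 h3] at h4
    omega
  have h7 := er7_g4 hSS hfS
  have h5 := er5_g4 hSS hfS
  -- the two vertices of the second mark
  have hpW : g p ∈ verts S \ f := by
    rw [hWim]
    refine Finset.mem_image_of_mem _ ?_
    simp only [Finset.mem_sdiff, Finset.mem_insert, Finset.mem_singleton, not_or]
    exact ⟨vp, Ne.symm hap, Ne.symm hbp, Ne.symm hcp⟩
  have hrW : g r ∈ verts S \ f := by
    rw [hWim]
    refine Finset.mem_image_of_mem _ ?_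
    simp only [Finset.mem_sdiff, Finset.mem_insert, Finset.mem_singleton, not_or]
    exact ⟨vr, Ne.symm har, Ne.symm hbr, Ne.symm hcr⟩
  have hpT : g p ∉ verts T := Finset.disjoint_left.1 hW hpW
  have hrT : g r ∉ verts T := Finset.disjoint_left.1 hW hrW
  have hpf : g p ∉ f := (Finset.mem_sdiff.1 hpW).2
  have hrf : g r ∉ f := (Finset.mem_sdiff.1 hrW).2
  have hne_of : ∀ w ∈ verts T, w ≠ g p ∧ w ≠ g r := fun w hw =>
    ⟨fun h => hpT (h ▸ hw), fun h => hrT (h ▸ hw)⟩
  refine ⟨T.erase f ∪ S.erase f, a, g p, g r, plug_isSphere hS hfT hW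
    (fun t ht => hSS.tri t (Finset.mem_of_mem_erase ht)) (er2_g4 hSS) (er3_g4 hSS hfS)
    (conn_erase hSS hfS) h5 (er6_g4 hSS hfS) h7, (hne_of a va).1, (hne_of a va).2,
    fun h => hpr (hinj h), ?_, ?_, ?_, ?_, ?_⟩
  · refine Finset.mem_union_right _ (Finset.mem_erase.2 ⟨fun h => hpf ?_, ?_⟩)
    · rw [← h]
      simp
    · rw [hSdef]
      have h1 : ({a, g p, g r} : Finset ℕ) = ({a', p, r} : Finset ℕ).image g := by
        rw [Finset.image_insert, Finset.image_insert, Finset.image_singleton, ga]
      rw [h1]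
      exact Finset.mem_image_of_mem _ hP'
  all_goals
    have hd : ∀ v, deg (T.erase f ∪ S.erase f) v + (if v ∈ f then 1 else 0) =
        deg T v + deg (S.erase f) v := plug_deg hfT hW h7
    have hdS : ∀ v, deg S (g v) = deg T' v := fun v => by rw [hSdef, relabel_deg hinj]
    have key : ∀ u u', g u' = u → u ∈ f →
        deg (T.erase f ∪ S.erase f) u = deg T u + deg T' u' - 2 := by
      intro u u' hu huf
      have h3 := hd u
      have h4 := deg_erase_g4 hfS u
      rw [if_pos huf] at h3 h4
      rw [← hu, hdS, hu] at h4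
      omega
    have knew : ∀ w, g w ∉ f → g w ∉ verts T → deg (T.erase f ∪ S.erase f) (g w) = deg T' w := by
      intro w hwf hwT
      have h3 := hd (g w)
      have h4 := deg_erase_g4 hfS (g w)
      rw [if_neg hwf] at h3 h4
      rw [deg_zero_g4 hwT] at h3
      rw [hdS] at h4
      omega
  · rw [key a a' ga (by rw [hfdef]; simp), ha, ha']
  · rw [knew p hpf hpT, hp]
  · rw [knew r hrf hrT, hr]
  · have hV : verts (T.erase f ∪ S.erase f) = (f ∪ (verts T \ f)) ∪ (verts S \ f) := by
      rw [plug_verts hfT h5, Finset.union_sdiff_of_subset (fun v hv => mem_verts.2 ⟨f, hfT, hv⟩)]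
    have hX : verts (T.erase f ∪ S.erase f) \ {a, g p, g r} =
        (({b, c} : Finset ℕ) ∪ (verts T \ f)) ∪ ((verts S \ f) \ {g p, g r}) := by
      rw [hV]
      ext v
      simp only [Finset.mem_sdiff, Finset.mem_union, Finset.mem_insert, Finset.mem_singleton,
        not_or]
      constructor
      · rintro ⟨(h1 | ⟨h1, h2⟩) | ⟨h1, h2⟩, h3, h4, h5⟩
        · rw [hfdef] at h1
          simp only [Finset.mem_insert, Finset.mem_singleton] at h1
          rcases h1 with h1 | h1
          · exact absurd h1 h3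
          · exact Or.inl (Or.inl h1)
        · exact Or.inl (Or.inr ⟨h1, h2⟩)
        · exact Or.inr ⟨⟨h1, h2⟩, h4, h5⟩
      · rintro ((h1 | ⟨h1, h2⟩) | ⟨⟨h1, h2⟩, h3, h4⟩)
        · have h2 : v ∈ f := by
            rw [hfdef]
            simp only [Finset.mem_insert, Finset.mem_singleton]
            exact Or.inr h1
          have h3 : v ∈ verts T := mem_verts.2 ⟨f, hfT, h2⟩
          refine ⟨Or.inl (Or.inl h2), ?_, (hne_of v h3).1, (hne_of v h3).2⟩
          rcases h1 with h1 | h1
          · rw [h1]; exact hab.symm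
          · rw [h1]; exact hac.symm
        · refine ⟨Or.inl (Or.inr ⟨h1, h2⟩), fun h => h2 ?_, (hne_of v h1).1, (hne_of v h1).2⟩
          rw [h, hfdef]
          simp
        · refine ⟨Or.inr ⟨h1, h2⟩, fun h => h2 ?_, h3, h4⟩
          rw [h, hfdef]
          simp
    have hbcf : ({b, c} : Finset ℕ) ⊆ f := by
      rw [hfdef]
      exact Finset.subset_insert _ _
    have hd1 : Disjoint ({b, c} : Finset ℕ) (verts T \ f) :=
      Finset.disjoint_of_subset_left hbcf Finset.disjoint_sdiff
    have hsubT : ({b, c} : Finset ℕ) ∪ (verts T \ f) ⊆ verts T :=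
      Finset.union_subset (hbcf.trans fun v hv => mem_verts.2 ⟨f, hfT, hv⟩) Finset.sdiff_subset
    have hd2 : Disjoint (({b, c} : Finset ℕ) ∪ (verts T \ f)) ((verts S \ f) \ {g p, g r}) :=
      Finset.disjoint_of_subset_left hsubT
        (Finset.disjoint_of_subset_right Finset.sdiff_subset hW.symm)
    have hval : (verts (T.erase f ∪ S.erase f) \ {a, g p, g r}).val =
        ({b, c} : Finset ℕ).val + (verts T \ f).val + ((verts S \ f) \ {g p, g r}).val := by
      rw [hX, ← Finset.disjUnion_eq_union _ _ hd2, Finset.disjUnion_val,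
        ← Finset.disjUnion_eq_union _ _ hd1, Finset.disjUnion_val]
    rw [hval, Multiset.map_add, Multiset.map_add]
    -- the old vertices
    have e1 : (verts T \ f).val.map (deg (T.erase f ∪ S.erase f)) = M := by
      rw [← hM, hfdef]
      apply Multiset.map_congr rfl
      intro v hv
      have hv' : v ∈ verts T \ {a, b, c} := hv
      rw [← hfdef] at hv' ⊢
      obtain ⟨h1, h2⟩ := Finset.mem_sdiff.1 hv'
      have h3 := hd v
      rw [if_neg h2, deg_zero_g4 (S := S.erase f) (v := v) (by
        rw [h5, Finset.mem_union, not_or]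
        exact ⟨h2, fun h => Finset.disjoint_left.1 hW h h1⟩)] at h3
      exact h3
    -- the new vertices
    have hWim2 : (verts S \ f) \ {g p, g r} = (verts T' \ {a', b', c', p, r}).image g := by
      have h1 : ({g p, g r} : Finset ℕ) = ({p, r} : Finset ℕ).image g := by
        rw [Finset.image_insert, Finset.image_singleton]
      rw [hWim, h1, ← Finset.image_sdiff _ _ hinj]
      congr 1
      ext v
      simp only [Finset.mem_sdiff, Finset.mem_insert, Finset.mem_singleton, not_or]
      tauto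
    have e2 : ((verts S \ f) \ {g p, g r}).val.map (deg (T.erase f ∪ S.erase f)) = M' := by
      rw [hWim2, Finset.image_val_of_injOn hinj.injOn, Multiset.map_map, ← hM']
      apply Multiset.map_congr rfl
      intro v hv
      have hv' : v ∈ verts T' \ {a', b', c', p, r} := hv
      have hgv : g v ∈ (verts S \ f) \ {g p, g r} := by
        rw [hWim2]
        exact Finset.mem_image_of_mem _ hv'
      have hgv' := (Finset.mem_sdiff.1 hgv).1
      exact knew v (Finset.mem_sdiff.1 hgv').2 (Finset.disjoint_left.1 hW hgv')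
    have e3 : ({b, c} : Finset ℕ).val.map (deg (T.erase f ∪ S.erase f)) =
        {x + x' - 2, y + y' - 2} := by
      have k2 := key b b' gb (by rw [hfdef]; simp)
      have k3 := key c c' gc (by rw [hfdef]; simp)
      rw [hb, hb'] at k2
      rw [hc, hc'] at k3
      have hfv : ({b, c} : Finset ℕ).val = b ::ₘ {c} := by
        rw [Finset.insert_val_of_notMem (by simp [hbc]), Finset.singleton_val]
      rw [hfv, Multiset.map_cons, Multiset.map_singleton, k2, k3]
      rfl
    rw [e1, e2, e3, add_assoc, add_comm]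

end Pool.Agent.Helper79.HH
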