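import Pool.Agent.Helper79.HH.SlotStep

/-!
# BLOCK HH-10: growing all the slots

* `slot_steps`: induction on `k` with `slot_step`.
* `slots_all`: induction on the list.  Let `l = x :: l'`.  Apply `slot_steps` to the slot of `x` with
  `k x.1` steps, which gives `T1`.  The remaining slots are still slots of `T1`: for `y ∈ l'` the
  triangles at `y.2` do not contain `x.2` (`pw`), so they are in `T1`; the degree of `y.2` did not
  change (`y.2 ≠ D` by `nd`, `y.2 ≠ x.1` by `pw`).  Since the degree of `y.2` is the same,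
  the triangles of `T1` at `y.2` are exactly those of `T`, which gives the last condition of `pw`
  for `T1`.
* `grow_end`, `grow_two`: apply `slots_all` and compute the multiset of degrees:
  `verts T' \ marks` is the disjoint union of `W`, of the `v ∈ verts T \ marks` with
  `v ∉ l.map Prod.fst`, and of the elements of `l.map Prod.fst` (`l.map Prod.fst` has no duplicates,
  by `pw`, and its elements are vertices of `T`).  The marked triangles contain none of the
  `x.2`, so they are still there.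
-/

namespace Pool.Agent.Helper79.HH

open Finset Pool.Agent.Helper79.HX Pool.Agent.Helper79.HG

private theorem slot_verts_h54 {T : Finset (Finset ℕ)} {D b p x1 x2 x3 : ℕ} (h : Slot T D b p x1 x2 x3) :
    D ∈ verts T ∧ b ∈ verts T :=
  ⟨mem_verts.2 ⟨_, h.m1, by simp⟩, mem_verts.2 ⟨_, h.m2, by simp⟩⟩

private theorem slot_ne_h54 {T : Finset (Finset ℕ)} {D b p x1 x2 x3 : ℕ} (h : Slot T D b p x1 x2 x3) :
    D ≠ b ∧ D ≠ p := by
  have h1 := h.nd
  simp only [List.nodup_cons, List.mem_cons, not_or] at h1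
  exact ⟨h1.1.1, h1.1.2.1⟩

theorem slot_steps {T : Finset (Finset ℕ)} {D b p x1 x2 x3 : ℕ} (hS : IsSphere T)
    (h : Slot T D b p x1 x2 x3) (k : ℕ) : ∃ (T' : Finset (Finset ℕ)) (W : Finset ℕ) (x2' x3' : ℕ),
      IsSphere T' ∧ Disjoint W (verts T) ∧ verts T' = verts T ∪ W ∧ W.card = 10 * k ∧
      (∀ v ∈ W, deg T' v = 5) ∧
      (∀ v ∈ verts T, deg T' v = deg T v + if v = D ∨ v = b then 5 * k else 0) ∧
      (∀ t ∈ T, p ∉ t → t ∈ T') ∧ Slot T' D b p x1 x2' x3' := by
  induction k with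
  | zero =>
    refine ⟨T, ∅, x2, x3, hS, Finset.disjoint_empty_left _, by simp, by simp, by simp, ?_, fun t ht _ => ht, h⟩
    intro v _
    simp
  | succ k ih =>
    obtain ⟨T1, W1, y2, y3, hS1, hd1, hv1, hc1, h51, hdeg1, ht1, hs1⟩ := ih
    obtain ⟨T2, W2, z2, z3, hS2, hd2, hv2, hc2, h52, hdeg2, ht2, hs2⟩ := slot_step hS1 hs1
    rw [hv1, Finset.disjoint_union_right] at hd2
    have hD := slot_verts_h54 h
    refine ⟨T2, W1 ∪ W2, z2, z3, hS2, Finset.disjoint_union_left.2 ⟨hd1, hd2.1⟩, ?_, ?_, ?_, ?_, ?_, hs2⟩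
    · rw [hv2, hv1, Finset.union_assoc]
    · rw [Finset.card_union_of_disjoint hd2.2.symm, hc1, hc2]
      ring
    · intro v hv
      rcases Finset.mem_union.1 hv with hv | hv
      · have h1 : v ∈ verts T1 := by
          rw [hv1]
          exact Finset.mem_union_right _ hv
        have h2 : v ∉ verts T := Finset.disjoint_left.1 hd1 hv
        rw [hdeg2 v h1, h51 v hv, if_neg]
        rintro (rfl | rfl)
        · exact h2 hD.1
        · exact h2 hD.2
      · exact h52 v hv
    · intro v hv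
      have h1 : v ∈ verts T1 := by
        rw [hv1]
        exact Finset.mem_union_left _ hv
      rw [hdeg2 v h1, hdeg1 v hv]
      split_ifs
      · ring
      · rfl
    · intro t ht hp
      exact ht2 t (ht1 t ht hp) hp

theorem slots_all {D : ℕ} (k : ℕ → ℕ) (l : List (ℕ × ℕ)) : ∀ T : Finset (Finset ℕ), IsSphere T →
    Slots T D l → ∃ (T' : Finset (Finset ℕ)) (W : Finset ℕ), IsSphere T' ∧
      Disjoint W (verts T) ∧ verts T' = verts T ∪ W ∧ W.card = 10 * (l.map (fun x => k x.1)).sum ∧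
      (∀ v ∈ W, deg T' v = 5) ∧
      (∀ v ∈ verts T, deg T' v = deg T v + 5 * (if v = D then (l.map (fun x => k x.1)).sum else
        if v ∈ l.map Prod.fst then k v else 0)) ∧
      ∀ t ∈ T, (∀ x ∈ l, x.2 ∉ t) → t ∈ T' := by
  induction l with
  | nil =>
    intro T hS _
    refine ⟨T, ∅, hS, Finset.disjoint_empty_left _, by simp, by simp, by simp, ?_, fun t ht _ => ht⟩
    intro v _
    simp
  | cons x l ih =>
    intro T hS hl
    obtain ⟨x1, x2, x3, hx⟩ := hl.slot x List.mem_cons_self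
    obtain ⟨T1, W1, y2, y3, hS1, hd1, hv1, hc1, h51, hdeg1, ht1, -⟩ := slot_steps hS hx (k x.1)
    have hpw := List.pairwise_cons.1 hl.pw
    have hsl : ∀ y ∈ l, ∃ y1 y2 y3, Slot T D y.1 y.2 y1 y2 y3 := fun y hy => hl.slot y (List.mem_cons_of_mem _ hy)
    -- the triangles at the other slots are unchanged
    have hkeep : ∀ y ∈ l, ∀ t ∈ T, y.2 ∈ t → t ∈ T1 := by
      intro y hy t ht hyt
      exact ht1 t ht fun hxt => (hpw.1 y hy).2.2.2.2 t ht ⟨hxt, hyt⟩
    have hvy : ∀ y ∈ l, y.2 ∈ verts T := by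
      intro y hy
      obtain ⟨y1, y2, y3, hs⟩ := hsl y hy
      exact mem_verts.2 ⟨_, hs.m1, by simp⟩
    have hdegy : ∀ y ∈ l, deg T1 y.2 = deg T y.2 := by
      intro y hy
      obtain ⟨y1, y2, y3, hs⟩ := hsl y hy
      rw [hdeg1 _ (hvy y hy), if_neg, add_zero]
      rintro (h | h)
      · exact (slot_ne_h54 hs).2 h.symm
      · exact (hpw.1 y hy).2.1 h.symm
    have hsame : ∀ y ∈ l, ∀ t ∈ T1, y.2 ∈ t → t ∈ T := by
      intro y hy t ht hyt
      have h1 : T.filter (fun t => y.2 ∈ t) ⊆ T1.filter (fun t => y.2 ∈ t) := by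
        intro t ht
        rw [Finset.mem_filter] at ht ⊢
        exact ⟨hkeep y hy t ht.1 ht.2, ht.2⟩
      have h2 : T.filter (fun t => y.2 ∈ t) = T1.filter (fun t => y.2 ∈ t) :=
        Finset.eq_of_subset_of_card_le h1 (hdegy y hy).le
      have h3 : t ∈ T.filter (fun t => y.2 ∈ t) := by
        rw [h2, Finset.mem_filter]
        exact ⟨ht, hyt⟩
      exact (Finset.mem_filter.1 h3).1
    have hl1 : Slots T1 D l := by
      refine ⟨fun y hy => ?_, ?_⟩
      · obtain ⟨y1, y2, y3, hs⟩ := hsl y hy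
        refine ⟨y1, y2, y3, ⟨?_, ?_, ?_, ?_, ?_, ?_, hs.nd⟩⟩
        · rw [hdegy y hy, hs.dp]
        · exact hkeep y hy _ hs.m1 (by simp)
        · exact hkeep y hy _ hs.m2 (by simp)
        · exact hkeep y hy _ hs.m3 (by simp)
        · exact hkeep y hy _ hs.m4 (by simp)
        · exact hkeep y hy _ hs.m5 (by simp)
      · refine hpw.2.imp_of_mem ?_
        intro y z hy _ hyz
        refine ⟨hyz.1, hyz.2.1, hyz.2.2.1, hyz.2.2.2.1, fun t ht hh => ?_⟩
        exact hyz.2.2.2.2 t (hsame y hy t ht hh.1) hh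
    obtain ⟨T2, W2, hS2, hd2, hv2, hc2, h52, hdeg2, ht2⟩ := ih T1 hS1 hl1
    rw [hv1, Finset.disjoint_union_right] at hd2
    have hD := slot_verts_h54 hx
    have hvl : ∀ v ∈ l.map Prod.fst, v ∈ verts T := by
      intro v hv
      obtain ⟨y, hy, rfl⟩ := List.mem_map.1 hv
      obtain ⟨y1, y2, y3, hs⟩ := hsl y hy
      exact (slot_verts_h54 hs).2
    refine ⟨T2, W1 ∪ W2, hS2, Finset.disjoint_union_left.2 ⟨hd1, hd2.1⟩, ?_, ?_, ?_, ?_, ?_⟩
    · rw [hv2, hv1, Finset.union_assoc]
    · rw [Finset.card_union_of_disjoint hd2.2.symm, hc1, hc2, List.map_cons, List.sum_cons]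
      ring
    · intro v hv
      rcases Finset.mem_union.1 hv with hv | hv
      · have h1 : v ∈ verts T1 := by
          rw [hv1]
          exact Finset.mem_union_right _ hv
        have h2 : v ∉ verts T := Finset.disjoint_left.1 hd1 hv
        rw [hdeg2 v h1, h51 v hv, if_neg, if_neg]
        · exact fun h3 => h2 (hvl v h3)
        · rintro rfl
          exact h2 hD.1
      · exact h52 v hv
    · intro v hv
      have h1 : v ∈ verts T1 := by
        rw [hv1]
        exact Finset.mem_union_left _ hv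
      rw [hdeg2 v h1, hdeg1 v hv, List.map_cons, List.sum_cons, List.map_cons]
      by_cases hvD : v = D
      · rw [if_pos hvD, if_pos (Or.inl hvD), if_pos hvD]
        ring
      · rw [if_neg hvD, if_neg hvD]
        by_cases hvx : v = x.1
        · have h3 : v ∉ l.map Prod.fst := by
            intro h4
            obtain ⟨y, hy, h5⟩ := List.mem_map.1 h4
            exact (hpw.1 y hy).1 (by rw [← hvx, h5])
          rw [if_pos (Or.inr hvx), if_neg h3, if_pos (by rw [hvx]; exact List.mem_cons_self), hvx]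
          ring
        · rw [if_neg (by rintro (h | h); exacts [hvD h, hvx h])]
          by_cases h3 : v ∈ l.map Prod.fst
          · rw [if_pos h3, if_pos (List.mem_cons_of_mem _ h3), add_zero]
          · rw [if_neg h3, if_neg, add_zero]
            intro h4
            rcases List.mem_cons.1 h4 with h5 | h5
            · exact hvx h5
            · exact h3 h5
    · intro t ht hp
      refine ht2 t (ht1 t ht (hp x List.mem_cons_self)) fun y hy => hp y (List.mem_cons_of_mem _ hy)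

private theorem count_h54 {T T' : Finset (Finset ℕ)} {l : List (ℕ × ℕ)} {W m : Finset ℕ} {k : ℕ → ℕ}
    (hl : Slots T 0 l) (hm0 : 0 ∈ m) (hmT : m ⊆ verts T) (hml : ∀ x ∈ l, x.1 ∉ m)
    (hd : Disjoint W (verts T)) (hv : verts T' = verts T ∪ W) (hc : W.card = 10 * (l.map (fun x => k x.1)).sum)
    (h5 : ∀ v ∈ W, deg T' v = 5)
    (hdeg : ∀ v ∈ verts T, deg T' v = deg T v + 5 * (if v = 0 then (l.map (fun x => k x.1)).sum else
        if v ∈ l.map Prod.fst then k v else 0)) :
    (verts T' \ m).val.map (deg T') = Multiset.replicate (10 * (l.map (fun x => k x.1)).sum) 5 +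
      ((verts T \ m).filter (fun v => v ∉ l.map Prod.fst)).val.map (deg T) +
        ((l.map (fun x => deg T x.1 + 5 * k x.1) : List ℕ) : Multiset ℕ) := by
  have hvl : ∀ v ∈ l.map Prod.fst, v ∈ verts T := by
    intro v hv
    obtain ⟨y, hy, rfl⟩ := List.mem_map.1 hv
    obtain ⟨y1, y2, y3, hs⟩ := hl.slot y hy
    exact (slot_verts_h54 hs).2
  have hvm : ∀ v ∈ l.map Prod.fst, v ∉ m := by
    intro v hv
    obtain ⟨y, hy, rfl⟩ := List.mem_map.1 hv
    exact hml y hy
  have hnd : (l.map Prod.fst).Nodup := List.pairwise_map.2 (hl.pw.imp fun h => h.1)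
  set A := (verts T \ m).filter (fun v => v ∉ l.map Prod.fst) with hA
  set B : Finset ℕ := (l.map Prod.fst).toFinset with hB
  have hWA : Disjoint W A := by
    refine Finset.disjoint_left.2 fun v hvW hvA => Finset.disjoint_left.1 hd hvW ?_
    rw [hA, Finset.mem_filter, Finset.mem_sdiff] at hvA
    exact hvA.1.1
  have hWB : Disjoint (W.disjUnion A hWA) B := by
    rw [Finset.disjUnion_eq_union, Finset.disjoint_union_left]
    constructor
    · refine Finset.disjoint_left.2 fun v hvW hvB => Finset.disjoint_left.1 hd hvW ?_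
      exact hvl v (List.mem_toFinset.1 hvB)
    · refine Finset.disjoint_left.2 fun v hvA hvB => ?_
      rw [hA, Finset.mem_filter] at hvA
      exact hvA.2 (List.mem_toFinset.1 hvB)
  have hU : verts T' \ m = (W.disjUnion A hWA).disjUnion B hWB := by
    rw [Finset.disjUnion_eq_union, Finset.disjUnion_eq_union, hv]
    ext v
    rw [Finset.mem_sdiff, Finset.mem_union, Finset.mem_union, Finset.mem_union, hA, Finset.mem_filter,
      Finset.mem_sdiff, hB, List.mem_toFinset]
    constructor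
    · rintro ⟨h1 | h1, h2⟩
      · by_cases h3 : v ∈ l.map Prod.fst
        · exact Or.inr h3
        · exact Or.inl (Or.inr ⟨⟨h1, h2⟩, h3⟩)
      · exact Or.inl (Or.inl h1)
    · rintro ((h1 | h1) | h1)
      · exact ⟨Or.inr h1, fun h2 => Finset.disjoint_left.1 hd h1 (hmT h2)⟩
      · exact ⟨Or.inl h1.1.1, h1.1.2⟩
      · exact ⟨Or.inl (hvl v h1), hvm v h1⟩
  rw [hU, Finset.disjUnion_val, Finset.disjUnion_val, Multiset.map_add, Multiset.map_add]
  congr 1
  · congr 1
    · rw [Multiset.eq_replicate]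
      refine ⟨by rw [Multiset.card_map]; exact hc, fun b hb => ?_⟩
      obtain ⟨v, hv, rfl⟩ := Multiset.mem_map.1 hb
      exact h5 v hv
    · refine Multiset.map_congr rfl fun v hv => ?_
      have hv' : v ∈ A := hv
      rw [hA, Finset.mem_filter, Finset.mem_sdiff] at hv'
      rw [hdeg v hv'.1.1, if_neg, if_neg hv'.2, mul_zero, add_zero]
      rintro rfl
      exact hv'.1.2 hm0
  · rw [hB, List.toFinset_val, hnd.dedup, Multiset.map_coe, List.map_map]
    congr 1
    refine List.map_congr_left fun x hx => ?_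
    have h1 : x.1 ∈ l.map Prod.fst := List.mem_map.2 ⟨x, hx, rfl⟩
    simp only [Function.comp_apply]
    rw [hdeg x.1 (hvl _ h1), if_neg, if_pos h1]
    intro h2
    exact hml x hx (h2 ▸ hm0)

theorem grow_end {T : Finset (Finset ℕ)} {l : List (ℕ × ℕ)} (hS : IsSphere T)
    (hl : Slots T 0 l) (hT : {0, 1, 2} ∈ T)
    (hm : ∀ x ∈ l, x.1 ∉ ({0, 1, 2} : Finset ℕ) ∧ x.2 ∉ ({0, 1, 2} : Finset ℕ)) (k : ℕ → ℕ)
    {R : Multiset ℕ}
    (hR : ((verts T \ {0, 1, 2}).filter (fun v => v ∉ l.map Prod.fst)).val.map (deg T) = R) :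
    Conf (deg T 0 + 5 * (l.map (fun x => k x.1)).sum) (deg T 1) (deg T 2)
      (Multiset.replicate (10 * (l.map (fun x => k x.1)).sum) 5 + R +
        ((l.map (fun x => deg T x.1 + 5 * k x.1) : List ℕ) : Multiset ℕ)) := by
  obtain ⟨T', W, hS', hd, hv, hc, h5, hdeg, ht⟩ := slots_all k l T hS hl
  have hmT : ({0, 1, 2} : Finset ℕ) ⊆ verts T := fun v hv => mem_verts.2 ⟨_, hT, hv⟩
  have hd0 : ∀ v ∈ ({0, 1, 2} : Finset ℕ), v ≠ 0 → deg T' v = deg T v := by
    intro v hv h0
    rw [hdeg v (hmT hv), if_neg h0, if_neg, mul_zero, add_zero]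
    intro h1
    obtain ⟨x, hx, rfl⟩ := List.mem_map.1 h1
    exact (hm x hx).1 hv
  refine ⟨T', 0, 1, 2, hS', by norm_num, by norm_num, by norm_num, ht _ hT fun x hx => (hm x hx).2, ?_,
    hd0 1 (by simp) (by norm_num), hd0 2 (by simp) (by norm_num), ?_⟩
  · rw [hdeg 0 (hmT (by simp)), if_pos rfl]
  · rw [count_h54 hl (by simp) hmT (fun x hx => (hm x hx).1) hd hv hc h5 hdeg, hR]

theorem grow_two {T : Finset (Finset ℕ)} {l : List (ℕ × ℕ)} (hS : IsSphere T)
    (hl : Slots T 0 l) (hT : {0, 1, 2} ∈ T) (hT' : {0, 3, 4} ∈ T)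
    (hm : ∀ x ∈ l, x.1 ∉ ({0, 1, 2, 3, 4} : Finset ℕ) ∧ x.2 ∉ ({0, 1, 2, 3, 4} : Finset ℕ))
    (k : ℕ → ℕ) {R : Multiset ℕ}
    (hR : ((verts T \ {0, 1, 2, 3, 4}).filter (fun v => v ∉ l.map Prod.fst)).val.map (deg T) = R) :
    Two (deg T 0 + 5 * (l.map (fun x => k x.1)).sum) (deg T 1) (deg T 2) (deg T 3) (deg T 4)
      (Multiset.replicate (10 * (l.map (fun x => k x.1)).sum) 5 + R +
        ((l.map (fun x => deg T x.1 + 5 * k x.1) : List ℕ) : Multiset ℕ)) := by
  obtain ⟨T', W, hS', hd, hv, hc, h5, hdeg, ht⟩ := slots_all k l T hS hl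
  have hmT : ({0, 1, 2, 3, 4} : Finset ℕ) ⊆ verts T := by
    intro v hv
    have h1 : v = 0 ∨ v = 1 ∨ v = 2 ∨ v = 3 ∨ v = 4 := by simpa using hv
    rcases h1 with rfl | rfl | rfl | rfl | rfl
    · exact mem_verts.2 ⟨_, hT, by simp⟩
    · exact mem_verts.2 ⟨_, hT, by simp⟩
    · exact mem_verts.2 ⟨_, hT, by simp⟩
    · exact mem_verts.2 ⟨_, hT', by simp⟩
    · exact mem_verts.2 ⟨_, hT', by simp⟩
  have hd0 : ∀ v ∈ ({0, 1, 2, 3, 4} : Finset ℕ), v ≠ 0 → deg T' v = deg T v := by
    intro v hv h0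
    rw [hdeg v (hmT hv), if_neg h0, if_neg, mul_zero, add_zero]
    intro h1
    obtain ⟨x, hx, rfl⟩ := List.mem_map.1 h1
    exact (hm x hx).1 hv
  have hsub1 : ({0, 1, 2} : Finset ℕ) ⊆ {0, 1, 2, 3, 4} := by decide
  have hsub2 : ({0, 3, 4} : Finset ℕ) ⊆ {0, 1, 2, 3, 4} := by decide
  refine ⟨T', 0, 1, 2, 3, 4, hS', by decide, ht _ hT fun x hx h => (hm x hx).2 (hsub1 h),
    ht _ hT' fun x hx h => (hm x hx).2 (hsub2 h), ?_, hd0 1 (by simp) (by norm_num),
    hd0 2 (by simp) (by norm_num), hd0 3 (by simp) (by norm_num), hd0 4 (by simp) (by norm_num), ?_⟩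
  · rw [hdeg 0 (hmT (by simp)), if_pos rfl]
  · rw [count_h54 hl (by simp) hmT (fun x hx => (hm x hx).1) hd hv hc h5 hdeg, hR]

end Pool.Agent.Helper79.HH
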