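import Pool.Agent.Helper79.HG.Core
import Pool.Agent.Helper79.HH.SlotAll
import Pool.Agent.Helper79.HH.GlueTwo

/-!
# Growing end pieces and middle pieces
-/

namespace Pool.Agent.Helper79.HH

open Finset Pool.Agent.Helper79.HX Pool.Agent.Helper79.HG

theorem core_grow {T : Finset (Finset ℕ)} {l : List (ℕ × ℕ)} {n5 g : ℕ} {P : Multiset ℕ}
    {B : List ℕ} (hS : IsSphere T) (hl : Slots T 0 l) (hT : {0, 1, 2} ∈ T)
    (hm : ∀ x ∈ l, x.1 ∉ ({0, 1, 2} : Finset ℕ) ∧ x.2 ∉ ({0, 1, 2} : Finset ℕ)) (k : ℕ → ℕ)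
    (hR : ((verts T \ {0, 1, 2}).filter (fun v => v ∉ l.map Prod.fst)).val.map (deg T) =
      Multiset.replicate n5 5 + P)
    (hg : deg T 0 + 5 * (l.map (fun x => k x.1)).sum = g) (h1 : deg T 1 = 4) (h2 : deg T 2 = 3)
    (hB : l.map (fun x => deg T x.1 + 5 * k x.1) = B) : CoreG g (P + (B : Multiset ℕ)) 0 := by
  have h := grow_end hS hl hT hm k hR
  rw [hg, h1, h2, hB] at h
  refine core_of h (10 * (l.map (fun x => k x.1)).sum + n5 + 2) ?_
  rw [Multiset.replicate_zero, add_zero]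
  rw [show 10 * (l.map (fun x => k x.1)).sum + n5 + 2 =
    (10 * (l.map (fun x => k x.1)).sum + n5) + 1 + 1 by omega, Multiset.replicate_succ,
    Multiset.replicate_succ, Multiset.cons_add, Multiset.cons_add, Multiset.replicate_add]
  simp only [add_assoc]

/-- A middle piece: it adds the faces `X`, pentagons, and `g` neighbours of the large face. -/
def MidG (g : ℕ) (X : Multiset ℕ) : Prop :=
  ∀ z M, Conf z 3 4 M → ∃ p, Conf (z + g) 3 4 (Multiset.replicate p 5 + M + X)

theorem mid_of {g x y u v p : ℕ} {X M' : Multiset ℕ} (h : Two (g + 2) x y u v M')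
    (hM : M' = Multiset.replicate p 5 + X) (h1 : (x = 4 ∧ y = 3) ∨ (x = 3 ∧ y = 4))
    (h2 : (u = 4 ∧ v = 3) ∨ (u = 3 ∧ v = 4)) : MidG g X := by
  intro z M hz
  refine ⟨p + 2, ?_⟩
  have key : Conf (z + g) u v (Multiset.replicate (p + 2) 5 + M + X) := by
    have hrep : Multiset.replicate (p + 2) 5 = {5, 5} + Multiset.replicate p 5 := by
      rw [Multiset.replicate_succ, Multiset.replicate_succ]; rfl
    rcases h1 with ⟨rfl, rfl⟩ | ⟨rfl, rfl⟩
    · have h3 := glue_two hz h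
      rw [show z + (g + 2) - 2 = z + g by omega, hM] at h3
      have h4 : Conf (z + g) u v (M + (Multiset.replicate p 5 + X) + {5, 5}) := h3
      clear h3
      refine h4.congr ?_
      intro j
      rw [hrep]
      simp only [Multiset.insert_eq_cons, Multiset.count_add, Multiset.count_cons,
        Multiset.count_singleton]
      omega
    · have h3 := glue_two hz.swap h
      rw [show z + (g + 2) - 2 = z + g by omega, hM] at h3
      have h4 : Conf (z + g) u v (M + (Multiset.replicate p 5 + X) + {5, 5}) := h3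
      clear h3
      refine h4.congr ?_
      intro j
      rw [hrep]
      simp only [Multiset.insert_eq_cons, Multiset.count_add, Multiset.count_cons,
        Multiset.count_singleton]
      omega
  rcases h2 with ⟨rfl, rfl⟩ | ⟨rfl, rfl⟩
  · exact key.swap
  · exact key

theorem mid_grow {T : Finset (Finset ℕ)} {l : List (ℕ × ℕ)} {n5 g : ℕ}
    {B : List ℕ} (hS : IsSphere T) (hl : Slots T 0 l) (hT : {0, 1, 2} ∈ T) (hT' : {0, 3, 4} ∈ T)
    (hm : ∀ x ∈ l, x.1 ∉ ({0, 1, 2, 3, 4} : Finset ℕ) ∧ x.2 ∉ ({0, 1, 2, 3, 4} : Finset ℕ))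
    (k : ℕ → ℕ)
    (hR : ((verts T \ {0, 1, 2, 3, 4}).filter (fun v => v ∉ l.map Prod.fst)).val.map (deg T) =
      Multiset.replicate n5 5)
    (hg : deg T 0 + 5 * (l.map (fun x => k x.1)).sum = g + 2)
    (h1 : (deg T 1 = 4 ∧ deg T 2 = 3) ∨ (deg T 1 = 3 ∧ deg T 2 = 4))
    (h2 : (deg T 3 = 4 ∧ deg T 4 = 3) ∨ (deg T 3 = 3 ∧ deg T 4 = 4))
    (hB : l.map (fun x => deg T x.1 + 5 * k x.1) = B) : MidG g (B : Multiset ℕ) := by
  have h := grow_two hS hl hT hT' hm k hR
  rw [hg, hB, ← Multiset.replicate_add] at h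
  exact mid_of h rfl h1 h2

end Pool.Agent.Helper79.HH
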