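import Pool.Agent.Helper79.HH.Defs

/-!
# BLOCK HH-2: the triangles are connected across the edges which do not belong to the tree

Proof.  Suppose `A ≠ T`.  By `hT.conn` there are `s ∈ A`, `t ∈ T \ A` with `(s ∩ t).card = 2`.
Call `b` a partner of `v` if `b ≠ v` and exactly one of the two triangles at the edge `v b` is in
`A`: `c v b = 1` with `c v b = (A.filter (fun t => v ∈ t ∧ b ∈ t)).card`, `b ≠ v`
(`c v b ≤ 2` since the edge is in exactly two triangles of `T`).  Then `TE D par v b`, by the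
closedness of `A`.  There is a vertex with a partner; choose such a vertex `v` with `rk v` maximal.
If `b` is a partner of `v` then `v` is a partner of `b`; as `TE D par v b`, either `v ≠ D`,
`par v = b`, or `b ≠ D`, `par b = v`, and then `rk v < rk b` contradicts the maximality.  So `v` has
exactly one partner.  But the number of partners is even: for every `v`,
`∑ b ∈ (verts T).erase v, c v b = 2 * (A.filter (fun t => v ∈ t)).card` (every triangle of `A` at `v`
has two other vertices) and `c v b ∈ {0, 1, 2}`.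
-/

namespace Pool.Agent.Helper79.HH

open Finset Pool.Agent.Helper79.HX

/-- the number of triangles of `A` at the edge `v b` -/
private def cn (A : Finset (Finset ℕ)) (v b : ℕ) : ℕ := (A.filter (fun t => v ∈ t ∧ b ∈ t)).card

private theorem cn_comm (A : Finset (Finset ℕ)) (v b : ℕ) : cn A v b = cn A b v := by
  unfold cn
  congr 1
  ext t
  simp only [Finset.mem_filter]
  tauto

private theorem cnT {T : Finset (Finset ℕ)} (hT : Closed T) {t : Finset ℕ} (ht : t ∈ T) {v b : ℕ} (hvb : v ≠ b)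
    (hv : v ∈ t) (hb : b ∈ t) : cn T v b = 2 := by
  have h := hT.edge t ht {v, b} (by
    intro x hx
    simp only [Finset.mem_insert, Finset.mem_singleton] at hx
    rcases hx with rfl | rfl
    · exact hv
    · exact hb) (Finset.card_pair hvb)
  rw [← h]
  unfold cn
  congr 1
  ext s
  simp only [Finset.mem_filter, Finset.insert_subset_iff, Finset.singleton_subset_iff]

private theorem cn_le {T A : Finset (Finset ℕ)} (hT : Closed T) (hA : A ⊆ T) {v b : ℕ} (hvb : v ≠ b) : cn A v b ≤ 2 := by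
  by_cases h : ∃ t ∈ A, v ∈ t ∧ b ∈ t
  · obtain ⟨t, ht, hv, hb⟩ := h
    rw [← cnT hT (hA ht) hvb hv hb]
    exact Finset.card_le_card (Finset.filter_subset_filter _ hA)
  · have : A.filter (fun t => v ∈ t ∧ b ∈ t) = ∅ := by
      rw [Finset.filter_eq_empty_iff]
      intro t ht hc
      exact h ⟨t, ht, hc⟩
    unfold cn
    rw [this]
    simp

private theorem even_cn {T A : Finset (Finset ℕ)} (hT : Closed T) (hA : A ⊆ T) (v : ℕ) :
    Even (∑ x ∈ (verts T).erase v, cn A v x) := by
  have h1 : ∑ x ∈ (verts T).erase v, cn A v x = ∑ t ∈ A, (if v ∈ t then 2 else 0) := by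
    have e1 : ∀ x ∈ (verts T).erase v, cn A v x = ∑ t ∈ A, (if v ∈ t ∧ x ∈ t then 1 else 0) := by
      intro x _
      rw [cn, Finset.card_filter]
    rw [Finset.sum_congr rfl e1, Finset.sum_comm]
    refine Finset.sum_congr rfl fun t ht => ?_
    rw [← Finset.card_filter]
    split_ifs with h
    · have e2 : ((verts T).erase v).filter (fun x => v ∈ t ∧ x ∈ t) = t.erase v := by
        ext x
        simp only [Finset.mem_filter, Finset.mem_erase]
        constructor
        · rintro ⟨⟨h1, _⟩, _, h3⟩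
          exact ⟨h1, h3⟩
        · rintro ⟨h1, h3⟩
          exact ⟨⟨h1, mem_verts.2 ⟨t, hA ht, h3⟩⟩, h, h3⟩
      rw [e2, Finset.card_erase_of_mem h, hT.tri t (hA ht)]
    · rw [Finset.card_eq_zero, Finset.filter_eq_empty_iff]
      intro x _ hx
      exact h hx.1
  rw [h1]
  refine Finset.even_sum _ fun t _ => ?_
  split_ifs <;> decide

theorem cotree {T : Finset (Finset ℕ)} (hT : Closed T) {D : ℕ} {par rk : ℕ → ℕ}
    (h : Tree T D par rk) : ∀ A ⊆ T, A.Nonempty →
      (∀ s ∈ A, ∀ t ∈ T, ∀ a b, a ≠ b → a ∈ s → b ∈ s → a ∈ t → b ∈ t → ¬ TE D par a b → t ∈ A) →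
      A = T := by
  intro A hA hne hcl
  by_contra hAT
  -- a partner of a vertex
  have key : ∀ v b, b ≠ v → cn A v b = 1 → TE D par v b := by
    intro v b hbv h1
    by_contra hTE
    obtain ⟨s, hs⟩ := Finset.card_eq_one.1 h1
    have hs' : s ∈ A.filter (fun t => v ∈ t ∧ b ∈ t) := by rw [hs]; simp
    obtain ⟨hsA, hsv, hsb⟩ := Finset.mem_filter.1 hs'
    have h2 := cnT hT (hA hsA) hbv.symm hsv hsb
    have h3 : T.filter (fun t => v ∈ t ∧ b ∈ t) ⊆ A.filter (fun t => v ∈ t ∧ b ∈ t) := by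
      intro t ht
      obtain ⟨ht, hv, hb⟩ := Finset.mem_filter.1 ht
      exact Finset.mem_filter.2 ⟨hcl s hsA t ht v b hbv.symm hsv hsb hv hb hTE, hv, hb⟩
    have h4 := Finset.card_le_card h3
    unfold cn at h1 h2
    omega
  have hvert : ∀ v b, cn A v b = 1 → v ∈ verts T := by
    intro v b h1
    obtain ⟨s, hs⟩ := Finset.card_eq_one.1 h1
    have hs' : s ∈ A.filter (fun t => v ∈ t ∧ b ∈ t) := by rw [hs]; simp
    obtain ⟨hsA, hsv, -⟩ := Finset.mem_filter.1 hs'
    exact mem_verts.2 ⟨s, hA hsA, hsv⟩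
  -- there is a vertex with a partner
  have hex : ∃ v b, b ≠ v ∧ cn A v b = 1 := by
    by_contra hno
    push Not at hno
    apply hAT
    refine hT.conn A hA hne fun s hs t ht hst => ?_
    by_contra htA
    obtain ⟨v, b, hvb, he⟩ := Finset.card_eq_two.1 hst
    have hv : v ∈ s ∩ t := by rw [he]; simp
    have hb : b ∈ s ∩ t := by rw [he]; simp
    obtain ⟨hvs, hvt⟩ := Finset.mem_inter.1 hv
    obtain ⟨hbs, hbt⟩ := Finset.mem_inter.1 hb
    have h2 := cnT hT ht hvb hvt hbt
    have h3 : A.filter (fun t => v ∈ t ∧ b ∈ t) ⊆ (T.filter (fun t => v ∈ t ∧ b ∈ t)).erase t := by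
      intro r hr
      obtain ⟨hr, h5, h6⟩ := Finset.mem_filter.1 hr
      refine Finset.mem_erase.2 ⟨?_, Finset.mem_filter.2 ⟨hA hr, h5, h6⟩⟩
      rintro rfl
      exact htA hr
    have h4 := Finset.card_le_card h3
    rw [Finset.card_erase_of_mem (Finset.mem_filter.2 ⟨ht, hvt, hbt⟩)] at h4
    have h7 : 0 < (A.filter (fun t => v ∈ t ∧ b ∈ t)).card :=
      Finset.card_pos.2 ⟨s, Finset.mem_filter.2 ⟨hs, hvs, hbs⟩⟩
    unfold cn at h2
    refine hno v b hvb.symm ?_
    unfold cn
    omega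
  classical
  obtain ⟨v0, b0, hb0, h0⟩ := hex
  obtain ⟨v, hv, hmax⟩ := Finset.exists_max_image ((verts T).filter fun v => ∃ b, b ≠ v ∧ cn A v b = 1) rk
    ⟨v0, Finset.mem_filter.2 ⟨hvert v0 b0 h0, b0, hb0, h0⟩⟩
  obtain ⟨-, b, hbv, hb⟩ := Finset.mem_filter.1 hv
  have huniq : ∀ b', b' ≠ v → cn A v b' = 1 → par v = b' := by
    intro b' hb' h1
    rcases key v b' hb' h1 with ⟨-, h2⟩ | ⟨h2, h3⟩
    · exact h2
    · exfalso
      have h4 : cn A b' v = 1 := by rw [cn_comm]; exact h1
      have h5 := hvert b' v h4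
      have h6 := h.rank b' h5 h2
      rw [h3] at h6
      have h7 := hmax b' (Finset.mem_filter.2 ⟨h5, v, hb'.symm, h4⟩)
      omega
  have hpb := huniq b hbv hb
  have hmem : b ∈ (verts T).erase v := Finset.mem_erase.2 ⟨hbv, hvert b v (by rw [cn_comm]; exact hb)⟩
  have h1 := Finset.add_sum_erase _ (fun x => cn A v x) hmem
  have h2 := even_cn hT hA v
  have h3 : Even (∑ x ∈ ((verts T).erase v).erase b, cn A v x) := by
    refine Finset.even_sum _ fun x hx => ?_
    obtain ⟨hxb, hx2⟩ := Finset.mem_erase.1 hx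
    obtain ⟨hxv, -⟩ := Finset.mem_erase.1 hx2
    have h4 := cn_le hT hA (v := v) (b := x) hxv.symm
    have h5 : cn A v x ≠ 1 := by
      intro h6
      exact hxb ((huniq x hxv h6).symm.trans hpb)
    have h6 : cn A v x = 0 ∨ cn A v x = 2 := by omega
    rcases h6 with h6 | h6 <;> rw [h6] <;> decide
  rw [← h1] at h2
  simp only [hb] at h2
  rw [Nat.even_add] at h2
  exact absurd (h2.2 h3) (by decide)

end Pool.Agent.Helper79.HH
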