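import Pool.Agent.Helper79.HH.Bfs
import Pool.Agent.Helper79.HH.Cotree

/-!
# BLOCK HH-3: the dual tree, by counting

Let `E = T.biUnion (fun t => t.powersetCard 2)` (the edges).  Double counting of the pairs
(edge, triangle) gives `2 * E.card = 3 * T.card` (`Closed.edge`).  Let
`τ = ((verts T).erase D).image (fun v => {v, par v})`; the map is injective on `(verts T).erase D`
(if `{v, par v} = {u, par u}`, `u ≠ v`, then `u = par v`, `v = par u`, contradicting the ranks), and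
`τ ⊆ E`; so `τ.card = (verts T).card - 1`.

Choose `t0 ∈ T`.  By `cotree` and `bfs` (with `X = T` and `R s t :⇔ ∃ a b, a ≠ b ∧ a ∈ s ∧ b ∈ s ∧
a ∈ t ∧ b ∈ t ∧ ¬ TE D par a b ∧ s ≠ t`) there are `p`, `r`.  The map `t ↦ t ∩ p t` sends
`T.erase t0` injectively (ranks again; an edge is in exactly two triangles) to `E \ τ`.  Hence
`T.card - 1 ≤ E.card - (verts T).card + 1`, which is `euler_le` (take the tree given by
`exists_tree` with `L = ∅`).

If `T` is a sphere then we have equality, so the map is onto `E \ τ`: this is `dual_tree`.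
-/

namespace Pool.Agent.Helper79.HH

open Finset Pool.Agent.Helper79.HX

private theorem pair_eq26 {a b c d : ℕ} (h : ({a, b} : Finset ℕ) = {c, d}) :
    (a = c ∧ b = d) ∨ (a = d ∧ b = c) := by
  have h1 : a ∈ ({c, d} : Finset ℕ) := h ▸ (by simp)
  have h2 : b ∈ ({c, d} : Finset ℕ) := h ▸ (by simp)
  have h3 : c ∈ ({a, b} : Finset ℕ) := h ▸ (by simp)
  have h4 : d ∈ ({a, b} : Finset ℕ) := h ▸ (by simp)
  simp only [mem_insert, mem_singleton] at h1 h2 h3 h4
  grind

private theorem inter_pair26 {T : Finset (Finset ℕ)} (hT : Closed T) {s t : Finset ℕ} (hs : s ∈ T)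
    (ht : t ∈ T) {a b : ℕ} (hab : a ≠ b) (has : a ∈ s) (hbs : b ∈ s) (hat : a ∈ t) (hbt : b ∈ t)
    (hst : s ≠ t) : s ∩ t = {a, b} := by
  have h1 : ({a, b} : Finset ℕ) ⊆ s ∩ t := by
    intro x hx
    simp only [mem_insert, mem_singleton] at hx
    rcases hx with rfl | rfl
    · exact mem_inter.2 ⟨has, hat⟩
    · exact mem_inter.2 ⟨hbs, hbt⟩
  refine (eq_of_subset_of_card_le h1 ?_).symm
  rw [card_pair hab]
  by_contra h2
  push Not at h2
  apply hst
  have h3 : s ∩ t = s := eq_of_subset_of_card_le inter_subset_left (by rw [hT.tri s hs]; omega)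
  have h4 : s ∩ t = t := eq_of_subset_of_card_le inter_subset_right (by rw [hT.tri t ht]; omega)
  rw [← h3, h4]

private theorem two26 {T : Finset (Finset ℕ)} (hT : Closed T) {e s t u : Finset ℕ} (hs : s ∈ T)
    (ht : t ∈ T) (hu : u ∈ T) (he : e.card = 2) (hes : e ⊆ s) (het : e ⊆ t) (heu : e ⊆ u)
    (hst : s ≠ t) : u = s ∨ u = t := by
  have h1 := hT.edge s hs e hes he
  have h2 : ({s, t} : Finset (Finset ℕ)) ⊆ T.filter (fun s => e ⊆ s) := by
    intro x hx
    simp only [mem_insert, mem_singleton] at hx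
    rcases hx with rfl | rfl
    · exact mem_filter.2 ⟨hs, hes⟩
    · exact mem_filter.2 ⟨ht, het⟩
  have h3 : ({s, t} : Finset (Finset ℕ)) = T.filter (fun s => e ⊆ s) :=
    eq_of_subset_of_card_le h2 (by rw [h1, card_pair hst])
  have h4 : u ∈ ({s, t} : Finset (Finset ℕ)) := by
    rw [h3]
    exact mem_filter.2 ⟨hu, heu⟩
  simpa using h4

private theorem edges26 {T : Finset (Finset ℕ)} (hT : Closed T) :
    2 * (T.biUnion (fun t => t.powersetCard 2)).card = 3 * T.card := by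
  classical
  set E := T.biUnion (fun t => t.powersetCard 2) with hE
  have h1 := sum_card_bipartiteAbove_eq_sum_card_bipartiteBelow (s := E) (t := T)
    (fun e t => e ⊆ t)
  have h2 : ∑ e ∈ E, (T.bipartiteAbove (fun e t => e ⊆ t) e).card = ∑ e ∈ E, 2 := by
    refine sum_congr rfl fun e he => ?_
    rw [hE, mem_biUnion] at he
    obtain ⟨t, ht, het⟩ := he
    rw [mem_powersetCard] at het
    exact hT.edge t ht e het.1 het.2
  have h3 : ∑ t ∈ T, (E.bipartiteBelow (fun e t => e ⊆ t) t).card = ∑ t ∈ T, 3 := by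
    refine sum_congr rfl fun t ht => ?_
    have h4 : E.bipartiteBelow (fun e t => e ⊆ t) t = t.powersetCard 2 := by
      ext e
      rw [mem_bipartiteBelow, mem_powersetCard, hE, mem_biUnion]
      constructor
      · rintro ⟨⟨s, _, hes⟩, het⟩
        exact ⟨het, (mem_powersetCard.1 hes).2⟩
      · rintro ⟨het, he⟩
        exact ⟨⟨t, ht, mem_powersetCard.2 ⟨het, he⟩⟩, het⟩
    rw [h4, card_powersetCard, hT.tri t ht]
    rfl
  rw [h2, h3, sum_const, sum_const, smul_eq_mul, smul_eq_mul] at h1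
  omega

private theorem core26 {T : Finset (Finset ℕ)} (hT : Closed T) {D : ℕ} {par rk : ℕ → ℕ}
    (h : Tree T D par rk) : ∃ (t0 : Finset ℕ) (p : Finset ℕ → Finset ℕ) (r : Finset ℕ → ℕ)
      (E τ : Finset (Finset ℕ)),
      t0 ∈ T ∧ (∀ t ∈ T, t ≠ t0 → p t ∈ T ∧ r (p t) < r t ∧ (t ∩ p t).card = 2) ∧
      2 * E.card = 3 * T.card ∧ τ ⊆ E ∧ τ.card + 1 = (verts T).card ∧
      (∀ t ∈ T.erase t0, t ∩ p t ∈ E \ τ) ∧
      Set.InjOn (fun t => t ∩ p t) (T.erase t0 : Finset (Finset ℕ)) ∧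
      (∀ s ∈ T, ∀ a b, a ≠ b → a ∈ s → b ∈ s → ¬ TE D par a b → {a, b} ∈ E \ τ) := by
  classical
  obtain ⟨t0, ht0⟩ := hT.nonempty
  obtain ⟨p, r, hpr⟩ := bfs T (fun s t => ∃ a b, a ≠ b ∧ a ∈ s ∧ b ∈ s ∧ a ∈ t ∧ b ∈ t ∧
      ¬ TE D par a b ∧ s ≠ t) ht0 (by
    intro A hA hA0 hcl
    refine cotree hT h A hA ⟨t0, hA0⟩ ?_
    intro s hs t ht a b hab has hbs hat hbt hTE
    by_cases hst : s = t
    · rw [← hst]
      exact hs
    · exact hcl s hs t ht ⟨a, b, hab, has, hbs, hat, hbt, hTE, hst⟩)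
  have hnT : ∀ s ∈ T, ∀ a b, a ≠ b → a ∈ s → b ∈ s → ¬ TE D par a b →
      ({a, b} : Finset ℕ) ∈ T.biUnion (fun t => t.powersetCard 2) \
        ((verts T).erase D).image (fun v => {v, par v}) := by
    intro s hs a b hab has hbs hTE
    rw [mem_sdiff, mem_biUnion, mem_image]
    refine ⟨⟨s, hs, mem_powersetCard.2 ⟨?_, card_pair hab⟩⟩, ?_⟩
    · intro x hx
      simp only [mem_insert, mem_singleton] at hx
      rcases hx with rfl | rfl
      · exact has
      · exact hbs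
    · rintro ⟨v, hv, hve⟩
      rw [mem_erase] at hv
      rcases pair_eq26 hve with ⟨h1, h2⟩ | ⟨h1, h2⟩
      · exact hTE (Or.inl ⟨h1 ▸ hv.1, h1 ▸ h2⟩)
      · exact hTE (Or.inr ⟨h1 ▸ hv.1, h1 ▸ h2⟩)
  have hp : ∀ t ∈ T, t ≠ t0 → p t ∈ T ∧ r (p t) < r t ∧ (t ∩ p t).card = 2 := by
    intro t ht htt
    obtain ⟨h1, ⟨a, b, hab, h2, h3, h4, h5, _, h6⟩, h7⟩ := hpr t ht htt
    refine ⟨h1, h7, ?_⟩
    rw [inter_pair26 hT ht h1 hab h4 h5 h2 h3 (Ne.symm h6), card_pair hab]
  refine ⟨t0, p, r, T.biUnion (fun t => t.powersetCard 2),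
    ((verts T).erase D).image (fun v => {v, par v}), ht0, hp, edges26 hT, ?_, ?_, ?_, ?_, hnT⟩
  · intro e he
    rw [mem_image] at he
    obtain ⟨v, hv, rfl⟩ := he
    rw [mem_erase] at hv
    obtain ⟨h1, t, ht, h2, h3⟩ := h.adj v hv.2 hv.1
    rw [mem_biUnion]
    refine ⟨t, ht, mem_powersetCard.2 ⟨?_, card_pair h1⟩⟩
    intro x hx
    simp only [mem_insert, mem_singleton] at hx
    rcases hx with rfl | rfl
    · exact h2
    · exact h3
  · rw [card_image_of_injOn, card_erase_of_mem h.root]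
    · have : 0 < (verts T).card := card_pos.2 ⟨D, h.root⟩
      omega
    · intro v hv u hu huv
      rw [mem_coe, mem_erase] at hv hu
      rcases pair_eq26 huv with ⟨h1, _⟩ | ⟨h1, h2⟩
      · exact h1
      · exfalso
        have h3 := h.rank v hv.2 hv.1
        have h4 := h.rank u hu.2 hu.1
        rw [h2] at h3
        rw [← h1] at h4
        omega
  · intro t ht
    rw [mem_erase] at ht
    obtain ⟨h1, ⟨a, b, hab, h2, h3, h4, h5, h6, h7⟩, _⟩ := hpr t ht.2 ht.1
    rw [inter_pair26 hT ht.2 h1 hab h4 h5 h2 h3 (Ne.symm h7)]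
    exact hnT t ht.2 a b hab h4 h5 h6
  · intro u hu v hv huv
    rw [mem_coe, mem_erase] at hu hv
    have huv' : u ∩ p u = v ∩ p v := huv
    by_contra hne
    obtain ⟨hu1, hu2, hu3⟩ := hp u hu.2 hu.1
    obtain ⟨hv1, hv2, hv3⟩ := hp v hv.2 hv.1
    have huu : u ≠ p u := by
      intro h1
      rw [← h1] at hu2
      exact lt_irrefl _ hu2
    have hvv : v ≠ p v := by
      intro h1
      rw [← h1] at hv2
      exact lt_irrefl _ hv2
    have hev : u ∩ p u ⊆ v := huv' ▸ inter_subset_left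
    have hepv : u ∩ p u ⊆ p v := huv' ▸ inter_subset_right
    have h1 := two26 hT hu.2 hu1 hv.2 hu3 inter_subset_left inter_subset_right hev huu
    have h2 := two26 hT hu.2 hu1 hv1 hu3 inter_subset_left inter_subset_right hepv huu
    rcases h1 with h1 | h1
    · exact hne h1.symm
    · rcases h2 with h2 | h2
      · rw [← h1] at hu2
        rw [h2] at hv2
        omega
      · exact hvv (h1.trans h2.symm)

theorem euler_le {T : Finset (Finset ℕ)} (hT : Closed T) : 2 * (verts T).card ≤ T.card + 4 := by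
  obtain ⟨t, ht⟩ := hT.nonempty
  have h0 : 0 < t.card := by rw [hT.tri t ht]; omega
  obtain ⟨D, hD⟩ := card_pos.1 h0
  obtain ⟨par, rk, hTree, -⟩ := exists_tree hT (mem_verts.2 ⟨t, ht, hD⟩) ∅ (notMem_empty D)
    (fun u hu => absurd hu (notMem_empty u)) (fun u hu => absurd hu (notMem_empty u))
  obtain ⟨t0, p, r, E, τ, ht0, -, hE, hτ, hτc, hmap, hinj, -⟩ := core26 hT hTree
  have h1 := card_le_card_of_injOn (fun t => t ∩ p t) hmap hinj
  rw [card_erase_of_mem ht0, card_sdiff_of_subset hτ] at h1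
  have h2 := card_le_card hτ
  have h3 : 0 < T.card := card_pos.2 ⟨t0, ht0⟩
  omega

theorem dual_tree {T : Finset (Finset ℕ)} (hS : IsSphere T) {D : ℕ} {par rk : ℕ → ℕ}
    (h : Tree T D par rk) : ∃ (t0 : Finset ℕ) (p : Finset ℕ → Finset ℕ) (r : Finset ℕ → ℕ),
      t0 ∈ T ∧ (∀ t ∈ T, t ≠ t0 → p t ∈ T ∧ r (p t) < r t ∧ (t ∩ p t).card = 2) ∧
      ∀ s ∈ T, ∀ t ∈ T, ∀ a b, a ≠ b → a ∈ s → b ∈ s → a ∈ t → b ∈ t → s ≠ t →
        ¬ TE D par a b → (s ≠ t0 ∧ p s = t) ∨ (t ≠ t0 ∧ p t = s) := by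
  have hT : Closed T := Closed.of_sphere hS
  obtain ⟨t0, p, r, E, τ, ht0, hp, hE, hτ, hτc, hmap, hinj, hnT⟩ := core26 hT h
  refine ⟨t0, p, r, ht0, hp, ?_⟩
  intro s hs t ht a b hab has hbs hat hbt hst hTE
  have h1 : E \ τ ⊆ (T.erase t0).image (fun t => t ∩ p t) := by
    have h2 : (T.erase t0).image (fun t => t ∩ p t) ⊆ E \ τ := by
      intro e he
      rw [mem_image] at he
      obtain ⟨u, hu, rfl⟩ := he
      exact hmap u hu
    refine (eq_of_subset_of_card_le h2 ?_).symm.subset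
    rw [card_image_of_injOn hinj, card_erase_of_mem ht0, card_sdiff_of_subset hτ]
    have h3 := hS.euler
    have h4 : 0 < T.card := card_pos.2 ⟨t0, ht0⟩
    omega
  have h2 := h1 (hnT s hs a b hab has hbs hTE)
  rw [mem_image] at h2
  obtain ⟨u, hu, hue⟩ := h2
  rw [mem_erase] at hu
  obtain ⟨hu1, hu2, hu3⟩ := hp u hu.2 hu.1
  have huu : u ≠ p u := by
    intro h1
    rw [← h1] at hu2
    exact lt_irrefl _ hu2
  have hes : ({a, b} : Finset ℕ) ⊆ s := by
    intro x hx
    simp only [mem_insert, mem_singleton] at hx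
    rcases hx with rfl | rfl
    · exact has
    · exact hbs
  have het : ({a, b} : Finset ℕ) ⊆ t := by
    intro x hx
    simp only [mem_insert, mem_singleton] at hx
    rcases hx with rfl | rfl
    · exact hat
    · exact hbt
  have heu : ({a, b} : Finset ℕ) ⊆ u := hue ▸ inter_subset_left
  have hepu : ({a, b} : Finset ℕ) ⊆ p u := hue ▸ inter_subset_right
  have h3 := two26 hT hs ht hu.2 (card_pair hab) hes het heu hst
  have h4 := two26 hT hs ht hu1 (card_pair hab) hes het hepu hst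
  rcases h3 with h3 | h3
  · rcases h4 with h4 | h4
    · exact absurd (h3.trans h4.symm) huu
    · left
      rw [h3] at hu h4
      exact ⟨hu.1, h4⟩
  · rcases h4 with h4 | h4
    · right
      rw [h3] at hu h4
      exact ⟨hu.1, h4⟩
    · exact absurd (h3.trans h4.symm) huu

end Pool.Agent.Helper79.HH
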