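import Pool.Agent.Helper79.HH.Defs

/-!
# BLOCK HH-6: the development exists

The hypothesis `hdual` is the conclusion of `dual_tree` (HH-3).

Proof.  For distinct `a, b, c` let `om a b c : G` be: `a < b < c`: `1`; `b < a < c`: `t0`;
`a < c < b`: `t1`; `c < a < b`: `t0 * t1`; `b < c < a`: `t1 * t0`; `c < b < a`: `t0 * t1 * t0`.
Then `om b a c = om a b c * t0` and `om a c b = om a b c * t1` (use `h0`, `h1`, `h01`).  We look for
`g : Finset ℕ → G` and put `Φ a b c = g {a, b, c} * om a b c`; `s0`, `s1` are then clear, and `s2`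
becomes `g {a, b, c'} = g {a, b, c} * (om a b c * t2 * (om a b c')⁻¹)`.  The element
`lam s t = om a b c * t2 * (om a b c')⁻¹` for `s = {a, b, c}`, `t = {a, b, c'}`, `c ≠ c'`, does not
change when `a`, `b` are exchanged (`h02`), and `lam t s = (lam s t)⁻¹` (`h2`).  (Define `lam s t`
for example with `a = min`, `b = max` of `s ∩ t` and `c`, `c'` the remaining elements.)
Define `g` by recursion on the rank `r` (for every `n` there is `g` with `g t = g (p t) * lam (p t) t`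
for all `t ∈ T`, `t ≠ t0`, `r t < n`; or well-founded recursion).  By `hdual` every edge which does
not belong to the tree is the edge between `t` and `p t` for some `t`.
-/

namespace Pool.Agent.Helper79.HH

open Finset Pool.Agent.Helper79.HX

/-- the order cocycle -/
private def om69 {G : Type*} [Group G] (t0 t1 : G) (a b c : ℕ) : G :=
  if a < b then (if b < c then 1 else if a < c then t1 else t0 * t1)
  else (if a < c then t0 else if b < c then t1 * t0 else t0 * t1 * t0)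

private theorem om69_s0 {G : Type*} [Group G] {t0 t1 : G} (h0 : t0 * t0 = 1) {a b c : ℕ} (hab : a ≠ b) (hac : a ≠ c)
    (hbc : b ≠ c) : om69 t0 t1 b a c = om69 t0 t1 a b c * t0 := by
  unfold om69
  split_ifs <;> first | (exfalso; omega) | simp [mul_assoc, h0]

private theorem om69_s1 {G : Type*} [Group G] {t0 t1 : G} (h1 : t1 * t1 = 1) (h01 : t0 * t1 * t0 = t1 * t0 * t1)
    {a b c : ℕ} (hab : a ≠ b) (hac : a ≠ c) (hbc : b ≠ c) : om69 t0 t1 a c b = om69 t0 t1 a b c * t1 := by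
  unfold om69
  split_ifs <;> first | (exfalso; omega) | (simp [mul_assoc, h1]; done) | exact h01 | rw [h01, mul_assoc, h1, mul_one]

/-- representations of a pair of neighbouring triangles -/
private def Rep69 (s t : Finset ℕ) (a b c c' : ℕ) : Prop :=
  s = {a, b, c} ∧ t = {a, b, c'} ∧ a ≠ b ∧ a ≠ c ∧ b ≠ c ∧ a ≠ c' ∧ b ≠ c' ∧ c ≠ c'

private theorem rep69_unique {s t : Finset ℕ} {a b c c' x y z z' : ℕ} (h : Rep69 s t a b c c') (h' : Rep69 s t x y z z') :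
    ((x = a ∧ y = b) ∨ (x = b ∧ y = a)) ∧ z = c ∧ z' = c' := by
  obtain ⟨h1, h2, h3, h4, h5, h6, h7, h8⟩ := h
  obtain ⟨k1, k2, k3, k4, k5, k6, k7, k8⟩ := h'
  have e1 : ∀ w, (w = x ∨ w = y ∨ w = z) ↔ (w = a ∨ w = b ∨ w = c) := by
    intro w
    have e : w ∈ s ↔ w ∈ s := Iff.rfl
    conv at e =>
      lhs
      rw [k1]
    conv at e =>
      rhs
      rw [h1]
    simpa using e
  have e2 : ∀ w, (w = x ∨ w = y ∨ w = z') ↔ (w = a ∨ w = b ∨ w = c') := by
    intro w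
    have e : w ∈ t ↔ w ∈ t := Iff.rfl
    conv at e =>
      lhs
      rw [k2]
    conv at e =>
      rhs
      rw [h2]
    simpa using e
  have f1 := (e1 x).1 (Or.inl rfl)
  have f2 := (e2 x).1 (Or.inl rfl)
  have f3 := (e1 y).1 (Or.inr (Or.inl rfl))
  have f4 := (e2 y).1 (Or.inr (Or.inl rfl))
  have f5 := (e1 z).1 (Or.inr (Or.inr rfl))
  have f6 := (e2 z').1 (Or.inr (Or.inr rfl))
  omega

open Classical in
private noncomputable def lam69 {G : Type*} [Group G] (t0 t1 t2 : G) (s t : Finset ℕ) : G :=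
  if h : ∃ q : ℕ × ℕ × ℕ × ℕ, Rep69 s t q.1 q.2.1 q.2.2.1 q.2.2.2 then
    om69 t0 t1 h.choose.1 h.choose.2.1 h.choose.2.2.1 * t2 * (om69 t0 t1 h.choose.1 h.choose.2.1 h.choose.2.2.2)⁻¹
  else 1

private theorem lam69_eq {G : Type*} [Group G] {t0 t1 t2 : G} (h0 : t0 * t0 = 1) (h02 : t0 * t2 = t2 * t0)
    {s t : Finset ℕ} {a b c c' : ℕ} (h : Rep69 s t a b c c') :
    lam69 t0 t1 t2 s t = om69 t0 t1 a b c * t2 * (om69 t0 t1 a b c')⁻¹ := by
  have hex : ∃ q : ℕ × ℕ × ℕ × ℕ, Rep69 s t q.1 q.2.1 q.2.2.1 q.2.2.2 := ⟨(a, b, c, c'), h⟩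
  unfold lam69
  rw [dif_pos hex]
  obtain ⟨hu, hz, hz'⟩ := rep69_unique h hex.choose_spec
  rcases hu with ⟨hx, hy⟩ | ⟨hx, hy⟩
  · rw [hx, hy, hz, hz']
  · rw [hx, hy, hz, hz']
    obtain ⟨-, -, h3, h4, h5, h6, h7, -⟩ := h
    rw [om69_s0 h0 h3 h4 h5, om69_s0 h0 h3 h6 h7, mul_inv_rev]
    have e : t0 * t2 * t0⁻¹ = t2 := by rw [h02, mul_inv_cancel_right]
    calc om69 t0 t1 a b c * t0 * t2 * (t0⁻¹ * (om69 t0 t1 a b c')⁻¹)
        = om69 t0 t1 a b c * (t0 * t2 * t0⁻¹) * (om69 t0 t1 a b c')⁻¹ := by group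
      _ = om69 t0 t1 a b c * t2 * (om69 t0 t1 a b c')⁻¹ := by rw [e]

private theorem exists_g69 {G : Type*} [Group G] (lam : Finset ℕ → Finset ℕ → G) (T : Finset (Finset ℕ)) (s0 : Finset ℕ)
    (p : Finset ℕ → Finset ℕ) (r : Finset ℕ → ℕ) (hr : ∀ t ∈ T, t ≠ s0 → r (p t) < r t) (n : ℕ) :
    ∃ g : Finset ℕ → G, ∀ t ∈ T, t ≠ s0 → r t < n → g t = g (p t) * lam (p t) t := by
  classical
  induction n with
  | zero => exact ⟨fun _ => 1, fun t _ _ h => absurd h (Nat.not_lt_zero _)⟩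
  | succ n ih =>
    obtain ⟨g, hg⟩ := ih
    refine ⟨fun t => if t ∈ T ∧ t ≠ s0 ∧ r t = n then g (p t) * lam (p t) t else g t, ?_⟩
    intro t ht hts hlt
    have hp := hr t ht hts
    have e : ¬ (p t ∈ T ∧ p t ≠ s0 ∧ r (p t) = n) := by
      rintro ⟨-, -, h⟩
      omega
    rcases Nat.lt_succ_iff_lt_or_eq.1 hlt with h | h
    · have e' : ¬ (t ∈ T ∧ t ≠ s0 ∧ r t = n) := by
        rintro ⟨-, -, h'⟩
        omega
      simp only [if_neg e, if_neg e']
      exact hg t ht hts h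
    · have e' : t ∈ T ∧ t ≠ s0 ∧ r t = n := ⟨ht, hts, h⟩
      simp only [if_neg e, if_pos e']

theorem develop {G : Type*} [Group G] {t0 t1 t2 : G} (h0 : t0 * t0 = 1) (h1 : t1 * t1 = 1)
    (h2 : t2 * t2 = 1) (h01 : t0 * t1 * t0 = t1 * t0 * t1) (h02 : t0 * t2 = t2 * t0)
    {T : Finset (Finset ℕ)} (hT : Closed T) {D : ℕ} {par : ℕ → ℕ}
    (hdual : ∃ (s0 : Finset ℕ) (p : Finset ℕ → Finset ℕ) (r : Finset ℕ → ℕ),
      s0 ∈ T ∧ (∀ t ∈ T, t ≠ s0 → p t ∈ T ∧ r (p t) < r t ∧ (t ∩ p t).card = 2) ∧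
      ∀ s ∈ T, ∀ t ∈ T, ∀ a b, a ≠ b → a ∈ s → b ∈ s → a ∈ t → b ∈ t → s ≠ t →
        ¬ TE D par a b → (s ≠ s0 ∧ p s = t) ∨ (t ≠ s0 ∧ p t = s)) :
    ∃ Φ : ℕ → ℕ → ℕ → G, Dev t0 t1 t2 T D par Φ := by
  classical
  obtain ⟨s0, p, r, -, hp, hd⟩ := hdual
  obtain ⟨g, hg⟩ := exists_g69 (lam69 t0 t1 t2) T s0 p r (fun t ht hts => (hp t ht hts).2.1) (T.sup r + 1)
  have hg' : ∀ t ∈ T, t ≠ s0 → g t = g (p t) * lam69 t0 t1 t2 (p t) t := fun t ht hts =>
    hg t ht hts (Nat.lt_succ_of_le (Finset.le_sup ht))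
  -- the relation across the edges of the dual tree
  have key : ∀ a b c c', {a, b, c'} ∈ T → ({a, b, c'} : Finset ℕ) ≠ s0 → p {a, b, c'} = {a, b, c} → a ≠ b → a ≠ c →
      b ≠ c → a ≠ c' → b ≠ c' → c ≠ c' →
      g {a, b, c'} * om69 t0 t1 a b c' = g {a, b, c} * om69 t0 t1 a b c * t2 := by
    intro a b c c' ht hts hpt hab hac hbc hac' hbc' hcc'
    rw [hg' _ ht hts, hpt, lam69_eq h0 h02 (a := a) (b := b) (c := c) (c' := c')
      ⟨rfl, rfl, hab, hac, hbc, hac', hbc', hcc'⟩]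
    group
  refine ⟨fun a b c => g {a, b, c} * om69 t0 t1 a b c, ?_, ?_, ?_⟩
  · intro a b c _ hab hac hbc
    have e : ({b, a, c} : Finset ℕ) = {a, b, c} := Finset.insert_comm b a {c}
    show g {b, a, c} * om69 t0 t1 b a c = g {a, b, c} * om69 t0 t1 a b c * t0
    rw [e, om69_s0 h0 hab hac hbc, mul_assoc]
  · intro a b c _ hab hac hbc
    have e : ({a, c, b} : Finset ℕ) = {a, b, c} := by rw [Finset.pair_comm c b]
    show g {a, c, b} * om69 t0 t1 a c b = g {a, b, c} * om69 t0 t1 a b c * t1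
    rw [e, om69_s1 h1 h01 hab hac hbc, mul_assoc]
  · intro a b c c' hs ht hab hac hbc hac' hbc' hcc' hTE
    show g {a, b, c'} * om69 t0 t1 a b c' = g {a, b, c} * om69 t0 t1 a b c * t2
    have hne : ({a, b, c} : Finset ℕ) ≠ {a, b, c'} := by
      intro h
      have h3 : c ∈ ({a, b, c'} : Finset ℕ) := by
        rw [← h]
        simp
      simp only [Finset.mem_insert, Finset.mem_singleton] at h3
      omega
    rcases hd {a, b, c} hs {a, b, c'} ht a b hab (by simp) (by simp) (by simp) (by simp) hne hTE with ⟨h3, h4⟩ | ⟨h3, h4⟩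
    · have h5 := key a b c' c hs h3 h4 hab hac' hbc' hac hbc hcc'.symm
      rw [h5, mul_assoc, h2, mul_one]
    · exact key a b c c' ht h3 h4 hab hac hbc hac' hbc' hcc'

end Pool.Agent.Helper79.HH
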