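import Pool.Agent.Helper79.HH.Defs

/-!
# The group: the full symmetry group of the icosahedron, as permutations of seven letters
(the alternating group on `0, ..., 4` and the sign on `5, 6`).  The finite checks are done with
codes in base eight.
-/

namespace Pool.Agent.Helper79.HH

open Finset Pool.Agent.Helper79.HX

abbrev S7 : Type := Equiv.Perm (Fin 7)

/-- the value of a code -/
def ap (c i : ℕ) : ℕ := c / 8 ^ i % 8

/-- composition of codes -/
def cmp (c d : ℕ) : ℕ := ap c (ap d 0) + 8 * ap c (ap d 1) + 64 * ap c (ap d 2) +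
  512 * ap c (ap d 3) + 4096 * ap c (ap d 4) + 32768 * ap c (ap d 5) + 262144 * ap c (ap d 6)

def code (g : S7) : ℕ := (g 0).val + 8 * (g 1).val + 64 * (g 2).val + 512 * (g 3).val +
  4096 * (g 4).val + 32768 * (g 5).val + 262144 * (g 6).val

theorem ap_code (g : S7) (i : Fin 7) : ap (code g) i.val = (g i).val := by
  have h0 := (g 0).isLt
  have h1 := (g 1).isLt
  have h2 := (g 2).isLt
  have h3 := (g 3).isLt
  have h4 := (g 4).isLt
  have h5 := (g 5).isLt
  have h6 := (g 6).isLt
  have k0 : code g / 8 ^ 0 % 8 = (g 0).val := by unfold code; omega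
  have k1 : code g / 8 ^ 1 % 8 = (g 1).val := by unfold code; omega
  have k2 : code g / 8 ^ 2 % 8 = (g 2).val := by unfold code; omega
  have k3 : code g / 8 ^ 3 % 8 = (g 3).val := by unfold code; omega
  have k4 : code g / 8 ^ 4 % 8 = (g 4).val := by unfold code; omega
  have k5 : code g / 8 ^ 5 % 8 = (g 5).val := by unfold code; omega
  have k6 : code g / 8 ^ 6 % 8 = (g 6).val := by unfold code; omega
  fin_cases i
  exacts [k0, k1, k2, k3, k4, k5, k6]

theorem code_mul (g h : S7) : code (g * h) = cmp (code g) (code h) := by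
  have e := fun i => ap_code h i
  have e' := fun i => ap_code g (h i)
  unfold cmp
  have k0 : ap (code h) 0 = (h 0).val := e 0
  have k1 : ap (code h) 1 = (h 1).val := e 1
  have k2 : ap (code h) 2 = (h 2).val := e 2
  have k3 : ap (code h) 3 = (h 3).val := e 3
  have k4 : ap (code h) 4 = (h 4).val := e 4
  have k5 : ap (code h) 5 = (h 5).val := e 5
  have k6 : ap (code h) 6 = (h 6).val := e 6
  rw [k0, k1, k2, k3, k4, k5, k6, e', e', e', e', e', e', e']
  rfl

theorem code_inj {g h : S7} (e : code g = code h) : g = h := by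
  ext i
  rw [← ap_code g i, ← ap_code h i, e]

def tau0 : S7 := ⟨![0, 2, 1, 4, 3, 6, 5], ![0, 2, 1, 4, 3, 6, 5], by decide, by decide⟩
def tau1 : S7 := ⟨![1, 0, 2, 4, 3, 6, 5], ![1, 0, 2, 4, 3, 6, 5], by decide, by decide⟩
def tau2 : S7 := ⟨![0, 3, 4, 1, 2, 6, 5], ![0, 3, 4, 1, 2, 6, 5], by decide, by decide⟩

theorem code0 : code tau0 = 1521744 := by decide
theorem code1 : code tau1 = 1521793 := by decide
theorem code2 : code tau2 = 1516312 := by decide
theorem code_one : code 1 = 1754760 := by decide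

/-- the rotations by 72 degrees -/
def c1L : List ℕ := [1737442, 1737491, 1738961, 1741852, 1742083, 1742867, 1744988, 1745121,
  1746969, 1749090, 1749762, 1750084]

/-- the rotations by 144 degrees -/
def c2L : List ℕ := [1737827, 1738009, 1738842, 1741012, 1741082, 1743042, 1745443, 1745604,
  1747011, 1749265, 1749524, 1750049]

def C1 (g : S7) : Prop := code g ∈ c1L
def C2 (g : S7) : Prop := code g ∈ c2L

def rho : S7 := tau1 * tau2

def VV : S7 := tau0 * rho * rho * tau0 * rho * tau1 * tau0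

theorem code_rho : code rho = 1745121 := by
  rw [rho, code_mul, code1, code2]; decide +kernel

theorem code_VV : code VV = 1742370 := by
  rw [VV, code_mul, code_mul, code_mul, code_mul, code_mul, code_mul, code0, code1, code_rho]
  decide +kernel

theorem t00 : tau0 * tau0 = 1 := code_inj (by rw [code_mul, code0, code_one]; decide +kernel)
theorem t11 : tau1 * tau1 = 1 := code_inj (by rw [code_mul, code1, code_one]; decide +kernel)
theorem t22 : tau2 * tau2 = 1 := code_inj (by rw [code_mul, code2, code_one]; decide +kernel)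
theorem t010 : tau0 * tau1 * tau0 = tau1 * tau0 * tau1 := code_inj (by
  rw [code_mul, code_mul, code_mul, code_mul, code0, code1]; decide +kernel)
theorem t02 : tau0 * tau2 = tau2 * tau0 := code_inj (by
  rw [code_mul, code_mul, code0, code2]; decide +kernel)

theorem c1_t : ∀ f ∈ c1L, cmp 1521744 (cmp f 1521744) ∈ c1L ∧ cmp 1521793 (cmp f 1521793) ∈ c1L ∧
    cmp 1516312 (cmp f 1516312) ∈ c1L ∧ cmp f (cmp f (cmp f f)) ∈ c1L ∧
    cmp f (cmp f (cmp f (cmp f f))) = 1754760 ∧ ap f 5 = 5 := by
  decide +kernel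

theorem c2_t : ∀ f ∈ c2L, cmp 1521744 (cmp f 1521744) ∈ c2L ∧ cmp 1521793 (cmp f 1521793) ∈ c2L ∧
    cmp 1516312 (cmp f 1516312) ∈ c2L ∧ cmp f (cmp f (cmp f f)) ∈ c2L ∧
    cmp f (cmp f (cmp f (cmp f f))) = 1754760 ∧ ap f 5 = 5 := by
  decide +kernel

theorem c12 : ∀ f ∈ c1L, f ∉ c2L := by decide +kernel

/-- the codes of the products `VV * rho ^ k` -/
def vL : List ℕ := [1742370, 1737932, 1751169, 1745688, 1753171]

theorem v_next : ∀ f ∈ vL, cmp f 1745121 ∈ vL := by decide +kernel

theorem v_no : ∀ f ∈ vL, f ≠ 1754760 ∧ f ∉ c1L ∧ f ∉ c2L := by decide +kernel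

theorem v_no1 : ∀ f ∈ c1L, ∀ g ∈ c1L, cmp f g ∉ vL := by decide +kernel

theorem v_no2 : ∀ f ∈ c2L, ∀ g ∈ c2L, cmp f g ∉ vL := by decide +kernel

end Pool.Agent.Helper79.HH
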