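import Pool.Agent.Helper79.HH.Grp

/-!
# The classes of the weights
-/

namespace Pool.Agent.Helper79.HH

open Finset Pool.Agent.Helper79.HX

/-- the symmetry group of the icosahedron -/
def HG : Subgroup S7 := Subgroup.closure {tau0, tau1, tau2}

theorem mem0 : tau0 ∈ HG := Subgroup.subset_closure (by simp)
theorem mem1 : tau1 ∈ HG := Subgroup.subset_closure (by simp)
theorem mem2 : tau2 ∈ HG := Subgroup.subset_closure (by simp)

/-- the sign -/
def Sg (x : S7) : Prop := (x 5 = 5 ∧ x 6 = 6) ∨ (x 5 = 6 ∧ x 6 = 5)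

theorem sg_mem {x : S7} (hx : x ∈ HG) : Sg x := by
  refine Subgroup.closure_induction (p := fun x _ => Sg x) ?_ ?_ ?_ ?_ hx
  · intro y hy
    right
    rcases hy with rfl | rfl | rfl <;> decide
  · left; decide
  · rintro a b - - (⟨h1, h2⟩ | ⟨h1, h2⟩) (⟨h3, h4⟩ | ⟨h3, h4⟩)
    · left; simp [h1, h2, h3, h4]
    · right; simp [h1, h2, h3, h4]
    · right; simp [h1, h2, h3, h4]
    · left; simp [h1, h2, h3, h4]
  · rintro a - (⟨h1, h2⟩ | ⟨h1, h2⟩)
    · left
      constructor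
      · rw [Equiv.Perm.inv_eq_iff_eq, h1]
      · rw [Equiv.Perm.inv_eq_iff_eq, h2]
    · right
      constructor
      · rw [Equiv.Perm.inv_eq_iff_eq, h2]
      · rw [Equiv.Perm.inv_eq_iff_eq, h1]

theorem conj_iff (Q : S7 → Prop) (h0 : ∀ f, Q f → Q (tau0 * f * tau0))
    (h1 : ∀ f, Q f → Q (tau1 * f * tau1)) (h2 : ∀ f, Q f → Q (tau2 * f * tau2)) {x : S7}
    (hx : x ∈ HG) : ∀ f, Q (x * f * x⁻¹) ↔ Q f := by
  have aux : ∀ t : S7, t * t = 1 → (∀ f, Q f → Q (t * f * t)) → ∀ f, Q (t * f * t⁻¹) ↔ Q f := by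
    intro t ht h f
    have hi : t⁻¹ = t := inv_eq_of_mul_eq_one_left ht
    rw [hi]
    refine ⟨fun h' => ?_, h f⟩
    have h3 := h _ h'
    have h4 : t * (t * f * t) * t = f := by
      calc t * (t * f * t) * t = (t * t) * f * (t * t) := by group
        _ = f := by rw [ht, one_mul, mul_one]
    rwa [h4] at h3
  refine Subgroup.closure_induction (p := fun x _ => ∀ f, Q (x * f * x⁻¹) ↔ Q f) ?_ ?_ ?_ ?_ hx
  · intro y hy
    rcases hy with rfl | rfl | rfl
    · exact aux _ t00 h0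
    · exact aux _ t11 h1
    · exact aux _ t22 h2
  · intro f; simp
  · intro a b _ _ ha hb f
    have : a * b * f * (a * b)⁻¹ = a * (b * f * b⁻¹) * a⁻¹ := by group
    rw [this, ha, hb]
  · intro a _ ha f
    rw [← ha (a⁻¹ * f * a⁻¹⁻¹)]
    have : a * (a⁻¹ * f * a⁻¹⁻¹) * a⁻¹ = f := by group
    rw [this]

theorem C1_conj {x : S7} (hx : x ∈ HG) (f : S7) : C1 (x * f * x⁻¹) ↔ C1 f := by
  refine conj_iff C1 ?_ ?_ ?_ hx f <;>
  · intro f hf
    obtain ⟨e0, e1, e2, -⟩ := c1_t _ hf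
    rw [C1, mul_assoc, code_mul, code_mul]
    first
    | rw [code0]; exact e0
    | rw [code1]; exact e1
    | rw [code2]; exact e2

theorem C2_conj {x : S7} (hx : x ∈ HG) (f : S7) : C2 (x * f * x⁻¹) ↔ C2 f := by
  refine conj_iff C2 ?_ ?_ ?_ hx f <;>
  · intro f hf
    obtain ⟨e0, e1, e2, -⟩ := c2_t _ hf
    rw [C2, mul_assoc, code_mul, code_mul]
    first
    | rw [code0]; exact e0
    | rw [code1]; exact e1
    | rw [code2]; exact e2

theorem inv_eq_four {f : S7} (h : cmp (code f) (cmp (code f) (cmp (code f) (cmp (code f) (code f))))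
    = 1754760) : f⁻¹ = f * (f * (f * f)) := by
  have h1 : f * (f * (f * (f * f))) = 1 := code_inj (by
    rw [code_mul, code_mul, code_mul, code_mul, code_one]; exact h)
  exact inv_eq_of_mul_eq_one_right (by exact h1)

theorem C1_inv {f : S7} (h : C1 f) : C1 f⁻¹ := by
  obtain ⟨-, -, -, e3, e4, -⟩ := c1_t _ h
  rw [inv_eq_four e4, C1, code_mul, code_mul, code_mul]
  exact e3

theorem C2_inv {f : S7} (h : C2 f) : C2 f⁻¹ := by
  obtain ⟨-, -, -, e3, e4, -⟩ := c2_t _ h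
  rw [inv_eq_four e4, C2, code_mul, code_mul, code_mul]
  exact e3

def C11 (g : S7) : Prop := ∃ a b, C1 a ∧ C1 b ∧ g = a * b
def C22 (g : S7) : Prop := ∃ a b, C2 a ∧ C2 b ∧ g = a * b

theorem C11_conj {x : S7} (hx : x ∈ HG) {f : S7} (h : C11 f) : C11 (x * f * x⁻¹) := by
  obtain ⟨a, b, ha, hb, rfl⟩ := h
  exact ⟨x * a * x⁻¹, x * b * x⁻¹, (C1_conj hx a).2 ha, (C1_conj hx b).2 hb, by group⟩

theorem C22_conj {x : S7} (hx : x ∈ HG) {f : S7} (h : C22 f) : C22 (x * f * x⁻¹) := by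
  obtain ⟨a, b, ha, hb, rfl⟩ := h
  exact ⟨x * a * x⁻¹, x * b * x⁻¹, (C2_conj hx a).2 ha, (C2_conj hx b).2 hb, by group⟩

/-- The class of a weight. -/
def PP (u : ℕ × ℕ) : Set HG := {g | g.1 5 = 5 ∧ (u = (0, 0) → g.1 = 1) ∧ (u = (1, 0) → C1 g.1) ∧
  (u = (0, 1) → C2 g.1) ∧ (u = (2, 0) → C11 g.1) ∧ (u = (0, 2) → C22 g.1)}

theorem PP_one : (1 : HG) ∈ PP 0 := by
  refine ⟨rfl, fun _ => rfl, ?_, ?_, ?_, ?_⟩ <;>
  · intro h
    exact absurd h (by decide)

theorem PP_inv (u : ℕ × ℕ) (g : HG) (h : g ∈ PP u) : g⁻¹ ∈ PP u := by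
  obtain ⟨h5, h00, h10, h01, h20, h02⟩ := h
  refine ⟨?_, ?_, ?_, ?_, ?_, ?_⟩
  · change (g.1)⁻¹ 5 = 5
    rw [Equiv.Perm.inv_eq_iff_eq, h5]
  · intro hu
    change (g.1)⁻¹ = 1
    rw [h00 hu, inv_one]
  · intro hu
    exact C1_inv (h10 hu)
  · intro hu
    exact C2_inv (h01 hu)
  · intro hu
    obtain ⟨a, b, ha, hb, e⟩ := h20 hu
    refine ⟨b⁻¹, a⁻¹, C1_inv hb, C1_inv ha, ?_⟩
    change (g.1)⁻¹ = _
    rw [e, mul_inv_rev]
  · intro hu
    obtain ⟨a, b, ha, hb, e⟩ := h02 hu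
    refine ⟨b⁻¹, a⁻¹, C2_inv hb, C2_inv ha, ?_⟩
    change (g.1)⁻¹ = _
    rw [e, mul_inv_rev]

theorem PP_mul (u v : ℕ × ℕ) (g h : HG) (hg : g ∈ PP u) (hh : h ∈ PP v) : g * h ∈ PP (u + v) := by
  obtain ⟨g5, g00, g10, g01, g20, g02⟩ := hg
  obtain ⟨h5, h00, h10, h01, h20, h02⟩ := hh
  obtain ⟨u1, u2⟩ := u
  obtain ⟨v1, v2⟩ := v
  have e : (g * h).1 = g.1 * h.1 := rfl
  refine ⟨?_, ?_, ?_, ?_, ?_, ?_⟩
  · rw [e, Equiv.Perm.mul_apply, h5, g5]
  all_goals
    intro huv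
    simp only [Prod.mk_add_mk, Prod.mk.injEq] at huv
    rw [e]
  · have hu : (u1, u2) = (0, 0) := by simp; omega
    have hv : (v1, v2) = (0, 0) := by simp; omega
    rw [g00 hu, h00 hv, one_mul]
  · rcases Nat.eq_zero_or_pos u1 with h' | h'
    · have hu : (u1, u2) = (0, 0) := by simp; omega
      have hv : (v1, v2) = (1, 0) := by simp; omega
      rw [g00 hu, one_mul]; exact h10 hv
    · have hu : (u1, u2) = (1, 0) := by simp; omega
      have hv : (v1, v2) = (0, 0) := by simp; omega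
      rw [h00 hv, mul_one]; exact g10 hu
  · rcases Nat.eq_zero_or_pos u2 with h' | h'
    · have hu : (u1, u2) = (0, 0) := by simp; omega
      have hv : (v1, v2) = (0, 1) := by simp; omega
      rw [g00 hu, one_mul]; exact h01 hv
    · have hu : (u1, u2) = (0, 1) := by simp; omega
      have hv : (v1, v2) = (0, 0) := by simp; omega
      rw [h00 hv, mul_one]; exact g01 hu
  · rcases (by omega : u1 = 0 ∨ u1 = 1 ∨ u1 = 2) with h' | h' | h'
    · have hu : (u1, u2) = (0, 0) := by simp; omega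
      have hv : (v1, v2) = (2, 0) := by simp; omega
      rw [g00 hu, one_mul]; exact h20 hv
    · have hu : (u1, u2) = (1, 0) := by simp; omega
      have hv : (v1, v2) = (1, 0) := by simp; omega
      exact ⟨_, _, g10 hu, h10 hv, rfl⟩
    · have hu : (u1, u2) = (2, 0) := by simp; omega
      have hv : (v1, v2) = (0, 0) := by simp; omega
      rw [h00 hv, mul_one]; exact g20 hu
  · rcases (by omega : u2 = 0 ∨ u2 = 1 ∨ u2 = 2) with h' | h' | h'
    · have hu : (u1, u2) = (0, 0) := by simp; omega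
      have hv : (v1, v2) = (0, 2) := by simp; omega
      rw [g00 hu, one_mul]; exact h02 hv
    · have hu : (u1, u2) = (0, 1) := by simp; omega
      have hv : (v1, v2) = (0, 1) := by simp; omega
      exact ⟨_, _, g01 hu, h01 hv, rfl⟩
    · have hu : (u1, u2) = (0, 2) := by simp; omega
      have hv : (v1, v2) = (0, 0) := by simp; omega
      rw [h00 hv, mul_one]; exact g02 hu

/-- the generators -/
def s0 : HG := ⟨tau0, mem0⟩
def s1 : HG := ⟨tau1, mem1⟩
def s2 : HG := ⟨tau2, mem2⟩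

theorem s00 : s0 * s0 = 1 := Subtype.ext t00
theorem s11 : s1 * s1 = 1 := Subtype.ext t11
theorem s22 : s2 * s2 = 1 := Subtype.ext t22
theorem s010 : s0 * s1 * s0 = s1 * s0 * s1 := Subtype.ext t010
theorem s02 : s0 * s2 = s2 * s0 := Subtype.ext t02

theorem code_rpow : code (rho ^ 2) = 1749524 ∧ code (rho ^ 3) = 1738842 ∧
    code (rho ^ 4) = 1742083 ∧ rho ^ 5 = 1 := by
  have h2 : code (rho ^ 2) = 1749524 := by
    rw [pow_two, code_mul, code_rho]; decide +kernel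
  have h3 : code (rho ^ 3) = 1738842 := by
    rw [pow_succ, code_mul, h2, code_rho]; decide +kernel
  have h4 : code (rho ^ 4) = 1742083 := by
    rw [pow_succ, code_mul, h3, code_rho]; decide +kernel
  refine ⟨h2, h3, h4, code_inj ?_⟩
  rw [pow_succ, code_mul, h4, code_rho, code_one]; decide +kernel

theorem rho_mod (d : ℕ) : rho ^ d = rho ^ (d % 5) := by
  conv_lhs => rw [← Nat.mod_add_div d 5, pow_add, pow_mul, code_rpow.2.2.2, one_pow, mul_one]

theorem rho_fix (d : ℕ) : (rho ^ d) 5 = 5 := by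
  induction d with
  | zero => rfl
  | succ d ih =>
    rw [pow_succ, Equiv.Perm.mul_apply]
    have : rho 5 = 5 := by decide
    rw [this, ih]

/-- the holonomy of a vertex of degree `d` -/
theorem PP_own (g : HG) (d : ℕ) : g * (s1 * s2) ^ d * g⁻¹ ∈ PP (cl d) := by
  have e : (g * (s1 * s2) ^ d * g⁻¹ : HG).1 = g.1 * rho ^ d * (g.1)⁻¹ := by
    simp [s1, s2, rho]
  have hfix : (g * (s1 * s2) ^ d * g⁻¹ : HG).1 5 = 5 := by
    rw [e]
    have hr := rho_fix d
    have hr6 : (rho ^ d) 6 = 6 := by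
      clear e hr
      induction d with
      | zero => rfl
      | succ d ih =>
        rw [pow_succ, Equiv.Perm.mul_apply]
        have : rho 6 = 6 := by decide
        rw [this, ih]
    rcases sg_mem (HG.inv_mem g.2) with ⟨h1, h2⟩ | ⟨h1, h2⟩
    · rw [Equiv.Perm.mul_apply, Equiv.Perm.mul_apply, h1, hr]
      have := h1
      rw [Equiv.Perm.inv_eq_iff_eq] at this
      exact this.symm
    · rw [Equiv.Perm.mul_apply, Equiv.Perm.mul_apply, h1, hr6]
      have := h1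
      rw [Equiv.Perm.inv_eq_iff_eq] at this
      exact this.symm
  have hC1 : C1 (rho ^ d) → C1 (g * (s1 * s2) ^ d * g⁻¹ : HG).1 := by
    intro h; rw [e]; exact (C1_conj g.2 _).2 h
  have hC2 : C2 (rho ^ d) → C2 (g * (s1 * s2) ^ d * g⁻¹ : HG).1 := by
    intro h; rw [e]; exact (C2_conj g.2 _).2 h
  obtain ⟨r2, r3, r4, r5⟩ := code_rpow
  refine ⟨hfix, ?_, ?_, ?_, ?_, ?_⟩
  · intro h
    have hd : d % 5 = 0 := by
      unfold cl at h
      split_ifs at h <;> simp at h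
      omega
    rw [e, rho_mod, hd, pow_zero, mul_one, mul_inv_cancel]
  · intro h
    have hd : d % 5 = 1 ∨ d % 5 = 4 := by
      unfold cl at h
      split_ifs at h with h1 h2 <;> simp at h
      exact h1
    apply hC1
    rw [rho_mod, C1]
    rcases hd with hd | hd
    · rw [hd, pow_one, code_rho]; decide
    · rw [hd, r4]; decide
  · intro h
    have hd : d % 5 = 2 ∨ d % 5 = 3 := by
      unfold cl at h
      split_ifs at h with h1 h2 <;> simp at h
      exact h2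
    apply hC2
    rw [rho_mod, C2]
    rcases hd with hd | hd
    · rw [hd, r2]; decide
    · rw [hd, r3]; decide
  · intro h
    unfold cl at h
    split_ifs at h <;> simp at h
  · intro h
    unfold cl at h
    split_ifs at h <;> simp at h

theorem v_mem (k : ℕ) : code (VV * rho ^ k) ∈ vL := by
  induction k with
  | zero => rw [pow_zero, mul_one, code_VV]; decide
  | succ k ih =>
    rw [pow_succ, ← mul_assoc, code_mul, code_rho]
    exact v_next _ ih

/-- the involutions at the ends of the strip -/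
theorem inF_of_mem {u : ℕ × ℕ} (g : HG) (k : ℕ)
    (h : g * (s0 * (s1 * s2) * (s1 * s2) * s0 * (s1 * s2) * s1 * s0 * (s1 * s2) ^ k) * g⁻¹ ∈ PP u) :
    InF u := by
  by_contra hF
  obtain ⟨u1, u2⟩ := u
  unfold InF at hF
  simp only [not_or, not_and, not_le] at hF
  obtain ⟨-, h00, h10, h01, h20, h02⟩ := h
  have hv := v_mem k
  obtain ⟨n1, n2, n3⟩ := v_no _ hv
  have e : (g * (s0 * (s1 * s2) * (s1 * s2) * s0 * (s1 * s2) * s1 * s0 * (s1 * s2) ^ k) *
      g⁻¹ : HG).1 = g.1 * (VV * rho ^ k) * (g.1)⁻¹ := by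
    simp [s1, s2, s0, rho, VV, mul_assoc]
  rw [e] at h00 h10 h01 h20 h02
  have hcases : (u1, u2) = (0, 0) ∨ (u1, u2) = (1, 0) ∨ (u1, u2) = (0, 1) ∨ (u1, u2) = (2, 0) ∨
      (u1, u2) = (0, 2) := by
    simp only [Prod.mk.injEq]
    omega
  have hback : g.1⁻¹ * (g.1 * (VV * rho ^ k) * (g.1)⁻¹) * g.1⁻¹⁻¹ = VV * rho ^ k := by group
  rcases hcases with hu | hu | hu | hu | hu
  · have h1 := h00 hu
    have h2 : VV * rho ^ k = 1 := by
      rw [← hback, h1]; group
    apply n1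
    rw [h2, code_one]
  · exact n2 ((C1_conj g.2 _).1 (h10 hu))
  · exact n3 ((C2_conj g.2 _).1 (h01 hu))
  · have h1 := C11_conj (HG.inv_mem g.2) (h20 hu)
    rw [hback] at h1
    obtain ⟨a, b, ha, hb, h2⟩ := h1
    rw [h2, code_mul] at hv
    exact v_no1 _ ha _ hb hv
  · have h1 := C22_conj (HG.inv_mem g.2) (h02 hu)
    rw [hback] at h1
    obtain ⟨a, b, ha, hb, h2⟩ := h1
    rw [h2, code_mul] at hv
    exact v_no2 _ ha _ hb hv

/-- parity -/
theorem odd_not_mem {u : ℕ × ℕ} (g : HG) (k : ℕ)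
    (h : g * (s0 * (s1 * s2) * (s1 * s2) * s0 * (s1 * s2) * s1 * s0 * s1 * (s1 * s2) ^ k) * g⁻¹ ∈
      PP u) : False := by
  have h5 := h.1
  have e : (g * (s0 * (s1 * s2) * (s1 * s2) * s0 * (s1 * s2) * s1 * s0 * s1 * (s1 * s2) ^ k) *
      g⁻¹ : HG).1 = g.1 * (VV * tau1 * rho ^ k) * (g.1)⁻¹ := by
    simp [s1, s2, s0, rho, VV, mul_assoc]
  rw [e] at h5
  have hw : ∀ k, (VV * tau1 * rho ^ k) 5 = 6 ∧ (VV * tau1 * rho ^ k) 6 = 5 := by
    intro k
    have h1 : (VV * tau1) 5 = 6 ∧ (VV * tau1) 6 = 5 := by decide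
    have hr6 : (rho ^ k) 6 = 6 := by
      induction k with
      | zero => rfl
      | succ d ih =>
        rw [pow_succ, Equiv.Perm.mul_apply]
        have : rho 6 = 6 := by decide
        rw [this, ih]
    constructor
    · rw [Equiv.Perm.mul_apply, rho_fix, h1.1]
    · rw [Equiv.Perm.mul_apply, hr6, h1.2]
  rcases sg_mem (HG.inv_mem g.2) with ⟨h1, h2⟩ | ⟨h1, h2⟩
  · rw [Equiv.Perm.mul_apply, Equiv.Perm.mul_apply, h1, (hw k).1] at h5
    have := h1
    rw [Equiv.Perm.inv_eq_iff_eq] at this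
    have h3 : g.1 6 = g.1 5 := by rw [h5, ← this]
    exact absurd (g.1.injective h3) (by decide)
  · rw [Equiv.Perm.mul_apply, Equiv.Perm.mul_apply, h1, (hw k).2] at h5
    have := h1
    rw [Equiv.Perm.inv_eq_iff_eq] at this
    have h3 : g.1 5 = g.1 6 := by rw [h5, ← this]
    exact absurd (g.1.injective h3) (by decide)

/-- the two classes are different -/
theorem C1_not_PP01 (g : HG) {d : ℕ} (hd : cl d = (1, 0)) (h : g * (s1 * s2) ^ d * g⁻¹ ∈ PP (0, 1)) :
    False := by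
  have h1 := (PP_own g d).2.2.1 hd
  exact c12 _ h1 (h.2.2.2.1 rfl)

theorem one_not (g : HG) {d : ℕ} (h : g * (s1 * s2) ^ d * g⁻¹ ∈ PP (0, 0)) : cl d = (0, 0) := by
  have h1 := h.2.1 rfl
  by_contra hd
  have hd' : cl d = (1, 0) ∨ cl d = (0, 1) := by
    unfold cl at hd ⊢
    split_ifs at hd ⊢ <;> simp_all
  rcases hd' with hd' | hd'
  · have h2 := (PP_own g d).2.2.1 hd'
    rw [h1, C1, code_one] at h2
    exact absurd h2 (by decide)
  · have h2 := (PP_own g d).2.2.2.1 hd'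
    rw [h1, C2, code_one] at h2
    exact absurd h2 (by decide)

end Pool.Agent.Helper79.HH
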