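import Pool.Agent.Helper79.HH.Defs

/-!
# BLOCK HH-7: the holonomy formula

Notation: `r = t1 * t2`.  For an edge `a b` with the two triangles `{a, b, c}`, `{a, b, c'}` the jump
is `J a b c c' = Φ a b c * t2 * (Φ a b c')⁻¹`.  It is `1` if the edge does not belong to the tree
(`Dev.s2`), `J b a c c' = J a b c c'` (`Dev.s0` and `h02`), `J a b c' c = (J a b c c')⁻¹` (`h2`).

* `tot_exists`: recursion on the rank (children have a larger rank): let `N` be larger than all
  ranks; for every `n` there is `tot` which satisfies the equation for all `a` with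
  `N ≤ rk a + n`; or well-founded recursion.
* `tot_root`: sum the equations over all `a ∈ verts T`; every `c ≠ D` is counted once as a child
  (`par c ∈ verts T`), so `∑ tot a = ∑ own a + ∑_{c ≠ D} tot c`; cancel.
* `arc`: induction on `m`.  `Φ a (w (m+1)) (w (m+2))` is obtained from `Φ a (w m) (w (m+1))` by
  `s1` (`Φ a (w (m+1)) (w m) = Φ a (w m) (w (m+1)) * t1`) and the jump at the edge
  `a (w (m+1))`: `Φ a (w (m+1)) (w (m+2)) = J⁻¹ * Φ a (w m) (w (m+1)) * r` with
  `J = J a (w (m+1)) (w m) (w (m+2))`.  So the element for `m + 1` is `J⁻¹` times the element for `m`.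
  If `a (w (m+1))` is not an edge of the tree, `J = 1`; otherwise by `hpar` it is the edge of the
  child `w (m+1)` and `J ∈ P (tot (w (m+1)))` by `hch`.  (`w m ≠ w (m+2)` follows from `Link.inj`,
  `Link.per` and `Link.three`.)
* `sum_children`: the `w k`, `1 ≤ k ≤ d`, are the neighbours of `a`, each of them once.
* `hol`: induction on the rank, the largest ranks first.  Let `a ≠ D`, `b = par a`.  Take the link
  `w` of `a` with `w 0 = b` and `w 1 = y` (`hlink`), `d = deg T a`.  Then `w (d - 1) = x` since the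
  edge `a b` is in exactly two triangles, `{a, b, w 1}` and `{a, w (d - 1), b}`.  By `arc` with
  `m = d - 1` and the induction hypothesis for the children,
  `U = Φ a (w (d-1)) b * (r ^ (d-1))⁻¹ * (Φ a b y)⁻¹ ∈ P (∑ children)`.
  By `s1` `Φ a (w (d-1)) b = Φ a b x * t1`.  Hence `Φ a b x * t2 * (Φ a b y)⁻¹ =
  U * (Φ a b y * r ^ d * (Φ a b y)⁻¹)` — indeed `t1 * (r ^ (d-1))⁻¹ * r ^ d = t1 * r = t2` — and it
  belongs to `P (∑ children + own a) = P (tot a)`.
* `hol_full`: the same for the root: `Φ D (w d) (w (d+1)) = Φ D (w 0) (w 1)`.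
-/

namespace Pool.Agent.Helper79.HH

open Finset Pool.Agent.Helper79.HX

theorem tot_exists {T : Finset (Finset ℕ)} {D : ℕ} {par rk : ℕ → ℕ} (h : Tree T D par rk)
    (own : ℕ → ℕ × ℕ) : ∃ tot : ℕ → ℕ × ℕ, ∀ a ∈ verts T, tot a = own a +
      ∑ c ∈ (verts T).filter (fun c => c ≠ D ∧ par c = a), tot c := by
  obtain ⟨N, hN⟩ : ∃ N, ∀ a ∈ verts T, rk a < N :=
    ⟨(verts T).sup rk + 1, fun a ha => Nat.lt_succ_of_le (Finset.le_sup (f := rk) ha)⟩
  have key : ∀ n : ℕ, ∃ tot : ℕ → ℕ × ℕ, ∀ a ∈ verts T, N ≤ rk a + n → tot a = own a +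
      ∑ c ∈ (verts T).filter (fun c => c ≠ D ∧ par c = a), tot c := by
    intro n
    induction n with
    | zero => exact ⟨fun _ => 0, fun a ha h0 => absurd (hN a ha) (by omega)⟩
    | succ n ih =>
      obtain ⟨tot, htot⟩ := ih
      refine ⟨fun a => if N ≤ rk a + n then tot a else own a +
        ∑ c ∈ (verts T).filter (fun c => c ≠ D ∧ par c = a), tot c, ?_⟩
      intro a ha hNa
      have hch : ∀ c ∈ (verts T).filter (fun c => c ≠ D ∧ par c = a), N ≤ rk c + n := by
        intro c hc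
        rw [mem_filter] at hc
        have h3 := h.rank c hc.1 hc.2.1
        rw [hc.2.2] at h3
        omega
      rw [sum_congr rfl fun c hc => if_pos (hch c hc)]
      by_cases h4 : N ≤ rk a + n
      · exact (if_pos h4).trans (htot a ha h4)
      · exact if_neg h4
  obtain ⟨tot, htot⟩ := key N
  exact ⟨tot, fun a ha => htot a ha (by omega)⟩

theorem tot_root {T : Finset (Finset ℕ)} {D : ℕ} {par rk : ℕ → ℕ} (h : Tree T D par rk)
    {own tot : ℕ → ℕ × ℕ} (htot : ∀ a ∈ verts T, tot a = own a +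
      ∑ c ∈ (verts T).filter (fun c => c ≠ D ∧ par c = a), tot c) :
    tot D = ∑ a ∈ verts T, own a := by
  have h1 : ∑ a ∈ verts T, tot a = ∑ a ∈ verts T, own a +
      ∑ c ∈ (verts T).filter (fun c => c ≠ D), tot c := by
    rw [sum_congr rfl htot, sum_add_distrib]
    congr 1
    rw [← sum_fiberwise_of_maps_to (s := (verts T).filter (fun c => c ≠ D)) (t := verts T) (g := par)]
    · refine sum_congr rfl fun a _ => ?_
      rw [filter_filter]
    · intro c hc
      rw [mem_filter] at hc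
      obtain ⟨-, t, ht, -, hp⟩ := h.adj c hc.1 hc.2
      exact mem_verts.2 ⟨t, ht, hp⟩
  have h2 : ∑ a ∈ verts T, tot a = tot D + ∑ c ∈ (verts T).filter (fun c => c ≠ D), tot c := by
    rw [← add_sum_erase _ _ h.root]
    congr 1
    refine sum_congr ?_ fun _ _ => rfl
    ext c
    rw [mem_erase, mem_filter, and_comm]
  exact add_right_cancel (h2.symm.trans h1)

private theorem dist52 {T : Finset (Finset ℕ)} (hT : Closed T) {a b c : ℕ} (h : {a, b, c} ∈ T) :
    a ≠ b ∧ a ≠ c ∧ b ≠ c := by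
  have h3 := hT.tri _ h
  refine ⟨?_, ?_, ?_⟩
  · rintro rfl
    rw [insert_eq_of_mem (mem_insert_self _ _)] at h3
    have := card_le_two (a := a) (b := c)
    omega
  · rintro rfl
    rw [insert_eq_of_mem (mem_insert_of_mem (mem_singleton_self _))] at h3
    have := card_le_two (a := b) (b := a)
    omega
  · rintro rfl
    rw [insert_eq_of_mem (a := b) (s := {b}) (mem_singleton_self _)] at h3
    have := card_le_two (a := a) (b := b)
    omega

private theorem link_d52 {T : Finset (Finset ℕ)} {a d : ℕ} {w : ℕ → ℕ} (hw : Link T a d w) :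
    w d = w 0 := by
  have := hw.per 0
  rwa [Nat.zero_add] at this

private theorem link_ne52 {T : Finset (Finset ℕ)} {a d : ℕ} {w : ℕ → ℕ} (hw : Link T a d w) {k : ℕ}
    (h1 : 1 ≤ k) (h2 : k < d) : w k ≠ w 0 := by
  intro h3
  have h4 := hw.inj k 0 h2 (by have := hw.three; omega) h3
  omega

private theorem link_two52 {T : Finset (Finset ℕ)} {a d : ℕ} {w : ℕ → ℕ} (hw : Link T a d w)
    (m : ℕ) : w m ≠ w (m + 2) := by
  have hp : Function.Periodic w d := hw.per
  have hd := hw.three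
  intro h3
  rw [← hp.map_mod_nat m, ← hp.map_mod_nat (m + 2)] at h3
  have h4 := hw.inj _ _ (Nat.mod_lt _ (by omega)) (Nat.mod_lt _ (by omega)) h3
  have h5 : (m + 2 - m) % d = 0 := Nat.sub_mod_eq_zero_of_mod_eq h4.symm
  rw [Nat.add_sub_cancel_left, Nat.mod_eq_of_lt (by omega)] at h5
  omega

private theorem link_mem52 {T : Finset (Finset ℕ)} {a d : ℕ} {w : ℕ → ℕ} (hw : Link T a d w)
    (m : ℕ) : w m ∈ verts T :=
  mem_verts.2 ⟨_, hw.tri m, mem_insert_of_mem (mem_insert_self _ _)⟩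

theorem sum_children {T : Finset (Finset ℕ)} (hT : Closed T) {D a d : ℕ} {par rk : ℕ → ℕ}
    (h : Tree T D par rk) {w : ℕ → ℕ} (hw : Link T a d w) (ha : a ∈ verts T) (tot : ℕ → ℕ × ℕ) :
    ∑ k ∈ Finset.Icc 1 d, (if w k ≠ D ∧ par (w k) = a then tot (w k) else 0) =
      ∑ c ∈ (verts T).filter (fun c => c ≠ D ∧ par c = a), tot c := by
  have hd := hw.three
  rw [← sum_filter]
  refine sum_bij (fun k _ => w k) ?_ ?_ ?_ ?_
  · intro k hk
    rw [mem_filter] at hk ⊢
    exact ⟨link_mem52 hw k, hk.2⟩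
  · intro k hk k' hk' he
    rw [mem_filter, mem_Icc] at hk hk'
    by_cases h3 : k = d
    · by_cases h4 : k' = d
      · rw [h3, h4]
      · exfalso
        refine link_ne52 hw hk'.1.1 (by omega) ?_
        rw [← link_d52 hw, ← h3]
        exact he.symm
    · by_cases h4 : k' = d
      · exfalso
        refine link_ne52 hw hk.1.1 (by omega) ?_
        rw [← link_d52 hw, ← h4]
        exact he
      · exact hw.inj k k' (by omega) (by omega) he
  · intro c hc
    rw [mem_filter] at hc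
    obtain ⟨hca, t, ht, hct, hat⟩ := h.adj c hc.1 hc.2.1
    rw [hc.2.2] at hca hat
    obtain ⟨i, hi, rfl⟩ := hw.all t ht hat
    rw [mem_insert, mem_insert, mem_singleton] at hct
    have key : ∀ k, 1 ≤ k → k ≤ d → c = w k → ∃ k, ∃ (_ : k ∈ (Finset.Icc 1 d).filter
        (fun k => w k ≠ D ∧ par (w k) = a)), w k = c := by
      intro k h3 h4 h5
      refine ⟨k, ?_, h5.symm⟩
      rw [mem_filter, mem_Icc, ← h5]
      exact ⟨⟨h3, h4⟩, hc.2⟩
    rcases hct with h3 | h3 | h3
    · exact absurd h3 hca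
    · rcases Nat.eq_zero_or_pos i with h4 | h4
      · subst h4
        exact key d (by omega) le_rfl (h3.trans (link_d52 hw).symm)
      · exact key i h4 (by omega) h3
    · exact key (i + 1) (by omega) (by omega) h3
  · intro k _
    rfl

section
variable {G : Type*} [Group G] {t0 t1 t2 : G} (h1 : t1 * t1 = 1)
    (h2 : t2 * t2 = 1) (h02 : t0 * t2 = t2 * t0) {T : Finset (Finset ℕ)} (hT : Closed T) {D : ℕ}
    {par rk : ℕ → ℕ} {Φ : ℕ → ℕ → ℕ → G} (hΦ : Dev t0 t1 t2 T D par Φ)
    {P : ℕ × ℕ → Set G} {own tot : ℕ → ℕ × ℕ} (hP : Cls t1 t2 T D par P own tot)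

include h1 h2 h02 hT hΦ hP

theorem arc {a d : ℕ} {w : ℕ → ℕ} (hw : Link T a d w) (m : ℕ)
    (hpar : ∀ k, 1 ≤ k → k ≤ m → ¬ (a ≠ D ∧ par a = w k))
    (hch : ∀ c ∈ verts T, c ≠ D → par c = a → ∀ x y, {c, a, x} ∈ T → {c, a, y} ∈ T → x ≠ y →
      c ≠ a → c ≠ x → a ≠ x → c ≠ y → a ≠ y → Φ c a x * t2 * (Φ c a y)⁻¹ ∈ P (tot c)) :
    Φ a (w m) (w (m + 1)) * ((t1 * t2) ^ m)⁻¹ * (Φ a (w 0) (w 1))⁻¹ ∈
      P (∑ k ∈ Finset.Icc 1 m, if w k ≠ D ∧ par (w k) = a then tot (w k) else 0) := by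
  induction m with
  | zero =>
    rw [pow_zero, inv_one, mul_one, Nat.zero_add, mul_inv_cancel]
    exact hP.one
  | succ m ih =>
    have hE := ih fun k hk hk' => hpar k hk (by omega)
    have hm := hw.tri m
    have hm1 := hw.tri (m + 1)
    obtain ⟨d1, d2, d3⟩ := dist52 hT hm
    obtain ⟨d4, d5, d6⟩ := dist52 hT hm1
    have d7 : w m ≠ w (m + 1 + 1) := link_two52 hw m
    have hm' : {a, w (m + 1), w m} ∈ T := by
      rw [pair_comm]
      exact hm
    have hs1 := hΦ.s1 a (w m) (w (m + 1)) hm d1 d2 d3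
    -- the jump
    have hJ : Φ a (w (m + 1)) (w (m + 1 + 1)) * ((t1 * t2) ^ (m + 1))⁻¹ * (Φ a (w 0) (w 1))⁻¹ =
        (Φ a (w (m + 1)) (w m) * t2 * (Φ a (w (m + 1)) (w (m + 1 + 1)))⁻¹)⁻¹ *
          (Φ a (w m) (w (m + 1)) * ((t1 * t2) ^ m)⁻¹ * (Φ a (w 0) (w 1))⁻¹) := by
      rw [hs1, pow_succ, mul_inv_rev, mul_inv_rev, mul_inv_rev, mul_inv_rev, mul_inv_rev, inv_inv]
      simp only [mul_assoc, inv_mul_cancel_left]
    rw [hJ, sum_Icc_succ_top (by omega)]
    by_cases hTE : TE D par a (w (m + 1))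
    · rcases hTE with h3 | h3
      · exact absurd h3 (hpar (m + 1) (by omega) le_rfl)
      · rw [if_pos h3, add_comm]
        refine hP.mul _ _ _ _ (hP.inv _ _ ?_) hE
        have h4 := hch (w (m + 1)) (link_mem52 hw _) h3.1 h3.2 (w m) (w (m + 1 + 1))
          (by rw [insert_comm]; exact hm') (by rw [insert_comm]; exact hm1) d7 d4.symm d3.symm d1
          d6 d5
        have h5 := hΦ.s0 a (w (m + 1)) (w m) hm' d4 d1 d3.symm
        have h6 := hΦ.s0 a (w (m + 1)) (w (m + 1 + 1)) hm1 d4 d5 d6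
        rw [h5, h6] at h4
        have h7 : Φ a (w (m + 1)) (w m) * t0 * t2 * (Φ a (w (m + 1)) (w (m + 1 + 1)) * t0)⁻¹ =
            Φ a (w (m + 1)) (w m) * t2 * (Φ a (w (m + 1)) (w (m + 1 + 1)))⁻¹ := by
          rw [mul_assoc _ t0 t2, h02, mul_inv_rev]
          simp only [mul_assoc, mul_inv_cancel_left]
        rwa [h7] at h4
    · have h3 : ¬ (w (m + 1) ≠ D ∧ par (w (m + 1)) = a) := fun h => hTE (Or.inr h)
      rw [if_neg h3, add_zero]
      have h4 := hΦ.s2 a (w (m + 1)) (w m) (w (m + 1 + 1)) hm' hm1 d4 d1 d3.symm d5 d6 d7 hTE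
      rw [h4, mul_inv_cancel, inv_one, one_mul]
      exact hE

theorem hol (h : Tree T D par rk)
    (hlink : ∀ a b c, a ≠ b → a ≠ c → b ≠ c → {a, b, c} ∈ T →
      ∃ w : ℕ → ℕ, Link T a (deg T a) w ∧ w 0 = b ∧ w 1 = c) :
    ∀ a ∈ verts T, a ≠ D → ∀ x y, {a, par a, x} ∈ T → {a, par a, y} ∈ T → x ≠ y →
      a ≠ par a → a ≠ x → par a ≠ x → a ≠ y → par a ≠ y →
      Φ a (par a) x * t2 * (Φ a (par a) y)⁻¹ ∈ P (tot a) := by
  obtain ⟨N, hN⟩ : ∃ N, ∀ a ∈ verts T, rk a < N :=
    ⟨(verts T).sup rk + 1, fun a ha => Nat.lt_succ_of_le (Finset.le_sup (f := rk) ha)⟩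
  have key : ∀ n : ℕ, ∀ a ∈ verts T, N ≤ rk a + n → a ≠ D → ∀ x y, {a, par a, x} ∈ T →
      {a, par a, y} ∈ T → x ≠ y → a ≠ par a → a ≠ x → par a ≠ x → a ≠ y → par a ≠ y →
      Φ a (par a) x * t2 * (Φ a (par a) y)⁻¹ ∈ P (tot a) := by
    intro n
    induction n with
    | zero => exact fun a ha h0 => absurd (hN a ha) (by omega)
    | succ n ih =>
      intro a ha hNa haD x y hx hy hxy e1 e2 e3 e4 e5
      obtain ⟨w, hw, hw0, hw1⟩ := hlink a (par a) y e1 e4 e5 hy
      have hd := hw.three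
      have hwd : w (deg T a) = par a := (link_d52 hw).trans hw0
      -- the last vertex of the link is `x`
      have hwx : w (deg T a - 1) = x := by
        obtain ⟨i, hi, hti⟩ := hw.all _ hx (mem_insert_self _ _)
        have hxi : x ∈ ({a, w i, w (i + 1)} : Finset ℕ) := by
          rw [← hti]
          exact mem_insert_of_mem (mem_insert_of_mem (mem_singleton_self _))
        have hpi : par a ∈ ({a, w i, w (i + 1)} : Finset ℕ) := by
          rw [← hti]
          exact mem_insert_of_mem (mem_insert_self _ _)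
        rw [mem_insert, mem_insert, mem_singleton] at hxi hpi
        rcases hpi with h3 | h3 | h3
        · exact absurd h3.symm e1
        · -- `i = 0`
          have h4 : i = 0 := by
            by_contra h5
            exact link_ne52 hw (Nat.one_le_iff_ne_zero.2 h5) hi (h3.symm.trans hw0.symm)
          subst h4
          exfalso
          rcases hxi with h5 | h5 | h5
          · exact e2 h5.symm
          · exact e3 (hw0.symm.trans h5.symm)
          · exact hxy (h5.trans hw1)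
        · have h4 : i + 1 = deg T a := by
            by_contra h5
            exact link_ne52 hw (k := i + 1) (by omega) (by omega) (h3.symm.trans hw0.symm)
          rcases hxi with h5 | h5 | h5
          · exact absurd h5.symm e2
          · rw [h5, ← h4, Nat.add_sub_cancel]
          · exact absurd (h3.trans h5.symm) e3
      have hlast : deg T a - 1 + 1 = deg T a := by omega
      have hU := arc h1 h2 h02 hT hΦ hP hw (deg T a - 1) (by
        rintro k h3 h4 ⟨-, h5⟩
        exact link_ne52 hw h3 (by omega) (h5.symm.trans hw0.symm)) (by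
        intro c hc hcD hca x' y' g1 g2 g3 g4 g5 g6 g7 g8
        have h3 := h.rank c hc hcD
        rw [hca] at h3
        have h4 := ih c hc (by omega) hcD x' y'
        rw [hca] at h4
        exact h4 g1 g2 g3 g4 g5 g6 g7 g8)
      rw [hlast, hwx, hwd, hw0, hw1] at hU
      have hs1 := hΦ.s1 a (par a) x hx e1 e2 e3
      rw [hs1] at hU
      have hb : par a ∈ verts T := mem_verts.2 ⟨_, hx, mem_insert_of_mem (mem_insert_self _ _)⟩
      -- the sum over the whole link
      have hsum : ∑ k ∈ Finset.Icc 1 (deg T a - 1), (if w k ≠ D ∧ par (w k) = a then tot (w k) else 0) =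
          ∑ c ∈ (verts T).filter (fun c => c ≠ D ∧ par c = a), tot c := by
        rw [← sum_children hT h hw ha tot]
        conv_rhs => rw [← hlast]
        rw [sum_Icc_succ_top (by omega), hlast, hwd, if_neg, add_zero]
        rintro ⟨h3, h4⟩
        have h5 := h.rank (par a) hb h3
        rw [h4] at h5
        have h6 := h.rank a ha haD
        omega
      rw [hsum] at hU
      have hown := hP.hown a ha haD (Φ a (par a) y)
      have hfin := hP.mul _ _ _ _ hU hown
      rw [hP.htot a ha, add_comm]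
      have he : Φ a (par a) x * t1 * ((t1 * t2) ^ (deg T a - 1))⁻¹ * (Φ a (par a) y)⁻¹ *
          (Φ a (par a) y * (t1 * t2) ^ deg T a * (Φ a (par a) y)⁻¹) =
          Φ a (par a) x * t2 * (Φ a (par a) y)⁻¹ := by
        have h3 : (t1 * t2) ^ deg T a = (t1 * t2) ^ (deg T a - 1) * (t1 * t2) := by
          rw [← pow_succ, hlast]
        rw [h3]
        simp only [mul_assoc, inv_mul_cancel_left]
        rw [← mul_assoc t1 t1, h1, one_mul]
      rwa [he] at hfin
  intro a ha
  exact key N a ha (by omega)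

theorem hol_full (h : Tree T D par rk)
    (hlink : ∀ a b c, a ≠ b → a ≠ c → b ≠ c → {a, b, c} ∈ T →
      ∃ w : ℕ → ℕ, Link T a (deg T a) w ∧ w 0 = b ∧ w 1 = c) {b c : ℕ} (hDb : D ≠ b)
    (hDc : D ≠ c) (hbc : b ≠ c) (hD : {D, b, c} ∈ T) :
    Φ D b c * (t1 * t2) ^ deg T D * (Φ D b c)⁻¹ ∈
      P (∑ c ∈ (verts T).filter (fun c => c ≠ D ∧ par c = D), tot c) := by
  obtain ⟨w, hw, hw0, hw1⟩ := hlink D b c hDb hDc hbc hD
  have hd := hw.three
  have hU := arc h1 h2 h02 hT hΦ hP hw (deg T D) (fun k _ _ h3 => h3.1 rfl) (by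
    intro c hc hcD hca x' y' g1 g2 g3 g4 g5 g6 g7 g8
    have h4 := hol h1 h2 h02 hT hΦ hP h hlink c hc hcD x' y'
    rw [hca] at h4
    exact h4 g1 g2 g3 g4 g5 g6 g7 g8)
  have hd1 : w (deg T D + 1) = w 1 := by
    have := hw.per 1
    rwa [Nat.add_comm] at this
  rw [link_d52 hw, hd1, hw0, hw1, sum_children hT h hw h.root tot] at hU
  have h3 := hP.inv _ _ hU
  have h4 : (Φ D b c * ((t1 * t2) ^ deg T D)⁻¹ * (Φ D b c)⁻¹)⁻¹ =
      Φ D b c * (t1 * t2) ^ deg T D * (Φ D b c)⁻¹ := by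
    rw [mul_inv_rev, mul_inv_rev, inv_inv, inv_inv, mul_assoc]
  rwa [h4] at h3

end

end Pool.Agent.Helper79.HH
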