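import Pool.Agent.Helper79.HH.Defs

/-!
# BLOCK HH-5: the link of a vertex is a cycle

Proof.  Let `O` be the type of the pairs `(x, y)` with `{a, x, y} ∈ T`, `a, x, y` distinct (finite,
`2 * deg T a` elements).  For a distinct triple with `{a, x, y} ∈ T` let `o x y` be the third vertex
of the other triangle on the edge `{a, x}` (so `{a, x, o x y} ∈ T`, `o x y ≠ y`).  Put
`ρ (x, y) = (y, o y x)` and `σ (x, y) = (y, x)`.  Then `σ` is an involution without fixed points,
`ρ` is a permutation with `σ ρ σ = ρ⁻¹`, and `σ ρ (x, y) = (o y x, y)` has no fixed points.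
No `σ z` is in the `ρ`-orbit of `z`: if `σ z = ρ ^ (2 m) z` then `ρ ^ m z` is a fixed point of `σ`;
if `σ z = ρ ^ (2 m + 1) z` then `ρ (ρ ^ m z) = σ (ρ ^ m z)`, i.e. `σ ρ` fixes `ρ ^ m z`.
Let `z = (b, c)`.  The set of the triangles `{a, x, y}` with `(x, y)` in the orbit of `z` is closed,
so by `hconn` it contains all triangles at `a`; hence `O` is the disjoint union of the orbit and its
image under `σ`, and the orbit has `d = deg T a` elements (`d ≥ 3` since `d = 1, 2` is impossible by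
`tri`, `edge`: the triangles `{a, b, c}`, `{a, c, o c b}`, `{a, b, o b c}` are different, because
`{a, c, o c b} = {a, b, o b c}` would force `o c b = b`).
Put `w i = (ρ ^ i z).1`, so `ρ ^ i z = (w i, w (i + 1))`.  If `w i = w j` with `i < j < d`: the two
triangles on the edge `{a, w i}` are those with third vertices `w (i + 1)` and `w (i - 1)`, and
`ρ ^ j z = (w i, w (i + 1))` is impossible as the orbit has `d` elements, while
`ρ ^ j z = (w i, w (i - 1)) = ρ σ ρ ^ i z` would put `σ (ρ ^ i z)` into the orbit.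
-/

namespace Pool.Agent.Helper79.HH

open Finset Pool.Agent.Helper79.HX

/-- `{a, x, y}` is a triangle of `T` with three different corners. -/
private def PP34 (T : Finset (Finset ℕ)) (a x y : ℕ) : Prop :=
  a ≠ x ∧ a ≠ y ∧ x ≠ y ∧ ({a, x, y} : Finset ℕ) ∈ T

private theorem PP34.symm {T : Finset (Finset ℕ)} {a x y : ℕ} (h : PP34 T a x y) : PP34 T a y x :=
  ⟨h.2.1, h.1, h.2.2.1.symm, by rw [Finset.pair_comm]; exact h.2.2.2⟩

private theorem other34 {T : Finset (Finset ℕ)} (hT : Closed T) {a x y : ℕ} (h : PP34 T a x y) :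
    ∃ z, PP34 T a x z ∧ z ≠ y ∧ ∀ z', PP34 T a x z' → z' = y ∨ z' = z := by
  obtain ⟨hax, hay, hxy, ht⟩ := h
  have he : ({a, x} : Finset ℕ) ⊆ {a, x, y} := by
    intro u hu
    simp only [Finset.mem_insert, Finset.mem_singleton] at hu ⊢
    tauto
  have hc := hT.edge _ ht {a, x} he (Finset.card_pair hax)
  obtain ⟨s1, s2, hne, hf⟩ := Finset.card_eq_two.1 hc
  have mem : ∀ s : Finset ℕ, (s ∈ T ∧ ({a, x} : Finset ℕ) ⊆ s) ↔ (s = s1 ∨ s = s2) := by
    intro s
    rw [← Finset.mem_filter (p := fun s => ({a, x} : Finset ℕ) ⊆ s), hf, Finset.mem_insert, Finset.mem_singleton]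
  have h1 := (mem _).1 ⟨ht, he⟩
  obtain ⟨t', ht', htne, huniq⟩ : ∃ t' : Finset ℕ, (t' ∈ T ∧ ({a, x} : Finset ℕ) ⊆ t') ∧ t' ≠ {a, x, y} ∧
      ∀ s : Finset ℕ, (s ∈ T ∧ ({a, x} : Finset ℕ) ⊆ s) → s = {a, x, y} ∨ s = t' := by
    rcases h1 with h1 | h1
    · refine ⟨s2, (mem _).2 (Or.inr rfl), ?_, fun s hs => ?_⟩
      · rw [h1]
        exact hne.symm
      · rw [h1]
        exact (mem s).1 hs
    · refine ⟨s1, (mem _).2 (Or.inl rfl), ?_, fun s hs => ?_⟩
      · rw [h1]
        exact hne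
      · rw [h1]
        exact ((mem s).1 hs).symm
  have hcard : (t' \ {a, x}).card = 1 := by
    rw [Finset.card_sdiff_of_subset ht'.2, hT.tri _ ht'.1, Finset.card_pair hax]
  obtain ⟨z, hz⟩ := Finset.card_eq_one.1 hcard
  have hzm : z ∈ t' \ {a, x} := by
    rw [hz]
    exact Finset.mem_singleton_self z
  rw [Finset.mem_sdiff, Finset.mem_insert, Finset.mem_singleton] at hzm
  push Not at hzm
  obtain ⟨hzt, hza, hzx⟩ := hzm
  have hteq : t' = {a, x, z} := by
    have h2 : t' = (t' \ {a, x}) ∪ {a, x} := (Finset.sdiff_union_of_subset ht'.2).symm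
    rw [h2, hz]
    ext u
    simp only [Finset.mem_union, Finset.mem_insert, Finset.mem_singleton]
    tauto
  refine ⟨z, ⟨hax, hza.symm, hzx.symm, hteq ▸ ht'.1⟩, ?_, ?_⟩
  · rintro rfl
    exact htne hteq
  · rintro z' ⟨-, haz', hxz', hz'T⟩
    have h3 : ({a, x} : Finset ℕ) ⊆ {a, x, z'} := by
      intro u hu
      simp only [Finset.mem_insert, Finset.mem_singleton] at hu ⊢
      tauto
    have h4 : z' ∈ ({a, x, z'} : Finset ℕ) := by simp
    rcases huniq _ ⟨hz'T, h3⟩ with h5 | h5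
    · rw [h5] at h4
      simp only [Finset.mem_insert, Finset.mem_singleton] at h4
      rcases h4 with h4 | h4 | h4
      · exact absurd h4.symm haz'
      · exact absurd h4.symm hxz'
      · exact Or.inl h4
    · rw [h5, hteq] at h4
      simp only [Finset.mem_insert, Finset.mem_singleton] at h4
      rcases h4 with h4 | h4 | h4
      · exact absurd h4.symm haz'
      · exact absurd h4.symm hxz'
      · exact Or.inr h4

private theorem third34 {T : Finset (Finset ℕ)} (hT : Closed T) {a x : ℕ} {t : Finset ℕ} (ht : t ∈ T) (ha : a ∈ t)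
    (hx : x ∈ t) (hax : a ≠ x) : ∃ y, PP34 T a x y ∧ t = {a, x, y} := by
  have hsub : ({a, x} : Finset ℕ) ⊆ t := by
    intro u hu
    simp only [Finset.mem_insert, Finset.mem_singleton] at hu
    rcases hu with rfl | rfl
    · exact ha
    · exact hx
  have hcard : (t \ {a, x}).card = 1 := by
    rw [Finset.card_sdiff_of_subset hsub, hT.tri _ ht, Finset.card_pair hax]
  obtain ⟨z, hz⟩ := Finset.card_eq_one.1 hcard
  have hzm : z ∈ t \ {a, x} := by
    rw [hz]
    exact Finset.mem_singleton_self z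
  rw [Finset.mem_sdiff, Finset.mem_insert, Finset.mem_singleton] at hzm
  push Not at hzm
  obtain ⟨hzt, hza, hzx⟩ := hzm
  have hteq : t = {a, x, z} := by
    have h2 : t = (t \ {a, x}) ∪ {a, x} := (Finset.sdiff_union_of_subset hsub).symm
    rw [h2, hz]
    ext u
    simp only [Finset.mem_union, Finset.mem_insert, Finset.mem_singleton]
    tauto
  exact ⟨z, ⟨hax, hza.symm, hzx.symm, hteq ▸ ht⟩, hteq⟩

theorem exists_link {T : Finset (Finset ℕ)} (hT : Closed T) {a b c : ℕ} (hab : a ≠ b)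
    (hac : a ≠ c) (hbc : b ≠ c) (h : {a, b, c} ∈ T)
    (hconn : ∀ A ⊆ T.filter (fun t => a ∈ t), A.Nonempty →
      (∀ s ∈ A, ∀ t ∈ T, a ∈ t → (s ∩ t).card = 2 → t ∈ A) → A = T.filter (fun t => a ∈ t)) :
    ∃ w : ℕ → ℕ, Link T a (deg T a) w ∧ w 0 = b ∧ w 1 = c := by
  classical
  have hoth := fun x y (h : PP34 T a x y) => other34 hT h
  choose! o ho using hoth
  have hoo : ∀ x y, PP34 T a x y → o x (o x y) = y := by
    intro x y h
    obtain ⟨h1, h2, h3⟩ := ho x y h
    obtain ⟨k1, k2, k3⟩ := ho x _ h1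
    rcases h3 _ k1 with h4 | h4
    · exact h4
    · exact absurd h4 k2
  let O := {p : ℕ × ℕ // PP34 T a p.1 p.2}
  have hfin : Finite O := by
    refine Finite.of_injective (β := verts T × verts T)
      (fun p => (⟨p.1.1, mem_verts.2 ⟨_, p.2.2.2.2, by simp⟩⟩, ⟨p.1.2, mem_verts.2 ⟨_, p.2.2.2.2, by simp⟩⟩)) ?_
    intro p q hpq
    have h1 := congrArg (fun z : verts T × verts T => (z.1 : ℕ)) hpq
    have h2 := congrArg (fun z : verts T × verts T => (z.2 : ℕ)) hpq
    exact Subtype.ext (Prod.ext h1 h2)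
  let ρ : Equiv.Perm O :=
    { toFun := fun p => ⟨(p.1.2, o p.1.2 p.1.1), (ho _ _ p.2.symm).1⟩
      invFun := fun p => ⟨(o p.1.1 p.1.2, p.1.1), (ho _ _ p.2).1.symm⟩
      left_inv := fun p => Subtype.ext (Prod.ext (hoo _ _ p.2.symm) rfl)
      right_inv := fun p => Subtype.ext (Prod.ext rfl (hoo _ _ p.2)) }
  let σ : Equiv.Perm O :=
    { toFun := fun p => ⟨(p.1.2, p.1.1), p.2.symm⟩
      invFun := fun p => ⟨(p.1.2, p.1.1), p.2.symm⟩
      left_inv := fun p => rfl
      right_inv := fun p => rfl }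
  have hconj : σ * ρ * σ⁻¹ = ρ⁻¹ := Equiv.ext fun p => rfl
  have hk : ∀ (k : ℤ) (z : O), σ ((ρ ^ k) z) = (ρ ^ (-k)) (σ z) := by
    intro k z
    have h1 : σ * ρ ^ k * σ⁻¹ = ρ ^ (-k) := by
      rw [← conj_zpow, hconj, inv_zpow, zpow_neg]
    have h2 := congrArg (fun f : Equiv.Perm O => f (σ z)) h1
    simpa using h2
  have hs1 : ∀ z : O, σ z ≠ z := by
    intro z h1
    have h2 : z.1.2 = z.1.1 := congrArg (fun p : O => p.1.1) h1
    exact z.2.2.2.1 h2.symm
  have hs2 : ∀ z : O, σ z ≠ ρ z := by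
    intro z h1
    have h2 : z.1.1 = o z.1.2 z.1.1 := congrArg (fun p : O => p.1.2) h1
    exact (ho _ _ z.2.symm).2.1 h2.symm
  have hno : ∀ (z : O) (k : ℤ), σ z ≠ (ρ ^ k) z := by
    intro z k h1
    obtain ⟨m, hm | hm⟩ := Int.even_or_odd' k
    · refine hs1 ((ρ ^ m) z) ?_
      rw [hk, h1, ← Equiv.Perm.mul_apply, ← zpow_add]
      congr 2
      rw [hm]
      ring
    · refine hs2 ((ρ ^ m) z) ?_
      rw [hk, h1, ← Equiv.Perm.mul_apply, ← zpow_add, ← Equiv.Perm.mul_apply, ← zpow_one_add]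
      congr 2
      rw [hm]
      ring
  have hP0 : PP34 T a b c := ⟨hab, hac, hbc, h⟩
  set z0 : O := ⟨(b, c), hP0⟩ with hz0
  set d := Function.minimalPeriod ρ z0 with hd
  have hdpos : 0 < d := by
    apply Function.minimalPeriod_pos_of_mem_periodicPts
    refine Function.mk_mem_periodicPts (orderOf_pos ρ) ?_
    change ρ^[orderOf ρ] z0 = z0
    rw [Equiv.Perm.iterate_eq_pow, pow_orderOf_eq_one]
    rfl
  set w : ℕ → ℕ := fun i => ((ρ ^ i) z0).1.1 with hw
  have hw1 : ∀ i, ((ρ ^ i) z0).1 = (w i, w (i + 1)) := by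
    intro i
    refine Prod.ext rfl ?_
    change _ = ((ρ ^ (i + 1)) z0).1.1
    rw [pow_succ']
    rfl
  have hPw : ∀ i, PP34 T a (w i) (w (i + 1)) := by
    intro i
    have h1 := ((ρ ^ i) z0).2
    rw [hw1 i] at h1
    exact h1
  have hw2 : ∀ i, w (i + 2) = o (w (i + 1)) (w i) := by
    intro i
    have h1 : (ρ ^ (i + 1)) z0 = ρ ((ρ ^ i) z0) := by
      rw [pow_succ']
      rfl
    have h2 := hw1 (i + 1)
    rw [h1] at h2
    have h3 : (ρ ((ρ ^ i) z0)).1.2 = o ((ρ ^ i) z0).1.2 ((ρ ^ i) z0).1.1 := rfl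
    rw [h2, hw1 i] at h3
    exact h3
  have hper0 : ∀ i, (ρ ^ (i + d)) z0 = (ρ ^ i) z0 := by
    intro i
    have h1 := Function.iterate_add_minimalPeriod_eq (f := ρ) (x := z0) (n := i)
    rwa [Equiv.Perm.iterate_eq_pow, Equiv.Perm.iterate_eq_pow] at h1
  have hper : ∀ i, w (i + d) = w i := by
    intro i
    change ((ρ ^ (i + d)) z0).1.1 = _
    rw [hper0]
  have hmod : ∀ i, w (i % d) = w i ∧ w (i % d + 1) = w (i + 1) := by
    intro i
    have h1 := Function.iterate_mod_minimalPeriod_eq (f := ρ) (x := z0) (n := i)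
    rw [Equiv.Perm.iterate_eq_pow, Equiv.Perm.iterate_eq_pow] at h1
    have h2 := congrArg Subtype.val h1
    rw [hw1, hw1] at h2
    exact ⟨(Prod.mk.inj h2).1, (Prod.mk.inj h2).2⟩
  have hinj0 : ∀ i j, i < d → j < d → w i = w j → w (i + 1) = w (j + 1) → i = j := by
    intro i j hi hj h1 h2
    refine Function.iterate_injOn_Iio_minimalPeriod (f := ρ) (x := z0) hi hj ?_
    change ρ^[i] z0 = ρ^[j] z0
    rw [Equiv.Perm.iterate_eq_pow, Equiv.Perm.iterate_eq_pow]
    apply Subtype.ext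
    rw [hw1, hw1, h1, h2]
  have hno2 : ∀ i j : ℕ, w i = w (j + 1) → w (i + 1) = w j → False := by
    intro i j h1 h2
    refine hno ((ρ ^ j) z0) ((i : ℤ) - j) ?_
    have h3 : (ρ ^ ((i : ℤ) - j)) ((ρ ^ j) z0) = (ρ ^ i) z0 := by
      rw [← zpow_natCast ρ j, ← Equiv.Perm.mul_apply, ← zpow_add, sub_add_cancel, zpow_natCast]
    rw [h3]
    apply Subtype.ext
    rw [hw1 i]
    have h4 : (σ ((ρ ^ j) z0)).1 = (((ρ ^ j) z0).1.2, ((ρ ^ j) z0).1.1) := rfl
    rw [h4, hw1 j]
    exact Prod.ext h1.symm h2.symm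
  have hstep : ∀ i y, PP34 T a (w (i + 1)) y → y = w i ∨ y = w (i + 2) := by
    intro i y hy
    rw [hw2 i]
    exact (ho _ _ (hPw i).symm).2.2 y hy
  have hback : ∀ i, ∃ i', w (i' + 1) = w i ∧ w (i' + 2) = w (i + 1) := by
    intro i
    refine ⟨i + (d - 1), ?_, ?_⟩
    · have h1 : i + (d - 1) + 1 = i + d := by omega
      rw [h1, hper]
    · have h1 : i + (d - 1) + 2 = i + 1 + d := by omega
      rw [h1, hper]
  have hstep2 : ∀ i y, PP34 T a (w i) y → y = w (i + 1) ∨ ∃ i', w (i' + 1) = w i ∧ w i' = y := by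
    intro i y hy
    obtain ⟨i', h1, h2⟩ := hback i
    rw [← h1] at hy
    rcases hstep i' y hy with h3 | h3
    · exact Or.inr ⟨i', h1, h3.symm⟩
    · exact Or.inl (h3.trans h2)
  have hinj : ∀ i j, i < d → j < d → w i = w j → i = j := by
    intro i j hi hj h1
    have h2 := hPw j
    rw [← h1] at h2
    rcases hstep2 i _ h2 with h3 | ⟨i', h3, h4⟩
    · exact hinj0 i j hi hj h1 h3.symm
    · exact (hno2 j i' (h1.symm.trans h3.symm) h4.symm).elim
  have htri : ∀ i, ({a, w i, w (i + 1)} : Finset ℕ) ∈ T := fun i => (hPw i).2.2.2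
  -- all triangles
  have hall0 : ∀ t ∈ T, a ∈ t → ∃ i, t = {a, w i, w (i + 1)} := by
    have hA := hconn ((T.filter (fun t => a ∈ t)).filter (fun t => ∃ i, t = {a, w i, w (i + 1)}))
      (Finset.filter_subset _ _) ⟨{a, w 0, w (0 + 1)}, by
        rw [Finset.mem_filter, Finset.mem_filter]
        exact ⟨⟨htri 0, by simp⟩, 0, rfl⟩⟩ ?_
    · intro t ht hat
      have h1 : t ∈ T.filter (fun t => a ∈ t) := Finset.mem_filter.2 ⟨ht, hat⟩
      rw [← hA, Finset.mem_filter] at h1
      exact h1.2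
    · intro s hs t ht hat hst
      rw [Finset.mem_filter, Finset.mem_filter] at hs
      obtain ⟨⟨hsT, has⟩, i, hi⟩ := hs
      have h1 : ∃ x ∈ s ∩ t, x ≠ a := by
        by_contra hcon
        push Not at hcon
        have h2 : s ∩ t ⊆ {a} := fun x hx => Finset.mem_singleton.2 (hcon x hx)
        have h3 := Finset.card_le_card h2
        rw [hst, Finset.card_singleton] at h3
        omega
      obtain ⟨x, hx, hxa⟩ := h1
      rw [Finset.mem_inter] at hx
      obtain ⟨y, hy, hty⟩ := third34 hT ht hat hx.2 hxa.symm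
      rw [Finset.mem_filter, Finset.mem_filter]
      refine ⟨⟨ht, hat⟩, ?_⟩
      have hxs := hx.1
      rw [hi] at hxs
      simp only [Finset.mem_insert, Finset.mem_singleton] at hxs
      rcases hxs with h2 | h2 | h2
      · exact absurd h2 hxa
      · rw [h2] at hy hty
        rcases hstep2 i y hy with h3 | ⟨i', h3, h4⟩
        · exact ⟨i, by rw [hty, h3]⟩
        · exact ⟨i', by rw [hty, ← h3, ← h4, Finset.pair_comm]⟩
      · rw [h2] at hy hty
        rcases hstep i y hy with h3 | h3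
        · exact ⟨i, by rw [hty, h3, Finset.pair_comm]⟩
        · exact ⟨i + 1, by rw [hty, h3]⟩
  have hall : ∀ t ∈ T, a ∈ t → ∃ i, i < d ∧ t = {a, w i, w (i + 1)} := by
    intro t ht hat
    obtain ⟨i, hi⟩ := hall0 t ht hat
    obtain ⟨h1, h2⟩ := hmod i
    exact ⟨i % d, Nat.mod_lt _ hdpos, by rw [h1, h2, hi]⟩
  have hinjT : ∀ i j, i < d → j < d → ({a, w i, w (i + 1)} : Finset ℕ) = {a, w j, w (j + 1)} → i = j := by
    intro i j hi hj h1
    obtain ⟨p1, p2, p3, -⟩ := hPw i
    have m1 : w i ∈ ({a, w j, w (j + 1)} : Finset ℕ) := by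
      rw [← h1]
      simp
    have m2 : w (i + 1) ∈ ({a, w j, w (j + 1)} : Finset ℕ) := by
      rw [← h1]
      simp
    simp only [Finset.mem_insert, Finset.mem_singleton] at m1 m2
    rcases m1 with m1 | m1 | m1
    · exact absurd m1.symm p1
    · exact hinj i j hi hj m1
    · rcases m2 with m2 | m2 | m2
      · exact absurd m2.symm p2
      · exact (hno2 i j m1 m2).elim
      · exact absurd (m1.trans m2.symm) p3
  have hdeg : deg T a = d := by
    have h1 : T.filter (fun t => a ∈ t) = (Finset.range d).image (fun i => ({a, w i, w (i + 1)} : Finset ℕ)) := by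
      ext t
      rw [Finset.mem_filter, Finset.mem_image]
      constructor
      · rintro ⟨h2, h3⟩
        obtain ⟨i, hi, h4⟩ := hall t h2 h3
        exact ⟨i, Finset.mem_range.2 hi, h4.symm⟩
      · rintro ⟨i, -, rfl⟩
        exact ⟨htri i, by simp⟩
    unfold deg
    rw [h1, Finset.card_image_of_injOn, Finset.card_range]
    intro i hi j hj hij
    rw [Finset.mem_coe, Finset.mem_range] at hi hj
    exact hinjT i j hi hj hij
  have hthree : 3 ≤ d := by
    by_contra hlt
    have h1 : d = 1 ∨ d = 2 := by omega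
    rcases h1 with h1 | h1
    · have h2 := hper 0
      rw [h1] at h2
      exact (hPw 0).2.2.1 h2.symm
    · have h2 := hper 0
      rw [h1, hw2 0] at h2
      exact (ho _ _ (hPw 0).symm).2.1 h2
  refine ⟨w, ?_, rfl, ?_⟩
  · rw [hdeg]
    exact ⟨hthree, hper, hinj, htri, hall⟩
  · have h1 := hw1 0
    rw [pow_zero] at h1
    exact (congrArg Prod.snd h1).symm

end Pool.Agent.Helper79.HH
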