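import Pool.Agent.Helper79.HH.Count

/-!
# BLOCK HH-4: the link of a vertex of a sphere is connected

Proof.  Suppose `A` is closed and nonempty but `A ≠ T.filter (fun t => a ∈ t)`.  Choose a new
vertex `b` and replace `a` by `b` in the triangles of `A`:
`T' = (T \ A) ∪ A.image (fun t => insert b (t.erase a))`.  Then `T'` is closed (`Closed T'`):
an edge `{a, x}` of a triangle of `T \ A` (of `A`) is contained in exactly two triangles of `T`,
which are both outside `A` (both in `A`) since `A` is closed; two different triangles which share an
edge still share one.  `T'.card = T.card` and `(verts T').card = (verts T).card + 1` (`a` remains a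
vertex because of a triangle at `a` outside `A`).  This contradicts `euler_le` for `T'` and
`hS.euler : 2 * (verts T).card = T.card + 4`.
-/

namespace Pool.Agent.Helper79.HH

open Finset Pool.Agent.Helper79.HX

private theorem share_h12 {T A : Finset (Finset ℕ)} (hS : IsSphere T) {a : ℕ}
    (hcl : ∀ s ∈ A, ∀ t ∈ T, a ∈ t → (s ∩ t).card = 2 → t ∈ A) (hAT : A ⊆ T)
    {s t e : Finset ℕ} (hs : s ∈ A) (ht : t ∈ T) (hat : a ∈ t) (he : e.card = 2) (hes : e ⊆ s)
    (het : e ⊆ t) : t ∈ A := by
  by_cases hst : s = t
  · exact hst ▸ hs
  · apply hcl s hs t ht hat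
    have h1 : 2 ≤ (s ∩ t).card := he ▸ Finset.card_le_card (Finset.subset_inter hes het)
    have h3 : s.card = 3 := hS.tri s (hAT hs)
    have h3' : t.card = 3 := hS.tri t ht
    have h2 : (s ∩ t).card ≤ 3 := h3 ▸ Finset.card_le_card Finset.inter_subset_left
    by_contra h4
    have h5 : (s ∩ t).card = 3 := by omega
    have h6 : s ∩ t = s := Finset.eq_of_subset_of_card_le Finset.inter_subset_left (by omega)
    have h7 : s ∩ t = t := Finset.eq_of_subset_of_card_le Finset.inter_subset_right (by omega)
    exact hst (h6.symm.trans h7)

theorem link_conn {T : Finset (Finset ℕ)} (hS : IsSphere T) {a : ℕ} :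
    ∀ A ⊆ T.filter (fun t => a ∈ t), A.Nonempty →
      (∀ s ∈ A, ∀ t ∈ T, a ∈ t → (s ∩ t).card = 2 → t ∈ A) → A = T.filter (fun t => a ∈ t) := by
  classical
  intro A hA hne hcl
  by_contra hneq
  have hAT : A ⊆ T := fun t ht => (Finset.mem_filter.1 (hA ht)).1
  have hAa : ∀ t ∈ A, a ∈ t := fun t ht => (Finset.mem_filter.1 (hA ht)).2
  obtain ⟨b, hb⟩ := Infinite.exists_notMem_finset (insert a (verts T))
  have hba : b ≠ a := fun h => hb (by simp [h])
  have hbT : ∀ t ∈ T, b ∉ t := fun t ht h => hb (Finset.mem_insert_of_mem (mem_verts.2 ⟨t, ht, h⟩))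
  -- a triangle at `a` which does not belong to `A`
  obtain ⟨t1, ht1, hat1, ht1A⟩ : ∃ t ∈ T, a ∈ t ∧ t ∉ A := by
    by_contra hno
    push Not at hno
    apply hneq
    refine Finset.Subset.antisymm hA fun t ht => ?_
    obtain ⟨h1, h2⟩ := Finset.mem_filter.1 ht
    exact hno t h1 h2
  set φ : Finset ℕ → Finset ℕ := fun t => if t ∈ A then insert b (t.erase a) else t with hφ
  have memA : ∀ t ∈ A, ∀ x, x ∈ φ t ↔ (x = b ∨ (x ≠ a ∧ x ∈ t)) := by
    intro t ht x
    simp only [hφ, if_pos ht, Finset.mem_insert, Finset.mem_erase]
  have nA : ∀ t, t ∉ A → φ t = t := by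
    intro t ht
    simp only [hφ, if_neg ht]
  have hφinj : Set.InjOn φ (T : Set (Finset ℕ)) := by
    intro s hs t ht hst
    have hs' : s ∈ T := hs
    have ht' : t ∈ T := ht
    by_cases hsA : s ∈ A
    · by_cases htA : t ∈ A
      · ext x
        by_cases hxa : x = a
        · subst hxa
          exact ⟨fun _ => hAa t htA, fun _ => hAa s hsA⟩
        · constructor
          · intro hx
            have h1 : x ∈ φ t := hst ▸ (memA s hsA x).2 (Or.inr ⟨hxa, hx⟩)
            rcases (memA t htA x).1 h1 with h2 | h2
            · exact absurd (h2 ▸ hx) (hbT s hs')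
            · exact h2.2
          · intro hx
            have h1 : x ∈ φ s := hst ▸ (memA t htA x).2 (Or.inr ⟨hxa, hx⟩)
            rcases (memA s hsA x).1 h1 with h2 | h2
            · exact absurd (h2 ▸ hx) (hbT t ht')
            · exact h2.2
      · exfalso
        have h1 : b ∈ φ t := hst ▸ (memA s hsA b).2 (Or.inl rfl)
        rw [nA t htA] at h1
        exact hbT t ht' h1
    · by_cases htA : t ∈ A
      · exfalso
        have h1 : b ∈ φ s := hst ▸ (memA t htA b).2 (Or.inl rfl)
        rw [nA s hsA] at h1
        exact hbT s hs' h1
      · rwa [nA s hsA, nA t htA] at hst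
  have hT' : Closed (T.image φ) := by
    refine ⟨hS.nonempty.image φ, ?_, ?_, ?_⟩
    · intro t' ht'
      obtain ⟨t, ht, rfl⟩ := Finset.mem_image.1 ht'
      by_cases htA : t ∈ A
      · have h1 : φ t = insert b (t.erase a) := by simp only [hφ, if_pos htA]
        rw [h1, Finset.card_insert_of_notMem (fun h => hbT t ht (Finset.mem_of_mem_erase h)),
          Finset.card_erase_of_mem (hAa t htA), hS.tri t ht]
      · rw [nA t htA]
        exact hS.tri t ht
    · intro t' ht' e het he
      obtain ⟨t, ht, rfl⟩ := Finset.mem_image.1 ht'
      -- it suffices to find the edge of `T`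
      have key : ∀ e0 : Finset ℕ, e0.card = 2 → e0 ⊆ t → (∀ s ∈ T, e ⊆ φ s ↔ e0 ⊆ s) →
          (((T.image φ).filter (fun s => e ⊆ s)).card = 2) := by
        intro e0 he0 h0t hiff
        have h1 : (T.image φ).filter (fun s => e ⊆ s) = (T.filter (fun s => e0 ⊆ s)).image φ := by
          ext u
          simp only [Finset.mem_filter, Finset.mem_image]
          constructor
          · rintro ⟨⟨s, hs, rfl⟩, hes⟩
            exact ⟨s, ⟨hs, (hiff s hs).1 hes⟩, rfl⟩
          · rintro ⟨s, ⟨hs, hes⟩, rfl⟩
            exact ⟨⟨s, hs, rfl⟩, (hiff s hs).2 hes⟩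
        rw [h1, Finset.card_image_of_injOn]
        · exact hS.edge t ht e0 h0t he0
        · intro s hs u hu hsu
          exact hφinj (Finset.mem_filter.1 hs).1 (Finset.mem_filter.1 hu).1 hsu
      by_cases hbe : b ∈ e
      · -- the triangle belongs to `A`
        have htA : t ∈ A := by
          by_contra htA
          rw [nA t htA] at het
          exact hbT t ht (het hbe)
        have hae : a ∉ e := by
          intro hae
          rcases (memA t htA a).1 (het hae) with h | h
          · exact hba h.symm
          · exact h.1 rfl
        have he0 : (insert a (e.erase b)).card = 2 := by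
          rw [Finset.card_insert_of_notMem (fun h => hae (Finset.mem_of_mem_erase h)),
            Finset.card_erase_of_mem hbe, he]
        have h0t : insert a (e.erase b) ⊆ t := by
          intro x hx
          rcases Finset.mem_insert.1 hx with rfl | hx
          · exact hAa t htA
          · obtain ⟨h1, h2⟩ := Finset.mem_erase.1 hx
            rcases (memA t htA x).1 (het h2) with h | h
            · exact absurd h h1
            · exact h.2
        refine key _ he0 h0t fun s hs => ⟨fun hes => ?_, fun hes => ?_⟩
        · have hsA : s ∈ A := by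
            by_contra hsA
            rw [nA s hsA] at hes
            exact hbT s hs (hes hbe)
          intro x hx
          rcases Finset.mem_insert.1 hx with rfl | hx
          · exact hAa s hsA
          · obtain ⟨h1, h2⟩ := Finset.mem_erase.1 hx
            rcases (memA s hsA x).1 (hes h2) with h | h
            · exact absurd h h1
            · exact h.2
        · have has : a ∈ s := hes (Finset.mem_insert_self _ _)
          have hsA : s ∈ A := share_h12 hS hcl hAT htA hs has he0 h0t hes
          intro x hx
          rw [memA s hsA]
          by_cases hxb : x = b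
          · exact Or.inl hxb
          · refine Or.inr ⟨fun h => hae (h ▸ hx), hes ?_⟩
            exact Finset.mem_insert_of_mem (Finset.mem_erase.2 ⟨hxb, hx⟩)
      · by_cases hae : a ∈ e
        · -- the triangle does not belong to `A`
          have htA : t ∉ A := by
            intro htA
            rcases (memA t htA a).1 (het hae) with h | h
            · exact hba h.symm
            · exact h.1 rfl
          rw [nA t htA] at het
          refine key e he het fun s hs => ?_
          by_cases hsA : s ∈ A
          · constructor
            · intro hes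
              exfalso
              rcases (memA s hsA a).1 (hes hae) with h | h
              · exact hba h.symm
              · exact h.1 rfl
            · intro hes
              exact absurd (share_h12 hS hcl hAT hsA ht (het hae) he hes het) htA
          · rw [nA s hsA]
        · have h1 : ∀ s, e ⊆ φ s ↔ e ⊆ s := by
            intro s
            by_cases hsA : s ∈ A
            · constructor
              · intro hes x hx
                rcases (memA s hsA x).1 (hes hx) with h | h
                · exact absurd (h ▸ hx) hbe
                · exact h.2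
              · intro hes x hx
                rw [memA s hsA]
                exact Or.inr ⟨fun h => hae (h ▸ hx), hes hx⟩
            · rw [nA s hsA]
          exact key e he ((h1 t).1 het) fun s _ => h1 s
    · intro B hB hBne hBcl
      have hshare : ∀ s ∈ T, ∀ t ∈ T, (s ∩ t).card = 2 → (φ s ∩ φ t).card = 2 := by
        intro s hs t ht hst
        by_cases hsA : s ∈ A
        · by_cases htA : t ∈ A
          · have h1 : φ s ∩ φ t = insert b ((s ∩ t).erase a) := by
              ext x
              rw [Finset.mem_inter, memA s hsA, memA t htA, Finset.mem_insert, Finset.mem_erase,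
                Finset.mem_inter]
              tauto
            rw [h1, Finset.card_insert_of_notMem
              (fun h => hbT s hs (Finset.mem_inter.1 (Finset.mem_of_mem_erase h)).1),
              Finset.card_erase_of_mem (Finset.mem_inter.2 ⟨hAa s hsA, hAa t htA⟩), hst]
          · have hat : a ∉ t := fun hat => htA (hcl s hsA t ht hat hst)
            have h1 : φ s ∩ φ t = s ∩ t := by
              ext x
              rw [nA t htA, Finset.mem_inter, memA s hsA, Finset.mem_inter]
              constructor
              · rintro ⟨h | h, h2⟩
                · exact absurd (h ▸ h2) (hbT t ht)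
                · exact ⟨h.2, h2⟩
              · rintro ⟨h, h2⟩
                exact ⟨Or.inr ⟨fun h3 => hat (h3 ▸ h2), h⟩, h2⟩
            rw [h1, hst]
        · by_cases htA : t ∈ A
          · have has : a ∉ s := fun has => hsA (hcl t htA s hs has (by rwa [Finset.inter_comm]))
            have h1 : φ s ∩ φ t = s ∩ t := by
              ext x
              rw [nA s hsA, Finset.mem_inter, memA t htA, Finset.mem_inter]
              constructor
              · rintro ⟨h2, h | h⟩
                · exact absurd (h ▸ h2) (hbT s hs)
                · exact ⟨h2, h.2⟩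
              · rintro ⟨h2, h⟩
                exact ⟨h2, Or.inr ⟨fun h3 => has (h3 ▸ h2), h⟩⟩
            rw [h1, hst]
          · rw [nA s hsA, nA t htA, hst]
      have hB0 : T.filter (fun t => φ t ∈ B) = T := by
        apply hS.conn _ (Finset.filter_subset _ _)
        · obtain ⟨u, hu⟩ := hBne
          obtain ⟨t, ht, rfl⟩ := Finset.mem_image.1 (hB hu)
          exact ⟨t, Finset.mem_filter.2 ⟨ht, hu⟩⟩
        · intro s hs t ht hst
          obtain ⟨hs1, hs2⟩ := Finset.mem_filter.1 hs
          exact Finset.mem_filter.2 ⟨ht, hBcl _ hs2 _ (Finset.mem_image_of_mem φ ht)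
            (hshare s hs1 t ht hst)⟩
      refine Finset.Subset.antisymm hB fun u hu => ?_
      obtain ⟨t, ht, rfl⟩ := Finset.mem_image.1 hu
      rw [← hB0] at ht
      exact (Finset.mem_filter.1 ht).2
  have hE := euler_le hT'
  have hc1 : (T.image φ).card ≤ T.card := Finset.card_image_le
  have hbv : b ∉ verts T := fun h => hb (Finset.mem_insert_of_mem h)
  have hc2 : insert b (verts T) ⊆ verts (T.image φ) := by
    intro x hx
    rw [mem_verts]
    rcases Finset.mem_insert.1 hx with rfl | hx
    · obtain ⟨s, hs⟩ := hne
      exact ⟨φ s, Finset.mem_image_of_mem φ (hAT hs), (memA s hs x).2 (Or.inl rfl)⟩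
    · by_cases hxa : x = a
      · subst hxa
        refine ⟨φ t1, Finset.mem_image_of_mem φ ht1, ?_⟩
        rw [nA t1 ht1A]
        exact hat1
      · obtain ⟨t, ht, hxt⟩ := mem_verts.1 hx
        refine ⟨φ t, Finset.mem_image_of_mem φ ht, ?_⟩
        by_cases htA : t ∈ A
        · exact (memA t htA x).2 (Or.inr ⟨hxa, hxt⟩)
        · rw [nA t htA]
          exact hxt
  have hc3 := Finset.card_le_card hc2
  rw [Finset.card_insert_of_notMem hbv] at hc3
  have hc4 := hS.euler
  omega

end Pool.Agent.Helper79.HH
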