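import Pool.Agent.Helper79.HH.Defs

/-!
# BLOCK HH-8: a vertex of large degree gives a strip

Proof.  Let `K = deg T D` and `w` the link of `D`.  For `i` let `y i` be the third vertex of the
other triangle on the edge `{w i, w (i+1)}` (so `{w i, w (i+1), y i} ∈ T`, `y i ≠ D`).
Let `X` be the set of the vertices `u ≠ D` with `deg T u ≠ 5` and call `i ∈ [0, K)` bad if `w i ∈ X`
or `y i ∈ X`.  Each `x ∈ X` is `w i` for at most one `i` and `y i` for at most `deg T x` values of
`i` (different `i` give different triangles `{x, w i, w (i+1)}`), so there are at most `s` bad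
numbers.  Among the `s + 1` blocks `[j R, (j+1) R)`, `j ≤ s`, `R = M + 3`, which are contained in
`[0, K)`, there is one without bad numbers, say `[i0, i0 + R)`.

For `i, i+1` in the block, `w i` has degree five; its link (a cycle of length five, `hlink`) is
`D, w (i+1), y i, y (i-1), w (i-1)`.  (So `{w i, y i, y (i-1)} ∈ T`.)  The link of `y i` contains
the triangles `{y i, w i, w (i+1)}`, `{y i, w i, y (i-1)}`, `{y i, w (i+1), y (i+1)}`, so it is
`w i, w (i+1), y (i+1), z i, y (i-1)` for some `z i` (`i0 < i`, `i + 1` in the block).  The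
edge `{y i, y (i+1)}` is in exactly two triangles, one with `w (i+1)`, the other with `z i`, and also
with `z (i+1)`; so `z i = z` does not depend on `i`.  The `y i` are different: if `y i = y j` then
`{w i, w (i+1)} = {w j, w (j+1)}` (the two elements of the link which are not `z` and not next to
`z`), so `i = j`.  Hence the triangles `{z, y i, y (i+1)}` are different and
`deg T z ≥ R - 2 > M`, so `z = D` by `hM`.  Now take any `i` such that `i - 1`, `i`, `i + 1`, `i + 2`
are in the block (not the first or last two) and `v = w i`, `v1 = w (i+1)`, `v2 = w (i-1)`,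
`y = y i`, `y1 = y (i+1)`, `y2 = y (i-1)`.

(The exact choice of the indices at the ends of the block needs a little care; the hypothesis on `K`
leaves room: blocks of length `M + 6` are available.)
-/

namespace Pool.Agent.Helper79.HH

open Finset Pool.Agent.Helper79.HX

section StripEx

variable {T : Finset (Finset ℕ)}

private theorem sx_ne (hT : Closed T) {a b c : ℕ} (h : ({a, b, c} : Finset ℕ) ∈ T) :
    a ≠ b ∧ a ≠ c ∧ b ≠ c := by
  have h3 := hT.tri _ h
  refine ⟨?_, ?_, ?_⟩
  · rintro rfl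
    have : ({a, a, c} : Finset ℕ) = {a, c} := by simp
    rw [this] at h3
    have := Finset.card_le_two (a := a) (b := c)
    omega
  · rintro rfl
    have : ({a, b, a} : Finset ℕ) = {a, b} := by
      ext x; simp only [Finset.mem_insert, Finset.mem_singleton]; tauto
    rw [this] at h3
    have := Finset.card_le_two (a := a) (b := b)
    omega
  · rintro rfl
    have : ({a, b, b} : Finset ℕ) = {a, b} := by simp
    rw [this] at h3
    have := Finset.card_le_two (a := a) (b := b)
    omega

private theorem sx_p213 {a b c : ℕ} (h : ({a, b, c} : Finset ℕ) ∈ T) : ({b, a, c} : Finset ℕ) ∈ T := by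
  rwa [Finset.insert_comm]

private theorem sx_p132 {a b c : ℕ} (h : ({a, b, c} : Finset ℕ) ∈ T) : ({a, c, b} : Finset ℕ) ∈ T := by
  rwa [Finset.pair_comm c b]

private theorem sx_p231 {a b c : ℕ} (h : ({a, b, c} : Finset ℕ) ∈ T) : ({b, c, a} : Finset ℕ) ∈ T :=
  sx_p132 (sx_p213 h)

private theorem sx_p312 {a b c : ℕ} (h : ({a, b, c} : Finset ℕ) ∈ T) : ({c, a, b} : Finset ℕ) ∈ T :=
  sx_p213 (sx_p132 h)

private theorem sx_p321 {a b c : ℕ} (h : ({a, b, c} : Finset ℕ) ∈ T) : ({c, b, a} : Finset ℕ) ∈ T :=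
  sx_p132 (sx_p312 h)

private theorem sx_third_inj {x y p q : ℕ} (hpx : x ≠ p) (hpy : y ≠ p)
    (h : ({x, y, p} : Finset ℕ) = {x, y, q}) : p = q := by
  have h1 : p ∈ ({x, y, q} : Finset ℕ) := by rw [← h]; simp
  simp only [Finset.mem_insert, Finset.mem_singleton] at h1
  rcases h1 with h1 | h1 | h1
  · exact absurd h1.symm hpx
  · exact absurd h1.symm hpy
  · exact h1

private theorem sx_exists (hT : Closed T) {x y p : ℕ} (h : ({x, y, p} : Finset ℕ) ∈ T) :
    ∃ q, q ≠ p ∧ ({x, y, q} : Finset ℕ) ∈ T := by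
  obtain ⟨hxy, hxp, hyp⟩ := sx_ne hT h
  have he := hT.edge _ h {x, y} (by
    intro z hz; simp only [Finset.mem_insert, Finset.mem_singleton] at hz ⊢; tauto)
    (Finset.card_pair hxy)
  obtain ⟨s, hs, hne⟩ := Finset.exists_mem_ne (by omega) ({x, y, p} : Finset ℕ) (s :=
    T.filter (fun s => ({x, y} : Finset ℕ) ⊆ s))
  rw [Finset.mem_filter] at hs
  have hx : x ∈ s := hs.2 (by simp)
  have hy : y ∈ s := hs.2 (by simp)
  have h3 := hT.tri _ hs.1
  have h1 : ((s.erase x).erase y).card = 1 := by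
    rw [Finset.card_erase_of_mem (by simp [hy, hxy.symm]), Finset.card_erase_of_mem hx, h3]
  obtain ⟨q, hq⟩ := Finset.card_eq_one.1 h1
  have hsq : s = {x, y, q} := by
    have hqs : (q ∈ (s.erase x).erase y) := by rw [hq]; simp
    ext z
    simp only [Finset.mem_insert, Finset.mem_singleton]
    constructor
    · intro hz
      by_cases h1 : z = x
      · exact Or.inl h1
      by_cases h2 : z = y
      · exact Or.inr (Or.inl h2)
      have : z ∈ (s.erase x).erase y := by simp [h1, h2, hz]
      rw [hq, Finset.mem_singleton] at this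
      exact Or.inr (Or.inr this)
    · rintro (rfl | rfl | rfl)
      · exact hx
      · exact hy
      · exact Finset.mem_of_mem_erase (Finset.mem_of_mem_erase hqs)
  refine ⟨q, ?_, hsq ▸ hs.1⟩
  rintro rfl
  exact hne hsq

private theorem sx_two (hT : Closed T) {x y p q r : ℕ} (hp : ({x, y, p} : Finset ℕ) ∈ T)
    (hq : ({x, y, q} : Finset ℕ) ∈ T) (hr : ({x, y, r} : Finset ℕ) ∈ T) (hpq : p ≠ q)
    (hrp : r ≠ p) : r = q := by
  obtain ⟨hxy, hxp, hyp⟩ := sx_ne hT hp
  obtain ⟨_, hxq, hyq⟩ := sx_ne hT hq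
  obtain ⟨_, hxr, hyr⟩ := sx_ne hT hr
  by_contra hrq
  have he := hT.edge _ hp {x, y} (by
    intro z hz; simp only [Finset.mem_insert, Finset.mem_singleton] at hz ⊢; tauto)
    (Finset.card_pair hxy)
  have hsub : ({{x, y, p}, {x, y, q}, {x, y, r}} : Finset (Finset ℕ)) ⊆
      T.filter (fun s => ({x, y} : Finset ℕ) ⊆ s) := by
    intro t ht
    simp only [Finset.mem_insert, Finset.mem_singleton] at ht
    rw [Finset.mem_filter]
    rcases ht with rfl | rfl | rfl
    · exact ⟨hp, by intro z hz; simp only [Finset.mem_insert, Finset.mem_singleton] at hz ⊢; tauto⟩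
    · exact ⟨hq, by intro z hz; simp only [Finset.mem_insert, Finset.mem_singleton] at hz ⊢; tauto⟩
    · exact ⟨hr, by intro z hz; simp only [Finset.mem_insert, Finset.mem_singleton] at hz ⊢; tauto⟩
  have hc := Finset.card_le_card hsub
  have h3 : ({{x, y, p}, {x, y, q}, {x, y, r}} : Finset (Finset ℕ)).card = 3 := by
    rw [Finset.card_eq_three]
    exact ⟨_, _, _, fun h => hpq (sx_third_inj hxp hyp h), fun h => hrp (sx_third_inj hxp hyp h).symm,
      fun h => hrq (sx_third_inj hxq hyq h).symm, rfl⟩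
  omega

private theorem sx_mod {a d : ℕ} {w : ℕ → ℕ} (hw : Link T a d w) (i : ℕ) : w i = w (i % d) := by
  have h : ∀ k j, w (j + d * k) = w j := by
    intro k
    induction k with
    | zero => intro j; simp
    | succ k ih => intro j; rw [Nat.mul_succ, ← Nat.add_assoc, hw.per, ih]
  conv_lhs => rw [← Nat.mod_add_div i d]
  exact h _ _

private theorem sx_inj {a d : ℕ} {w : ℕ → ℕ} (hw : Link T a d w) {i j : ℕ} (h : w i = w j) :
    i % d = j % d := by
  have h3 := hw.three
  rw [sx_mod hw i, sx_mod hw j] at h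
  exact hw.inj _ _ (Nat.mod_lt _ (by omega)) (Nat.mod_lt _ (by omega)) h

private theorem sx_add {a d : ℕ} {w : ℕ → ℕ} (hw : Link T a d w) {i k : ℕ} (hk0 : 0 < k) (hk : k < d) :
    w (i + k) ≠ w i := by
  intro h
  have h1 := sx_inj hw h
  have h2 : (i + k) ≡ i + 0 [MOD d] := h1
  have h3 := Nat.ModEq.add_left_cancel' i h2
  have h4 : k % d = 0 % d := h3
  rw [Nat.mod_eq_of_lt hk, Nat.zero_mod] at h4
  omega

/-- The link of a vertex of degree five. -/
private theorem sx_five (hT : Closed T)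
    (hlink : ∀ a b c, a ≠ b → a ≠ c → b ≠ c → {a, b, c} ∈ T →
      ∃ w : ℕ → ℕ, Link T a (deg T a) w ∧ w 0 = b ∧ w 1 = c)
    {a b c p q : ℕ} (h5 : deg T a = 5) (habc : ({a, b, c} : Finset ℕ) ∈ T)
    (hp : ({a, b, p} : Finset ℕ) ∈ T) (hq : ({a, c, q} : Finset ℕ) ∈ T) (hpc : p ≠ c) (hqb : q ≠ b) :
    ∃ r, ({a, q, r} : Finset ℕ) ∈ T ∧ ({a, r, p} : Finset ℕ) ∈ T ∧ [a, b, c, q, r, p].Nodup := by
  obtain ⟨hab, hac, hbc⟩ := sx_ne hT habc
  obtain ⟨u, hu, hu0, hu1⟩ := hlink a b c hab hac hbc habc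
  rw [h5] at hu
  have t1 := hu.tri 1
  have t2 := hu.tri 2
  have t3 := hu.tri 3
  have t4 := hu.tri 4
  have hu5 : u 5 = b := by rw [← hu0]; exact hu.per 0
  norm_num at t1 t2 t3 t4
  rw [hu5] at t4
  rw [hu1] at t1
  have d20 : u 2 ≠ b := by rw [← hu0]; exact sx_add hu (i := 0) (k := 2) (by norm_num) (by norm_num)
  have d30 : u 3 ≠ b := by rw [← hu0]; exact sx_add hu (i := 0) (k := 3) (by norm_num) (by norm_num)
  have d40 : u 4 ≠ b := by rw [← hu0]; exact sx_add hu (i := 0) (k := 4) (by norm_num) (by norm_num)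
  have d21 : u 2 ≠ c := by rw [← hu1]; exact sx_add hu (i := 1) (k := 1) (by norm_num) (by norm_num)
  have d31 : u 3 ≠ c := by rw [← hu1]; exact sx_add hu (i := 1) (k := 2) (by norm_num) (by norm_num)
  have d41 : u 4 ≠ c := by rw [← hu1]; exact sx_add hu (i := 1) (k := 3) (by norm_num) (by norm_num)
  have d32 : u 3 ≠ u 2 := sx_add hu (i := 2) (k := 1) (by norm_num) (by norm_num)
  have d42 : u 4 ≠ u 2 := sx_add hu (i := 2) (k := 2) (by norm_num) (by norm_num)
  have d43 : u 4 ≠ u 3 := sx_add hu (i := 3) (k := 1) (by norm_num) (by norm_num)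
  have e2 : q = u 2 := sx_two hT (sx_p132 habc) t1 hq d20.symm hqb
  have e4 : p = u 4 := sx_two hT habc (sx_p132 t4) hp d41.symm hpc
  subst e2 e4
  have n2 := sx_ne hT t2
  have n3 := sx_ne hT t3
  refine ⟨u 3, t2, t3, ?_⟩
  simp only [List.nodup_cons, List.mem_cons, List.not_mem_nil, or_false, not_or, List.nodup_nil,
    not_false_eq_true, and_true]
  exact ⟨⟨hab, hac, n2.1, n2.2.1, n3.2.1⟩, ⟨hbc, d20.symm, d30.symm, d40.symm⟩,
    ⟨d21.symm, d31.symm, d41.symm⟩, ⟨d32.symm, d42.symm⟩, d43.symm⟩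

private theorem sx_A (hT : Closed T)
    (hlink : ∀ a b c, a ≠ b → a ≠ c → b ≠ c → {a, b, c} ∈ T →
      ∃ w : ℕ → ℕ, Link T a (deg T a) w ∧ w 0 = b ∧ w 1 = c)
    {D K : ℕ} {w y : ℕ → ℕ} (hw : Link T D K w)
    (hy : ∀ i, y i ≠ D ∧ ({w i, w (i + 1), y i} : Finset ℕ) ∈ T) {i : ℕ}
    (h5 : deg T (w (i + 1)) = 5) :
    ({w (i + 1), y (i + 1), y i} : Finset ℕ) ∈ T ∧
      [w (i + 1), D, w (i + 2), y (i + 1), y i, w i].Nodup := by
  have h3 := hw.three
  have habc : ({w (i + 1), D, w (i + 2)} : Finset ℕ) ∈ T := sx_p213 (hw.tri (i + 1))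
  have hp : ({w (i + 1), D, w i} : Finset ℕ) ∈ T := sx_p312 (hw.tri i)
  have hq : ({w (i + 1), w (i + 2), y (i + 1)} : Finset ℕ) ∈ T := (hy (i + 1)).2
  obtain ⟨r, hr1, hr2, hr3⟩ := sx_five hT hlink h5 habc hp hq
    (fun h => sx_add hw (i := i) (k := 2) (by norm_num) (by omega) h.symm) (hy (i + 1)).1
  have hrD : r ≠ D := by
    intro h
    subst h
    simp at hr3
  have e : r = y i := sx_two hT (p := D) (sx_p132 hp) (sx_p213 (hy i).2) (sx_p132 hr2)
    (hy i).1.symm hrD
  subst e
  exact ⟨hr1, hr3⟩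

private theorem sx_block (hT : Closed T)
    (hlink : ∀ a b c, a ≠ b → a ≠ c → b ≠ c → {a, b, c} ∈ T →
      ∃ w : ℕ → ℕ, Link T a (deg T a) w ∧ w 0 = b ∧ w 1 = c)
    {D K M : ℕ} {w y : ℕ → ℕ} (hw : Link T D K w)
    (hy : ∀ i, y i ≠ D ∧ ({w i, w (i + 1), y i} : Finset ℕ) ∈ T)
    (hM : ∀ v ∈ verts T, v ≠ D → deg T v ≤ M) (hMK : M < K) {i0 : ℕ}
    (h5w : ∀ k, k < M + 6 → deg T (w (i0 + k)) = 5)
    (h5y : ∀ k, k < M + 6 → deg T (y (i0 + k)) = 5) :
    ∃ v v1 v2 y y1 y2, Strip T D v v1 v2 y y1 y2 := by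
  have hA : ∀ k, k + 1 < M + 6 → ({w (i0 + k + 1), y (i0 + k + 1), y (i0 + k)} : Finset ℕ) ∈ T ∧
      [w (i0 + k + 1), D, w (i0 + k + 2), y (i0 + k + 1), y (i0 + k), w (i0 + k)].Nodup :=
    fun k hk => sx_A hT hlink hw hy (i := i0 + k) (h5w (k + 1) hk)
  have hB : ∀ k, k + 2 < M + 6 → ∃ z, ({y (i0 + k + 1), y (i0 + k + 2), z} : Finset ℕ) ∈ T ∧
      ({y (i0 + k + 1), z, y (i0 + k)} : Finset ℕ) ∈ T ∧
      [y (i0 + k + 1), w (i0 + k + 1), w (i0 + k + 2), y (i0 + k + 2), z, y (i0 + k)].Nodup := by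
    intro k hk
    have a0 := hA k (by omega)
    have a1 := hA (k + 1) (by omega)
    have e1 : i0 + (k + 1) + 1 = i0 + k + 2 := by ring
    have e2 : i0 + (k + 1) = i0 + k + 1 := by ring
    have e3 : i0 + (k + 1) + 2 = i0 + k + 3 := by ring
    rw [e1, e3, e2] at a1
    refine sx_five hT hlink (h5y (k + 1) (by omega)) (sx_p312 (hy (i0 + k + 1)).2)
      (sx_p213 a0.1) (sx_p312 a1.1) ?_ ?_
    · intro h
      have := a0.2
      rw [h] at this
      simp at this
    · intro h
      have := a1.2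
      rw [h] at this
      simp at this
  choose! z hz using hB
  have hC : ∀ k, k + 2 < M + 6 → z k = z 0 := by
    intro k
    induction k with
    | zero => intro _; rfl
    | succ k ih =>
      intro hk
      rw [← ih (by omega)]
      have b0 := hz k (by omega)
      have b1 := hz (k + 1) (by omega)
      have a1 := hA (k + 1) (by omega)
      have e1 : i0 + (k + 1) + 1 = i0 + k + 2 := by ring
      have e2 : i0 + (k + 1) = i0 + k + 1 := by ring
      have e3 : i0 + (k + 1) + 2 = i0 + k + 3 := by ring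
      rw [e1, e3, e2] at a1 b1
      refine sx_two hT (x := y (i0 + k + 1)) (y := y (i0 + k + 2)) (p := w (i0 + k + 2))
        (sx_p321 a1.1) b0.1 (sx_p312 b1.2.1) ?_ ?_
      · intro h
        have := b0.2.2
        rw [h] at this
        simp at this
      · intro h
        have := b1.2.2
        rw [h] at this
        simp at this
  have h3K := hw.three
  have b0 := hz 0 (by omega)
  have a0 := hA 0 (by omega)
  have a1 := hA 1 (by omega)
  by_cases hZ : z 0 = D
  · rw [hZ] at b0
    refine ⟨w (i0 + 0 + 1), w (i0 + 0 + 2), w (i0 + 0), y (i0 + 0 + 1), y (i0 + 0 + 2), y (i0 + 0),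
      ?_⟩
    have c1 := hw.tri (i0 + 0)
    have c2 := hw.tri (i0 + 0 + 1)
    have c3 := (hy (i0 + 0)).2
    have c4 := (hy (i0 + 0 + 1)).2
    exact ⟨h5w 1 (by omega), h5y 1 (by omega), sx_p213 c2, c4, a0.1, sx_p231 c3, sx_p321 c1,
      sx_p312 a1.1, b0.1, b0.2.1, a0.2, b0.2.2⟩
  · exfalso
    obtain ⟨n1, n2, n3⟩ := sx_ne hT b0.1
    have hZv : z 0 ∈ verts T := mem_verts.2 ⟨_, b0.1, by simp⟩
    obtain ⟨W, hW, hW0, hW1⟩ := hlink (z 0) (y (i0 + 0 + 1)) (y (i0 + 0 + 2)) n2.symm n3.symm n1
      (sx_p312 b0.1)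
    have hd3 := hW.three
    have hdM := hM _ hZv hZ
    generalize hd : deg T (z 0) = d at *
    have hP : ∀ k, k < M + 4 → W k = y (i0 + k + 1) ∧ W (k + 1) = y (i0 + k + 2) := by
      intro k
      induction k with
      | zero => intro _; exact ⟨hW0, hW1⟩
      | succ k ih =>
        intro hk
        obtain ⟨i1, i2⟩ := ih (by omega)
        have b1 := hz (k + 1) (by omega)
        rw [hC (k + 1) (by omega)] at b1
        have e1 : i0 + (k + 1) + 1 = i0 + k + 2 := by ring
        have e2 : i0 + (k + 1) = i0 + k + 1 := by ring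
        have e3 : i0 + (k + 1) + 2 = i0 + k + 3 := by ring
        rw [e1, e3, e2] at b1
        rw [e1, e3]
        refine ⟨i2, ?_⟩
        have t0 := hW.tri k
        have t1 := hW.tri (k + 1)
        rw [i2] at t0 t1
        have hne : W (k + 1 + 1) ≠ W k := sx_add hW (i := k) (k := 2) (by norm_num) (by omega)
        have := sx_two hT (x := z 0) (y := y (i0 + k + 2)) (p := W k) (q := y (i0 + k + 3))
          (r := W (k + 1 + 1)) (sx_p132 t0) (sx_p312 b1.1) t1 (by
            rw [i1]
            intro h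
            have := b1.2.2
            rw [h] at this
            simp at this) hne
        exact this
    obtain ⟨q1, q2⟩ := hP d (by omega)
    have r1 : W d = W 0 := by have := hW.per 0; rwa [Nat.zero_add] at this
    have r2 : W (d + 1) = W 1 := by have := hW.per 1; rwa [Nat.add_comm] at this
    rw [r1, hW0] at q1
    rw [r2, hW1] at q2
    have ad := hA (d + 1) (by omega)
    have bd := hz d (by omega)
    rw [hC d (by omega)] at bd
    have e1 : i0 + (d + 1) + 1 = i0 + d + 2 := by ring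
    have e2 : i0 + (d + 1) = i0 + d + 1 := by ring
    rw [e1, e2, ← q1, ← q2] at ad
    have hfin : w (i0 + d + 2) = w (i0 + 1 + 1) := by
      refine sx_two hT (x := y (i0 + 0 + 1)) (y := y (i0 + 0 + 2)) (p := z 0) b0.1
        (sx_p321 a1.1) (sx_p321 ad.1) ?_ ?_
      · intro h
        have := b0.2.2
        rw [h] at this
        simp at this
      · intro h
        have := bd.2.2
        rw [h] at this
        simp at this
    have e3 : i0 + d + 2 = i0 + 1 + 1 + d := by ring
    rw [e3] at hfin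
    exact sx_add hw (i := i0 + 1 + 1) (k := d) (by omega) (by omega) hfin

end StripEx

theorem strip_exists {T : Finset (Finset ℕ)} (hT : Closed T)
    (hlink : ∀ a b c, a ≠ b → a ≠ c → b ≠ c → {a, b, c} ∈ T →
      ∃ w : ℕ → ℕ, Link T a (deg T a) w ∧ w 0 = b ∧ w 1 = c)
    {D M s : ℕ} (hD : D ∈ verts T) (hM5 : 5 ≤ M) (hM : ∀ v ∈ verts T, v ≠ D → deg T v ≤ M)
    (hs : ∑ v ∈ (verts T).filter (fun v => v ≠ D ∧ deg T v ≠ 5), (deg T v + 1) ≤ s)
    (hK : (s + 1) * (M + 6) ≤ deg T D) :
    ∃ v v1 v2 y y1 y2, Strip T D v v1 v2 y y1 y2 := by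
  classical
  obtain ⟨t, ht, hDt⟩ := mem_verts.1 hD
  have h3 := hT.tri _ ht
  have h2 : (t.erase D).card = 2 := by rw [Finset.card_erase_of_mem hDt, h3]
  obtain ⟨b, c, hbc, hbct⟩ := Finset.card_eq_two.1 h2
  have htD : t = {D, b, c} := by rw [← hbct, Finset.insert_erase hDt]
  subst htD
  obtain ⟨hDb, hDc, _⟩ := sx_ne hT ht
  obtain ⟨w, hw, -, -⟩ := hlink D b c hDb hDc hbc ht
  generalize hKd : deg T D = K at *
  have hy : ∀ i, ∃ y, y ≠ D ∧ ({w i, w (i + 1), y} : Finset ℕ) ∈ T := fun i =>
    sx_exists hT (sx_p231 (hw.tri i))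
  choose y hy using hy
  set X := (verts T).filter (fun v => v ≠ D ∧ deg T v ≠ 5) with hX
  have hwv : ∀ i, w i ∈ verts T := fun i => mem_verts.2 ⟨_, (hy i).2, by simp⟩
  have hyv : ∀ i, y i ∈ verts T := fun i => mem_verts.2 ⟨_, (hy i).2, by simp⟩
  have hwD : ∀ i, w i ≠ D := fun i => (sx_ne hT (hw.tri i)).1.symm
  have h3K := hw.three
  -- the number of bad indices
  have hbad : ((range K).filter (fun i => w i ∈ X ∨ y i ∈ X)).card ≤ s := by
    refine le_trans ?_ hs
    have hsub : (range K).filter (fun i => w i ∈ X ∨ y i ∈ X) ⊆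
        X.biUnion (fun x => (range K).filter (fun i => y i = x) ∪ (range K).filter (fun i => w i = x)) := by
      intro i hi
      rw [Finset.mem_filter] at hi
      rw [Finset.mem_biUnion]
      rcases hi.2 with h | h
      · exact ⟨_, h, by simp [Finset.mem_range.1 hi.1]⟩
      · exact ⟨_, h, by simp [Finset.mem_range.1 hi.1]⟩
    refine (Finset.card_le_card hsub).trans (Finset.card_biUnion_le.trans ?_)
    refine Finset.sum_le_sum fun x _ => (Finset.card_union_le _ _).trans (Nat.add_le_add ?_ ?_)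
    · refine Finset.card_le_card_of_injOn (fun i => ({w i, w (i + 1), y i} : Finset ℕ)) ?_ ?_
      · intro i hi
        simp only [Finset.coe_filter, Finset.mem_range, Set.mem_ofPred_eq] at hi ⊢
        exact ⟨(hy i).2, by simp [hi.2]⟩
      · intro i hi j hj hij
        simp only [Finset.coe_filter, Finset.mem_range, Set.mem_ofPred_eq] at hi hj hij
        rw [hi.2, hj.2] at hij
        have ni := sx_ne hT (hy i).2
        have nj := sx_ne hT (hy j).2
        rw [hi.2] at ni
        rw [hj.2] at nj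
        have m1 : w i ∈ ({w j, w (j + 1), x} : Finset ℕ) := by rw [← hij]; simp
        have m2 : w (i + 1) ∈ ({w j, w (j + 1), x} : Finset ℕ) := by rw [← hij]; simp
        simp only [Finset.mem_insert, Finset.mem_singleton] at m1 m2
        rcases m1 with m1 | m1 | m1
        · exact hw.inj _ _ hi.1 hj.1 m1
        · rcases m2 with m2 | m2 | m2
          · exfalso
            have e1 := sx_inj hw m1
            have e2 := sx_inj hw m2
            have e3 : (j + 2) ≡ j + 0 [MOD K] := by
              have a1 : i ≡ j + 1 [MOD K] := e1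
              have a2 : i + 1 ≡ j [MOD K] := e2
              exact (a1.symm.add_right 1).trans a2
            have e4 := Nat.ModEq.add_left_cancel' j e3
            have e5 : 2 % K = 0 % K := e4
            rw [Nat.mod_eq_of_lt (by omega), Nat.zero_mod] at e5
            omega
          · exact absurd (m1.trans m2.symm) ni.1
          · exact absurd m2 ni.2.2
        · exact absurd m1 ni.2.1
    · rw [Finset.card_le_one]
      intro i hi j hj
      rw [Finset.mem_filter, Finset.mem_range] at hi hj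
      exact hw.inj _ _ hi.1 hj.1 (hi.2.trans hj.2.symm)
  -- a block without bad indices
  have hblock : ∃ j, j < s + 1 ∧ ∀ k, k < M + 6 → w (j * (M + 6) + k) ∉ X ∧ y (j * (M + 6) + k) ∉ X := by
    by_contra hcon
    push Not at hcon
    choose! f hf using hcon
    have hcard : s + 1 ≤ ((range K).filter (fun i => w i ∈ X ∨ y i ∈ X)).card := by
      have := Finset.card_le_card_of_injOn (s := range (s + 1))
        (t := (range K).filter (fun i => w i ∈ X ∨ y i ∈ X)) (fun j => j * (M + 6) + f j) (by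
          intro j hj
          have hj' : j < s + 1 := by simpa using hj
          obtain ⟨h1, h2⟩ := hf j hj'
          simp only [Finset.coe_filter, Finset.mem_range, Set.mem_ofPred_eq]
          refine ⟨?_, ?_⟩
          · have : (j + 1) * (M + 6) ≤ (s + 1) * (M + 6) := Nat.mul_le_mul_right _ hj'
            have e : (j + 1) * (M + 6) = j * (M + 6) + (M + 6) := by ring
            omega
          · by_cases hh : w (j * (M + 6) + f j) ∈ X
            · exact Or.inl hh
            · exact Or.inr (h2 hh)) (by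
          intro i hi j hj hij
          have hi' : i < s + 1 := by simpa using hi
          have hj' : j < s + 1 := by simpa using hj
          obtain ⟨h1, _⟩ := hf i hi'
          obtain ⟨h2, _⟩ := hf j hj'
          have hij' : i * (M + 6) + f i = j * (M + 6) + f j := hij
          have a1 : (i * (M + 6) + f i) / (M + 6) = i := by
            rw [Nat.add_comm, Nat.add_mul_div_right _ _ (by omega), Nat.div_eq_of_lt h1, Nat.zero_add]
          have a2 : (j * (M + 6) + f j) / (M + 6) = j := by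
            rw [Nat.add_comm, Nat.add_mul_div_right _ _ (by omega), Nat.div_eq_of_lt h2, Nat.zero_add]
          rw [← a1, ← a2, hij'])
      simpa using this
    omega
  obtain ⟨j, hj, hjb⟩ := hblock
  have hKM : M < K := by
    have : 1 * (M + 6) ≤ (s + 1) * (M + 6) := Nat.mul_le_mul_right _ (by omega)
    omega
  refine sx_block hT hlink hw hy (fun v hv hvD => hM v hv hvD) hKM (i0 := j * (M + 6)) ?_ ?_
  · intro k hk
    by_contra h
    exact (hjb k hk).1 (by rw [hX, Finset.mem_filter]; exact ⟨hwv _, hwD _, h⟩)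
  · intro k hk
    by_contra h
    exact (hjb k hk).2 (by rw [hX, Finset.mem_filter]; exact ⟨hyv _, (hy _).1, h⟩)

end Pool.Agent.Helper79.HH
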