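import Pool.Agent.Helper79.HH.Grp2
import Pool.Agent.Helper79.HH.Split
import Pool.Agent.Helper79.HH.LinkCyc
import Pool.Agent.Helper79.HH.Develop
import Pool.Agent.Helper79.HH.Hol
import Pool.Agent.Helper79.HH.StripEx

/-!
# The lower bounds
-/

namespace Pool.Agent.Helper79.HH

open Finset Pool.Agent.Helper79.HX

variable {T : Finset (Finset ℕ)}

theorem links (hS : IsSphere T) : ∀ a b c, a ≠ b → a ≠ c → b ≠ c → {a, b, c} ∈ T →
    ∃ w : ℕ → ℕ, Link T a (deg T a) w ∧ w 0 = b ∧ w 1 = c := by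
  intro a b c hab hac hbc h
  exact exists_link (Closed.of_sphere hS) hab hac hbc h (link_conn hS)

/-- the data: a development and the weights for a tree -/
theorem setup (hS : IsSphere T) {D : ℕ} {par rk : ℕ → ℕ} (h : Tree T D par rk) :
    ∃ (Φ : ℕ → ℕ → ℕ → HG) (own tot : ℕ → ℕ × ℕ), Dev s0 s1 s2 T D par Φ ∧
      Cls s1 s2 T D par PP own tot ∧ (∀ a, own a = if a = D then 0 else cl (deg T a)) ∧
      (∑ c ∈ (verts T).filter (fun c => c ≠ D ∧ par c = D), tot c) =
        ∑ a ∈ (verts T).erase D, cl (deg T a) := by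
  obtain ⟨Φ, hΦ⟩ := develop s00 s11 s22 s010 s02 (Closed.of_sphere hS) (dual_tree hS h)
  obtain ⟨tot, htot⟩ := tot_exists h (fun a => if a = D then 0 else cl (deg T a))
  refine ⟨Φ, _, tot, hΦ, ⟨PP_one, PP_mul, PP_inv, ?_, htot⟩, fun a => rfl, ?_⟩
  · intro a ha haD g
    rw [if_neg haD]
    exact PP_own g (deg T a)
  · have h1 := tot_root h htot
    have h2 := htot D h.root
    rw [if_pos rfl, zero_add] at h2
    rw [← h2, h1]
    rw [← Finset.sum_erase_add _ _ h.root, if_pos rfl, add_zero]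
    apply Finset.sum_congr rfl
    intro a ha
    rw [if_neg (Finset.ne_of_mem_erase ha)]

theorem verts_of {t : Finset ℕ} (ht : t ∈ T) {v : ℕ} (hv : v ∈ t) : v ∈ verts T :=
  mem_verts.2 ⟨t, ht, hv⟩

theorem tri_ne (hS : IsSphere T) {a b c : ℕ} (h : {a, b, c} ∈ T) : a ≠ b ∧ a ≠ c ∧ b ≠ c := by
  have h3 := hS.tri _ h
  refine ⟨?_, ?_, ?_⟩
  · rintro rfl
    have : ({a, a, c} : Finset ℕ).card ≤ 2 := by
      rw [Finset.insert_eq_of_mem (by simp)]; exact Finset.card_le_two
    omega
  · rintro rfl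
    have : ({a, b, a} : Finset ℕ).card ≤ 2 := by
      rw [Finset.insert_eq_of_mem (by simp)]; exact Finset.card_le_two
    omega
  · rintro rfl
    have : ({a, b, b} : Finset ℕ).card ≤ 2 := by
      have : ({b, b} : Finset ℕ) = {b} := by simp
      rw [this]; exact Finset.card_le_two
    omega

/-- The holonomy of one vertex is the product of those of all the others. -/
theorem holonomy (hS : IsSphere T) {D : ℕ} (hD : D ∈ verts T) :
    ∃ g : HG, g * (s1 * s2) ^ deg T D * g⁻¹ ∈ PP (∑ a ∈ (verts T).erase D, cl (deg T a)) := by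
  obtain ⟨par, rk, h, -⟩ := exists_tree (Closed.of_sphere hS) hD ∅ (by simp) (by simp) (by simp)
  obtain ⟨Φ, own, tot, hΦ, hP, -, hsum⟩ := setup hS h
  obtain ⟨t, ht, hDt⟩ := mem_verts.1 hD
  obtain ⟨b, c, hbc⟩ : ∃ b c, t = {D, b, c} := by
    have h1 : (t.erase D).card = 2 := by rw [Finset.card_erase_of_mem hDt, hS.tri t ht]
    obtain ⟨b, c, -, h2⟩ := Finset.card_eq_two.1 h1
    exact ⟨b, c, by rw [← Finset.insert_erase hDt, h2]⟩
  rw [hbc] at ht
  obtain ⟨n1, n2, n3⟩ := tri_ne hS ht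
  have := hol_full s11 s22 s02 (Closed.of_sphere hS) hΦ hP h (links hS) n1 n2 n3 ht
  rw [hsum] at this
  exact ⟨_, this⟩

/-- A weight of total one, or `(1, 1)`, is impossible. -/
theorem obstruction (hS : IsSphere T) :
    ∑ a ∈ verts T, cl (deg T a) ≠ (1, 0) ∧ ∑ a ∈ verts T, cl (deg T a) ≠ (0, 1) ∧
      ∑ a ∈ verts T, cl (deg T a) ≠ (1, 1) := by
  have hval : ∀ d, cl d = (0, 0) ∨ cl d = (1, 0) ∨ cl d = (0, 1) := by
    intro d
    unfold cl
    split_ifs <;> simp
  have key : ∀ u : ℕ × ℕ, ∑ a ∈ verts T, cl (deg T a) = u → (1 ≤ u.1 → ∃ D ∈ verts T,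
      cl (deg T D) = (1, 0)) ∧ (1 ≤ u.2 → ∃ D ∈ verts T, cl (deg T D) = (0, 1)) := by
    intro u hu
    constructor
    · intro h1
      by_contra hcon
      push Not at hcon
      have : (∑ a ∈ verts T, cl (deg T a)).1 = 0 := by
        rw [Prod.fst_sum]
        apply Finset.sum_eq_zero
        intro a ha
        rcases hval (deg T a) with h | h | h
        · rw [h]
        · exact absurd h (hcon a ha)
        · rw [h]
      rw [hu] at this
      omega
    · intro h1
      by_contra hcon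
      push Not at hcon
      have : (∑ a ∈ verts T, cl (deg T a)).2 = 0 := by
        rw [Prod.snd_sum]
        apply Finset.sum_eq_zero
        intro a ha
        rcases hval (deg T a) with h | h | h
        · rw [h]
        · rw [h]
        · exact absurd h (hcon a ha)
      rw [hu] at this
      omega
  refine ⟨?_, ?_, ?_⟩
  · intro hu
    obtain ⟨D, hD, hcD⟩ := (key _ hu).1 (by norm_num)
    obtain ⟨g, hg⟩ := holonomy hS hD
    rw [← Finset.sum_erase_add _ _ hD, hcD] at hu
    have h0 : ∑ a ∈ (verts T).erase D, cl (deg T a) = (0, 0) := by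
      have := hu
      rw [Prod.ext_iff] at this ⊢
      simp only [Prod.fst_add, Prod.snd_add] at this ⊢
      omega
    rw [h0] at hg
    rw [one_not g hg] at hcD
    simp at hcD
  · intro hu
    obtain ⟨D, hD, hcD⟩ := (key _ hu).2 (by norm_num)
    obtain ⟨g, hg⟩ := holonomy hS hD
    rw [← Finset.sum_erase_add _ _ hD, hcD] at hu
    have h0 : ∑ a ∈ (verts T).erase D, cl (deg T a) = (0, 0) := by
      have := hu
      rw [Prod.ext_iff] at this ⊢
      simp only [Prod.fst_add, Prod.snd_add] at this ⊢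
      omega
    rw [h0] at hg
    rw [one_not g hg] at hcD
    simp at hcD
  · intro hu
    obtain ⟨D, hD, hcD⟩ := (key _ hu).1 (by norm_num)
    obtain ⟨g, hg⟩ := holonomy hS hD
    rw [← Finset.sum_erase_add _ _ hD, hcD] at hu
    have h0 : ∑ a ∈ (verts T).erase D, cl (deg T a) = (0, 1) := by
      have := hu
      rw [Prod.ext_iff] at this ⊢
      simp only [Prod.fst_add, Prod.snd_add] at this ⊢
      omega
    rw [h0] at hg
    exact C1_not_PP01 g hcD hg

end Pool.Agent.Helper79.HH
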