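import Pool.Agent.Helper79.HH.Lower

/-!
# The two ends of a strip
-/

namespace Pool.Agent.Helper79.HH

open Finset Pool.Agent.Helper79.HX

variable {T : Finset (Finset ℕ)}

/-- all the triangles at a vertex of degree five -/
theorem star_five {v a b c d e : ℕ} (hv : deg T v = 5) (h1 : {v, a, b} ∈ T) (h2 : {v, b, c} ∈ T)
    (h3 : {v, c, d} ∈ T) (h4 : {v, d, e} ∈ T) (h5 : {v, e, a} ∈ T)
    (hnd : [v, a, b, c, d, e].Nodup) : ∀ t ∈ T, v ∈ t → t = {v, a, b} ∨ t = {v, b, c} ∨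
      t = {v, c, d} ∨ t = {v, d, e} ∨ t = {v, e, a} := by
  simp only [List.nodup_cons, List.mem_cons, List.not_mem_nil, or_false, not_or, not_false_eq_true,
    List.nodup_nil, and_true] at hnd
  obtain ⟨⟨va, vb, vc, vd, ve⟩, ⟨ab, ac, ad, ae⟩, ⟨bc, bd, be⟩, ⟨cd, ce⟩, de⟩ := hnd
  have hne : ∀ x y z w : ℕ, v ≠ x → v ≠ y → v ≠ z → v ≠ w → x ≠ z → x ≠ w →
      ({v, x, y} : Finset ℕ) ≠ {v, z, w} := by
    intro x y z w k1 k2 k3 k4 k5 k6 h
    have : x ∈ ({v, z, w} : Finset ℕ) := h ▸ (by simp)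
    simp only [Finset.mem_insert, Finset.mem_singleton] at this
    rcases this with h | h | h
    · exact k1 h.symm
    · exact k5 h
    · exact k6 h
  have hne' : ∀ x y z w : ℕ, v ≠ x → v ≠ y → v ≠ z → v ≠ w → y ≠ z → y ≠ w →
      ({v, x, y} : Finset ℕ) ≠ {v, z, w} := by
    intro x y z w k1 k2 k3 k4 k5 k6 h
    have : y ∈ ({v, z, w} : Finset ℕ) := h ▸ (by simp)
    simp only [Finset.mem_insert, Finset.mem_singleton] at this
    rcases this with h | h | h
    · exact k2 h.symm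
    · exact k5 h
    · exact k6 h
  have hS5 : ({({v, a, b} : Finset ℕ), {v, b, c}, {v, c, d}, {v, d, e}, {v, e, a}} :
      Finset (Finset ℕ)).card = 5 := by
    have k12 : ({v, a, b} : Finset ℕ) ≠ {v, b, c} := hne a b b c va vb vb vc ab ac
    have k13 : ({v, a, b} : Finset ℕ) ≠ {v, c, d} := hne a b c d va vb vc vd ac ad
    have k14 : ({v, a, b} : Finset ℕ) ≠ {v, d, e} := hne a b d e va vb vd ve ad ae
    have k15 : ({v, a, b} : Finset ℕ) ≠ {v, e, a} := hne' a b e a va vb ve va be (Ne.symm ab)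
    have k23 : ({v, b, c} : Finset ℕ) ≠ {v, c, d} := hne b c c d vb vc vc vd bc bd
    have k24 : ({v, b, c} : Finset ℕ) ≠ {v, d, e} := hne b c d e vb vc vd ve bd be
    have k25 : ({v, b, c} : Finset ℕ) ≠ {v, e, a} := hne b c e a vb vc ve va be (Ne.symm ab)
    have k34 : ({v, c, d} : Finset ℕ) ≠ {v, d, e} := hne c d d e vc vd vd ve cd ce
    have k35 : ({v, c, d} : Finset ℕ) ≠ {v, e, a} := hne c d e a vc vd ve va ce (Ne.symm ac)
    have k45 : ({v, d, e} : Finset ℕ) ≠ {v, e, a} := hne d e e a vd ve ve va de (Ne.symm ad)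
    rw [Finset.card_insert_of_notMem (by simp [k12, k13, k14, k15]),
      Finset.card_insert_of_notMem (by simp [k23, k24, k25]),
      Finset.card_insert_of_notMem (by simp [k34, k35]),
      Finset.card_insert_of_notMem (by simp [k45]), Finset.card_singleton]
  have hsub : ({({v, a, b} : Finset ℕ), {v, b, c}, {v, c, d}, {v, d, e}, {v, e, a}} :
      Finset (Finset ℕ)) ⊆ T.filter (fun t => v ∈ t) := by
    intro t ht
    simp only [Finset.mem_insert, Finset.mem_singleton] at ht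
    rcases ht with rfl | rfl | rfl | rfl | rfl
    · exact Finset.mem_filter.2 ⟨h1, by simp⟩
    · exact Finset.mem_filter.2 ⟨h2, by simp⟩
    · exact Finset.mem_filter.2 ⟨h3, by simp⟩
    · exact Finset.mem_filter.2 ⟨h4, by simp⟩
    · exact Finset.mem_filter.2 ⟨h5, by simp⟩
  have heq := Finset.eq_of_subset_of_card_le hsub (by rw [hS5]; exact hv.le)
  intro t ht hvt
  have : t ∈ T.filter (fun t => v ∈ t) := Finset.mem_filter.2 ⟨ht, hvt⟩
  rw [← heq] at this
  simpa only [Finset.mem_insert, Finset.mem_singleton] using this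

theorem adj_of {u v : ℕ} (h : u ≠ v) {t : Finset ℕ} (ht : t ∈ T) (hu : u ∈ t) (hv : v ∈ t) :
    Adj T u v := ⟨h, t, ht, hu, hv⟩

/-- the tree whose leaves contain `v` and `y` -/
theorem strip_tree (hS : IsSphere T) {D v v1 v2 y y1 y2 : ℕ} (st : Strip T D v v1 v2 y y1 y2) :
    ∃ par rk : ℕ → ℕ, Tree T D par rk ∧ ∀ u ∈ verts T, u ≠ D → par u ≠ v ∧ par u ≠ y := by
  have nd1 := st.nd1
  have nd2 := st.nd2
  simp only [List.nodup_cons, List.mem_cons, List.not_mem_nil, or_false, not_or, not_false_eq_true,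
    List.nodup_nil, and_true] at nd1 nd2
  obtain ⟨⟨vD, vv1, vy, vy2, vv2⟩, ⟨Dv1, Dy, Dy2, Dv2⟩, ⟨v1y, v1y2, v1v2⟩, ⟨yy2, yv2⟩, y2v2⟩ := nd1
  obtain ⟨⟨-, -, yy1, -, -⟩, ⟨-, vy1, -, -⟩, ⟨v1y1, -, -⟩, ⟨y1D, y1y2⟩, -⟩ := nd2
  have hD : D ∈ verts T := verts_of st.a1 (by simp)
  have sv := star_five st.dv st.a1 st.a2 st.a3 st.a4 st.a5 st.nd1
  have b1 : {y, v, v1} ∈ T := by
    have := st.a2
    rwa [show ({v, v1, y} : Finset ℕ) = {y, v, v1} by ext z; simp; tauto] at this
  have b5 : {y, y2, v} ∈ T := by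
    have := st.a3
    rwa [show ({v, y, y2} : Finset ℕ) = {y, y2, v} by ext z; simp; tauto] at this
  have sy := star_five st.dy b1 st.b2 st.b3 st.b4 b5 st.nd2
  obtain ⟨par, rk, h, hL⟩ := exists_tree (Closed.of_sphere hS) hD {v, y}
    (by simp only [Finset.mem_insert, Finset.mem_singleton, not_or]; exact ⟨Ne.symm vD, Dy⟩)
    (by
      intro u hu
      simp only [Finset.mem_insert, Finset.mem_singleton] at hu
      rcases hu with rfl | rfl
      · exact adj_of vD st.a1 (by simp) (by simp)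
      · exact adj_of (Ne.symm Dy) st.b3 (by simp) (by simp))
    (by
      have aD1 : Adj T v1 D := adj_of (Ne.symm Dv1) st.a1 (by simp) (by simp)
      have aD2 : Adj T v2 D := adj_of (Ne.symm Dv2) st.a5 (by simp) (by simp)
      have aD3 : Adj T y1 D := adj_of y1D st.b3 (by simp) (by simp)
      have aD4 : Adj T y2 D := adj_of (Ne.symm Dy2) st.b4 (by simp) (by simp)
      intro u hu z hz hzL hadj
      obtain ⟨huz, t, ht, hut, hzt⟩ := hadj
      simp only [Finset.mem_insert, Finset.mem_singleton, not_or] at hu hzL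
      obtain ⟨hz1, hz2⟩ := hzL
      rcases hu with rfl | rfl
      · have hz' : z = D ∨ z = v1 ∨ z = y2 ∨ z = v2 := by
          rcases sv t ht hut with h | h | h | h | h <;>
          · rw [h] at hzt
            simp only [Finset.mem_insert, Finset.mem_singleton] at hzt
            tauto
        rcases hz' with rfl | rfl | rfl | rfl
        · exact Or.inl rfl
        · exact Or.inr aD1
        · exact Or.inr aD4
        · exact Or.inr aD2
      · have hz' : z = D ∨ z = v1 ∨ z = y1 ∨ z = y2 := by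
          rcases sy t ht hut with h | h | h | h | h <;>
          · rw [h] at hzt
            simp only [Finset.mem_insert, Finset.mem_singleton] at hzt
            tauto
        rcases hz' with rfl | rfl | rfl | rfl
        · exact Or.inl rfl
        · exact Or.inr aD1
        · exact Or.inr aD3
        · exact Or.inr aD4)
  refine ⟨par, rk, h, fun u hu huD => ?_⟩
  have := hL u hu huD
  simpa only [Finset.mem_insert, Finset.mem_singleton, not_or] using this

theorem PP_zero {g : HG} (h : g ∈ PP 0) : g = 1 := Subtype.ext (h.2.1 rfl)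

theorem Link.shift {a d : ℕ} {w : ℕ → ℕ} (h : Link T a d w) (m : ℕ) :
    Link T a d (fun i => w (i + m)) := by
  have hmod : ∀ i, w i = w (i % d) := by
    intro i
    have key : ∀ q r, w (r + d * q) = w r := by
      intro q
      induction q with
      | zero => intro r; simp
      | succ q ih =>
        intro r
        rw [Nat.mul_succ, ← Nat.add_assoc, h.per]
        exact ih r
    conv_lhs => rw [← Nat.mod_add_div i d]
    exact key _ _
  have hd := h.three
  refine ⟨hd, ?_, ?_, ?_, ?_⟩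
  · intro i
    show w (i + d + m) = w (i + m)
    rw [show i + d + m = i + m + d by omega, h.per]
  · intro i j hi hj hij
    have h1 : w ((i + m) % d) = w ((j + m) % d) := by
      rw [← hmod, ← hmod]; exact hij
    have h2 := h.inj _ _ (Nat.mod_lt _ (by omega)) (Nat.mod_lt _ (by omega)) h1
    have h3 : i % d = j % d := Nat.ModEq.add_right_cancel' m h2
    rwa [Nat.mod_eq_of_lt hi, Nat.mod_eq_of_lt hj] at h3
  · intro i
    show {a, w (i + m), w (i + 1 + m)} ∈ T
    rw [show i + 1 + m = i + m + 1 by omega]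
    exact h.tri _
  · intro t ht hat
    obtain ⟨i, hi, e⟩ := h.all t ht hat
    refine ⟨(i + (d - m % d)) % d, Nat.mod_lt _ (by omega), ?_⟩
    have h1 : w ((i + (d - m % d)) % d + m) = w i := by
      rw [hmod ((i + (d - m % d)) % d + m), hmod i, Nat.mod_add_mod]
      congr 1
      have h4 : m % d < d := Nat.mod_lt _ (by omega)
      have h5 : i + (d - m % d) + m = i + d * (1 + m / d) := by
        have := Nat.mod_add_div m d
        rw [Nat.mul_add, Nat.mul_one]
        omega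
      rw [h5, Nat.add_mul_mod_self_left]
    have h2 : w ((i + (d - m % d)) % d + m + 1) = w (i + 1) := by
      rw [hmod ((i + (d - m % d)) % d + m + 1), hmod (i + 1)]
      congr 1
      have h4 : m % d < d := Nat.mod_lt _ (by omega)
      have h5 : i + (d - m % d) + m = i + d * (1 + m / d) := by
        have := Nat.mod_add_div m d
        rw [Nat.mul_add, Nat.mul_one]
        omega
      rw [Nat.add_assoc, Nat.mod_add_mod, ← Nat.add_assoc, h5,
        show i + d * (1 + m / d) + 1 = i + 1 + d * (1 + m / d) by omega,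
        Nat.add_mul_mod_self_left]
    show t = {a, w ((i + (d - m % d)) % d + m), w ((i + (d - m % d)) % d + 1 + m)}
    rw [show (i + (d - m % d)) % d + 1 + m = (i + (d - m % d)) % d + m + 1 by omega, h1, h2]
    exact e

theorem rpow_inv (k : ℕ) : (((s1 * s2) ^ k)⁻¹ : HG) = (s1 * s2) ^ (4 * k) := by
  rw [inv_eq_iff_mul_eq_one, ← pow_add, show k + 4 * k = 5 * k by omega, pow_mul]
  have : ((s1 * s2) ^ 5 : HG) = 1 := Subtype.ext (by
    show (tau1 * tau2) ^ 5 = 1
    exact code_rpow.2.2.2)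
  rw [this, one_pow]

/-- Both ends of a strip have a weight in `InF`. -/
theorem lower_strip (hS : IsSphere T) {D v v1 v2 y y1 y2 : ℕ}
    (st : Strip T D v v1 v2 y y1 y2) : ∃ u w : ℕ × ℕ, InF u ∧ InF w ∧
      u + w = ∑ a ∈ (verts T).erase D, cl (deg T a) := by
  obtain ⟨par, rk, h, hL⟩ := strip_tree hS st
  obtain ⟨Φ, own, tot, hΦ, hP, hown, hsum⟩ := setup hS h
  have nd1 := st.nd1
  have nd2 := st.nd2
  simp only [List.nodup_cons, List.mem_cons, List.not_mem_nil, or_false, not_or, not_false_eq_true,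
    List.nodup_nil, and_true] at nd1 nd2
  obtain ⟨⟨vD, vv1, vy, vy2, vv2⟩, ⟨Dv1, Dy, Dy2, Dv2⟩, ⟨v1y, v1y2, v1v2⟩, ⟨yy2, yv2⟩, y2v2⟩ := nd1
  obtain ⟨⟨-, -, yy1, -, -⟩, ⟨-, vy1, -, -⟩, ⟨v1y1, -, -⟩, ⟨y1D, y1y2⟩, -⟩ := nd2
  have hDv : D ∈ verts T := verts_of st.a1 (by simp)
  have hvv : v ∈ verts T := verts_of st.a1 (by simp)
  have hyv : y ∈ verts T := verts_of st.b3 (by simp)
  have hol' := hol s11 s22 s02 (Closed.of_sphere hS) hΦ hP h (links hS)
  have cl5 : cl 5 = 0 := by decide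
  -- the weights of the leaves
  have tot0 : ∀ u ∈ verts T, u ≠ D → deg T u = 5 → (∀ z ∈ verts T, z ≠ D → par z ≠ u) →
      tot u = 0 := by
    intro u hu huD hu5 hz
    rw [hP.htot u hu, hown u, if_neg huD, hu5, cl5, zero_add]
    apply Finset.sum_eq_zero
    intro c hc
    obtain ⟨hc1, hc2, hc3⟩ := Finset.mem_filter.1 hc
    exact absurd hc3 (hz c hc1 hc2)
  have tv : tot v = 0 := tot0 v hvv vD st.dv (fun z hz hzD => (hL z hz hzD).1)
  have ty : tot y = 0 := tot0 y hyv (Ne.symm Dy) st.dy (fun z hz hzD => (hL z hz hzD).2)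
  -- no jump at the leaves
  have jump : ∀ u ∈ verts T, u ≠ D → tot u = 0 → (∀ z ∈ verts T, z ≠ D → par z ≠ u) →
      ∀ z x x', {u, z, x} ∈ T → {u, z, x'} ∈ T → x ≠ x' → Φ u z x' = Φ u z x * s2 := by
    intro u hu huD hu0 hpar z x x' h1 h2 hxx
    obtain ⟨n1, n2, n3⟩ := tri_ne hS h1
    obtain ⟨-, n4, n5⟩ := tri_ne hS h2
    by_cases hTE : TE D par u z
    · rcases hTE with ⟨-, h3⟩ | ⟨h3, h4⟩
      · subst h3
        have h4 := hol' u hu huD x x' h1 h2 hxx n1 n2 n3 n4 n5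
        rw [hu0] at h4
        have h5 := PP_zero h4
        rw [mul_inv_eq_one] at h5
        exact h5.symm
      · exact absurd h4 (hpar z (verts_of h1 (by simp)) h3)
    · exact hΦ.s2 u z x x' h1 h2 n1 n2 n3 n4 n5 hxx hTE
  have jv := jump v hvv vD tv (fun z hz hzD => (hL z hz hzD).1)
  have jy := jump y hyv (Ne.symm Dy) ty (fun z hz hzD => (hL z hz hzD).2)
  -- membership of the triangles in the needed forms
  have perm : ∀ {a b c : ℕ}, {a, b, c} ∈ T → {a, c, b} ∈ T ∧ {b, a, c} ∈ T ∧ {b, c, a} ∈ T ∧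
      {c, a, b} ∈ T ∧ {c, b, a} ∈ T := by
    intro a b c habc
    have e1 : ({a, c, b} : Finset ℕ) = {a, b, c} := by ext z; simp; tauto
    have e2 : ({b, a, c} : Finset ℕ) = {a, b, c} := by ext z; simp; tauto
    have e3 : ({b, c, a} : Finset ℕ) = {a, b, c} := by ext z; simp; tauto
    have e4 : ({c, a, b} : Finset ℕ) = {a, b, c} := by ext z; simp; tauto
    have e5 : ({c, b, a} : Finset ℕ) = {a, b, c} := by ext z; simp; tauto
    rw [e1, e2, e3, e4, e5]
    exact ⟨habc, habc, habc, habc, habc⟩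
  obtain ⟨a1', a1'', -, -, -⟩ := perm st.a1
  obtain ⟨a2', -, -, -, a2''⟩ := perm st.a2
  obtain ⟨a3', a3'', a3''', -, -⟩ := perm st.a3
  obtain ⟨b4', b4'', -, -, -⟩ := perm st.b4
  set g : HG := Φ D v v1 with hg
  -- a1'' : {D, v, v1} ∈ T
  have p1 : Φ v D v1 = g * s0 := hΦ.s0 D v v1 a1'' (Ne.symm vD) Dv1 vv1
  have p2 : Φ v v1 D = Φ v D v1 * s1 := hΦ.s1 v D v1 st.a1 vD vv1 Dv1
  have p3 : Φ v v1 y = Φ v v1 D * s2 := jv v1 D y a1' st.a2 Dy
  have p4 : Φ v y v1 = Φ v v1 y * s1 := hΦ.s1 v v1 y st.a2 vv1 vy v1y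
  have p5 : Φ v y y2 = Φ v y v1 * s2 := jv y v1 y2 a2' st.a3 v1y2
  have p6 : Φ y v y2 = Φ v y y2 * s0 := hΦ.s0 v y y2 st.a3 vy vy2 yy2
  have p7 : Φ y y2 v = Φ y v y2 * s1 := hΦ.s1 y v y2 a3'' (Ne.symm vy) yy2 vy2
  have p8 : Φ y y2 D = Φ y y2 v * s2 := jy y2 v D a3''' b4' vD
  have p9 : Φ y D y2 = Φ y y2 D * s1 := hΦ.s1 y y2 D b4' yy2 (Ne.symm Dy) (Ne.symm Dy2)
  have p10 : Φ D y y2 = Φ y D y2 * s0 := hΦ.s0 y D y2 st.b4 (Ne.symm Dy) yy2 Dy2
  have pV : Φ D y y2 = g * (s0 * (s1 * s2) * (s1 * s2) * s0 * (s1 * s2) * s1 * s0) := by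
    rw [p10, p9, p8, p7, p6, p5, p4, p3, p2, p1]
    simp only [mul_assoc]
  -- the link of D
  obtain ⟨w, hw, w0, w1⟩ := links hS D v v1 (Ne.symm vD) Dv1 vv1 a1''
  have hch : ∀ c ∈ verts T, c ≠ D → par c = D → ∀ x y, {c, D, x} ∈ T → {c, D, y} ∈ T → x ≠ y →
      c ≠ D → c ≠ x → D ≠ x → c ≠ y → D ≠ y → Φ c D x * s2 * (Φ c D y)⁻¹ ∈ PP (tot c) := by
    intro c hc hcD hpc x y h1 h2 h3 h4 h5 h6 h7 h8
    have := hol' c hc hcD x y (by rw [hpc]; exact h1) (by rw [hpc]; exact h2) h3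
      (by rw [hpc]; exact h4) h5 (by rw [hpc]; exact h6) h7 (by rw [hpc]; exact h8)
    rwa [hpc] at this
  have harc : ∀ (w' : ℕ → ℕ), Link T D (deg T D) w' → ∀ m,
      Φ D (w' m) (w' (m + 1)) * ((s1 * s2) ^ m)⁻¹ * (Φ D (w' 0) (w' 1))⁻¹ ∈
      PP (∑ k ∈ Finset.Icc 1 m, if w' k ≠ D ∧ par (w' k) = D then tot (w' k) else 0) := by
    intro w' hw' m
    exact arc s11 s22 s02 (Closed.of_sphere hS) hΦ hP hw' m (fun k _ _ hk => hk.1 rfl) hch
  obtain ⟨i, hi, he⟩ := hw.all _ b4'' (by simp)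
  have hwn : ∀ j, w j ≠ D := fun j hj => (tri_ne hS (hw.tri j)).1 hj.symm
  have hwn1 : ∀ j, w j ≠ w (j + 1) := fun j => (tri_ne hS (hw.tri j)).2.2
  have hcase : (w i = y ∧ w (i + 1) = y2) ∨ (w i = y2 ∧ w (i + 1) = y) := by
    have h1 : y ∈ ({D, w i, w (i + 1)} : Finset ℕ) := he ▸ (by simp)
    have h2 : y2 ∈ ({D, w i, w (i + 1)} : Finset ℕ) := he ▸ (by simp)
    simp only [Finset.mem_insert, Finset.mem_singleton] at h1 h2
    rcases h1 with h1 | h1 | h1
    · exact absurd h1.symm Dy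
    · rcases h2 with h2 | h2 | h2
      · exact absurd h2.symm Dy2
      · exact absurd (h1.trans h2.symm) yy2
      · exact Or.inl ⟨h1.symm, h2.symm⟩
    · rcases h2 with h2 | h2 | h2
      · exact absurd h2.symm Dy2
      · exact Or.inr ⟨h2.symm, h1.symm⟩
      · exact absurd (h1.trans h2.symm) yy2
  rcases hcase with ⟨e1, e2⟩ | ⟨e1, e2⟩
  · -- the orientable case
    have hA := harc w hw i
    rw [e1, e2, w0, w1, ← hg, pV, rpow_inv, mul_assoc g] at hA
    have hB := harc _ (hw.shift i) (deg T D - i)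
    have q1 : w (deg T D - i + i) = v := by
      rw [Nat.sub_add_cancel hi.le, ← w0]
      have := hw.per 0
      rwa [Nat.zero_add] at this
    have q2 : w (deg T D - i + 1 + i) = v1 := by
      rw [show deg T D - i + 1 + i = 1 + deg T D by omega, hw.per, w1]
    have q3 : w (0 + i) = y := by rw [Nat.zero_add, e1]
    have q4 : w (1 + i) = y2 := by rw [Nat.add_comm, e2]
    simp only [q1, q2, q3, q4] at hB
    rw [← hg, pV] at hB
    have hB' := PP_inv _ _ hB
    have hB'' : (g * ((s1 * s2) ^ (deg T D - i))⁻¹ *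
        (g * (s0 * (s1 * s2) * (s1 * s2) * s0 * (s1 * s2) * s1 * s0))⁻¹)⁻¹ =
        g * (s0 * (s1 * s2) * (s1 * s2) * s0 * (s1 * s2) * s1 * s0 *
          (s1 * s2) ^ (deg T D - i)) * g⁻¹ := by
      group
    rw [hB''] at hB'
    refine ⟨_, _, inF_of_mem g _ hA, inF_of_mem g _ hB', ?_⟩
    rw [← hsum, ← sum_children (Closed.of_sphere hS) h hw hDv tot]
    have hsplit : ∑ k ∈ Finset.Icc 1 (deg T D - i),
        (if w (k + i) ≠ D ∧ par (w (k + i)) = D then tot (w (k + i)) else 0) =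
        ∑ k ∈ Finset.Icc (i + 1) (deg T D),
          (if w k ≠ D ∧ par (w k) = D then tot (w k) else 0) := by
      have : Finset.Icc (i + 1) (deg T D) = (Finset.Icc 1 (deg T D - i)).image (fun k => k + i) := by
        ext k
        simp only [Finset.mem_Icc, Finset.mem_image]
        constructor
        · rintro ⟨h1, h2⟩
          exact ⟨k - i, ⟨by omega, by omega⟩, by omega⟩
        · rintro ⟨k', ⟨h1, h2⟩, rfl⟩
          exact ⟨by omega, by omega⟩
      rw [this, Finset.sum_image (fun a _ b _ hab => by simpa using hab)]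
    rw [hsplit]
    have hun : Finset.Icc 1 (deg T D) = Finset.Icc 1 i ∪ Finset.Icc (i + 1) (deg T D) := by
      ext k
      simp only [Finset.mem_union, Finset.mem_Icc]
      omega
    rw [hun, Finset.sum_union]
    rw [Finset.disjoint_left]
    intro k h1 h2
    rw [Finset.mem_Icc] at h1 h2
    omega
  · -- the other case
    exfalso
    have hA := harc w hw i
    have p11 : Φ D y2 y = Φ D y y2 * s1 := hΦ.s1 D y y2 b4'' Dy Dy2 yy2
    rw [e1, e2, w0, w1, ← hg, p11, pV, rpow_inv, mul_assoc g, mul_assoc g] at hA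
    exact odd_not_mem g _ hA

end Pool.Agent.Helper79.HH
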