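import Pool.Agent.Helper79.HH.SlotDefs

/-!
# BLOCK HH-9: inserting a cut open icosahedron at a slot

* `patch_relabel`: all the conditions of `Patch` are preserved by an injective relabelling
  (`Finset.card_image_of_injective`, `cnt (relabel f C) (e.image f) = cnt C e`; every edge and every
  vertex of `relabel f N` is an image).
* `slot_step`: let `s` be larger than all vertices of `T` (and than `D, b, p, x1, x2, x3`) and `f` the
  injective map `0 ↦ D`, `1 ↦ x1`, `2 ↦ b`, `3 ↦ x3`, `4 ↦ x2`, `5 ↦ p`, `v ↦ v + s` for `v ≥ 6`.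
  Apply `replace` (HG/Replace.lean) to `T`, `C = relabel f slotC ⊆ T`, `N = relabel f slotN`,
  `W = image of {6, ..., 15}`, `I = {p}` (`deg T p = 5 = deg C p`):
  `T' = (T \ C) ∪ N`, `deg T' v + deg C v = deg T v + deg N v`.  The degrees in `slotC` of
  `0, ..., 5` are `2, 2, 2, 2, 2, 5`, in `slotN` they are `7, 2, 7, 2, 2, 5`, and `5` for
  `6, ..., 15` (by `decide`); vertices of `T` outside the image of `{0, ..., 5}` have degree `0` in
  both.  The new slot: `x3' = f 14`, `x2' = f 15`; the triangles `{5, 0, 1}`, `{5, 1, 2}`,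
  `{5, 2, 14}`, `{5, 14, 15}`, `{5, 15, 0}` belong to `slotN`.  All the triangles of `C` contain
  `p`.
-/

namespace Pool.Agent.Helper79.HH

open Finset Pool.Agent.Helper79.HX Pool.Agent.Helper79.HG

private theorem cnt_relabel34 {T : Finset (Finset ℕ)} {f : ℕ → ℕ} (hf : Function.Injective f) (e : Finset ℕ) :
    cnt (relabel f T) (e.image f) = cnt T e := by
  unfold cnt
  rw [relabel_filter hf]
  congr 1
  apply Finset.filter_congr
  intro t _
  exact Finset.image_subset_image_iff hf

private theorem pow34 {s e : Finset ℕ} {f : ℕ → ℕ} (hf : Function.Injective f) (he : e ∈ (s.image f).powersetCard 2) :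
    ∃ e' ∈ s.powersetCard 2, e = e'.image f := by
  obtain ⟨h1, h2⟩ := Finset.mem_powersetCard.1 he
  obtain ⟨e', he', rfl⟩ := Finset.subset_image_iff.1 h1
  rw [Finset.card_image_of_injective _ hf] at h2
  exact ⟨e', Finset.mem_powersetCard.2 ⟨he', h2⟩, rfl⟩

private theorem pow34' {s e : Finset ℕ} {f : ℕ → ℕ} (hf : Function.Injective f) (he : e ∈ s.powersetCard 2) :
    e.image f ∈ (s.image f).powersetCard 2 := by
  obtain ⟨h1, h2⟩ := Finset.mem_powersetCard.1 he
  exact Finset.mem_powersetCard.2 ⟨Finset.image_subset_image h1, by rw [Finset.card_image_of_injective _ hf, h2]⟩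

theorem patch_relabel {C N : Finset (Finset ℕ)} {W I : Finset ℕ} (h : Patch C N W I) {f : ℕ → ℕ}
    (hf : Function.Injective f) :
    Patch (relabel f C) (relabel f N) (W.image f) (I.image f) := by
  refine ⟨h.ne.image _, ?_, ?_, ?_, ?_, ?_, ?_, ?_⟩
  · intro t ht
    obtain ⟨s, hs, rfl⟩ := Finset.mem_image.1 ht
    rw [Finset.card_image_of_injective _ hf]
    exact h.tri s hs
  · rw [relabel_verts, relabel_verts, h.vert, Finset.image_union]
  · intro t ht e he
    obtain ⟨s, hs, rfl⟩ := Finset.mem_image.1 ht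
    obtain ⟨e', he', rfl⟩ := pow34 hf he
    rw [cnt_relabel34 hf, cnt_relabel34 hf]
    rcases h.edge s hs e' he' with ⟨h1, h2 | ⟨v, hv, hv2⟩⟩ | h1
    · exact Or.inl ⟨h1, Or.inl h2⟩
    · refine Or.inl ⟨h1, Or.inr ⟨f v, Finset.mem_image_of_mem f hv, ?_⟩⟩
      rw [← Finset.image_union]
      exact Finset.mem_image_of_mem f hv2
    · exact Or.inr h1
  · intro t ht e he hc
    obtain ⟨s, hs, rfl⟩ := Finset.mem_image.1 ht
    obtain ⟨e', he', rfl⟩ := pow34 hf he
    rw [cnt_relabel34 hf] at hc ⊢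
    exact h.bdry s hs e' he' hc
  · intro t ht
    obtain ⟨s, hs, rfl⟩ := Finset.mem_image.1 ht
    rcases h.new s hs with h1 | ⟨v, hv, hv2⟩ | ⟨e, he, he2⟩
    · exact Or.inl (Finset.mem_image_of_mem _ h1)
    · refine Or.inr (Or.inl ⟨f v, Finset.mem_image_of_mem f hv, ?_⟩)
      rw [← Finset.image_union]
      exact Finset.mem_image_of_mem f hv2
    · exact Or.inr (Or.inr ⟨e.image f, pow34' hf he, by rw [cnt_relabel34 hf, he2]⟩)
  · intro A hA hne hcl
    have key : N.filter (fun t => t.image f ∈ A) = N := by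
      apply h.conn _ (Finset.filter_subset _ _)
      · obtain ⟨t, ht⟩ := hne
        obtain ⟨s, hs, rfl⟩ := Finset.mem_image.1 (hA ht)
        exact ⟨s, Finset.mem_filter.2 ⟨hs, ht⟩⟩
      · intro s hs t ht hst
        obtain ⟨hsT, hsA⟩ := Finset.mem_filter.1 hs
        refine Finset.mem_filter.2 ⟨ht, hcl _ hsA _ (Finset.mem_image_of_mem _ ht) ?_⟩
        rw [← Finset.image_inter _ _ hf, Finset.card_image_of_injective _ hf]
        exact hst
    apply Finset.Subset.antisymm hA
    intro t ht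
    obtain ⟨s, hs, rfl⟩ := Finset.mem_image.1 ht
    rw [← key] at hs
    exact (Finset.mem_filter.1 hs).2
  · rw [relabel_card hf, relabel_card hf, h.card, Finset.card_image_of_injective _ hf]

/-- the relabelling -/
private def ff34 (D b p x1 x2 x3 s : ℕ) : ℕ → ℕ
  | 0 => D
  | 1 => x1
  | 2 => b
  | 3 => x3
  | 4 => x2
  | 5 => p
  | (n + 6) => n + 6 + s

private theorem ff_inj34 {D b p x1 x2 x3 s : ℕ} (nd : [D, b, p, x1, x2, x3].Nodup) (h1 : D < s) (h2 : b < s) (h3 : p < s)
    (h4 : x1 < s) (h5 : x2 < s) (h6 : x3 < s) : Function.Injective (ff34 D b p x1 x2 x3 s) := by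
  simp only [List.nodup_cons, List.mem_cons, List.not_mem_nil, or_false, not_or, not_false_eq_true,
    List.nodup_nil, and_true] at nd
  obtain ⟨⟨n1, n2, n3, n4, n5⟩, ⟨n6, n7, n8, n9⟩, ⟨n10, n11, n12⟩, ⟨n13, n14⟩, n15⟩ := nd
  intro u v huv
  rcases u with _ | _ | _ | _ | _ | _ | u <;> rcases v with _ | _ | _ | _ | _ | _ | v <;>
    simp only [ff34] at huv <;> omega

private theorem degC34 : deg slotC 5 = 5 := by
  unfold deg
  decide

set_option maxRecDepth 100000 in
private theorem degNC34 : ∀ u ∈ Finset.range 6, deg slotN u = deg slotC u + if u = 0 ∨ u = 2 then 5 else 0 := by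
  unfold deg
  decide

set_option maxRecDepth 100000 in
private theorem degN34' : ∀ u ∈ ({6, 7, 8, 9, 10, 11, 12, 13, 14, 15} : Finset ℕ), deg slotN u = 5 := by
  unfold deg
  decide

private theorem vertsC34 : ∀ u ∈ verts slotC, u < 6 := by
  decide

set_option maxRecDepth 100000 in
private theorem vertsN34 : ∀ u ∈ verts slotN, u < 16 := by
  decide

set_option maxRecDepth 100000 in
private theorem memN34 : ({5, 0, 1} : Finset ℕ) ∈ slotN ∧ ({5, 1, 2} : Finset ℕ) ∈ slotN ∧ ({5, 2, 14} : Finset ℕ) ∈ slotN ∧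
    ({5, 14, 15} : Finset ℕ) ∈ slotN ∧ ({5, 15, 0} : Finset ℕ) ∈ slotN := by
  decide

private theorem five34 : ∀ t ∈ slotC, 5 ∈ t := by
  decide

private theorem deg_zero34 {T : Finset (Finset ℕ)} {v : ℕ} (hv : v ∉ verts T) : deg T v = 0 := by
  unfold deg
  rw [Finset.card_eq_zero, Finset.filter_eq_empty_iff]
  intro t ht hvt
  exact hv (mem_verts.2 ⟨t, ht, hvt⟩)

theorem slot_step {T : Finset (Finset ℕ)} {D b p x1 x2 x3 : ℕ} (hS : IsSphere T)
    (h : Slot T D b p x1 x2 x3) : ∃ (T' : Finset (Finset ℕ)) (W : Finset ℕ) (x2' x3' : ℕ),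
      IsSphere T' ∧ Disjoint W (verts T) ∧ verts T' = verts T ∪ W ∧ W.card = 10 ∧
      (∀ v ∈ W, deg T' v = 5) ∧
      (∀ v ∈ verts T, deg T' v = deg T v + if v = D ∨ v = b then 5 else 0) ∧
      (∀ t ∈ T, p ∉ t → t ∈ T') ∧ Slot T' D b p x1 x2' x3' := by
  obtain ⟨s, hs⟩ : ∃ s, ∀ v ∈ verts T, v < s := ⟨(verts T).sup id + 1, fun v hv => by
    have h1 : id v ≤ (verts T).sup id := Finset.le_sup hv
    exact Nat.lt_succ_of_le h1⟩
  have vp : p ∈ verts T := mem_verts.2 ⟨_, h.m1, by simp⟩
  have vD : D ∈ verts T := mem_verts.2 ⟨_, h.m1, by simp⟩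
  have vx1 : x1 ∈ verts T := mem_verts.2 ⟨_, h.m1, by simp⟩
  have vb : b ∈ verts T := mem_verts.2 ⟨_, h.m2, by simp⟩
  have vx3 : x3 ∈ verts T := mem_verts.2 ⟨_, h.m3, by simp⟩
  have vx2 : x2 ∈ verts T := mem_verts.2 ⟨_, h.m5, by simp⟩
  have hf := ff_inj34 h.nd (hs _ vD) (hs _ vb) (hs _ vp) (hs _ vx1) (hs _ vx2) (hs _ vx3)
  obtain ⟨f, hfe⟩ : ∃ f, f = ff34 D b p x1 x2 x3 s := ⟨_, rfl⟩
  rw [← hfe] at hf
  have f0 : f 0 = D := by rw [hfe]; rfl
  have f1 : f 1 = x1 := by rw [hfe]; rfl
  have f2 : f 2 = b := by rw [hfe]; rfl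
  have f3 : f 3 = x3 := by rw [hfe]; rfl
  have f4 : f 4 = x2 := by rw [hfe]; rfl
  have f5 : f 5 = p := by rw [hfe]; rfl
  have f6 : ∀ u, 6 ≤ u → f u ∉ verts T := by
    intro u hu hv
    obtain ⟨n, rfl⟩ : ∃ n, u = n + 6 := ⟨u - 6, by omega⟩
    have h1 : f (n + 6) = n + 6 + s := by rw [hfe]; rfl
    have h2 := hs _ hv
    omega
  have hP := patch_relabel slotPatch hf
  have hCT : relabel f slotC ⊆ T := by
    intro t ht
    obtain ⟨u, hu, rfl⟩ := Finset.mem_image.1 ht
    unfold slotC at hu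
    simp only [Finset.mem_insert, Finset.mem_singleton] at hu
    rcases hu with rfl | rfl | rfl | rfl | rfl <;>
      simp only [Finset.image_insert, Finset.image_singleton, f0, f1, f2, f3, f4, f5]
    · exact h.m1
    · exact h.m2
    · exact h.m3
    · exact h.m4
    · exact h.m5
  have hW : Disjoint (({6, 7, 8, 9, 10, 11, 12, 13, 14, 15} : Finset ℕ).image f) (verts T) := by
    rw [Finset.disjoint_left]
    intro v hv hvT
    obtain ⟨u, hu, rfl⟩ := Finset.mem_image.1 hv
    have h1 : 6 ≤ u := by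
      simp only [Finset.mem_insert, Finset.mem_singleton] at hu
      omega
    exact f6 u h1 hvT
  have hI : ∀ v ∈ ({5} : Finset ℕ).image f, deg T v = deg (relabel f slotC) v := by
    intro v hv
    obtain ⟨u, hu, rfl⟩ := Finset.mem_image.1 hv
    rw [Finset.mem_singleton] at hu
    rw [hu, relabel_deg hf, degC34, f5]
    exact h.dp
  obtain ⟨hS', hV', hdeg⟩ := replace hP hS hCT hW hI
  have memT' : ∀ t ∈ slotN, t.image f ∈ (T \ relabel f slotC) ∪ relabel f slotN := fun t ht =>
    mem_rep.2 (Or.inr (Finset.mem_image_of_mem _ ht))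
  have hdT : ∀ v ∈ verts T, deg ((T \ relabel f slotC) ∪ relabel f slotN) v =
      deg T v + if v = D ∨ v = b then 5 else 0 := by
    intro v hv
    have h1 := hdeg v
    by_cases hu : ∃ u, u < 6 ∧ f u = v
    · obtain ⟨u, hu6, rfl⟩ := hu
      rw [relabel_deg hf, relabel_deg hf] at h1
      have hD : (f u = D) ↔ u = 0 := by
        rw [← f0]
        exact hf.eq_iff
      have hb : (f u = b) ↔ u = 2 := by
        rw [← f2]
        exact hf.eq_iff
      have h2 := degNC34 u (Finset.mem_range.2 hu6)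
      by_cases hc : u = 0 ∨ u = 2
      · rw [if_pos hc] at h2
        rw [if_pos (hc.imp hD.2 hb.2)]
        omega
      · rw [if_neg hc] at h2
        rw [if_neg (fun h3 => hc (h3.imp hD.1 hb.1))]
        omega
    · push Not at hu
      have hz : ∀ X : Finset (Finset ℕ), deg (relabel f X) v = 0 := by
        intro X
        apply deg_zero34
        rw [relabel_verts]
        intro hv2
        obtain ⟨u, -, huv⟩ := Finset.mem_image.1 hv2
        by_cases hu6 : u < 6
        · exact hu u hu6 huv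
        · rw [← huv] at hv
          exact f6 u (by omega) hv
      rw [hz, hz] at h1
      have hvD : v ≠ D := fun h2 => hu 0 (by norm_num) (f0.trans h2.symm)
      have hvb : v ≠ b := fun h2 => hu 2 (by norm_num) (f2.trans h2.symm)
      rw [if_neg (by tauto)]
      omega
  obtain ⟨m1, m2, m3, m4, m5⟩ := memN34
  refine ⟨(T \ relabel f slotC) ∪ relabel f slotN, ({6, 7, 8, 9, 10, 11, 12, 13, 14, 15} : Finset ℕ).image f, f 15, f 14,
    hS', hW, hV', ?_, ?_, hdT, ?_, ?_⟩
  · rw [Finset.card_image_of_injective _ hf]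
    rfl
  · intro v hv
    obtain ⟨u, hu, rfl⟩ := Finset.mem_image.1 hv
    have h1 := hdeg (f u)
    have h6 : 6 ≤ u := by
      simp only [Finset.mem_insert, Finset.mem_singleton] at hu
      omega
    have hC0 : deg slotC u = 0 := deg_zero34 fun h2 => by
      have := vertsC34 u h2
      omega
    rw [relabel_deg hf, relabel_deg hf, degN34' u hu, deg_zero34 (f6 u h6), hC0] at h1
    omega
  · intro t ht hpt
    refine mem_rep.2 (Or.inl ⟨ht, fun h1 => hpt ?_⟩)
    obtain ⟨u, hu, rfl⟩ := Finset.mem_image.1 h1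
    rw [← f5]
    exact Finset.mem_image_of_mem f (five34 u hu)
  · refine ⟨?_, ?_, ?_, ?_, ?_, ?_, ?_⟩
    · have hpD : p ≠ D := by
        rw [← f5, ← f0]
        exact fun h1 => absurd (hf h1) (by norm_num)
      have hpb : p ≠ b := by
        rw [← f5, ← f2]
        exact fun h1 => absurd (hf h1) (by norm_num)
      rw [hdT p vp, if_neg (by tauto), h.dp]
    · have h1 := memT' _ m1
      simp only [Finset.image_insert, Finset.image_singleton, f0, f1, f5] at h1
      exact h1
    · have h1 := memT' _ m2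
      simp only [Finset.image_insert, Finset.image_singleton, f1, f2, f5] at h1
      exact h1
    · have h1 := memT' _ m3
      simp only [Finset.image_insert, Finset.image_singleton, f2, f5] at h1
      exact h1
    · have h1 := memT' _ m4
      simp only [Finset.image_insert, Finset.image_singleton, f5] at h1
      exact h1
    · have h1 := memT' _ m5
      simp only [Finset.image_insert, Finset.image_singleton, f0, f5] at h1
      exact h1
    · have h1 : ([0, 2, 5, 1, 15, 14] : List ℕ).Nodup := by decide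
      have h2 := h1.map hf
      simp only [List.map_cons, List.map_nil, f0, f1, f2, f5] at h2
      exact h2

end Pool.Agent.Helper79.HH
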