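import Pool.Agent.Helper79.HH.Lower2

/-!
# A vertex of large degree gives a strip: linear bound

Let `K = deg T D`, let `w` be the link of `D` and `y j` the third vertex of the other triangle on
the edge `{w j, w (j+1)}`.  All degrees except the one of `D` are at least five.  A vertex `x` is
`y j` for at most `deg x / 2` numbers `j`, since `y j ≠ y (j+1)`; if `x` is adjacent to `D`, for at
most `(deg x - 3) / 2` numbers.  If `y j = w l` has degree five, then
`{w j, w (j+1)} = {y l, y (l-1)}`, and there is a strip, unless `w j` and `w (j+1)` both have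
degree `≠ 5`.  So without a strip `K ≤ 2 N + ∑ (deg x - 1) / 2`, where `N` is the number of the
vertices not adjacent to `D` and `x` ranges over the vertices `≠ D` of degree `≠ 5`.
(The first lemmas are copied from `StripEx.lean` by helper30.)
-/

namespace Pool.Agent.Helper79.HH.S2

open Finset Pool.Agent.Helper79.HX Pool.Agent.Helper79.HH

variable {T : Finset (Finset ℕ)}

theorem sx_ne (hT : Closed T) {a b c : ℕ} (h : ({a, b, c} : Finset ℕ) ∈ T) :
    a ≠ b ∧ a ≠ c ∧ b ≠ c := by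
  have h3 := hT.tri _ h
  refine ⟨?_, ?_, ?_⟩
  · rintro rfl
    have : ({a, a, c} : Finset ℕ) = {a, c} := by simp
    rw [this] at h3
    have := Finset.card_le_two (a := a) (b := c)
    omega
  · rintro rfl
    have : ({a, b, a} : Finset ℕ) = {a, b} := by
      ext x; simp only [Finset.mem_insert, Finset.mem_singleton]; tauto
    rw [this] at h3
    have := Finset.card_le_two (a := a) (b := b)
    omega
  · rintro rfl
    have : ({a, b, b} : Finset ℕ) = {a, b} := by simp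
    rw [this] at h3
    have := Finset.card_le_two (a := a) (b := b)
    omega

theorem sx_p213 {a b c : ℕ} (h : ({a, b, c} : Finset ℕ) ∈ T) : ({b, a, c} : Finset ℕ) ∈ T := by
  rwa [Finset.insert_comm]

theorem sx_p132 {a b c : ℕ} (h : ({a, b, c} : Finset ℕ) ∈ T) : ({a, c, b} : Finset ℕ) ∈ T := by
  rwa [Finset.pair_comm c b]

theorem sx_p231 {a b c : ℕ} (h : ({a, b, c} : Finset ℕ) ∈ T) : ({b, c, a} : Finset ℕ) ∈ T :=
  sx_p132 (sx_p213 h)

theorem sx_p312 {a b c : ℕ} (h : ({a, b, c} : Finset ℕ) ∈ T) : ({c, a, b} : Finset ℕ) ∈ T :=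
  sx_p213 (sx_p132 h)

theorem sx_p321 {a b c : ℕ} (h : ({a, b, c} : Finset ℕ) ∈ T) : ({c, b, a} : Finset ℕ) ∈ T :=
  sx_p132 (sx_p312 h)

theorem sx_third_inj {x y p q : ℕ} (hpx : x ≠ p) (hpy : y ≠ p)
    (h : ({x, y, p} : Finset ℕ) = {x, y, q}) : p = q := by
  have h1 : p ∈ ({x, y, q} : Finset ℕ) := by rw [← h]; simp
  simp only [Finset.mem_insert, Finset.mem_singleton] at h1
  rcases h1 with h1 | h1 | h1
  · exact absurd h1.symm hpx
  · exact absurd h1.symm hpy
  · exact h1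

theorem sx_exists (hT : Closed T) {x y p : ℕ} (h : ({x, y, p} : Finset ℕ) ∈ T) :
    ∃ q, q ≠ p ∧ ({x, y, q} : Finset ℕ) ∈ T := by
  obtain ⟨hxy, hxp, hyp⟩ := sx_ne hT h
  have he := hT.edge _ h {x, y} (by
    intro z hz; simp only [Finset.mem_insert, Finset.mem_singleton] at hz ⊢; tauto)
    (Finset.card_pair hxy)
  obtain ⟨s, hs, hne⟩ := Finset.exists_mem_ne (by omega) ({x, y, p} : Finset ℕ) (s :=
    T.filter (fun s => ({x, y} : Finset ℕ) ⊆ s))
  rw [Finset.mem_filter] at hs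
  have hx : x ∈ s := hs.2 (by simp)
  have hy : y ∈ s := hs.2 (by simp)
  have h3 := hT.tri _ hs.1
  have h1 : ((s.erase x).erase y).card = 1 := by
    rw [Finset.card_erase_of_mem (by simp [hy, hxy.symm]), Finset.card_erase_of_mem hx, h3]
  obtain ⟨q, hq⟩ := Finset.card_eq_one.1 h1
  have hsq : s = {x, y, q} := by
    have hqs : (q ∈ (s.erase x).erase y) := by rw [hq]; simp
    ext z
    simp only [Finset.mem_insert, Finset.mem_singleton]
    constructor
    · intro hz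
      by_cases h1 : z = x
      · exact Or.inl h1
      by_cases h2 : z = y
      · exact Or.inr (Or.inl h2)
      have : z ∈ (s.erase x).erase y := by simp [h1, h2, hz]
      rw [hq, Finset.mem_singleton] at this
      exact Or.inr (Or.inr this)
    · rintro (rfl | rfl | rfl)
      · exact hx
      · exact hy
      · exact Finset.mem_of_mem_erase (Finset.mem_of_mem_erase hqs)
  refine ⟨q, ?_, hsq ▸ hs.1⟩
  rintro rfl
  exact hne hsq

theorem sx_two (hT : Closed T) {x y p q r : ℕ} (hp : ({x, y, p} : Finset ℕ) ∈ T)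
    (hq : ({x, y, q} : Finset ℕ) ∈ T) (hr : ({x, y, r} : Finset ℕ) ∈ T) (hpq : p ≠ q)
    (hrp : r ≠ p) : r = q := by
  obtain ⟨hxy, hxp, hyp⟩ := sx_ne hT hp
  obtain ⟨_, hxq, hyq⟩ := sx_ne hT hq
  obtain ⟨_, hxr, hyr⟩ := sx_ne hT hr
  by_contra hrq
  have he := hT.edge _ hp {x, y} (by
    intro z hz; simp only [Finset.mem_insert, Finset.mem_singleton] at hz ⊢; tauto)
    (Finset.card_pair hxy)
  have hsub : ({{x, y, p}, {x, y, q}, {x, y, r}} : Finset (Finset ℕ)) ⊆
      T.filter (fun s => ({x, y} : Finset ℕ) ⊆ s) := by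
    intro t ht
    simp only [Finset.mem_insert, Finset.mem_singleton] at ht
    rw [Finset.mem_filter]
    rcases ht with rfl | rfl | rfl
    · exact ⟨hp, by intro z hz; simp only [Finset.mem_insert, Finset.mem_singleton] at hz ⊢; tauto⟩
    · exact ⟨hq, by intro z hz; simp only [Finset.mem_insert, Finset.mem_singleton] at hz ⊢; tauto⟩
    · exact ⟨hr, by intro z hz; simp only [Finset.mem_insert, Finset.mem_singleton] at hz ⊢; tauto⟩
  have hc := Finset.card_le_card hsub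
  have h3 : ({{x, y, p}, {x, y, q}, {x, y, r}} : Finset (Finset ℕ)).card = 3 := by
    rw [Finset.card_eq_three]
    exact ⟨_, _, _, fun h => hpq (sx_third_inj hxp hyp h), fun h => hrp (sx_third_inj hxp hyp h).symm,
      fun h => hrq (sx_third_inj hxq hyq h).symm, rfl⟩
  omega

theorem sx_mod {a d : ℕ} {w : ℕ → ℕ} (hw : Link T a d w) (i : ℕ) : w i = w (i % d) := by
  have h : ∀ k j, w (j + d * k) = w j := by
    intro k
    induction k with
    | zero => intro j; simp
    | succ k ih => intro j; rw [Nat.mul_succ, ← Nat.add_assoc, hw.per, ih]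
  conv_lhs => rw [← Nat.mod_add_div i d]
  exact h _ _

theorem sx_inj {a d : ℕ} {w : ℕ → ℕ} (hw : Link T a d w) {i j : ℕ} (h : w i = w j) :
    i % d = j % d := by
  have h3 := hw.three
  rw [sx_mod hw i, sx_mod hw j] at h
  exact hw.inj _ _ (Nat.mod_lt _ (by omega)) (Nat.mod_lt _ (by omega)) h

theorem sx_add {a d : ℕ} {w : ℕ → ℕ} (hw : Link T a d w) {i k : ℕ} (hk0 : 0 < k) (hk : k < d) :
    w (i + k) ≠ w i := by
  intro h
  have h1 := sx_inj hw h
  have h2 : (i + k) ≡ i + 0 [MOD d] := h1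
  have h3 := Nat.ModEq.add_left_cancel' i h2
  have h4 : k % d = 0 % d := h3
  rw [Nat.mod_eq_of_lt hk, Nat.zero_mod] at h4
  omega

/-- The link of a vertex of degree five. -/
theorem sx_five (hT : Closed T)
    (hlink : ∀ a b c, a ≠ b → a ≠ c → b ≠ c → {a, b, c} ∈ T →
      ∃ w : ℕ → ℕ, Link T a (deg T a) w ∧ w 0 = b ∧ w 1 = c)
    {a b c p q : ℕ} (h5 : deg T a = 5) (habc : ({a, b, c} : Finset ℕ) ∈ T)
    (hp : ({a, b, p} : Finset ℕ) ∈ T) (hq : ({a, c, q} : Finset ℕ) ∈ T) (hpc : p ≠ c) (hqb : q ≠ b) :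
    ∃ r, ({a, q, r} : Finset ℕ) ∈ T ∧ ({a, r, p} : Finset ℕ) ∈ T ∧ [a, b, c, q, r, p].Nodup := by
  obtain ⟨hab, hac, hbc⟩ := sx_ne hT habc
  obtain ⟨u, hu, hu0, hu1⟩ := hlink a b c hab hac hbc habc
  rw [h5] at hu
  have t1 := hu.tri 1
  have t2 := hu.tri 2
  have t3 := hu.tri 3
  have t4 := hu.tri 4
  have hu5 : u 5 = b := by rw [← hu0]; exact hu.per 0
  norm_num at t1 t2 t3 t4
  rw [hu5] at t4
  rw [hu1] at t1
  have d20 : u 2 ≠ b := by rw [← hu0]; exact sx_add hu (i := 0) (k := 2) (by norm_num) (by norm_num)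
  have d30 : u 3 ≠ b := by rw [← hu0]; exact sx_add hu (i := 0) (k := 3) (by norm_num) (by norm_num)
  have d40 : u 4 ≠ b := by rw [← hu0]; exact sx_add hu (i := 0) (k := 4) (by norm_num) (by norm_num)
  have d21 : u 2 ≠ c := by rw [← hu1]; exact sx_add hu (i := 1) (k := 1) (by norm_num) (by norm_num)
  have d31 : u 3 ≠ c := by rw [← hu1]; exact sx_add hu (i := 1) (k := 2) (by norm_num) (by norm_num)
  have d41 : u 4 ≠ c := by rw [← hu1]; exact sx_add hu (i := 1) (k := 3) (by norm_num) (by norm_num)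
  have d32 : u 3 ≠ u 2 := sx_add hu (i := 2) (k := 1) (by norm_num) (by norm_num)
  have d42 : u 4 ≠ u 2 := sx_add hu (i := 2) (k := 2) (by norm_num) (by norm_num)
  have d43 : u 4 ≠ u 3 := sx_add hu (i := 3) (k := 1) (by norm_num) (by norm_num)
  have e2 : q = u 2 := sx_two hT (sx_p132 habc) t1 hq d20.symm hqb
  have e4 : p = u 4 := sx_two hT habc (sx_p132 t4) hp d41.symm hpc
  subst e2 e4
  have n2 := sx_ne hT t2
  have n3 := sx_ne hT t3
  refine ⟨u 3, t2, t3, ?_⟩
  simp only [List.nodup_cons, List.mem_cons, List.not_mem_nil, or_false, not_or, List.nodup_nil,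
    not_false_eq_true, and_true]
  exact ⟨⟨hab, hac, n2.1, n2.2.1, n3.2.1⟩, ⟨hbc, d20.symm, d30.symm, d40.symm⟩,
    ⟨d21.symm, d31.symm, d41.symm⟩, ⟨d32.symm, d42.symm⟩, d43.symm⟩

theorem sx_A (hT : Closed T)
    (hlink : ∀ a b c, a ≠ b → a ≠ c → b ≠ c → {a, b, c} ∈ T →
      ∃ w : ℕ → ℕ, Link T a (deg T a) w ∧ w 0 = b ∧ w 1 = c)
    {D K : ℕ} {w y : ℕ → ℕ} (hw : Link T D K w)
    (hy : ∀ i, y i ≠ D ∧ ({w i, w (i + 1), y i} : Finset ℕ) ∈ T) {i : ℕ}
    (h5 : deg T (w (i + 1)) = 5) :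
    ({w (i + 1), y (i + 1), y i} : Finset ℕ) ∈ T ∧
      [w (i + 1), D, w (i + 2), y (i + 1), y i, w i].Nodup := by
  have h3 := hw.three
  have habc : ({w (i + 1), D, w (i + 2)} : Finset ℕ) ∈ T := sx_p213 (hw.tri (i + 1))
  have hp : ({w (i + 1), D, w i} : Finset ℕ) ∈ T := sx_p312 (hw.tri i)
  have hq : ({w (i + 1), w (i + 2), y (i + 1)} : Finset ℕ) ∈ T := (hy (i + 1)).2
  obtain ⟨r, hr1, hr2, hr3⟩ := sx_five hT hlink h5 habc hp hq
    (fun h => sx_add hw (i := i) (k := 2) (by norm_num) (by omega) h.symm) (hy (i + 1)).1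
  have hrD : r ≠ D := by
    intro h
    subst h
    simp at hr3
  have e : r = y i := sx_two hT (p := D) (sx_p132 hp) (sx_p213 (hy i).2) (sx_p132 hr2)
    (hy i).1.symm hrD
  subst e
  exact ⟨hr1, hr3⟩


theorem sx_succ {a d : ℕ} {w : ℕ → ℕ} (hw : Link T a d w) {i j : ℕ} (h : w i = w j) :
    w (i + 1) = w (j + 1) := by
  have h1 : i ≡ j [MOD d] := sx_inj hw h
  have h2 : (i + 1) % d = (j + 1) % d := h1.add_right 1
  rw [sx_mod hw (i + 1), sx_mod hw (j + 1), h2]

theorem sx_pred {a d : ℕ} {w : ℕ → ℕ} (hw : Link T a d w) {i j : ℕ} (h : w (i + 1) = w (j + 1)) :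
    w i = w j := by
  have h1 : i + 1 ≡ j + 1 [MOD d] := sx_inj hw h
  have h2 : i % d = j % d := Nat.ModEq.add_right_cancel' 1 h1
  rw [sx_mod hw i, sx_mod hw j, h2]

theorem y_congr (hT : Closed T) {D K : ℕ} {w y : ℕ → ℕ} (hw : Link T D K w)
    (hy : ∀ i, y i ≠ D ∧ ({w i, w (i + 1), y i} : Finset ℕ) ∈ T) {i j : ℕ} (h : w i = w j) :
    y i = y j := by
  have h1 := sx_succ hw h
  have t := (hy i).2
  rw [h, h1] at t
  exact sx_two hT (p := D) (sx_p231 (hw.tri j)) (hy j).2 t (hy j).1.symm (hy i).1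

/-- no triangle on three consecutive vertices of the link of `D` -/
theorem lemA (hT : Closed T)
    (hlink : ∀ a b c, a ≠ b → a ≠ c → b ≠ c → {a, b, c} ∈ T →
      ∃ w : ℕ → ℕ, Link T a (deg T a) w ∧ w 0 = b ∧ w 1 = c)
    {D K : ℕ} {w : ℕ → ℕ} (hw : Link T D K w) (h5 : ∀ v ∈ verts T, v ≠ D → 5 ≤ deg T v) (j : ℕ) :
    ({w j, w (j + 1), w (j + 2)} : Finset ℕ) ∉ T := by
  intro h
  have t0 := hw.tri j
  have t1 := hw.tri (j + 1)
  obtain ⟨n1, n2, n3⟩ := sx_ne hT t0
  obtain ⟨m1, m2, m3⟩ := sx_ne hT t1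
  obtain ⟨l1, l2, l3⟩ := sx_ne hT h
  obtain ⟨u, hu, hu0, hu1⟩ := hlink (w (j + 1)) (w j) D n3.symm n2.symm n1.symm (sx_p321 t0)
  have hv : w (j + 1) ∈ verts T := mem_verts.2 ⟨_, t0, by simp⟩
  have hd := h5 _ hv n2.symm
  have a1 := hu.tri 1
  have a2 := hu.tri 2
  norm_num at a1 a2
  rw [hu1] at a1
  have d20 : u 2 ≠ w j := by
    rw [← hu0]; exact sx_add hu (i := 0) (k := 2) (by norm_num) (by omega)
  have d31 : u 3 ≠ D := by
    rw [← hu1]; exact sx_add hu (i := 1) (k := 2) (by norm_num) (by omega)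
  have e2 : u 2 = w (j + 2) := sx_two hT (x := w (j + 1)) (y := D) (p := w j) (sx_p312 t0)
    (sx_p213 t1) a1 l2 d20
  rw [e2] at a2
  have e3 : u 3 = w j := sx_two hT (x := w (j + 1)) (y := w (j + 2)) (p := D) (sx_p231 t1)
    (sx_p231 h) a2 n1 d31
  have d30 : u 3 ≠ w j := by
    rw [← hu0]; exact sx_add hu (i := 0) (k := 3) (by norm_num) (by omega)
  exact d30 e3

/-- consecutive apices are different -/
theorem lemB (hT : Closed T)
    (hlink : ∀ a b c, a ≠ b → a ≠ c → b ≠ c → {a, b, c} ∈ T →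
      ∃ w : ℕ → ℕ, Link T a (deg T a) w ∧ w 0 = b ∧ w 1 = c)
    {D K : ℕ} {w y : ℕ → ℕ} (hw : Link T D K w) (h5 : ∀ v ∈ verts T, v ≠ D → 5 ≤ deg T v)
    (hy : ∀ i, y i ≠ D ∧ ({w i, w (i + 1), y i} : Finset ℕ) ∈ T) (j : ℕ) :
    y j ≠ y (j + 1) := by
  intro h
  have h3K := hw.three
  have t0 := hw.tri j
  have t1 := hw.tri (j + 1)
  have s0 := (hy j).2
  have s1 := (hy (j + 1)).2
  rw [← h] at s1
  have hyD := (hy j).1
  obtain ⟨n1, n2, n3⟩ := sx_ne hT t0
  obtain ⟨m1, m2, m3⟩ := sx_ne hT t1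
  obtain ⟨k1, k2, k3⟩ := sx_ne hT s0
  obtain ⟨l1, l2, l3⟩ := sx_ne hT s1
  have hw2 : w j ≠ w (j + 2) := (sx_add hw (i := j) (k := 2) (by norm_num) (by omega)).symm
  obtain ⟨u, hu, hu0, hu1⟩ := hlink (w (j + 1)) (w j) D n3.symm n2.symm n1.symm (sx_p321 t0)
  have hv : w (j + 1) ∈ verts T := mem_verts.2 ⟨_, t0, by simp⟩
  have hd := h5 _ hv n2.symm
  have a1 := hu.tri 1
  have a2 := hu.tri 2
  have a3 := hu.tri 3
  norm_num at a1 a2 a3
  rw [hu1] at a1
  have d20 : u 2 ≠ w j := by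
    rw [← hu0]; exact sx_add hu (i := 0) (k := 2) (by norm_num) (by omega)
  have d31 : u 3 ≠ D := by
    rw [← hu1]; exact sx_add hu (i := 1) (k := 2) (by norm_num) (by omega)
  have d42 : u 4 ≠ u 2 := sx_add hu (i := 2) (k := 2) (by norm_num) (by omega)
  have d40 : u 4 ≠ w j := by
    rw [← hu0]; exact sx_add hu (i := 0) (k := 4) (by norm_num) (by omega)
  have e2 : u 2 = w (j + 2) := sx_two hT (x := w (j + 1)) (y := D) (p := w j) (sx_p312 t0)
    (sx_p213 t1) a1 hw2 d20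
  rw [e2] at a2 d42
  have e3 : u 3 = y j := sx_two hT (x := w (j + 1)) (y := w (j + 2)) (p := D) (sx_p231 t1)
    s1 a2 hyD.symm d31
  rw [e3] at a3
  have e4 : u 4 = w j := sx_two hT (x := w (j + 1)) (y := y j) (p := w (j + 2)) (sx_p132 s1)
    (sx_p231 s0) a3 hw2.symm d42
  exact d40 e4

/-- the triangle at the apex `w (i+1)` of degree five -/
theorem lemC (hT : Closed T)
    (hlink : ∀ a b c, a ≠ b → a ≠ c → b ≠ c → {a, b, c} ∈ T →
      ∃ w : ℕ → ℕ, Link T a (deg T a) w ∧ w 0 = b ∧ w 1 = c)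
    {D K : ℕ} {w y : ℕ → ℕ} (hw : Link T D K w) (h5 : ∀ v ∈ verts T, v ≠ D → 5 ≤ deg T v)
    (hy : ∀ i, y i ≠ D ∧ ({w i, w (i + 1), y i} : Finset ℕ) ∈ T) {i j : ℕ}
    (hi : deg T (w (i + 1)) = 5) (hj : y j = w (i + 1)) :
    (w j = y (i + 1) ∧ w (j + 1) = y i) ∨ (w j = y i ∧ w (j + 1) = y (i + 1)) := by
  obtain ⟨hA, hnd⟩ := sx_A hT hlink hw hy hi
  have t0 := hw.tri i
  have t1 := hw.tri (i + 1)
  have hst := star_five hi (sx_p213 t1) (hy (i + 1)).2 hA (sx_p231 (hy i).2) (sx_p321 t0) hnd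
  have tj := (hy j).2
  have hD1 := (sx_ne hT (hw.tri j)).1
  have hD2 := (sx_ne hT (hw.tri j)).2.1
  obtain ⟨p1, p2, p3⟩ := sx_ne hT tj
  have hvm : w (i + 1) ∈ ({w j, w (j + 1), y j} : Finset ℕ) := by rw [← hj]; simp
  simp only [List.nodup_cons, List.mem_cons, List.not_mem_nil, or_false, not_or,
    not_false_eq_true, List.nodup_nil, and_true] at hnd
  obtain ⟨⟨vD, vb, vc, vd, ve⟩, ⟨Db, Dc, Dd, De⟩, ⟨bc, bd, be⟩, ⟨cd, ce⟩, de⟩ := hnd
  rw [hj] at p2 p3
  rcases hst _ tj hvm with h | h | h | h | h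
  · exfalso
    have : D ∈ ({w j, w (j + 1), y j} : Finset ℕ) := by rw [h]; simp
    simp only [Finset.mem_insert, Finset.mem_singleton] at this
    rcases this with h1 | h1 | h1
    · exact hD1 h1
    · exact hD2 h1
    · exact (hy j).1 h1.symm
  · exfalso
    have m1 : w (i + 2) ∈ ({w j, w (j + 1), y j} : Finset ℕ) := by rw [h]; simp
    have m2 : y (i + 1) ∈ ({w j, w (j + 1), y j} : Finset ℕ) := by rw [h]; simp
    simp only [Finset.mem_insert, Finset.mem_singleton] at m1 m2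
    rcases m1 with m1 | m1 | m1
    · rcases m2 with m2 | m2 | m2
      · exact bc (m1.trans m2.symm)
      · have h1 := sx_succ hw m1
        have h2 := (hy (i + 1)).2
        rw [m2, ← h1] at h2
        exact lemA hT hlink hw h5 (i + 1) h2
      · exact vc (hj.symm.trans m2.symm)
    · exact p2 (sx_pred hw m1).symm
    · exact vb (hj.symm.trans m1.symm)
  · have m1 : w j ∈ ({w (i + 1), y (i + 1), y i} : Finset ℕ) := by rw [← h]; simp
    have m2 : w (j + 1) ∈ ({w (i + 1), y (i + 1), y i} : Finset ℕ) := by rw [← h]; simp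
    simp only [Finset.mem_insert, Finset.mem_singleton] at m1 m2
    rcases m1 with m1 | m1 | m1
    · exact absurd m1 p2
    · rcases m2 with m2 | m2 | m2
      · exact absurd m2 p3
      · exact absurd (m1.trans m2.symm) p1
      · exact Or.inl ⟨m1, m2⟩
    · rcases m2 with m2 | m2 | m2
      · exact absurd m2 p3
      · exact Or.inr ⟨m1, m2⟩
      · exact absurd (m1.trans m2.symm) p1
  · exfalso
    have m1 : w i ∈ ({w j, w (j + 1), y j} : Finset ℕ) := by rw [h]; simp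
    have m2 : y i ∈ ({w j, w (j + 1), y j} : Finset ℕ) := by rw [h]; simp
    simp only [Finset.mem_insert, Finset.mem_singleton] at m1 m2
    rcases m1 with m1 | m1 | m1
    · exact p3 (sx_succ hw m1).symm
    · rcases m2 with m2 | m2 | m2
      · have h2 := (hy i).2
        rw [m1, sx_succ hw m1, m2] at h2
        exact lemA hT hlink hw h5 j (sx_p312 h2)
      · exact de (m2.trans m1.symm)
      · exact vd (hj.symm.trans m2.symm)
    · exact ve (hj.symm.trans m1.symm)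
  · exfalso
    have : D ∈ ({w j, w (j + 1), y j} : Finset ℕ) := by rw [h]; simp
    simp only [Finset.mem_insert, Finset.mem_singleton] at this
    rcases this with h1 | h1 | h1
    · exact hD1 h1
    · exact hD2 h1
    · exact (hy j).1 h1.symm

/-- the strip -/
theorem lemD (hT : Closed T)
    (hlink : ∀ a b c, a ≠ b → a ≠ c → b ≠ c → {a, b, c} ∈ T →
      ∃ w : ℕ → ℕ, Link T a (deg T a) w ∧ w 0 = b ∧ w 1 = c)
    {D K : ℕ} {w y : ℕ → ℕ} (hw : Link T D K w)
    (hy : ∀ i, y i ≠ D ∧ ({w i, w (i + 1), y i} : Finset ℕ) ∈ T) {i : ℕ}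
    (hi : deg T (w (i + 1)) = 5) (hD : ({D, y i, y (i + 1)} : Finset ℕ) ∈ T)
    (h : deg T (y i) = 5 ∨ deg T (y (i + 1)) = 5) :
    ∃ v v1 v2 y y1 y2, Strip T D v v1 v2 y y1 y2 := by
  obtain ⟨hA, hnd⟩ := sx_A hT hlink hw hy hi
  have t0 := hw.tri i
  have t1 := hw.tri (i + 1)
  have s0 := (hy i).2
  have s1 := (hy (i + 1)).2
  simp only [List.nodup_cons, List.mem_cons, List.not_mem_nil, or_false, not_or,
    not_false_eq_true, List.nodup_nil, and_true] at hnd
  obtain ⟨⟨vD, vb, vc, vd, ve⟩, ⟨Db, Dc, Dd, De⟩, ⟨bc, bd, be⟩, ⟨cd, ce⟩, de⟩ := hnd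
  rcases h with h | h
  · -- `y i` has degree five
    obtain ⟨r, r1, r2, r3⟩ := sx_five hT hlink (a := y i) (b := w (i + 1)) (c := y (i + 1))
      (p := w i) (q := D) h (sx_p312 hA) (sx_p321 s0) (sx_p231 hD) (Ne.symm ce) (Ne.symm vD)
    simp only [List.nodup_cons, List.mem_cons, List.not_mem_nil, or_false, not_or,
      not_false_eq_true, List.nodup_nil, and_true] at r3
    obtain ⟨⟨q1, q2, q3, q4, q5⟩, ⟨q6, q7, q8, q9⟩, ⟨q10, q11, q12⟩, ⟨q13, q14⟩, q15⟩ := r3
    refine ⟨w (i + 1), w i, w (i + 2), y i, r, y (i + 1), hi, h, sx_p312 t0, sx_p213 s0,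
      sx_p132 hA, sx_p132 s1, sx_p231 t1, sx_p132 r2, sx_p132 r1, sx_p213 hD, ?_, ?_⟩
    · simp only [List.nodup_cons, List.mem_cons, List.not_mem_nil, or_false, not_or,
        not_false_eq_true, List.nodup_nil, and_true]
      exact ⟨⟨vD, ve, vd, vc, vb⟩, ⟨De, Dd, Dc, Db⟩, ⟨Ne.symm de, Ne.symm ce, Ne.symm be⟩,
        ⟨Ne.symm cd, Ne.symm bd⟩, Ne.symm bc⟩
    · simp only [List.nodup_cons, List.mem_cons, List.not_mem_nil, or_false, not_or,
        not_false_eq_true, List.nodup_nil, and_true]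
      exact ⟨⟨q1, q5, q4, q3, q2⟩, ⟨q9, q8, q7, q6⟩, ⟨Ne.symm q15, Ne.symm q14, Ne.symm q12⟩,
        ⟨Ne.symm q13, Ne.symm q11⟩, Ne.symm q10⟩
  · -- `y (i + 1)` has degree five
    obtain ⟨r, r1, r2, r3⟩ := sx_five hT hlink (a := y (i + 1)) (b := w (i + 1)) (c := y i)
      (p := w (i + 2)) (q := D) h (sx_p213 hA) (sx_p312 s1) (sx_p321 hD) bd (Ne.symm vD)
    simp only [List.nodup_cons, List.mem_cons, List.not_mem_nil, or_false, not_or,
      not_false_eq_true, List.nodup_nil, and_true] at r3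
    obtain ⟨⟨q1, q2, q3, q4, q5⟩, ⟨q6, q7, q8, q9⟩, ⟨q10, q11, q12⟩, ⟨q13, q14⟩, q15⟩ := r3
    refine ⟨w (i + 1), w (i + 2), w i, y (i + 1), r, y i, hi, h, sx_p213 t1, s1,
      hA, sx_p231 s0, sx_p321 t0, sx_p132 r2, sx_p132 r1, sx_p312 hD, ?_, ?_⟩
    · simp only [List.nodup_cons, List.mem_cons, List.not_mem_nil, or_false, not_or,
        not_false_eq_true, List.nodup_nil, and_true]
      exact ⟨⟨vD, vb, vc, vd, ve⟩, ⟨Db, Dc, Dd, De⟩, ⟨bc, bd, be⟩, ⟨cd, ce⟩, de⟩
    · simp only [List.nodup_cons, List.mem_cons, List.not_mem_nil, or_false, not_or,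
        not_false_eq_true, List.nodup_nil, and_true]
      exact ⟨⟨q1, q5, q4, q3, q2⟩, ⟨q9, q8, q7, q6⟩, ⟨Ne.symm q15, Ne.symm q14, Ne.symm q12⟩,
        ⟨Ne.symm q13, Ne.symm q11⟩, Ne.symm q10⟩

/-- The neighbours of `x`. -/
def Nb (T : Finset (Finset ℕ)) (x : ℕ) : Finset ℕ :=
  (verts T).filter (fun v => v ≠ x ∧ ∃ t ∈ T, x ∈ t ∧ v ∈ t)

theorem mem_Nb {x v : ℕ} (h : v ≠ x) {t : Finset ℕ} (ht : t ∈ T) (hx : x ∈ t) (hv : v ∈ t) :
    v ∈ Nb T x :=
  Finset.mem_filter.2 ⟨mem_verts.2 ⟨t, ht, hv⟩, h, t, ht, hx, hv⟩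

theorem card_Nb (hlink : ∀ a b c, a ≠ b → a ≠ c → b ≠ c → {a, b, c} ∈ T →
      ∃ w : ℕ → ℕ, Link T a (deg T a) w ∧ w 0 = b ∧ w 1 = c) (hT : Closed T) {x a b : ℕ}
    (h : ({x, a, b} : Finset ℕ) ∈ T) : (Nb T x).card ≤ deg T x := by
  classical
  obtain ⟨n1, n2, n3⟩ := sx_ne hT h
  obtain ⟨u, hu, -, -⟩ := hlink x a b n1 n2 n3 h
  have h3 := hu.three
  have hsub : Nb T x ⊆ (range (deg T x)).image u := by
    intro v hv
    obtain ⟨-, hvx, t, ht, hxt, hvt⟩ := Finset.mem_filter.1 hv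
    obtain ⟨i, hi, rfl⟩ := hu.all t ht hxt
    simp only [Finset.mem_insert, Finset.mem_singleton] at hvt
    rw [Finset.mem_image]
    rcases hvt with hvt | hvt | hvt
    · exact absurd hvt hvx
    · exact ⟨i, Finset.mem_range.2 hi, hvt.symm⟩
    · refine ⟨(i + 1) % deg T x, Finset.mem_range.2 (Nat.mod_lt _ (by omega)), ?_⟩
      rw [← sx_mod hu, hvt]
  calc (Nb T x).card ≤ ((range (deg T x)).image u).card := Finset.card_le_card hsub
    _ ≤ (range (deg T x)).card := Finset.card_image_le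
    _ = deg T x := Finset.card_range _

section Count

variable (hT : Closed T)
    (hlink : ∀ a b c, a ≠ b → a ≠ c → b ≠ c → {a, b, c} ∈ T →
      ∃ w : ℕ → ℕ, Link T a (deg T a) w ∧ w 0 = b ∧ w 1 = c)
    {D K : ℕ} {w y : ℕ → ℕ} (hw : Link T D K w) (h5 : ∀ v ∈ verts T, v ≠ D → 5 ≤ deg T v)
    (hy : ∀ i, y i ≠ D ∧ ({w i, w (i + 1), y i} : Finset ℕ) ∈ T)

/-- the numbers with the apex `x` -/
def cx (K : ℕ) (y : ℕ → ℕ) (x : ℕ) : Finset ℕ := (range K).filter (fun j => y j = x)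

include hT hlink hw h5 hy in
theorem card_pairs (x : ℕ) : ((cx K y x).image w ∪ (cx K y x).image (fun j => w (j + 1))).card =
    2 * (cx K y x).card := by
  classical
  have hlt : ∀ j ∈ cx K y x, j < K ∧ y j = x := by
    intro j hj
    have := Finset.mem_filter.1 hj
    exact ⟨Finset.mem_range.1 this.1, this.2⟩
  rw [Finset.card_union_of_disjoint, Finset.card_image_of_injOn, Finset.card_image_of_injOn]
  · omega
  · intro i hi j hj hij
    exact hw.inj _ _ (hlt i hi).1 (hlt j hj).1 (sx_pred hw hij)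
  · intro i hi j hj hij
    exact hw.inj _ _ (hlt i hi).1 (hlt j hj).1 hij
  · rw [Finset.disjoint_left]
    intro v hv hv'
    obtain ⟨i, hi, rfl⟩ := Finset.mem_image.1 hv
    obtain ⟨j, hj, hij⟩ := Finset.mem_image.1 hv'
    have h1 := y_congr hT hw hy (i := i) (j := j + 1) hij.symm
    rw [(hlt i hi).2, ← (hlt j hj).2] at h1
    exact lemB hT hlink hw h5 hy j h1

include hT hlink hw h5 hy in
theorem two_mul_cx {x : ℕ} : 2 * (cx K y x).card ≤ deg T x := by
  classical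
  rcases (cx K y x).eq_empty_or_nonempty with h | ⟨j0, hj0⟩
  · rw [h]; simp
  have hj : ∀ j ∈ cx K y x, y j = x := fun j hj => (Finset.mem_filter.1 hj).2
  have ht0 := (hy j0).2
  rw [hj j0 hj0] at ht0
  rw [← card_pairs hT hlink hw h5 hy x]
  refine (Finset.card_le_card ?_).trans (card_Nb hlink hT (sx_p312 ht0))
  intro v hv
  rcases Finset.mem_union.1 hv with hv | hv
  · obtain ⟨j, hjx, rfl⟩ := Finset.mem_image.1 hv
    have t := (hy j).2
    rw [hj j hjx] at t
    exact mem_Nb (sx_ne hT t).2.1 t (by simp) (by simp)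
  · obtain ⟨j, hjx, rfl⟩ := Finset.mem_image.1 hv
    have t := (hy j).2
    rw [hj j hjx] at t
    exact mem_Nb (sx_ne hT t).2.2 t (by simp) (by simp)

include hT hlink hw h5 hy in
theorem two_mul_cx' (l : ℕ) : 2 * (cx K y (w (l + 2))).card + 3 ≤ deg T (w (l + 2)) := by
  classical
  set x := w (l + 2) with hx
  have h3K := hw.three
  have hj : ∀ j ∈ cx K y x, y j = x := fun j hj => (Finset.mem_filter.1 hj).2
  have t1 := hw.tri (l + 1)
  have t2 := hw.tri (l + 2)
  have t1' : ({D, w (l + 1), x} : Finset ℕ) ∈ T := t1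
  have t2' : ({D, x, w (l + 3)} : Finset ℕ) ∈ T := t2
  obtain ⟨a1, a2, a3⟩ := sx_ne hT t1'
  obtain ⟨b1, b2, b3⟩ := sx_ne hT t2'
  have hne : w (l + 1) ≠ w (l + 3) :=
    (sx_add hw (i := l + 1) (k := 2) (by norm_num) (by omega)).symm
  set A := (cx K y x).image w ∪ (cx K y x).image (fun j => w (j + 1)) with hA
  have hmem : ∀ v ∈ A, ∃ j, y j = x ∧ (v = w j ∨ v = w (j + 1)) := by
    intro v hv
    rcases Finset.mem_union.1 hv with hv | hv
    · obtain ⟨j, hjx, rfl⟩ := Finset.mem_image.1 hv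
      exact ⟨j, hj j hjx, Or.inl rfl⟩
    · obtain ⟨j, hjx, rfl⟩ := Finset.mem_image.1 hv
      exact ⟨j, hj j hjx, Or.inr rfl⟩
  have hDA : D ∉ A := by
    intro h
    obtain ⟨j, -, h1 | h1⟩ := hmem D h
    · exact (sx_ne hT (hw.tri j)).1 h1
    · exact (sx_ne hT (hw.tri j)).2.1 h1
  have h3A : w (l + 3) ∉ A := by
    intro h
    obtain ⟨j, hjx, h1 | h1⟩ := hmem _ h
    · -- `w j = w (l + 3)`
      have t := (hy j).2
      rw [hjx, ← h1, ← sx_succ hw h1] at t
      exact lemA hT hlink hw h5 (l + 2) (sx_p312 t)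
    · -- `w (j + 1) = w (l + 3)`
      have h2 := sx_pred hw (i := l + 2) (j := j) h1
      exact (sx_ne hT (hy j).2).2.1 (by rw [hjx, ← h2])
  have h1A : w (l + 1) ∉ A := by
    intro h
    obtain ⟨j, hjx, h1 | h1⟩ := hmem _ h
    · -- `w j = w (l + 1)`
      have h2 := sx_succ hw h1
      exact (sx_ne hT (hy j).2).2.2 (by rw [hjx, ← h2])
    · -- `w (j + 1) = w (l + 1)`
      have h2 := sx_pred hw (i := l) (j := j) h1
      have t := (hy j).2
      rw [hjx, ← h1, ← h2] at t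
      exact lemA hT hlink hw h5 l t
  have hc : (insert D (insert (w (l + 1)) (insert (w (l + 3)) A))).card = A.card + 3 := by
    rw [Finset.card_insert_of_notMem, Finset.card_insert_of_notMem, Finset.card_insert_of_notMem h3A]
    · simp only [Finset.mem_insert, not_or]
      exact ⟨hne, h1A⟩
    · simp only [Finset.mem_insert, not_or]
      exact ⟨a1, b2, hDA⟩
  have hcp := card_pairs hT hlink hw h5 hy x
  rw [← hA] at hcp
  rw [← hcp, ← hc]
  refine (Finset.card_le_card ?_).trans (card_Nb hlink hT (sx_p312 t1'))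
  intro v hv
  simp only [Finset.mem_insert] at hv
  rcases hv with rfl | rfl | rfl | hv
  · exact mem_Nb a2 t1' (by simp) (by simp)
  · exact mem_Nb a3 t1' (by simp) (by simp)
  · exact mem_Nb b3.symm t2' (by simp) (by simp)
  · obtain ⟨j, hjx, h1 | h1⟩ := hmem v hv
    · have t := (hy j).2
      rw [hjx] at t
      subst h1
      exact mem_Nb (sx_ne hT t).2.1 t (by simp) (by simp)
    · have t := (hy j).2
      rw [hjx] at t
      subst h1
      exact mem_Nb (sx_ne hT t).2.2 t (by simp) (by simp)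

end Count

/-- half of the degree, for the vertices which do not have degree five -/
def hf (T : Finset (Finset ℕ)) (x : ℕ) : ℕ := if deg T x = 5 then 0 else (deg T x - 1) / 2

/-- **A strip exists.** -/
theorem strip_exists2 (hT : Closed T)
    (hlink : ∀ a b c, a ≠ b → a ≠ c → b ≠ c → {a, b, c} ∈ T →
      ∃ w : ℕ → ℕ, Link T a (deg T a) w ∧ w 0 = b ∧ w 1 = c)
    {D : ℕ} (hD : D ∈ verts T) (h5 : ∀ v ∈ verts T, v ≠ D → 5 ≤ deg T v)
    (hK : 2 * ((verts T).card - 1 - deg T D) + ∑ x ∈ (verts T).erase D, hf T x < deg T D) :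
    ∃ v v1 v2 y y1 y2, Strip T D v v1 v2 y y1 y2 := by
  classical
  by_contra hno
  obtain ⟨t, ht, hDt⟩ := mem_verts.1 hD
  have h3 := hT.tri _ ht
  have h2 : (t.erase D).card = 2 := by rw [Finset.card_erase_of_mem hDt, h3]
  obtain ⟨b, c, hbc, hbct⟩ := Finset.card_eq_two.1 h2
  have htD : t = {D, b, c} := by rw [← hbct, Finset.insert_erase hDt]
  subst htD
  obtain ⟨hDb, hDc, _⟩ := sx_ne hT ht
  obtain ⟨w, hw, -, -⟩ := hlink D b c hDb hDc hbc ht
  generalize hKd : deg T D = K at *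
  have hy : ∀ i, ∃ y, y ≠ D ∧ ({w i, w (i + 1), y} : Finset ℕ) ∈ T := fun i =>
    sx_exists hT (sx_p231 (hw.tri i))
  choose y hy using hy
  have h3K := hw.three
  have hper2 : ∀ l, w (l + 2 * K) = w l := by
    intro l
    rw [two_mul, ← Nat.add_assoc, hw.per, hw.per]
  set E := (verts T).erase D with hE
  set W := (range K).image w with hW
  have hwE : ∀ i, w i ∈ E := fun i =>
    Finset.mem_erase.2 ⟨(sx_ne hT (hw.tri i)).1.symm, mem_verts.2 ⟨_, (hy i).2, by simp⟩⟩
  have hyE : ∀ i, y i ∈ E := fun i =>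
    Finset.mem_erase.2 ⟨(hy i).1, mem_verts.2 ⟨_, (hy i).2, by simp⟩⟩
  have hWE : W ⊆ E := by
    intro x hx
    obtain ⟨i, -, rfl⟩ := Finset.mem_image.1 hx
    exact hwE i
  have hWc : W.card = K := by
    rw [hW, Finset.card_image_of_injOn, Finset.card_range]
    intro i hi j hj hij
    exact hw.inj _ _ (by simpa using hi) (by simpa using hj) hij
  have hEc : E.card = (verts T).card - 1 := by rw [hE, Finset.card_erase_of_mem hD]
  have hsum : K = ∑ x ∈ E, (cx K y x).card := by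
    have := Finset.card_eq_sum_card_fiberwise (f := y) (s := range K) (t := E)
      (fun i _ => hyE i)
    rw [Finset.card_range] at this
    exact this
  -- the vertices which are not adjacent to `D`
  have hb1 : ∀ x ∈ E \ W, (cx K y x).card ≤ 2 + hf T x := by
    intro x _
    have := two_mul_cx hT hlink hw h5 hy (x := x)
    unfold hf
    split_ifs <;> omega
  -- the neighbours of `D`
  have hb2 : ∀ x ∈ W.filter (fun x => deg T x ≠ 5), (cx K y x).card + 1 ≤ hf T x := by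
    intro x hx
    obtain ⟨hxW, hx5⟩ := Finset.mem_filter.1 hx
    obtain ⟨l, -, rfl⟩ := Finset.mem_image.1 hxW
    have h1 := two_mul_cx' hT hlink hw h5 hy (l + 2 * K - 2)
    rw [show l + 2 * K - 2 + 2 = l + 2 * K by omega, hper2] at h1
    unfold hf
    rw [if_neg hx5]
    omega
  have hb3 : ∑ x ∈ W.filter (fun x => deg T x = 5), (cx K y x).card ≤
      (W.filter (fun x => deg T x ≠ 5)).card := by
    have e1 : ((range K).filter (fun j => y j ∈ W.filter (fun x => deg T x = 5))).card =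
        ∑ x ∈ W.filter (fun x => deg T x = 5), (cx K y x).card := by
      rw [Finset.card_eq_sum_card_fiberwise (f := y)
        (s := (range K).filter (fun j => y j ∈ W.filter (fun x => deg T x = 5)))
        (t := W.filter (fun x => deg T x = 5))
        (fun j hj => by
          have := (Finset.mem_filter.1 (Finset.mem_coe.1 hj)).2
          exact Finset.mem_coe.2 this)]
      apply Finset.sum_congr rfl
      intro x hx
      congr 1
      ext j
      simp only [cx, Finset.mem_filter, Finset.mem_range]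
      constructor
      · rintro ⟨⟨h1, -⟩, h2⟩
        exact ⟨h1, h2⟩
      · rintro ⟨h1, h2⟩
        rw [Finset.mem_filter] at hx
        exact ⟨⟨h1, by rw [h2]; exact hx⟩, h2⟩
    rw [← e1]
    refine Finset.card_le_card_of_injOn w ?_ ?_
    · intro j hj
      obtain ⟨hjK, hj2⟩ := Finset.mem_filter.1 (Finset.mem_coe.1 hj)
      obtain ⟨hyW, hy5⟩ := Finset.mem_filter.1 hj2
      rw [Finset.mem_coe, Finset.mem_filter]
      refine ⟨Finset.mem_image_of_mem _ hjK, ?_⟩
      intro hwj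
      obtain ⟨l, -, hl⟩ := Finset.mem_image.1 hyW
      have hl' : w (l + 2 * K - 1 + 1) = y j := by
        rw [show l + 2 * K - 1 + 1 = l + 2 * K by omega, hper2, hl]
      have hi : deg T (w (l + 2 * K - 1 + 1)) = 5 := by rw [hl']; exact hy5
      have hc := lemC hT hlink hw h5 hy (i := l + 2 * K - 1) (j := j) hi hl'.symm
      have tD := hw.tri j
      apply hno
      rcases hc with ⟨c1, c2⟩ | ⟨c1, c2⟩
      · refine lemD hT hlink hw hy hi ?_ (Or.inr ?_)
        · rw [c1, c2] at tD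
          exact sx_p132 tD
        · rw [← c1]; exact hwj
      · refine lemD hT hlink hw hy hi ?_ (Or.inl ?_)
        · rw [c1, c2] at tD
          exact tD
        · rw [← c1]; exact hwj
    · intro i hi j hj hij
      have h1 := Finset.mem_range.1 (Finset.mem_filter.1 (Finset.mem_coe.1 hi)).1
      have h2 := Finset.mem_range.1 (Finset.mem_filter.1 (Finset.mem_coe.1 hj)).1
      exact hw.inj _ _ h1 h2 hij
  have hb4 : ∑ x ∈ W, (cx K y x).card ≤ ∑ x ∈ W, hf T x := by
    have e1 := Finset.sum_filter_add_sum_filter_not W (fun x => deg T x = 5)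
      (fun x => (cx K y x).card)
    have e2 := Finset.sum_filter_add_sum_filter_not W (fun x => deg T x = 5) (fun x => hf T x)
    have e3 : ∑ x ∈ W.filter (fun x => deg T x ≠ 5), ((cx K y x).card + 1) ≤
        ∑ x ∈ W.filter (fun x => deg T x ≠ 5), hf T x := Finset.sum_le_sum hb2
    rw [Finset.sum_add_distrib, Finset.sum_const, smul_eq_mul, mul_one] at e3
    have e4 : ∑ x ∈ W.filter (fun x => ¬ deg T x = 5), (cx K y x).card =
        ∑ x ∈ W.filter (fun x => deg T x ≠ 5), (cx K y x).card := rfl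
    have e5 : ∑ x ∈ W.filter (fun x => ¬ deg T x = 5), hf T x =
        ∑ x ∈ W.filter (fun x => deg T x ≠ 5), hf T x := rfl
    omega
  have hb5 : ∑ x ∈ E \ W, (cx K y x).card ≤ 2 * (E \ W).card + ∑ x ∈ E \ W, hf T x := by
    refine (Finset.sum_le_sum hb1).trans ?_
    rw [Finset.sum_add_distrib, Finset.sum_const, smul_eq_mul, mul_comm]
  have e6 := Finset.sum_sdiff hWE (f := fun x => (cx K y x).card)
  have e7 := Finset.sum_sdiff hWE (f := fun x => hf T x)
  have e8 : (E \ W).card = (verts T).card - 1 - K := by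
    rw [Finset.card_sdiff_of_subset hWE, hWc, hEc]
  omega

end Pool.Agent.Helper79.HH.S2
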