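import Pool.Agent.Helper79.HH.Chain

/-!
# The construction for a dominating face
-/

namespace Pool.Agent.Helper79.HH

open Finset Pool.Agent.Helper79.HX Pool.Agent.Helper79.HG

/-- The condition on the total weight. -/
def Cond (I J : ℕ) : Prop := 6 ≤ I + J ∨ (1 ≤ I ∧ 1 ≤ J ∧ 5 ≤ I + J) ∨ (2 ≤ I ∧ 2 ≤ J)

theorem pick {X : Multiset ℕ} (h6 : ∀ a ∈ X, 6 ≤ a) (hc : Cond (wt X).1 (wt X).2) :
    ∃ X1 X2, X = X2 + X1 ∧ EndOK X2 ∧ GoodT (wt X1).1 (wt X1).2 := by
  have eA : ∀ Y : Multiset ℕ, (∀ a ∈ Y, 6 ≤ a) → 1 ≤ (wt Y).1 → ∃ a Z, Y = a ::ₘ Z ∧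
      Al a ∧ (∀ a ∈ Z, 6 ≤ a) ∧ (wt Z).1 + 1 = (wt Y).1 ∧ (wt Z).2 = (wt Y).2 := by
    intro Y h1 h2
    obtain ⟨a, Z, rfl, ha, hca⟩ := ext_al h1 h2
    refine ⟨a, Z, rfl, ha, fun b hb => h1 b (Multiset.mem_cons_of_mem hb), ?_, ?_⟩
    · rw [wt_cons, hca, Prod.fst_add]; simp only; omega
    · rw [wt_cons, hca, Prod.snd_add]; simp only; omega
  have eB : ∀ Y : Multiset ℕ, (∀ a ∈ Y, 6 ≤ a) → 1 ≤ (wt Y).2 → ∃ a Z, Y = a ::ₘ Z ∧
      Be a ∧ (∀ a ∈ Z, 6 ≤ a) ∧ (wt Z).1 = (wt Y).1 ∧ (wt Z).2 + 1 = (wt Y).2 := by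
    intro Y h1 h2
    obtain ⟨a, Z, rfl, ha, hca⟩ := ext_be h1 h2
    refine ⟨a, Z, rfl, ha, fun b hb => h1 b (Multiset.mem_cons_of_mem hb), ?_, ?_⟩
    · rw [wt_cons, hca, Prod.fst_add]; simp only; omega
    · rw [wt_cons, hca, Prod.snd_add]; simp only; omega
  have hcases : ((wt X).2 = 0 ∧ 6 ≤ (wt X).1) ∨ ((wt X).1 = 0 ∧ 6 ≤ (wt X).2) ∨
      (1 ≤ (wt X).1 ∧ 1 ≤ (wt X).2 ∧ GoodT ((wt X).1 - 1) ((wt X).2 - 1)) ∨
      (3 ≤ (wt X).1 ∧ 1 ≤ (wt X).2 ∧ GoodT ((wt X).1 - 2) ((wt X).2 - 1)) := by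
    unfold Cond at hc
    unfold GoodT
    omega
  rcases hcases with h | h | h | h
  · obtain ⟨a, X1, rfl, ha, i1, p1, q1⟩ := eA X h6 (by omega)
    obtain ⟨b, X2, rfl, hb, i2, p2, q2⟩ := eA X1 i1 (by omega)
    obtain ⟨c, X3, rfl, hc', i3, p3, q3⟩ := eA X2 i2 (by omega)
    refine ⟨X3, {a, b, c}, ?_, end30 ha hb hc', ?_⟩
    · simp only [Multiset.insert_eq_cons, Multiset.cons_add, Multiset.singleton_add]
    · unfold GoodT
      omega
  · obtain ⟨a, X1, rfl, ha, i1, p1, q1⟩ := eB X h6 (by omega)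
    obtain ⟨b, X2, rfl, hb, i2, p2, q2⟩ := eB X1 i1 (by omega)
    obtain ⟨c, X3, rfl, hc', i3, p3, q3⟩ := eB X2 i2 (by omega)
    refine ⟨X3, {a, b, c}, ?_, end03 ha hb hc', ?_⟩
    · simp only [Multiset.insert_eq_cons, Multiset.cons_add, Multiset.singleton_add]
    · unfold GoodT
      omega
  · obtain ⟨h1, h2, h3⟩ := h
    obtain ⟨a, X1, rfl, ha, i1, p1, q1⟩ := eA X h6 (by omega)
    obtain ⟨b, X2, rfl, hb, i2, p2, q2⟩ := eB X1 i1 (by omega)
    refine ⟨X2, {a, b}, ?_, end11 ha hb, ?_⟩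
    · simp only [Multiset.insert_eq_cons, Multiset.cons_add, Multiset.singleton_add]
    · unfold GoodT at h3 ⊢
      omega
  · obtain ⟨h1, h2, h3⟩ := h
    obtain ⟨a, X1, rfl, ha, i1, p1, q1⟩ := eA X h6 (by omega)
    obtain ⟨b, X2, rfl, hb, i2, p2, q2⟩ := eA X1 i1 (by omega)
    obtain ⟨c, X3, rfl, hc', i3, p3, q3⟩ := eB X2 i2 (by omega)
    refine ⟨X3, {a, b, c}, ?_, end21 ha hb hc', ?_⟩
    · simp only [Multiset.insert_eq_cons, Multiset.cons_add, Multiset.singleton_add]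
    · unfold GoodT at h3 ⊢
      omega

theorem wt_replicate_six (n : ℕ) : wt (Multiset.replicate n 6) = (n, 0) := by
  induction n with
  | zero => rw [Multiset.replicate_zero]; rfl
  | succ n ih =>
    rw [Multiset.replicate_succ, wt_cons, ih]
    have : cl 6 = (1, 0) := by decide
    rw [this, Prod.mk_add_mk]
    simp only [Nat.zero_add, Prod.mk.injEq, and_true]
    omega

theorem wt_replicate_five (n : ℕ) : wt (Multiset.replicate n 5) = (0, 0) := by
  induction n with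
  | zero => rw [Multiset.replicate_zero]; rfl
  | succ n ih =>
    rw [Multiset.replicate_succ, wt_cons, ih]
    have : cl 5 = (0, 0) := by decide
    rw [this, Prod.mk_add_mk]

theorem c0_add (X Y : Multiset ℕ) : c0 (X + Y) = c0 X + c0 Y := Multiset.countP_add _ _ _

theorem c0_six (n : ℕ) : c0 (Multiset.replicate n 6) = 0 := by
  rw [c0, Multiset.countP_eq_zero]
  intro a ha
  rw [Multiset.eq_of_mem_replicate ha]
  decide

/-- **The construction.** -/
theorem upper {L : Multiset ℕ} {n K : ℕ} (h7 : ∀ a ∈ L, 7 ≤ a)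
    (hK : L.sum + c0 L + 22 ≤ K) (hc : Cond (n + (wt L).1) (wt L).2) :
    ∃ p, Fin' (Multiset.replicate p 5 + Multiset.replicate n 6 + K ::ₘ L) := by
  rcases Nat.lt_or_ge n 6 with hn | hn
  · have h6 : ∀ a ∈ Multiset.replicate n 6 + L, 6 ≤ a := by
      intro a ha
      rcases Multiset.mem_add.1 ha with h | h
      · rw [Multiset.eq_of_mem_replicate h]
      · have := h7 a h; omega
    obtain ⟨X1, X2, e, ⟨g, g1, g2, g3⟩, hG⟩ := pick h6 (by
      rw [wt_add, wt_replicate_six, Prod.fst_add, Prod.snd_add]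
      simpa using hc)
    obtain ⟨z, z1, z2⟩ := chain _ X1 rfl (fun a ha => h6 a (by
      rw [e]; exact Multiset.mem_add.2 (Or.inr ha))) hG
    have e1 := congrArg c0 e
    have e2 := congrArg Multiset.sum e
    rw [c0_add, c0_add, c0_six] at e1
    simp only [Multiset.sum_add, Multiset.sum_replicate, smul_eq_mul] at e2
    obtain ⟨p, hp⟩ := close_up z2 g3 g1 (K := K) (by omega)
    refine ⟨p, hp.congr ?_⟩
    intro j
    have e3 := congrArg (Multiset.count j) e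
    simp only [Multiset.count_add, Multiset.count_cons, Multiset.replicate_zero,
      Multiset.count_zero] at e3 ⊢
    omega
  · obtain ⟨n', hn1, hn2, hG⟩ : ∃ n', n' + 3 ≤ n ∧ n' ≤ 3 ∧ GoodT (n' + (wt L).1) (wt L).2 := by
      by_cases h : (wt L).2 = 0 ∨ ¬ ((3 + (wt L).1) % 2 = 0 ∧ (wt L).2 % 2 = 0)
      · refine ⟨3, by omega, le_rfl, ?_⟩
        unfold GoodT
        omega
      · refine ⟨2, by omega, by omega, ?_⟩
        unfold GoodT
        omega
    obtain ⟨z, z1, z2⟩ := chain _ (Multiset.replicate n' 6 + L) rfl (fun a ha => by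
      rcases Multiset.mem_add.1 ha with h | h
      · rw [Multiset.eq_of_mem_replicate h]
      · have := h7 a h; omega) (by
      rw [wt_add, wt_replicate_six, Prod.fst_add, Prod.snd_add]
      simpa using hG)
    rw [c0_add, c0_six] at z1
    simp only [Multiset.sum_add, Multiset.sum_replicate, smul_eq_mul] at z1
    obtain ⟨p, hp⟩ := close_up z2 (c1_core (n - n') (by omega)) (by omega) (K := K) (by omega)
    refine ⟨p, hp.congr ?_⟩
    intro j
    have e4 : Multiset.replicate n 6 = Multiset.replicate (n - n') 6 + Multiset.replicate n' 6 := by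
      rw [← Multiset.replicate_add]; congr 1; omega
    rw [e4]
    simp only [Multiset.count_add, Multiset.count_cons, Multiset.count_zero]
    omega

end Pool.Agent.Helper79.HH
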